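import Pool.Agent.TH535.Growth2

set_option autoImplicit false
set_option linter.unusedSectionVars false

/-! Growth theorem. -/

namespace Pool.Agent.TH535

open Finset Filter Topology MeasureTheory
open Pool.Agent.H306R2 hiding fr

noncomputable section

lemma GG_cont {t : ℝ} (ht : 0 < t) : ContinuousAt GG t := by
  unfold GG
  refine ContinuousAt.sub (ContinuousAt.sub ?_ ?_) ?_
  · exact ContinuousAt.mul (by fun_prop) continuousAt_const
  · exact continuousAt_id.mul (Real.continuousAt_log ht.ne')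
  · refine ContinuousAt.mul (ContinuousAt.div (by fun_prop) continuousAt_id ht.ne') ?_
    exact ContinuousAt.log (by fun_prop) (by linarith)

lemma rat_near {t A : ℝ} (ht : 0 < t) (ht1 : t < 1) (hA : A < GG t) :
    ∃ P Q : ℕ, 0 < P ∧ P < Q ∧ A < GG ((P : ℝ) / Q) := by
  have h1 : ∀ᶠ s in 𝓝 t, A < GG s ∧ 0 < s ∧ s < 1 := by
    filter_upwards [(GG_cont ht).eventually_const_lt hA, eventually_gt_nhds ht, eventually_lt_nhds ht1]
      with s a b c
    exact ⟨a, b, c⟩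
  obtain ⟨U, hU, hUo, htU⟩ := mem_nhds_iff.1 h1
  obtain ⟨s, hs⟩ := Rat.denseRange_cast.exists_mem_open hUo ⟨t, htU⟩
  obtain ⟨h2, h3, h4⟩ := hU hs
  have h3' : 0 < s := by exact_mod_cast h3
  have h4' : s < 1 := by exact_mod_cast h4
  have hn : 0 < s.num := Rat.num_pos.2 h3'
  have hnn : ((s.num.toNat : ℕ) : ℤ) = s.num := Int.toNat_of_nonneg hn.le
  refine ⟨s.num.toNat, s.den, by omega, ?_, ?_⟩
  · have : s.num < s.den := Rat.num_lt_denom_iff.2 h4'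
    omega
  · have e : ((s.num.toNat : ℕ) : ℝ) / (s.den : ℝ) = (s : ℝ) := by
      have e1 : ((s.num.toNat : ℕ) : ℝ) = ((s.num : ℤ) : ℝ) := by
        exact_mod_cast congrArg (fun x : ℤ => (x : ℝ)) hnn
      rw [e1, ← Rat.cast_def]
    rw [e]
    exact h2

/-- **Growth theorem**: the moments of order `N`, `N` a large integer. -/
theorem growth {t A : ℝ} (ht : 0 < t) (ht1 : t < 1) (hA0 : 0 < A) (hA : A < Real.exp (GG t)) :
    ∃ N0 : ℕ, ∀ N : ℕ, N0 ≤ N → ∀ᶠ T : ℝ in atTop,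
      A ^ (((N : ℝ) / 2) ^ 2) * (aF ((N : ℝ) / 2) / Real.Gamma (((N : ℝ) / 2) ^ 2 + 1)) *
        (T * Real.log T ^ (((N : ℝ) / 2) ^ 2)) ≤
      ∫ t in (0:ℝ)..T, ‖riemannZeta (1 / 2 + t * Complex.I)‖ ^ (2 * ((N : ℝ) / 2)) := by
  have hA' : Real.log A < GG t := by rwa [Real.log_lt_iff_lt_exp hA0]
  obtain ⟨P, Q, hP, hPQ, hlt⟩ := rat_near ht ht1 hA'
  have hlim := (growth_lim hP hPQ).eventually_const_lt hlt
  obtain ⟨N0, hN0⟩ := eventually_atTop.1 hlim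
  refine ⟨max N0 (2 * Q), fun N hN => ?_⟩
  have h1 := hN0 N (le_trans (le_max_left _ _) hN)
  have h2 : 2 * Q ≤ N := le_trans (le_max_right _ _) hN
  have hA1 := admN_ok hP hPQ h2
  have hNp : (0 : ℝ) < N := by exact_mod_cast (by omega : 0 < N)
  have hκ : (0 : ℝ) < (N : ℝ) / 2 := by positivity
  refine masterN ((N : ℝ) / 2) hκ (jN P Q N) (qN P Q N) (fun a => 1 / (qN P Q N a : ℝ)) hA1 _ ?_
  rw [MN_eq hκ hA1]
  have hK : 0 < ((N : ℝ) / 2) ^ 2 := by positivity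
  rw [lt_div_iff₀ hK] at h1
  have hG : 0 < Real.Gamma (((N : ℝ) / 2) ^ 2 + 1) := Real.Gamma_pos_of_pos (by positivity)
  have haF := aF_pos hκ
  have h3 : A ^ (((N : ℝ) / 2) ^ 2) <
      Real.exp ((N : ℝ) / 2 / (jN P Q N) * LR ((N : ℝ) / 2) (jN P Q N) (qN P Q N)) *
        Real.Gamma (((N : ℝ) / 2) ^ 2 + 1) := by
    have e1 : Real.Gamma (((N : ℝ) / 2) ^ 2 + 1) = Real.exp (LG (((N : ℝ) / 2) ^ 2)) := by
      unfold LG
      rw [Real.exp_log hG]
    rw [e1, ← Real.exp_add, Real.rpow_def_of_pos hA0]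
    exact Real.exp_lt_exp.2 h1
  calc A ^ (((N : ℝ) / 2) ^ 2) * (aF ((N : ℝ) / 2) / Real.Gamma (((N : ℝ) / 2) ^ 2 + 1)) =
      aF ((N : ℝ) / 2) * (A ^ (((N : ℝ) / 2) ^ 2) / Real.Gamma (((N : ℝ) / 2) ^ 2 + 1)) := by ring
    _ < _ := by
      refine mul_lt_mul_of_pos_left ?_ haF
      rw [div_lt_iff₀ hG]
      exact h3

lemma exp_GG {t : ℝ} (ht : 0 < t) :
    Real.exp (GG t) = 4 ^ (1 - t) / (t ^ t * (1 + t) ^ ((1 - t ^ 2) / t)) := by
  have h4 : (4 : ℝ) = 2 ^ (2 : ℝ) := by norm_num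
  unfold GG
  rw [Real.exp_sub, Real.exp_sub, h4, ← Real.rpow_mul (by norm_num), Real.rpow_def_of_pos (by norm_num),
    Real.rpow_def_of_pos ht, Real.rpow_def_of_pos (by linarith : 0 < 1 + t), div_div]
  congr 2
  · ring
  · rw [mul_comm]
  · rw [mul_comm]

end

end Pool.Agent.TH535
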