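import Pool.Agent.TH535.WinX

set_option autoImplicit false
set_option linter.unusedSectionVars false

/-! The master lower bound in all intervals `[T, T + U]` with `U ≥ (log T) ^ A`. -/

namespace Pool.Agent.TH535

open Finset Filter Topology MeasureTheory
open Pool.Agent.H306R2 hiding fr

noncomputable section

/-- lower bound with fixed parameters -/
theorem lower_fixedNX {n : ℕ} (κ : ℝ) (hκ0 : 0 < κ) (j : ℕ) (q : Fin n → ℕ) (β : Fin n → ℝ)
    (hA : AdmN κ j q β) (N S : ℝ) (K : Fin n → ℝ) (hN : 0 < N)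
    (hNV : N < aF κ * VL j (fun a => κ / q a) (1 - ∑ a, β a) β)
    (hSV : aF κ * Vn j (κ - j) (1 - ∑ a, β a) (∑ a, β a) < S)
    (hKV : ∀ i, aF κ * ((β i) ^ (κ ^ 2 / q i) /
        Real.Gamma (κ ^ 2 / q i + 1)) ^ (q i) < K i)
    (x : ℝ) (hx : 0 < x) (hx2 : x < 1 / 4) :
    ∀ᶠ T : ℝ in atTop, ∀ T0 : ℝ, 0 ≤ T0 → T0 ≤ Real.exp (T ^ x) / 2 →
      (N / (S ^ (1 / 2 : ℝ) * ∏ i, K i ^ (1 / (2 * (q i : ℝ))))) ^ (2 * κ / (j:ℝ)) *
        ((1 - 2 * x) * (1 - 2 * x) ^ (κ ^ 2)) * (T * Real.log T ^ (κ ^ 2)) ≤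
      ∫ t in T0..(T0 + T), ‖riemannZeta (1 / 2 + t * Complex.I)‖ ^ (2 * κ) := by
  have hj0 := hA.j0
  have hq0 := hA.q0
  have hα0 := hA.α0 hκ0
  have hθ0 := hA.θ0
  have hi0 := hA.i0 hκ0
  have hei := hA.eie hκ0
  have he := hA.e0 hκ0
  have hjk := hA.jk hκ0
  have hji : (j : ℝ) + ei (fun a => κ / (q a : ℝ)) = κ := by rw [hei]; ring
  have hji2 : (j : ℝ) + (κ - j) = κ := by ring
  have hVn0 : 0 < Vn j (κ - j) (1 - ∑ a, β a) (∑ a, β a) :=
    VL_pos hA.hj (fun _ => hi0) one_pos hα0 (fun _ => hθ0)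
  have hS0 : 0 < S := lt_trans (mul_pos (aF_pos hκ0) hVn0) hSV
  have hV0 : ∀ i, 0 < (β i) ^ (κ ^ 2 / q i) / Real.Gamma (κ ^ 2 / q i + 1) := fun i => by
    have h1 := hA.hβ i
    have h2 := hq0 i
    have h3 := Real.Gamma_pos_of_pos (by positivity : 0 < κ ^ 2 / q i + 1)
    positivity
  have hK0 : ∀ i, 0 < K i := fun i =>
    lt_trans (mul_pos (aF_pos hκ0) (pow_pos (hV0 i) _)) (hKV i)
  have hκe : ∀ i, κ * (κ / (q i : ℝ)) = κ ^ 2 / q i := fun i => by ring
  have hqe : ∀ i, (q i : ℝ) * (κ / (q i : ℝ)) = κ := fun i => by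
    have := hq0 i
    field_simp
  have hEN := N_winX hA.hj (fun i => κ / (q i : ℝ)) he hA.hn (1 - ∑ a, β a) hα0 β hA.hβ (by linarith) N
    (by rw [hji]; exact hNV) x x hx (by linarith) hx (by linarith)
  have hES := C_winX hA.hj hi0 (1 - ∑ a, β a) hα0 (∑ a, β a) hθ0 (by linarith) S
    (by rw [hji2]; exact hSV) x x hx (by linarith) hx (by linarith)
  rw [hji, hei] at hEN
  rw [hji2] at hES
  have hEK : ∀ i, ∀ᶠ T : ℝ in atTop, ∀ τ : ℝ, x * T ≤ τ → τ ≤ Real.exp (T ^ x) →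
      ∫ t in (τ - x / 2 * T)..(τ + x / 2 * T),
        ‖Dp (tr (dA (κ / (q i : ℝ))) (Yt x T ^ β i)) (Yt x T ^ β i) (1 / 2 + t * Complex.I)‖ ^ (2 * q i) *
          gw τ (Ht x T) t ≤ K i * Real.log (Yt x T) ^ (κ ^ 2) := by
    intro i
    have h := H295LM.K_windowX (κ / (q i : ℝ)) (he i) (q i) (by linarith [hA.hq i]) (β i) (hA.hβ i) (by
      have := hA.hβq i
      rwa [le_div_iff₀ (hq0 i)] at this) (K i) (by
      rw [hqe, hκe]
      exact hKV i) x x hx (by linarith) hx (by linarith)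
    rw [hqe] at h
    exact h
  have hEK' := eventually_all.mpr hEK
  filter_upwards [hEN, hES, hEK', eventually_gt_atTop 1, (Yt_tendsto (η := x) (by linarith)).eventually_gt_atTop 0,
      H295LK.evexp x hx] with T hT1 hT2 hT3 hT4 hT5 hT6 T0 hT00 hT0N
  have hT0 : 0 < T := by linarith
  have hH0 : 0 < Ht x T := Real.rpow_pos_of_pos hT0 _
  set Λ := Real.log (Yt x T) ^ (κ ^ 2) with hΛ
  have hΛ0 : 0 < Λ := Real.rpow_pos_of_pos hT5 _
  set D := (N / (S ^ (1 / 2 : ℝ) * ∏ i, K i ^ (1 / (2 * (q i : ℝ))))) ^ (2 * κ / (j:ℝ)) with hD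
  have hD0 : 0 ≤ D := by
    have : 0 < S ^ (1 / 2 : ℝ) * ∏ i, K i ^ (1 / (2 * (q i : ℝ))) :=
      mul_pos (by positivity) (prod_pos fun i _ => Real.rpow_pos_of_pos (hK0 i) _)
    positivity
  have hwin0 : ∀ τ ∈ Set.Icc (x * T) ((1 - x) * T), D * Λ ≤
      ∫ t in ((T0 + τ) - x / 2 * T)..((T0 + τ) + x / 2 * T),
        ‖riemannZeta (1 / 2 + t * Complex.I)‖ ^ (2 * κ) * gw (T0 + τ) (Ht x T) t := by
    intro τ hτ
    have hτ1 : x * T ≤ T0 + τ := by linarith [hτ.1]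
    have hτ2 : T0 + τ ≤ Real.exp (T ^ x) := by
      have e1 := hτ.2
      have e2 : (1 - x) * T ≤ T := by nlinarith
      linarith
    have h := window_holder_real n q (fun i => by linarith [hA.hq i]) j (2 * κ) hA.hj (by positivity) hjk
      (fun t => riemannZeta (1 / 2 + t * Complex.I))
      (fun t => Ct j (κ - j) (Yt x T ^ (1 - ∑ a, β a)) (Yt x T ^ (∑ a, β a)) t)
      (fun i t => (starRingEnd ℂ) (Dp (tr (dA (κ / (q i : ℝ))) (Yt x T ^ β i)) (Yt x T ^ β i)
        (1 / 2 + t * Complex.I)))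
      zeta_line_continuous (by
        unfold Ct
        exact continuous_finsetSum _ fun b _ => continuous_const.mul (fr_cont _ _))
      (fun i => Complex.continuous_conj.comp (Dp_line_continuous _ _))
      (gw (T0 + τ) (Ht x T)) (gw_continuous _ _) (fun t => gw_nonneg _ _ _ hH0)
      ((T0 + τ) - x / 2 * T) ((T0 + τ) + x / 2 * T) (by nlinarith) (N * Λ) (S * Λ) (fun i => K i * Λ)
      (by positivity) (by positivity) (fun i => mul_pos (hK0 i) hΛ0)
      (hT1 (T0 + τ) hτ1 hτ2)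
      (hT2 (T0 + τ) hτ1 hτ2)
      (fun i => by
        have := hT3 i (T0 + τ) hτ1 hτ2
        simp only [RCLike.norm_conj]
        exact this)
    rw [pullR q j (2 * κ) hA.hj (by positivity) hjk N S K Λ hN hS0 hK0 hΛ0] at h
    exact h
  have hwin : ∀ τ ∈ Set.Icc (x * T) ((1 - x) * T), D * Λ ≤
      ∫ t in (τ - x / 2 * T)..(τ + x / 2 * T),
        ‖riemannZeta (1 / 2 + ((T0 + t : ℝ) : ℂ) * Complex.I)‖ ^ (2 * κ) * gw τ (Ht x T) t := by
    intro τ hτ
    refine (hwin0 τ hτ).trans (le_of_eq ?_)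
    have e1 := intervalIntegral.integral_comp_add_left (a := τ - x / 2 * T) (b := τ + x / 2 * T)
      (fun s : ℝ => ‖riemannZeta (1 / 2 + s * Complex.I)‖ ^ (2 * κ) * gw (T0 + τ) (Ht x T) s) T0
    rw [show T0 + (τ - x / 2 * T) = (T0 + τ) - x / 2 * T by ring,
      show T0 + (τ + x / 2 * T) = (T0 + τ) + x / 2 * T by ring] at e1
    rw [← e1]
    refine intervalIntegral.integral_congr fun t _ => ?_
    show _ * gw (T0 + τ) (Ht x T) (T0 + t) = _
    have e2 : gw (T0 + τ) (Ht x T) (T0 + t) = gw τ (Ht x T) t := by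
      unfold gw
      rw [show T0 + t - (T0 + τ) = t - τ by ring]
    rw [e2]
  have hfin := window_sum
    (fun t => ‖riemannZeta (1 / 2 + ((T0 + t : ℝ) : ℂ) * Complex.I)‖ ^ (2 * κ))
    ((zeta_line_continuous.comp (continuous_const.add continuous_id)).norm.rpow_const
      fun _ => Or.inr (by positivity)) (fun t => by positivity)
    (fun τ t => gw τ (Ht x T) t) (by unfold gw; fun_prop) (fun τ t => gw_nonneg _ _ _ hH0)
    (by
      intro t
      have h1 : ∀ τ, gw τ (Ht x T) t = gw t (Ht x T) τ := fun τ => gw_symm _ _ _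
      simp only [h1]
      rw [← ofReal_integral_eq_lintegral_ofReal (gw_integrable _ _ hH0)
        (Eventually.of_forall fun τ => gw_nonneg _ _ _ hH0), gw_integral _ _ hH0]
      simp)
    T (x * T) ((1 - x) * T) (x / 2 * T) (D * Λ) (by nlinarith) (by positivity) (by nlinarith)
    (by nlinarith) (by positivity) hwin
  have hconv : (∫ t in (0:ℝ)..T,
        ‖riemannZeta (1 / 2 + ((T0 + t : ℝ) : ℂ) * Complex.I)‖ ^ (2 * κ))
      = ∫ t in T0..(T0 + T), ‖riemannZeta (1 / 2 + t * Complex.I)‖ ^ (2 * κ) := by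
    have e1 := intervalIntegral.integral_comp_add_left (a := 0) (b := T)
      (fun s : ℝ => ‖riemannZeta (1 / 2 + s * Complex.I)‖ ^ (2 * κ)) T0
    rw [add_zero] at e1
    rw [← e1]
  rw [hconv] at hfin
  refine le_trans (le_of_eq ?_) hfin
  have hlog : Real.log (Yt x T) = (1 - 2 * x) * Real.log T := by
    unfold Yt
    rw [Real.log_rpow hT0]
  rw [hΛ, hlog, Real.mul_rpow (by linarith) (Real.log_nonneg hT4.le)]
  ring

/-- **Master lower bound.** -/
theorem masterNX {n : ℕ} (κ : ℝ) (hκ0 : 0 < κ) (j : ℕ) (q : Fin n → ℕ) (β : Fin n → ℝ)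
    (hA : AdmN κ j q β) (c : ℝ) (hc : c < aF κ * MN κ j q β) :
    ∃ A : ℝ, 0 < A ∧ ∀ᶠ T : ℝ in atTop, ∀ U : ℝ, Real.log T ^ A ≤ U →
      c * (U * Real.log U ^ (κ ^ 2)) ≤
        ∫ t in T..(T + U), ‖riemannZeta (1 / 2 + t * Complex.I)‖ ^ (2 * κ) := by
  have hj0 := hA.j0
  have hq0 := hA.q0
  have hα0 := hA.α0 hκ0
  have hθ0 := hA.θ0
  have hi0 := hA.i0 hκ0
  have he := hA.e0 hκ0
  have hjk := hA.jk hκ0
  set a := aF κ with ha
  have ha0 : 0 < a := aF_pos hκ0
  set V : Fin n → ℝ := fun i => (β i) ^ (κ ^ 2 / q i) / Real.Gamma (κ ^ 2 / q i + 1) with hV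
  have hV0 : ∀ i, 0 < V i := fun i => by
    have h1 := hA.hβ i
    have h2 := hq0 i
    have h3 := Real.Gamma_pos_of_pos (by positivity : 0 < κ ^ 2 / q i + 1)
    rw [hV]
    positivity
  have hPV : 0 < ∏ i, V i := prod_pos fun i _ => hV0 i
  set VN := VL j (fun a => κ / (q a : ℝ)) (1 - ∑ a, β a) β with hVN
  have hVN0 : 0 < VN := VL_pos hA.hj he hA.hn hα0 hA.hβ
  set VS := Vn j (κ - j) (1 - ∑ a, β a) (∑ a, β a) with hVS
  have hVS0 : 0 < VS := VL_pos hA.hj (fun _ => hi0) one_pos hα0 (fun _ => hθ0)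
  have hconst : ((a * VN) / ((a * VS) ^ (1 / 2 : ℝ) * ∏ i, (a * V i ^ (q i)) ^ (1 / (2 * (q i : ℝ))))) ^
      (2 * κ / (j:ℝ)) = a * MN κ j q β := by
    have h := const_eqR q hA.hq j (2 * κ) hA.hj (by positivity) hjk a ha0 V hV0 1 0 (1 / VS)
      ((∏ i, V i) / VN) one_pos (by positivity) (by positivity)
    have e1 : (∏ i, V i) * (1 ^ (0 : ℝ) / ((∏ i, V i) / VN)) = VN := by
      rw [Real.one_rpow]
      field_simp
    have e2 : a / (1 / VS) = a * VS := by field_simp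
    rw [e1, e2] at h
    rw [h]
    unfold MN
    have e3 : ∏ a, (β a ^ (κ ^ 2 / q a) / Real.Gamma (κ ^ 2 / q a + 1)) = ∏ i, V i := rfl
    rw [e3, ← hVN, ← hVS, mul_zero, Real.one_rpow, show 2 * κ / 2 / (j:ℝ) = κ / j by ring]
    congr 2
    field_simp
  rw [← hconst] at hc
  obtain ⟨x, hx0, hx4, hxc⟩ := perturb q κ _ _ _ _ (mul_pos ha0 hVN0) (mul_pos ha0 hVS0)
    (fun i => mul_pos ha0 (pow_pos (hV0 i) _)) c hc
  have hmain := lower_fixedNX κ hκ0 j q β hA ((1 - x) * (a * VN)) ((1 + x) * (a * VS))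
    (fun i => (1 + x) * (a * V i ^ (q i))) (mul_pos (by linarith) (mul_pos ha0 hVN0))
    (by
      have h0 := mul_pos ha0 hVN0
      have : (1 - x) * (a * VN) < a * VN := by nlinarith
      exact this)
    (by
      have h0 := mul_pos ha0 hVS0
      have : a * VS < (1 + x) * (a * VS) := by nlinarith
      exact this)
    (fun i => by
      have h1 : 0 < a * V i ^ (q i) := mul_pos ha0 (pow_pos (hV0 i) _)
      have : a * V i ^ (q i) < (1 + x) * (a * V i ^ (q i)) := by nlinarith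
      exact this) x hx0 hx4
  obtain ⟨U0, hU0⟩ := eventually_atTop.1 hmain
  refine ⟨2 / x, by positivity, ?_⟩
  have htend : Tendsto (fun T : ℝ => Real.log T ^ (2 / x)) atTop atTop :=
    (tendsto_rpow_atTop (by positivity)).comp Real.tendsto_log_atTop
  filter_upwards [htend.eventually_ge_atTop U0, htend.eventually_ge_atTop 1,
    Real.tendsto_log_atTop.eventually_ge_atTop 2, eventually_gt_atTop 1] with T hT1 hT2 hT4 hT3 U hU
  have hU1 : 1 ≤ U := hT2.trans hU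
  have hT0 : 0 < T := by linarith
  have hTU : T ≤ Real.exp (U ^ x) / 2 := by
    have e1 : Real.log T ^ (2 : ℝ) = (Real.log T ^ (2 / x)) ^ x := by
      rw [← Real.rpow_mul (by linarith), div_mul_cancel₀ _ hx0.ne']
    have e2 : Real.log T ^ (2 : ℝ) ≤ U ^ x := by
      rw [e1]
      exact Real.rpow_le_rpow (by linarith) hU hx0.le
    have e3 : Real.log T ^ (2 : ℝ) = Real.log T * Real.log T := by
      rw [Real.rpow_two]; ring
    have e4 : Real.log T + Real.log 2 ≤ Real.log T ^ (2 : ℝ) := by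
      rw [e3]
      have := Real.log_two_lt_d9
      nlinarith
    have e5 : T * 2 = Real.exp (Real.log T + Real.log 2) := by
      rw [Real.exp_add, Real.exp_log hT0, Real.exp_log (by norm_num)]
    rw [le_div_iff₀ (by norm_num), e5]
    exact Real.exp_le_exp.mpr (e4.trans e2)
  have hT := hU0 U (hT1.trans hU) T hT0.le hTU
  refine le_trans ?_ hT
  have hlog : 0 ≤ Real.log U := Real.log_nonneg hU1
  have : 0 ≤ U * Real.log U ^ (κ ^ 2) := by positivity
  exact mul_le_mul_of_nonneg_right hxc.le this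

end

end Pool.Agent.TH535
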