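import Pool.Agent.TH535.Growth

set_option autoImplicit false
set_option linter.unusedSectionVars false

/-! Explicit lower bounds for the constants. -/

namespace Pool.Agent.TH535

open Finset Filter Topology

noncomputable section

lemma LG_ge {x : ℝ} (hx : 0 < x) : HH x + Real.log (2 * Real.pi * x) / 2 ≤ LG x :=
  H379R2.StirR.log_gamma_ge hx

lemma LG_le {x : ℝ} (hx : 0 < x) : LG x ≤ HH x + Real.log (2 * Real.pi * x) / 2 + 1 / (12 * x) :=
  H379R2.StirR.log_gamma_le hx

/-- the remainder -/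
def DD (κ : ℝ) {n : ℕ} (j : ℕ) (q : Fin n → ℕ) : ℝ :=
  Real.log (4 * Real.pi * j ^ 3 / (κ + j)) / 2 + 1 / (12 * (j : ℝ) ^ 2) + 1 / (24 * j * (κ - j)) +
   ∑ a, (Real.log (Real.pi * (κ + j) ^ 2 / (2 * q a)) / 2 + q a / (6 * κ) * (1 / j + 1 / (κ + j)))

lemma Ph_ge {κ j q : ℝ} (hκ : 0 < κ) (J : ℕ) (hJ : j = J) (hj : 0 < j) (hq : 0 < q) :
    (κ / q) * (4 * j * Real.log 2 + 2 * j * Real.log j + κ - 2 * (κ + j) * Real.log (κ + j)) -
      (Real.log (Real.pi * (κ + j) ^ 2 / (2 * q)) / 2 + q / (6 * κ) * (1 / j + 1 / (κ + j))) ≤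
      Ph κ J q := by
  have hpi := Real.pi_pos
  have h1 := LG_ge (x := 2 * j * κ / q) (by positivity)
  have h2 := LG_ge (x := κ ^ 2 / q) (by positivity)
  have h3 := LG_le (x := j * κ / q) (by positivity)
  have h4 := LG_le (x := (κ + j) * κ / q) (by positivity)
  have key : (κ / q) * (4 * j * Real.log 2 + 2 * j * Real.log j + κ - 2 * (κ + j) * Real.log (κ + j)) -
      (Real.log (Real.pi * (κ + j) ^ 2 / (2 * q)) / 2 + q / (6 * κ) * (1 / j + 1 / (κ + j))) =
      -(κ ^ 2 / q) * Real.log q + 2 * (HH (2 * j * κ / q) + Real.log (2 * Real.pi * (2 * j * κ / q)) / 2) +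
      (HH (κ ^ 2 / q) + Real.log (2 * Real.pi * (κ ^ 2 / q)) / 2) -
      2 * (HH (j * κ / q) + Real.log (2 * Real.pi * (j * κ / q)) / 2 + 1 / (12 * (j * κ / q))) -
      2 * (HH ((κ + j) * κ / q) + Real.log (2 * Real.pi * ((κ + j) * κ / q)) / 2 +
        1 / (12 * ((κ + j) * κ / q))) := by
    have l1 : Real.log (2 * j * κ / q) = Real.log 2 + Real.log j + Real.log κ - Real.log q := by
      rw [Real.log_div (by positivity) (by positivity), Real.log_mul (by positivity) (by positivity),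
        Real.log_mul (by positivity) (by positivity)]
    have l2 : Real.log (κ ^ 2 / q) = 2 * Real.log κ - Real.log q := by
      rw [Real.log_div (by positivity) (by positivity), Real.log_pow]
      norm_num
    have l3 : Real.log (j * κ / q) = Real.log j + Real.log κ - Real.log q := by
      rw [Real.log_div (by positivity) (by positivity), Real.log_mul (by positivity) (by positivity)]
    have l4 : Real.log ((κ + j) * κ / q) = Real.log (κ + j) + Real.log κ - Real.log q := by
      rw [Real.log_div (by positivity) (by positivity), Real.log_mul (by positivity) (by positivity)]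
    have l5 : ∀ x : ℝ, 0 < x → Real.log (2 * Real.pi * x) = Real.log 2 + Real.log Real.pi + Real.log x := by
      intro x hx
      rw [Real.log_mul (by positivity) (by positivity), Real.log_mul (by positivity) (by positivity)]
    have l6 : Real.log (Real.pi * (κ + j) ^ 2 / (2 * q)) =
        Real.log Real.pi + 2 * Real.log (κ + j) - Real.log 2 - Real.log q := by
      rw [Real.log_div (by positivity) (by positivity), Real.log_mul (by positivity) (by positivity),
        Real.log_mul (by positivity) (by positivity), Real.log_pow]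
      push_cast
      ring
    unfold HH
    rw [l5 _ (by positivity), l5 _ (by positivity), l5 _ (by positivity), l5 _ (by positivity), l1, l2, l3,
      l4, l6]
    field_simp
    ring
  rw [key]
  unfold Ph
  rw [← hJ]
  linarith

theorem F_ge {κ : ℝ} (hκ : 0 < κ) {n j : ℕ} (q : Fin n → ℕ) (hj : 1 ≤ j) (hjκ : (j : ℝ) < κ)
    (hq : ∀ a, 0 < q a) (hs : ∑ a, 1 / (q a : ℝ) = (κ - j) / κ) :
    κ ^ 2 * GG (j / κ) - κ / j * DD κ j q + Real.log (2 * Real.pi * κ ^ 2) / 2 ≤
      κ / j * LR κ j q + LG (κ ^ 2) := by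
  have hpi := Real.pi_pos
  have hj0 : (0 : ℝ) < j := by exact_mod_cast hj
  have hm : (0 : ℝ) < κ - j := by linarith
  have hPh : ∀ a, (κ / (q a : ℝ)) * (4 * (j : ℝ) * Real.log 2 + 2 * j * Real.log j + κ - 2 * (κ + j) * Real.log (κ + j)) -
      (Real.log (Real.pi * (κ + j) ^ 2 / (2 * q a)) / 2 + q a / (6 * κ) * (1 / j + 1 / (κ + j))) ≤
      Ph κ j (q a) := fun a => Ph_ge hκ j rfl hj0 (by exact_mod_cast hq a)
  have hsum := Finset.sum_le_sum (fun a (_ : a ∈ univ) => hPh a)
  rw [sum_sub_distrib, ← sum_mul] at hsum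
  have hs2 : ∑ a, κ / (q a : ℝ) = κ - j := by
    have : ∑ a, κ / (q a : ℝ) = κ * ∑ a, 1 / (q a : ℝ) := by
      rw [mul_sum]
      refine sum_congr rfl fun a _ => ?_
      ring
    rw [this, hs]
    field_simp
  rw [hs2] at hsum
  have h1 := LG_ge (x := (κ + j) * (κ - j)) (by positivity)
  have h2 := LG_le (x := (j : ℝ) ^ 2) (by positivity)
  have h3 := LG_le (x := 2 * (j : ℝ) * (κ - j)) (by positivity)
  have h4 := LG_ge (x := κ ^ 2) (by positivity)
  set S : ℝ := ∑ a, (Real.log (Real.pi * (κ + j) ^ 2 / (2 * q a)) / 2 + q a / (6 * κ) * (1 / j + 1 / (κ + j)))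
    with hS
  have l1 : Real.log ((j : ℝ) / κ) = Real.log j - Real.log κ := Real.log_div hj0.ne' hκ.ne'
  have l2 : Real.log ((κ - j) / κ) = Real.log (κ - j) - Real.log κ := Real.log_div hm.ne' hκ.ne'
  have l3 : Real.log ((κ + j) * (κ - j)) = Real.log (κ + j) + Real.log (κ - j) :=
    Real.log_mul (by positivity) hm.ne'
  have l4 : Real.log ((j : ℝ) ^ 2) = 2 * Real.log j := by rw [Real.log_pow]; norm_num
  have l5 : Real.log (2 * (j : ℝ) * (κ - j)) = Real.log 2 + Real.log j + Real.log (κ - j) := by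
    rw [Real.log_mul (by positivity) hm.ne', Real.log_mul (by positivity) (by positivity)]
  have l6 : Real.log (κ ^ 2) = 2 * Real.log κ := by rw [Real.log_pow]; norm_num
  have l7 : ∀ x : ℝ, 0 < x → Real.log (2 * Real.pi * x) = Real.log 2 + Real.log Real.pi + Real.log x := by
    intro x hx
    rw [Real.log_mul (by positivity) (by positivity), Real.log_mul (by positivity) (by positivity)]
  have l8 : Real.log (4 * Real.pi * (j : ℝ) ^ 3 / (κ + j)) =
      2 * Real.log 2 + Real.log Real.pi + 3 * Real.log j - Real.log (κ + j) := by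
    rw [Real.log_div (by positivity) (by positivity), Real.log_mul (by positivity) (by positivity),
      Real.log_mul (by positivity) (by positivity), Real.log_pow,
      show (4 : ℝ) = 2 ^ 2 by norm_num, Real.log_pow]
    push_cast
    ring
  have l9 : Real.log (1 + (j : ℝ) / κ) = Real.log (κ + j) - Real.log κ := by
    rw [show 1 + (j : ℝ) / κ = (κ + j) / κ by field_simp, Real.log_div (by positivity) hκ.ne']
  have hLR : (j : ℝ) ^ 2 * Real.log (j / κ) - (κ - j) ^ 2 * Real.log ((κ - j) / κ) +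
      (HH ((κ + j) * (κ - j)) + Real.log (2 * Real.pi * ((κ + j) * (κ - j))) / 2) -
      (HH ((j : ℝ) ^ 2) + Real.log (2 * Real.pi * (j : ℝ) ^ 2) / 2 + 1 / (12 * (j : ℝ) ^ 2)) -
      (HH (2 * (j : ℝ) * (κ - j)) + Real.log (2 * Real.pi * (2 * (j : ℝ) * (κ - j))) / 2 +
        1 / (12 * (2 * (j : ℝ) * (κ - j)))) +
      ((κ - j) * (4 * (j : ℝ) * Real.log 2 + 2 * j * Real.log j + κ - 2 * (κ + j) * Real.log (κ + j)) - S) ≤
      LR κ j q := by
    unfold LR
    linarith
  have hmain : κ ^ 2 * GG (j / κ) - κ / j * DD κ j q + Real.log (2 * Real.pi * κ ^ 2) / 2 =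
      κ / j * ((j : ℝ) ^ 2 * Real.log (j / κ) - (κ - j) ^ 2 * Real.log ((κ - j) / κ) +
      (HH ((κ + j) * (κ - j)) + Real.log (2 * Real.pi * ((κ + j) * (κ - j))) / 2) -
      (HH ((j : ℝ) ^ 2) + Real.log (2 * Real.pi * (j : ℝ) ^ 2) / 2 + 1 / (12 * (j : ℝ) ^ 2)) -
      (HH (2 * (j : ℝ) * (κ - j)) + Real.log (2 * Real.pi * (2 * (j : ℝ) * (κ - j))) / 2 +
        1 / (12 * (2 * (j : ℝ) * (κ - j)))) +
      ((κ - j) * (4 * (j : ℝ) * Real.log 2 + 2 * j * Real.log j + κ - 2 * (κ + j) * Real.log (κ + j)) - S)) +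
      (HH (κ ^ 2) + Real.log (2 * Real.pi * κ ^ 2) / 2) := by
    unfold DD GG HH
    rw [← hS, l7 _ (by positivity), l7 _ (by positivity), l7 _ (by positivity), l7 _ (by positivity), l9, l8,
      l1, l2, l3, l4, l5, l6]
    field_simp
    ring
  rw [hmain]
  have := mul_le_mul_of_nonneg_left hLR (by positivity : 0 ≤ κ / j)
  linarith

end

end Pool.Agent.TH535
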