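import Pool.Agent.TH535.Expl
import Mathlib.Analysis.Complex.ExponentialBounds

set_option autoImplicit false
set_option linter.unusedSectionVars false

/-! Explicit lower bounds for the constants: numerical preparations. -/

namespace Pool.Agent.TH535

open Finset Filter Topology

noncomputable section

lemma lb_log {x : ℝ} (hx : 0 < x) : 1 - 1 / x ≤ Real.log x := by
  have h := Real.log_le_sub_one_of_pos (by positivity : 0 < 1 / x)
  rw [one_div, Real.log_inv] at h
  rw [one_div]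
  linarith

lemma log_pi_lt : Real.log Real.pi < 1.14582 := by
  have h := Real.log_le_sub_one_of_pos (by positivity : 0 < Real.pi / 3)
  rw [Real.log_div Real.pi_ne_zero (by norm_num)] at h
  have h1 := Real.pi_lt_d6
  have h2 := Real.log_three_lt_d9
  linarith

lemma log_pi_gt : 1.143 < Real.log Real.pi := by
  have h := lb_log (by positivity : 0 < Real.pi / 3)
  rw [Real.log_div Real.pi_ne_zero (by norm_num)] at h
  have h1 := Real.pi_gt_d6
  have h2 := Real.log_three_gt_d9
  have h3 : 1 / (Real.pi / 3) ≤ 3 / 3.141592 := by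
    rw [one_div_div]
    gcongr
  norm_num at h3 ⊢
  linarith

lemma log_seven : 1.945910 < Real.log 7 ∧ Real.log 7 < 1.945911 := by
  have h1 := Real.log_le_sub_one_of_pos (by norm_num : (0 : ℝ) < 7 ^ 4 / (2 ^ 5 * 3 * 5 ^ 2))
  have h2 := lb_log (by norm_num : (0 : ℝ) < 7 ^ 4 / (2 ^ 5 * 3 * 5 ^ 2))
  rw [Real.log_div (by norm_num) (by norm_num), Real.log_mul (by norm_num) (by norm_num),
    Real.log_mul (by norm_num) (by norm_num), Real.log_pow, Real.log_pow, Real.log_pow] at h1 h2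
  have a1 := Real.log_two_gt_d9
  have a2 := Real.log_two_lt_d9
  have b1 := Real.log_three_gt_d9
  have b2 := Real.log_three_lt_d9
  have c1 := Real.log_five_gt_d9
  have c2 := Real.log_five_lt_d9
  norm_num at h1 h2
  constructor <;> norm_num <;> linarith

lemma log_eleven : 2.39786 < Real.log 11 ∧ Real.log 11 < 2.39793 := by
  have h1 := Real.log_le_sub_one_of_pos (by norm_num : (0 : ℝ) < 11 ^ 2 / (2 ^ 3 * 3 * 5))
  have h2 := lb_log (by norm_num : (0 : ℝ) < 11 ^ 2 / (2 ^ 3 * 3 * 5))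
  rw [Real.log_div (by norm_num) (by norm_num), Real.log_mul (by norm_num) (by norm_num),
    Real.log_mul (by norm_num) (by norm_num), Real.log_pow, Real.log_pow] at h1 h2
  have a1 := Real.log_two_gt_d9
  have a2 := Real.log_two_lt_d9
  have b1 := Real.log_three_gt_d9
  have b2 := Real.log_three_lt_d9
  have c1 := Real.log_five_gt_d9
  have c2 := Real.log_five_lt_d9
  norm_num at h1 h2
  constructor <;> norm_num <;> linarith

lemma log_thirteen : 2.56493 < Real.log 13 ∧ Real.log 13 < 2.56497 := by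
  have h1 := Real.log_le_sub_one_of_pos (by norm_num : (0 : ℝ) < 13 ^ 2 / (2 ^ 3 * 3 * 7))
  have h2 := lb_log (by norm_num : (0 : ℝ) < 13 ^ 2 / (2 ^ 3 * 3 * 7))
  rw [Real.log_div (by norm_num) (by norm_num), Real.log_mul (by norm_num) (by norm_num),
    Real.log_mul (by norm_num) (by norm_num), Real.log_pow, Real.log_pow] at h1 h2
  have a1 := Real.log_two_gt_d9
  have a2 := Real.log_two_lt_d9
  have b1 := Real.log_three_gt_d9
  have b2 := Real.log_three_lt_d9
  obtain ⟨c1, c2⟩ := log_seven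
  norm_num at h1 h2 c1 c2
  constructor <;> norm_num <;> linarith

lemma log_seventeen : 2.83320 < Real.log 17 ∧ Real.log 17 < 2.83322 := by
  have h1 := Real.log_le_sub_one_of_pos (by norm_num : (0 : ℝ) < 17 ^ 2 / (2 ^ 5 * 3 ^ 2))
  have h2 := lb_log (by norm_num : (0 : ℝ) < 17 ^ 2 / (2 ^ 5 * 3 ^ 2))
  rw [Real.log_div (by norm_num) (by norm_num), Real.log_mul (by norm_num) (by norm_num),
    Real.log_pow, Real.log_pow, Real.log_pow] at h1 h2
  have a1 := Real.log_two_gt_d9
  have a2 := Real.log_two_lt_d9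
  have b1 := Real.log_three_gt_d9
  have b2 := Real.log_three_lt_d9
  norm_num at h1 h2
  constructor <;> norm_num <;> linarith

/-- lower bound for the growth exponent near `1 / 2` -/
lemma GG_ge {t b : ℝ} (ht : 0 < t) (ht2 : t ≤ 1 / 2)
    (hb : 0 ≤ t * Real.log 2 / 2 + t ^ 2 + (1 - t ^ 2) / 3 - (Real.log 3 - Real.log 2) * (2 + t) / 2 - b * t) :
    3 / 2 * (2 * Real.log 2 - Real.log 3) + (1 - 2 * t) * b ≤ GG t := by
  have h1 := Real.log_le_sub_one_of_pos (by positivity : 0 < 2 * t)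
  rw [Real.log_mul (by norm_num) ht.ne'] at h1
  have h2 := Real.log_le_sub_one_of_pos (by positivity : 0 < 2 * (1 + t) / 3)
  rw [Real.log_div (by positivity) (by norm_num), Real.log_mul (by norm_num) (by positivity)] at h2
  unfold GG
  have h3 : t * Real.log t ≤ t * (2 * t - 1 - Real.log 2) := mul_le_mul_of_nonneg_left (by linarith) ht.le
  have h4 : (1 - t ^ 2) / t * Real.log (1 + t) ≤
      (1 - t ^ 2) / t * (Real.log 3 - Real.log 2 + (2 * t - 1) / 3) := by
    refine mul_le_mul_of_nonneg_left (by linarith) ?_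
    have : 0 ≤ 1 - t ^ 2 := by nlinarith
    positivity
  have h5 : 2 * (1 - t) * Real.log 2 - t * (2 * t - 1 - Real.log 2) -
      (1 - t ^ 2) / t * (Real.log 3 - Real.log 2 + (2 * t - 1) / 3) -
      (3 / 2 * (2 * Real.log 2 - Real.log 3) + (1 - 2 * t) * b) =
      (1 - 2 * t) / t * (t * Real.log 2 / 2 + t ^ 2 + (1 - t ^ 2) / 3 -
        (Real.log 3 - Real.log 2) * (2 + t) / 2 - b * t) := by
    field_simp
    ring
  have h6 : 0 ≤ (1 - 2 * t) / t * (t * Real.log 2 / 2 + t ^ 2 + (1 - t ^ 2) / 3 -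
        (Real.log 3 - Real.log 2) * (2 + t) / 2 - b * t) := by
    refine mul_nonneg (div_nonneg (by linarith) ht.le) hb
  linarith

lemma GGk {κ j : ℝ} (hκ : 0 < κ) (h1 : 21 / 50 * κ ≤ j) (h2 : 2 * j ≤ κ) :
    3 / 2 * (2 * Real.log 2 - Real.log 3) * κ ^ 2 + κ * (κ - 2 * j) / 4 ≤ κ ^ 2 * GG (j / κ) := by
  have ht0 : 21 / 50 ≤ j / κ := by rw [le_div_iff₀ hκ]; exact h1
  have ht1 : j / κ ≤ 1 / 2 := by rw [div_le_iff₀ hκ]; linarith
  have a1 := Real.log_two_gt_d9
  have a2 := Real.log_two_lt_d9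
  have b1 := Real.log_three_gt_d9
  have b2 := Real.log_three_lt_d9
  have h := GG_ge (t := j / κ) (b := 1 / 4) (by linarith) ht1 (by
    have e1 : (Real.log 3 - Real.log 2) * (2 + j / κ) ≤ 0.40546511 * (2 + j / κ) :=
      mul_le_mul_of_nonneg_right (by norm_num at a1 b2 ⊢; linarith) (by linarith)
    have e2 : (j / κ) * 0.6931471 ≤ (j / κ) * Real.log 2 :=
      mul_le_mul_of_nonneg_left (by norm_num at a1 ⊢; linarith) (by linarith)
    nlinarith)
  have h3 := mul_le_mul_of_nonneg_left h (by positivity : 0 ≤ κ ^ 2)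
  refine le_trans (le_of_eq ?_) h3
  field_simp

lemma GGk' {κ j : ℝ} (hκ : 0 < κ) (h1 : 2 / 5 * κ ≤ j) (h2 : 2 * j ≤ κ) :
    3 / 2 * (2 * Real.log 2 - Real.log 3) * κ ^ 2 + κ * (κ - 2 * j) * (23 / 100) ≤ κ ^ 2 * GG (j / κ) := by
  have ht0 : 2 / 5 ≤ j / κ := by rw [le_div_iff₀ hκ]; exact h1
  have ht1 : j / κ ≤ 1 / 2 := by rw [div_le_iff₀ hκ]; linarith
  have a1 := Real.log_two_gt_d9
  have a2 := Real.log_two_lt_d9
  have b1 := Real.log_three_gt_d9
  have b2 := Real.log_three_lt_d9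
  have h := GG_ge (t := j / κ) (b := 23 / 100) (by linarith) ht1 (by
    have e1 : (Real.log 3 - Real.log 2) * (2 + j / κ) ≤ 0.40546511 * (2 + j / κ) :=
      mul_le_mul_of_nonneg_right (by norm_num at a1 b2 ⊢; linarith) (by linarith)
    have e2 : (j / κ) * 0.6931471 ≤ (j / κ) * Real.log 2 :=
      mul_le_mul_of_nonneg_left (by norm_num at a1 ⊢; linarith) (by linarith)
    nlinarith)
  have h3 := mul_le_mul_of_nonneg_left h (by positivity : 0 ≤ κ ^ 2)
  refine le_trans (le_of_eq ?_) h3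
  field_simp

end

end Pool.Agent.TH535
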