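import Pool.Agent.TH535.Expl2

set_option autoImplicit false
set_option linter.unusedSectionVars false

/-! Explicit lower bounds for the constants: the family of parameters. -/

namespace Pool.Agent.TH535

open Finset Filter Topology

noncomputable section

/-- the logarithm of the constant in units of `a(κ) / Γ(κ ^ 2 + 1)` -/
def FF (κ : ℝ) {n : ℕ} (j : ℕ) (q : Fin n → ℕ) : ℝ := κ / j * LR κ j q + LG (κ ^ 2)

lemma log_le_e {x : ℝ} (hx : 0 < x) : Real.log x ≤ 0.3679 * x := by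
  have h := Real.log_le_sub_one_of_pos (div_pos hx (Real.exp_pos 1))
  rw [Real.log_div hx.ne' (Real.exp_pos 1).ne', Real.log_exp] at h
  have h2 : x / Real.exp 1 ≤ 0.3679 * x := by
    rw [div_le_iff₀ (Real.exp_pos 1)]
    have h3 := Real.exp_one_gt_d9
    nlinarith
  linarith

lemma sum_half {κ J R : ℝ} (hκ : 0 < κ) (h : J + R = κ) : R / κ = (κ - J) / κ := by
  rw [← h]; ring

/-- the target -/
def TG (κ : ℝ) : ℝ := 3 / 2 * (2 * Real.log 2 - Real.log 3) * κ ^ 2 - 4 * Real.log (2 * κ)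

lemma adm_of {κ : ℝ} {n j : ℕ} (q : Fin n → ℕ) (hn : 0 < n) (hκ : 0 < κ) (hj : 1 ≤ j)
    (hq : ∀ a, 2 ≤ q a) (hs : ∑ a, 1 / (q a : ℝ) = (κ - j) / κ) :
    AdmN κ j q (fun a => 1 / (q a : ℝ)) where
  hj := hj
  hn := hn
  hq := hq
  hsum := by rw [hs]; field_simp; ring
  hβ := fun a => by
    have : (0 : ℝ) < q a := by exact_mod_cast (by have := hq a; omega : 0 < q a)
    positivity
  hβq := fun a => le_rfl

lemma sb {κ J : ℝ} (hJ : 0 < J) (h : 2 * J ≤ κ) : 1 / J + 1 / (κ + J) ≤ 4 / 3 * (1 / J) := by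
  have : 1 / (κ + J) ≤ 1 / (3 * J) := one_div_le_one_div_of_le (by positivity) (by linarith)
  have e : 1 / (3 * J) = 1 / 3 * (1 / J) := by field_simp
  linarith

lemma tb {κ J : ℝ} (hJ : 0 < J) (h : 2 * J ≤ κ) :
    1 / (12 * J ^ 2) + 1 / (24 * J * (κ - J)) ≤ (1 / J) ^ 2 / 8 := by
  have h1 : 1 / (24 * J * (κ - J)) ≤ 1 / (24 * J * J) :=
    one_div_le_one_div_of_le (by positivity) (by nlinarith)
  have e : 1 / (12 * J ^ 2) + 1 / (24 * J * J) = (1 / J) ^ 2 / 8 := by field_simp; ring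
  linarith

lemma kb {κ J : ℝ} (hJ : 0 < J) (h : 2 * J ≤ κ) : 2 / (6 * κ) ≤ 1 / J / 6 := by
  rw [div_div, div_le_div_iff₀ (by linarith) (by positivity)]
  nlinarith

lemma lA {κ J : ℝ} (hκ : 0 < κ) (hJ : 0 < J) : Real.log (4 * Real.pi * J ^ 3 / (κ + J)) =
    2 * Real.log 2 + Real.log Real.pi + 3 * Real.log J - Real.log (κ + J) := by
  have hpi := Real.pi_pos
  rw [Real.log_div (by positivity) (by positivity), Real.log_mul (by positivity) (by positivity),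
    Real.log_mul (by positivity) (by positivity), Real.log_pow,
    show (4 : ℝ) = 2 ^ 2 by norm_num, Real.log_pow]
  push_cast
  ring

lemma lB {κ J q : ℝ} (hκ : 0 < κ) (hJ : 0 < J) (hq : 0 < q) :
    Real.log (Real.pi * (κ + J) ^ 2 / (2 * q)) =
      Real.log Real.pi + 2 * Real.log (κ + J) - Real.log 2 - Real.log q := by
  have hpi := Real.pi_pos
  rw [Real.log_div (by positivity) (by positivity), Real.log_mul (by positivity) (by positivity),
    Real.log_mul (by positivity) (by positivity), Real.log_pow]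
  push_cast
  ring

lemma lC {κ : ℝ} (hκ : 0 < κ) : Real.log (2 * Real.pi * κ ^ 2) =
    Real.log 2 + Real.log Real.pi + 2 * Real.log κ := by
  have hpi := Real.pi_pos
  rw [Real.log_mul (by positivity) (by positivity), Real.log_mul (by positivity) (by positivity),
    Real.log_pow]
  push_cast
  ring

/-- `N = 4 j` -/
lemma case0 {κ : ℝ} {j : ℕ} (hj : 2 ≤ j) (hκ : κ = 2 * j) (q : Fin 1 → ℕ)
    (hq : q = ![2]) : AdmN κ j q (fun a => 1 / (q a : ℝ)) ∧ TG κ < FF κ j q := by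
  have hJ : (2 : ℝ) ≤ j := by exact_mod_cast hj
  set J : ℝ := (j : ℝ) with hJd
  have hJ0 : 0 < J := by linarith
  have hκ0 : 0 < κ := by rw [hκ]; linarith
  have q0 : (q 0 : ℝ) = 2 := by rw [hq]; simp
  have hs : ∑ a, 1 / (q a : ℝ) = (κ - J) / κ := by
    rw [Fin.sum_univ_one, q0, hκ]
    field_simp
    ring
  have hqp : ∀ a, 2 ≤ q a := by
    intro a
    rw [hq]
    fin_cases a
    simp
  refine ⟨adm_of q (by norm_num) hκ0 (by omega) hqp hs, ?_⟩
  have hF := F_ge hκ0 q (by omega) (by rw [hκ]; linarith) (fun a => by have := hqp a; omega) hs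
  rw [← hJd, lC hκ0] at hF
  have hG := GGk (κ := κ) (j := J) hκ0 (by rw [hκ]; linarith) (by rw [hκ])
  set u : ℝ := 1 / J with hu
  have hu0 : 0 < u := by positivity
  have hu2 : u ≤ 1 / 2 := one_div_le_one_div_of_le (by norm_num) hJ
  set L2 := Real.log 2 with hL2
  set L3 := Real.log 3 with hL3
  set Lpi := Real.log Real.pi with hLpi
  set Lj := Real.log J with hLj
  have a1 : 0.6931471803 < L2 := Real.log_two_gt_d9
  have a2 : L2 < 0.6931471808 := Real.log_two_lt_d9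
  have b1 : 1.0986122885 < L3 := Real.log_three_gt_d9
  have b2 : L3 < 1.0986122888 := Real.log_three_lt_d9
  have c1 : 1.143 < Lpi := log_pi_gt
  have c2 : Lpi < 1.14582 := log_pi_lt
  have hLj0 : 0 ≤ Lj := Real.log_nonneg (by linarith)
  have hLk : Real.log κ = L2 + Lj := by
    rw [hL2, hLj, ← Real.log_mul (by norm_num) hJ0.ne', hκ]
  have hLp : Real.log (κ + J) = L3 + Lj := by
    rw [hL3, hLj, ← Real.log_mul (by norm_num) hJ0.ne', hκ]
    congr 1
    ring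
  have hJκ : 2 * J ≤ κ := by rw [hκ]
  have hs1 := sb hJ0 hJκ
  have ht1 := tb hJ0 hJκ
  have hk1 := kb hJ0 hJκ
  rw [← hu] at hs1 ht1 hk1
  have hs0 : 0 ≤ 1 / J + 1 / (κ + J) := by positivity
  have hDD : DD κ j q ≤ 1 / 2 * (2 * Lpi + L3 + 4 * Lj) + u ^ 2 / 8 + u / 6 * (4 / 3 * u) := by
    unfold DD
    rw [Fin.sum_univ_one, q0, ← hJd, lA hκ0 hJ0, lB hκ0 hJ0 (by norm_num), hLp]
    have e2 : 2 / (6 * κ) * (1 / J + 1 / (κ + J)) ≤ u / 6 * (4 / 3 * u) :=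
      mul_le_mul hk1 hs1 hs0 (by positivity)
    linarith
  have hκJ : κ / J = 2 := by
    rw [hκ]
    field_simp
  have hm := mul_le_mul_of_nonneg_left hDD (by positivity : 0 ≤ κ / J)
  have hlog2 : Real.log (2 * κ) = L2 + Real.log κ := Real.log_mul (by norm_num) hκ0.ne'
  unfold TG FF
  rw [hlog2]
  refine lt_of_lt_of_le ?_ hF
  have hκ8 : κ * (κ - 2 * J) / 4 = 0 := by rw [hκ]; ring
  rw [hκ8] at hG
  rw [hκJ] at hm ⊢
  have m2 : u ^ 2 ≤ 1 / 4 := le_trans (pow_le_pow_left₀ hu0.le hu2 2) (by norm_num)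
  have h5 : 2 * (1 / 2 * (2 * Lpi + L3 + 4 * Lj) + u ^ 2 / 8 + u / 6 * (4 / 3 * u)) <
      (L2 + Lpi) / 2 + 5 * (L2 + Lj) + 4 * L2 := by
    have h6 : 2 * (1 / 2 * (2 * Lpi + L3 + 4 * Lj) + u ^ 2 / 8 + u / 6 * (4 / 3 * u)) =
      2 * Lpi + L3 + 4 * Lj + 25 / 36 * u ^ 2 := by ring
    rw [h6]
    norm_num at a1 b2 c1 c2
    linarith
  rw [hLk] at *
  linarith

/-- `N = 4 j + 1` -/
lemma case1 {κ : ℝ} {j : ℕ} (hj : 2 ≤ j) (hκ : κ = 2 * j + 1 / 2) (q : Fin 2 → ℕ)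
    (hq : q = ![2, 8 * j + 2]) : AdmN κ j q (fun a => 1 / (q a : ℝ)) ∧ TG κ < FF κ j q := by
  have hJ : (2 : ℝ) ≤ j := by exact_mod_cast hj
  set J : ℝ := (j : ℝ) with hJd
  have hJ0 : 0 < J := by linarith
  have hκ0 : 0 < κ := by rw [hκ]; linarith
  have q0 : (q 0 : ℝ) = 2 := by rw [hq]; simp
  have q1 : (q 1 : ℝ) = 8 * J + 2 := by rw [hq]; simp [hJd]
  have hs : ∑ a, 1 / (q a : ℝ) = (κ - J) / κ := by
    rw [Fin.sum_univ_two, q0, q1, hκ]
    field_simp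
    ring
  have hqp : ∀ a, 2 ≤ q a := by
    intro a
    rw [hq]
    fin_cases a <;> simp
  refine ⟨adm_of q (by norm_num) hκ0 (by omega) hqp hs, ?_⟩
  have hF := F_ge hκ0 q (by omega) (by rw [hκ]; linarith) (fun a => by have := hqp a; omega) hs
  rw [← hJd, lC hκ0] at hF
  have hG := GGk (κ := κ) (j := J) hκ0 (by rw [hκ]; linarith) (by rw [hκ]; linarith)
  set u : ℝ := 1 / J with hu
  have hu0 : 0 < u := by positivity
  have hu2 : u ≤ 1 / 2 := one_div_le_one_div_of_le (by norm_num) hJ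
  have huJ : u * J = 1 := by rw [hu]; field_simp
  set L2 := Real.log 2 with hL2
  set L3 := Real.log 3 with hL3
  set Lpi := Real.log Real.pi with hLpi
  set Lj := Real.log J with hLj
  have a1 : 0.6931471803 < L2 := Real.log_two_gt_d9
  have a2 : L2 < 0.6931471808 := Real.log_two_lt_d9
  have b1 : 1.0986122885 < L3 := Real.log_three_gt_d9
  have b2 : L3 < 1.0986122888 := Real.log_three_lt_d9
  have c1 : 1.143 < Lpi := log_pi_gt
  have c2 : Lpi < 1.14582 := log_pi_lt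
  have hLj0 : 0 ≤ Lj := Real.log_nonneg (by linarith)
  have hw : Lj * u ≤ 0.3679 := by
    have := mul_le_mul_of_nonneg_right (log_le_e hJ0) hu0.le
    rw [← hLj] at this
    nlinarith
  have hLk : L2 + Lj ≤ Real.log κ := by
    rw [hL2, hLj, ← Real.log_mul (by norm_num) hJ0.ne']
    exact Real.log_le_log (by positivity) (by rw [hκ]; linarith)
  have hLp : Real.log (κ + J) ≤ L3 + Lj + u / 6 := by
    have h1 : κ + J = 3 * J * (1 + u / 6) := by
      rw [hκ]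
      linear_combination (-(1 / 2) : ℝ) * huJ
    have h2 := Real.log_le_sub_one_of_pos (by positivity : 0 < 1 + u / 6)
    rw [h1, Real.log_mul (by positivity) (by positivity), Real.log_mul (by norm_num) hJ0.ne']
    linarith
  have hLq : Real.log (8 * J + 2) = 2 * L2 + Real.log κ := by
    rw [show 8 * J + 2 = 2 ^ 2 * κ by rw [hκ]; ring, Real.log_mul (by norm_num) hκ0.ne', Real.log_pow]
    push_cast
    ring
  have hJκ : 2 * J ≤ κ := by rw [hκ]; linarith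
  have hs1 := sb hJ0 hJκ
  have ht1 := tb hJ0 hJκ
  have hk1 := kb hJ0 hJκ
  rw [← hu] at hs1 ht1 hk1
  have hs0 : 0 ≤ 1 / J + 1 / (κ + J) := by positivity
  have hDD : DD κ j q ≤ 1 / 2 * (3 * Lpi + 5 * Lj + 3 * L3 - 4 * L2 + u / 2) + u ^ 2 / 8 +
      4 / 3 * u * (u / 6 + 2 / 3) := by
    unfold DD
    rw [Fin.sum_univ_two, q0, q1, ← hJd, lA hκ0 hJ0, lB hκ0 hJ0 (by norm_num),
      lB hκ0 hJ0 (by positivity), hLq]
    have e1 : (8 * J + 2) / (6 * κ) = 2 / 3 := by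
      rw [hκ, div_eq_div_iff (by positivity) (by norm_num)]
      ring
    rw [e1]
    have e2 : 2 / (6 * κ) * (1 / J + 1 / (κ + J)) ≤ u / 6 * (4 / 3 * u) :=
      mul_le_mul hk1 hs1 hs0 (by positivity)
    linarith
  have hκJ : κ / J = 2 + u / 2 := by
    rw [hκ, hu]
    field_simp
  have hm := mul_le_mul_of_nonneg_left hDD (by positivity : 0 ≤ κ / J)
  have hlog2 : Real.log (2 * κ) = L2 + Real.log κ := Real.log_mul (by norm_num) hκ0.ne'
  unfold TG FF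
  rw [hlog2]
  refine lt_of_lt_of_le ?_ hF
  have hκ8 : κ * (κ - 2 * J) / 4 = (2 * J + 1 / 2) / 8 := by rw [hκ]; ring
  rw [hκ8] at hG
  rw [hκJ] at hm ⊢
  have h5 : (2 + u / 2) * (1 / 2 * (3 * Lpi + 5 * Lj + 3 * L3 - 4 * L2 + u / 2) + u ^ 2 / 8 +
      4 / 3 * u * (u / 6 + 2 / 3)) < (2 * J + 1 / 2) / 8 + (L2 + Lpi) / 2 + 5 * (L2 + Lj) + 4 * L2 := by
    have m1 : u * (3 * Lpi + 3 * L3 - 4 * L2) ≤ 1 / 2 * 3.961 :=
      mul_le_mul hu2 (by linarith) (by linarith) (by norm_num)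
    have m2 : u ^ 2 ≤ 1 / 4 := le_trans (pow_le_pow_left₀ hu0.le hu2 2) (by norm_num)
    have m3 : u ^ 3 ≤ 1 / 8 := le_trans (pow_le_pow_left₀ hu0.le hu2 3) (by norm_num)
    have h6 : (2 + u / 2) * (1 / 2 * (3 * Lpi + 5 * Lj + 3 * L3 - 4 * L2 + u / 2) + u ^ 2 / 8 +
      4 / 3 * u * (u / 6 + 2 / 3)) = (3 * Lpi + 3 * L3 - 4 * L2) + 5 * Lj + u / 2 +
      u * (3 * Lpi + 3 * L3 - 4 * L2) / 4 + 5 / 4 * (Lj * u) + u ^ 2 / 8 + 16 / 9 * u + 41 / 36 * u ^ 2 +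
      25 / 144 * u ^ 3 := by ring
    rw [h6]
    norm_num at a1 b2 c1 c2 hw
    linarith
  linarith

/-- `N = 4 j + 2` -/
lemma case2 {κ : ℝ} {j : ℕ} (hj : 2 ≤ j) (hκ : κ = 2 * j + 1) (q : Fin 2 → ℕ)
    (hq : q = ![2, 4 * j + 2]) : AdmN κ j q (fun a => 1 / (q a : ℝ)) ∧ TG κ < FF κ j q := by
  have hJ : (2 : ℝ) ≤ j := by exact_mod_cast hj
  set J : ℝ := (j : ℝ) with hJd
  have hJ0 : 0 < J := by linarith
  have hκ0 : 0 < κ := by rw [hκ]; linarith
  have q0 : (q 0 : ℝ) = 2 := by rw [hq]; simp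
  have q1 : (q 1 : ℝ) = 4 * J + 2 := by rw [hq]; simp [hJd]
  have hs : ∑ a, 1 / (q a : ℝ) = (κ - J) / κ := by
    rw [Fin.sum_univ_two, q0, q1, hκ]
    field_simp
    ring
  have hqp : ∀ a, 2 ≤ q a := by
    intro a
    rw [hq]
    fin_cases a <;> simp
  refine ⟨adm_of q (by norm_num) hκ0 (by omega) hqp hs, ?_⟩
  have hF := F_ge hκ0 q (by omega) (by rw [hκ]; linarith) (fun a => by have := hqp a; omega) hs
  rw [← hJd, lC hκ0] at hF
  have hG := GGk' (κ := κ) (j := J) hκ0 (by rw [hκ]; linarith) (by rw [hκ]; linarith)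
  set u : ℝ := 1 / J with hu
  have hu0 : 0 < u := by positivity
  have hu2 : u ≤ 1 / 2 := one_div_le_one_div_of_le (by norm_num) hJ
  have huJ : u * J = 1 := by rw [hu]; field_simp
  set L2 := Real.log 2 with hL2
  set L3 := Real.log 3 with hL3
  set Lpi := Real.log Real.pi with hLpi
  set Lj := Real.log J with hLj
  have a1 : 0.6931471803 < L2 := Real.log_two_gt_d9
  have a2 : L2 < 0.6931471808 := Real.log_two_lt_d9
  have b1 : 1.0986122885 < L3 := Real.log_three_gt_d9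
  have b2 : L3 < 1.0986122888 := Real.log_three_lt_d9
  have c1 : 1.143 < Lpi := log_pi_gt
  have c2 : Lpi < 1.14582 := log_pi_lt
  have hLj0 : 0 ≤ Lj := Real.log_nonneg (by linarith)
  have hw : Lj * u ≤ 0.3679 := by
    have := mul_le_mul_of_nonneg_right (log_le_e hJ0) hu0.le
    rw [← hLj] at this
    nlinarith
  have hLk : L2 + Lj ≤ Real.log κ := by
    rw [hL2, hLj, ← Real.log_mul (by norm_num) hJ0.ne']
    exact Real.log_le_log (by positivity) (by rw [hκ]; linarith)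
  have hLp : Real.log (κ + J) ≤ L3 + Lj + u / 3 := by
    have h1 : κ + J = 3 * J * (1 + u / 3) := by
      rw [hκ]
      linear_combination (-1 : ℝ) * huJ
    have h2 := Real.log_le_sub_one_of_pos (by positivity : 0 < 1 + u / 3)
    rw [h1, Real.log_mul (by positivity) (by positivity), Real.log_mul (by norm_num) hJ0.ne']
    linarith
  have hLq : Real.log (4 * J + 2) = L2 + Real.log κ := by
    rw [show 4 * J + 2 = 2 * κ by rw [hκ]; ring, Real.log_mul (by norm_num) hκ0.ne']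
  have hJκ : 2 * J ≤ κ := by rw [hκ]; linarith
  have hs1 := sb hJ0 hJκ
  have ht1 := tb hJ0 hJκ
  have hk1 := kb hJ0 hJκ
  rw [← hu] at hs1 ht1 hk1
  have hs0 : 0 ≤ 1 / J + 1 / (κ + J) := by positivity
  have hDD : DD κ j q ≤ 1 / 2 * (3 * Lpi + 5 * Lj + 3 * L3 - 3 * L2 + u) + u ^ 2 / 8 +
      4 / 3 * u * (u / 6 + 1 / 3) := by
    unfold DD
    rw [Fin.sum_univ_two, q0, q1, ← hJd, lA hκ0 hJ0, lB hκ0 hJ0 (by norm_num),
      lB hκ0 hJ0 (by positivity), hLq]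
    have e1 : (4 * J + 2) / (6 * κ) = 1 / 3 := by
      rw [hκ, div_eq_div_iff (by positivity) (by norm_num)]
      ring
    rw [e1]
    have e2 : 2 / (6 * κ) * (1 / J + 1 / (κ + J)) ≤ u / 6 * (4 / 3 * u) :=
      mul_le_mul hk1 hs1 hs0 (by positivity)
    linarith
  have hκJ : κ / J = 2 + u := by
    rw [hκ, hu]
    field_simp
  have hm := mul_le_mul_of_nonneg_left hDD (by positivity : 0 ≤ κ / J)
  have hlog2 : Real.log (2 * κ) = L2 + Real.log κ := Real.log_mul (by norm_num) hκ0.ne'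
  unfold TG FF
  rw [hlog2]
  refine lt_of_lt_of_le ?_ hF
  have hκ8 : κ * (κ - 2 * J) * (23 / 100) = (2 * J + 1) * (23 / 100) := by rw [hκ]; ring
  rw [hκ8] at hG
  rw [hκJ] at hm ⊢
  have h5 : (2 + u) * (1 / 2 * (3 * Lpi + 5 * Lj + 3 * L3 - 3 * L2 + u) + u ^ 2 / 8 +
      4 / 3 * u * (u / 6 + 1 / 3)) < (2 * J + 1) * (23 / 100) + (L2 + Lpi) / 2 + 5 * (L2 + Lj) + 4 * L2 := by
    have m1 : u * (3 * Lpi + 3 * L3 - 3 * L2) ≤ 1 / 2 * 4.654 :=
      mul_le_mul hu2 (by linarith) (by linarith) (by norm_num)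
    have m2 : u ^ 2 ≤ 1 / 4 := le_trans (pow_le_pow_left₀ hu0.le hu2 2) (by norm_num)
    have m3 : u ^ 3 ≤ 1 / 8 := le_trans (pow_le_pow_left₀ hu0.le hu2 3) (by norm_num)
    have h6 : (2 + u) * (1 / 2 * (3 * Lpi + 5 * Lj + 3 * L3 - 3 * L2 + u) + u ^ 2 / 8 +
      4 / 3 * u * (u / 6 + 1 / 3)) = (3 * Lpi + 3 * L3 - 3 * L2) + 5 * Lj + u +
      u * (3 * Lpi + 3 * L3 - 3 * L2) / 2 + 5 / 2 * (Lj * u) + u ^ 2 / 2 + 8 / 9 * u + 41 / 36 * u ^ 2 +
      25 / 72 * u ^ 3 := by ring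
    rw [h6]
    norm_num at a1 b2 c1 c2 hw
    linarith
  linarith

/-- `N = 4 j + 3` -/
lemma case3 {κ : ℝ} {j : ℕ} (hj : 4 ≤ j) (hκ : κ = 2 * j + 3 / 2) (q : Fin 3 → ℕ)
    (hq : q = ![2, 4 * j + 3, 8 * j + 6]) : AdmN κ j q (fun a => 1 / (q a : ℝ)) ∧ TG κ < FF κ j q := by
  have hJ : (4 : ℝ) ≤ j := by exact_mod_cast hj
  set J : ℝ := (j : ℝ) with hJd
  have hJ0 : 0 < J := by linarith
  have hκ0 : 0 < κ := by rw [hκ]; linarith
  have q0 : (q 0 : ℝ) = 2 := by rw [hq]; simp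
  have q1 : (q 1 : ℝ) = 4 * J + 3 := by rw [hq]; simp [hJd]
  have q2 : (q 2 : ℝ) = 8 * J + 6 := by rw [hq]; simp [hJd]
  have hs : ∑ a, 1 / (q a : ℝ) = (κ - J) / κ := by
    rw [Fin.sum_univ_three, q0, q1, q2, hκ]
    field_simp
    ring
  have hqp : ∀ a, 2 ≤ q a := by
    intro a
    rw [hq]
    fin_cases a <;> simp
  refine ⟨adm_of q (by norm_num) hκ0 (by omega) hqp hs, ?_⟩
  have hF := F_ge hκ0 q (by omega) (by rw [hκ]; linarith) (fun a => by have := hqp a; omega) hs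
  rw [← hJd, lC hκ0] at hF
  have hG := GGk (κ := κ) (j := J) hκ0 (by rw [hκ]; linarith) (by rw [hκ]; linarith)
  set u : ℝ := 1 / J with hu
  have hu0 : 0 < u := by positivity
  have hu2 : u ≤ 1 / 4 := one_div_le_one_div_of_le (by norm_num) hJ
  have huJ : u * J = 1 := by rw [hu]; field_simp
  set L2 := Real.log 2 with hL2
  set L3 := Real.log 3 with hL3
  set Lpi := Real.log Real.pi with hLpi
  set Lj := Real.log J with hLj
  have a1 : 0.6931471803 < L2 := Real.log_two_gt_d9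
  have a2 : L2 < 0.6931471808 := Real.log_two_lt_d9
  have b1 : 1.0986122885 < L3 := Real.log_three_gt_d9
  have b2 : L3 < 1.0986122888 := Real.log_three_lt_d9
  have c1 : 1.143 < Lpi := log_pi_gt
  have c2 : Lpi < 1.14582 := log_pi_lt
  have hLj0 : 0 ≤ Lj := Real.log_nonneg (by linarith)
  have hw : Lj * u ≤ 0.3679 := by
    have := mul_le_mul_of_nonneg_right (log_le_e hJ0) hu0.le
    rw [← hLj] at this
    nlinarith
  have hLk : L2 + Lj + 63 / 100 * u ≤ Real.log κ := by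
    have h1 : κ = 2 * J * (1 + 3 / 4 * u) := by
      rw [hκ]
      linear_combination (-(3 / 2) : ℝ) * huJ
    have h2 := lb_log (by positivity : 0 < 1 + 3 / 4 * u)
    rw [h1, Real.log_mul (by positivity) (by positivity), Real.log_mul (by norm_num) hJ0.ne']
    have h3 : 63 / 100 * u ≤ 1 - 1 / (1 + 3 / 4 * u) := by
      have e : 1 - 1 / (1 + 3 / 4 * u) = (3 / 4 * u) / (1 + 3 / 4 * u) := by
        field_simp
        ring
      rw [e, le_div_iff₀ (by positivity)]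
      nlinarith
    linarith
  have hLj4 : Lj ≤ 2 * L2 + J / 4 - 1 := by
    have h1 := Real.log_le_sub_one_of_pos (by positivity : 0 < J / 4)
    rw [Real.log_div hJ0.ne' (by norm_num), show (4 : ℝ) = 2 ^ 2 by norm_num, Real.log_pow] at h1
    push_cast at h1
    linarith
  have hLp : Real.log (κ + J) ≤ L3 + Lj + u / 2 := by
    have h1 : κ + J = 3 * J * (1 + u / 2) := by
      rw [hκ]
      linear_combination (-(3 / 2) : ℝ) * huJ
    have h2 := Real.log_le_sub_one_of_pos (by positivity : 0 < 1 + u / 2)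
    rw [h1, Real.log_mul (by positivity) (by positivity), Real.log_mul (by norm_num) hJ0.ne']
    linarith
  have hLq : Real.log (4 * J + 3) = L2 + Real.log κ := by
    rw [show 4 * J + 3 = 2 * κ by rw [hκ]; ring, Real.log_mul (by norm_num) hκ0.ne']
  have hLq2 : Real.log (8 * J + 6) = 2 * L2 + Real.log κ := by
    rw [show 8 * J + 6 = 2 ^ 2 * κ by rw [hκ]; ring, Real.log_mul (by norm_num) hκ0.ne', Real.log_pow]
    push_cast
    ring
  have hJκ : 2 * J ≤ κ := by rw [hκ]; linarith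
  have hs1 := sb hJ0 hJκ
  have ht1 := tb hJ0 hJκ
  have hk1 := kb hJ0 hJκ
  rw [← hu] at hs1 ht1 hk1
  have hs0 : 0 ≤ 1 / J + 1 / (κ + J) := by positivity
  have hDD : DD κ j q ≤ 1 / 2 * (4 * Lpi + 6 * Lj + 5 * L3 - 7 * L2 + 31 / 25 * u) + u ^ 2 / 8 +
      4 / 3 * u * (u / 6 + 1) := by
    unfold DD
    rw [Fin.sum_univ_three, q0, q1, q2, ← hJd, lA hκ0 hJ0, lB hκ0 hJ0 (by norm_num),
      lB hκ0 hJ0 (by positivity), lB hκ0 hJ0 (by positivity), hLq, hLq2]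
    have e1 : (4 * J + 3) / (6 * κ) = 1 / 3 := by
      rw [hκ, div_eq_div_iff (by positivity) (by norm_num)]
      ring
    have e3 : (8 * J + 6) / (6 * κ) = 2 / 3 := by
      rw [hκ, div_eq_div_iff (by positivity) (by norm_num)]
      ring
    rw [e1, e3]
    have e2 : 2 / (6 * κ) * (1 / J + 1 / (κ + J)) ≤ u / 6 * (4 / 3 * u) :=
      mul_le_mul hk1 hs1 hs0 (by positivity)
    linarith
  have hκJ : κ / J = 2 + 3 / 2 * u := by
    rw [hκ, hu]
    field_simp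
  have hm := mul_le_mul_of_nonneg_left hDD (by positivity : 0 ≤ κ / J)
  have hlog2 : Real.log (2 * κ) = L2 + Real.log κ := Real.log_mul (by norm_num) hκ0.ne'
  unfold TG FF
  rw [hlog2]
  refine lt_of_lt_of_le ?_ hF
  have hκ8 : κ * (κ - 2 * J) / 4 = 3 / 8 * (2 * J + 3 / 2) := by rw [hκ]; ring
  rw [hκ8] at hG
  rw [hκJ] at hm ⊢
  have h5 : (2 + 3 / 2 * u) * (1 / 2 * (4 * Lpi + 6 * Lj + 5 * L3 - 7 * L2 + 31 / 25 * u) + u ^ 2 / 8 +
      4 / 3 * u * (u / 6 + 1)) < 3 / 8 * (2 * J + 3 / 2) + (L2 + Lpi) / 2 + 5 * (L2 + Lj + 63 / 100 * u) + 4 * L2 := by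
    have m1 : u * (4 * Lpi + 5 * L3 - 7 * L2) ≤ 1 / 4 * 5.2244 :=
      mul_le_mul hu2 (by linarith) (by linarith) (by norm_num)
    have m2 : u ^ 2 ≤ 1 / 16 := le_trans (pow_le_pow_left₀ hu0.le hu2 2) (by norm_num)
    have m3 : u ^ 3 ≤ 1 / 64 := le_trans (pow_le_pow_left₀ hu0.le hu2 3) (by norm_num)
    have h6 : (2 + 3 / 2 * u) * (1 / 2 * (4 * Lpi + 6 * Lj + 5 * L3 - 7 * L2 + 31 / 25 * u) + u ^ 2 / 8 +
      4 / 3 * u * (u / 6 + 1)) = (4 * Lpi + 5 * L3 - 7 * L2) + 6 * Lj + 31 / 25 * u +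
      3 / 4 * (u * (4 * Lpi + 5 * L3 - 7 * L2)) + 9 / 2 * (Lj * u) + 93 / 100 * u ^ 2 + 8 / 3 * u +
      97 / 36 * u ^ 2 + 25 / 48 * u ^ 3 := by ring
    rw [h6]
    norm_num at a1 b2 c1 c2 hw
    linarith
  linarith

end

end Pool.Agent.TH535
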