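import Pool.Agent.TH535.GrowthT
import Pool.Agent.TH535.MasterX

set_option autoImplicit false
set_option linter.unusedSectionVars false

/-! Growth theorem in short intervals. -/

namespace Pool.Agent.TH535

open Finset Filter Topology MeasureTheory
open Pool.Agent.H306R2 hiding fr

noncomputable section

/-- admissible parameters for the growth theorem -/
theorem growth_adm {t A : ℝ} (ht : 0 < t) (ht1 : t < 1) (hA0 : 0 < A) (hA : A < Real.exp (GG t)) :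
    ∃ N0 : ℕ, ∀ N : ℕ, N0 ≤ N → ∃ (n j : ℕ) (q : Fin n → ℕ),
      AdmN ((N : ℝ) / 2) j q (fun a => 1 / (q a : ℝ)) ∧ 0 < N ∧
      A ^ (((N : ℝ) / 2) ^ 2) * (aF ((N : ℝ) / 2) / Real.Gamma (((N : ℝ) / 2) ^ 2 + 1)) <
        aF ((N : ℝ) / 2) * MN ((N : ℝ) / 2) j q (fun a => 1 / (q a : ℝ)) := by
  have hA' : Real.log A < GG t := by rwa [Real.log_lt_iff_lt_exp hA0]
  obtain ⟨P, Q, hP, hPQ, hlt⟩ := rat_near ht ht1 hA'
  have hlim := (growth_lim hP hPQ).eventually_const_lt hlt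
  obtain ⟨N0, hN0⟩ := eventually_atTop.1 hlim
  refine ⟨max N0 (2 * Q), fun N hN => ?_⟩
  have h1 := hN0 N (le_trans (le_max_left _ _) hN)
  have h2 : 2 * Q ≤ N := le_trans (le_max_right _ _) hN
  have hA1 := admN_ok hP hPQ h2
  have hNp : (0 : ℝ) < N := by exact_mod_cast (by omega : 0 < N)
  have hκ : (0 : ℝ) < (N : ℝ) / 2 := by positivity
  refine ⟨_, jN P Q N, qN P Q N, hA1, by omega, ?_⟩
  rw [MN_eq hκ hA1]
  have hK : 0 < ((N : ℝ) / 2) ^ 2 := by positivity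
  rw [lt_div_iff₀ hK] at h1
  have hG : 0 < Real.Gamma (((N : ℝ) / 2) ^ 2 + 1) := Real.Gamma_pos_of_pos (by positivity)
  have haF := aF_pos hκ
  have h3 : A ^ (((N : ℝ) / 2) ^ 2) <
      Real.exp ((N : ℝ) / 2 / (jN P Q N) * LR ((N : ℝ) / 2) (jN P Q N) (qN P Q N)) *
        Real.Gamma (((N : ℝ) / 2) ^ 2 + 1) := by
    have e1 : Real.Gamma (((N : ℝ) / 2) ^ 2 + 1) = Real.exp (LG (((N : ℝ) / 2) ^ 2)) := by
      unfold LG
      rw [Real.exp_log hG]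
    rw [e1, ← Real.exp_add, Real.rpow_def_of_pos hA0]
    exact Real.exp_lt_exp.2 h1
  calc A ^ (((N : ℝ) / 2) ^ 2) * (aF ((N : ℝ) / 2) / Real.Gamma (((N : ℝ) / 2) ^ 2 + 1)) =
      aF ((N : ℝ) / 2) * (A ^ (((N : ℝ) / 2) ^ 2) / Real.Gamma (((N : ℝ) / 2) ^ 2 + 1)) := by ring
    _ < _ := by
      refine mul_lt_mul_of_pos_left ?_ haF
      rw [div_lt_iff₀ hG]
      exact h3

/-- **Growth theorem**, intervals of length a power of the logarithm. -/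
theorem growthX {t A : ℝ} (ht : 0 < t) (ht1 : t < 1) (hA0 : 0 < A) (hA : A < Real.exp (GG t)) :
    ∃ N0 : ℕ, ∀ N : ℕ, N0 ≤ N → ∃ B : ℝ, 0 < B ∧ ∀ᶠ T : ℝ in atTop, ∀ U : ℝ, Real.log T ^ B ≤ U →
      A ^ (((N : ℝ) / 2) ^ 2) * (aF ((N : ℝ) / 2) / Real.Gamma (((N : ℝ) / 2) ^ 2 + 1)) *
        (U * Real.log U ^ (((N : ℝ) / 2) ^ 2)) ≤
      ∫ t in T..(T + U), ‖riemannZeta (1 / 2 + t * Complex.I)‖ ^ (2 * ((N : ℝ) / 2)) := by
  obtain ⟨N0, h0⟩ := growth_adm ht ht1 hA0 hA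
  refine ⟨N0, fun N hN => ?_⟩
  obtain ⟨n, j, q, h1, h2, h3⟩ := h0 N hN
  have hNp : (0 : ℝ) < N := by exact_mod_cast h2
  exact masterNX ((N : ℝ) / 2) (by positivity) j q _ h1 _ h3

end

end Pool.Agent.TH535
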