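import Pool.Agent.TH535.Expl3
import Pool.Agent.TH535.GrowthX

set_option autoImplicit false
set_option linter.unusedSectionVars false

/-! Explicit lower bounds for the constants: exceptional cases and the theorem. -/

namespace Pool.Agent.TH535

open Finset Filter Topology
open Pool.Agent.H306R2 hiding fr

noncomputable section

/-- `N = 11` -/
lemma case11 : AdmN (11 / 2 : ℝ) 3 ![3, 11, 33] (fun a => 1 / ((![3, 11, 33] : Fin 3 → ℕ) a : ℝ)) ∧
    TG (11 / 2) < FF (11 / 2) 3 ![3, 11, 33] := by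
  have e3 : ((3 : ℕ) : ℝ) = 3 := by norm_num
  have q0 : (((![3, 11, 33] : Fin 3 → ℕ) 0 : ℕ) : ℝ) = 3 := by simp
  have q1 : (((![3, 11, 33] : Fin 3 → ℕ) 1 : ℕ) : ℝ) = 11 := by simp
  have q2 : (((![3, 11, 33] : Fin 3 → ℕ) 2 : ℕ) : ℝ) = 33 := by simp
  have hqp : ∀ a, 2 ≤ (![3, 11, 33] : Fin 3 → ℕ) a := by
    intro a
    fin_cases a <;> simp
  have hs : ∑ a, 1 / ((![3, 11, 33] : Fin 3 → ℕ) a : ℝ) = ((11 / 2 : ℝ) - (3 : ℕ)) / (11 / 2) := by
    rw [Fin.sum_univ_three, q0, q1, q2]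
    norm_num
  refine ⟨adm_of _ (by norm_num) (by norm_num) (by norm_num) hqp hs, ?_⟩
  have hF := F_ge (κ := 11 / 2) (by norm_num) ![3, 11, 33] (j := 3) (by norm_num) (by norm_num)
    (fun a => by have := hqp a; omega) hs
  refine lt_of_lt_of_le ?_ hF
  rw [lC (by norm_num)]
  unfold TG DD GG
  rw [Fin.sum_univ_three, q0, q1, q2, e3, lA (by norm_num) (by norm_num), lB (by norm_num) (by norm_num) (by norm_num),
    lB (by norm_num) (by norm_num) (by norm_num), lB (by norm_num) (by norm_num) (by norm_num)]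
  have g1 : Real.log ((3 : ℝ) / (11 / 2)) = Real.log 2 + Real.log 3 - Real.log 11 := by
    rw [show (3 : ℝ) / (11 / 2) = 2 * 3 / 11 by norm_num, Real.log_div (by norm_num) (by norm_num),
      Real.log_mul (by norm_num) (by norm_num)]
  have g2 : Real.log (1 + (3 : ℝ) / (11 / 2)) = Real.log 17 - Real.log 11 := by
    rw [show 1 + (3 : ℝ) / (11 / 2) = 17 / 11 by norm_num, Real.log_div (by norm_num) (by norm_num)]
  have g3 : Real.log ((11 / 2 : ℝ) + 3) = Real.log 17 - Real.log 2 := by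
    rw [show (11 / 2 : ℝ) + 3 = 17 / 2 by norm_num, Real.log_div (by norm_num) (by norm_num)]
  have g4 : Real.log (11 / 2 : ℝ) = Real.log 11 - Real.log 2 := Real.log_div (by norm_num) (by norm_num)
  have g5 : Real.log (2 * (11 / 2 : ℝ)) = Real.log 11 := by norm_num
  have g6 : Real.log (33 : ℝ) = Real.log 3 + Real.log 11 := by
    rw [show (33 : ℝ) = 3 * 11 by norm_num, Real.log_mul (by norm_num) (by norm_num)]
  rw [g1, g2, g3, g4, g5, g6]
  have a1 := Real.log_two_gt_d9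
  have a2 := Real.log_two_lt_d9
  have b1 := Real.log_three_gt_d9
  have b2 := Real.log_three_lt_d9
  have c1 := log_pi_gt
  have c2 := log_pi_lt
  obtain ⟨d1, d2⟩ := log_eleven
  obtain ⟨f1, f2⟩ := log_seventeen
  norm_num at a1 a2 b1 b2 c1 c2 d1 d2 f1 f2 ⊢
  linarith

/-- `N = 15` -/
lemma case15 : AdmN (15 / 2 : ℝ) 3 ![2, 10] (fun a => 1 / ((![2, 10] : Fin 2 → ℕ) a : ℝ)) ∧
    TG (15 / 2) < FF (15 / 2) 3 ![2, 10] := by
  have e3 : ((3 : ℕ) : ℝ) = 3 := by norm_num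
  have q0 : (((![2, 10] : Fin 2 → ℕ) 0 : ℕ) : ℝ) = 2 := by simp
  have q1 : (((![2, 10] : Fin 2 → ℕ) 1 : ℕ) : ℝ) = 10 := by simp
  have hqp : ∀ a, 2 ≤ (![2, 10] : Fin 2 → ℕ) a := by
    intro a
    fin_cases a <;> simp
  have hs : ∑ a, 1 / ((![2, 10] : Fin 2 → ℕ) a : ℝ) = ((15 / 2 : ℝ) - (3 : ℕ)) / (15 / 2) := by
    rw [Fin.sum_univ_two, q0, q1]
    norm_num
  refine ⟨adm_of _ (by norm_num) (by norm_num) (by norm_num) hqp hs, ?_⟩
  have hF := F_ge (κ := 15 / 2) (by norm_num) ![2, 10] (j := 3) (by norm_num) (by norm_num)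
    (fun a => by have := hqp a; omega) hs
  refine lt_of_lt_of_le ?_ hF
  rw [lC (by norm_num)]
  unfold TG DD GG
  rw [Fin.sum_univ_two, q0, q1, e3, lA (by norm_num) (by norm_num), lB (by norm_num) (by norm_num) (by norm_num),
    lB (by norm_num) (by norm_num) (by norm_num)]
  have g1 : Real.log ((3 : ℝ) / (15 / 2)) = Real.log 2 - Real.log 5 := by
    rw [show (3 : ℝ) / (15 / 2) = 2 / 5 by norm_num, Real.log_div (by norm_num) (by norm_num)]
  have g2 : Real.log (1 + (3 : ℝ) / (15 / 2)) = Real.log 7 - Real.log 5 := by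
    rw [show 1 + (3 : ℝ) / (15 / 2) = 7 / 5 by norm_num, Real.log_div (by norm_num) (by norm_num)]
  have g3 : Real.log ((15 / 2 : ℝ) + 3) = Real.log 3 + Real.log 7 - Real.log 2 := by
    rw [show (15 / 2 : ℝ) + 3 = 3 * 7 / 2 by norm_num, Real.log_div (by norm_num) (by norm_num),
      Real.log_mul (by norm_num) (by norm_num)]
  have g4 : Real.log (15 / 2 : ℝ) = Real.log 3 + Real.log 5 - Real.log 2 := by
    rw [show (15 / 2 : ℝ) = 3 * 5 / 2 by norm_num, Real.log_div (by norm_num) (by norm_num),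
      Real.log_mul (by norm_num) (by norm_num)]
  have g5 : Real.log (2 * (15 / 2 : ℝ)) = Real.log 3 + Real.log 5 := by
    rw [show (2 * (15 / 2) : ℝ) = 3 * 5 by norm_num, Real.log_mul (by norm_num) (by norm_num)]
  have g6 : Real.log (10 : ℝ) = Real.log 2 + Real.log 5 := by
    rw [show (10 : ℝ) = 2 * 5 by norm_num, Real.log_mul (by norm_num) (by norm_num)]
  rw [g1, g2, g3, g4, g5, g6]
  have a1 := Real.log_two_gt_d9
  have a2 := Real.log_two_lt_d9
  have b1 := Real.log_three_gt_d9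
  have b2 := Real.log_three_lt_d9
  have c1 := log_pi_gt
  have c2 := log_pi_lt
  have d1 := Real.log_five_gt_d9
  have d2 := Real.log_five_lt_d9
  obtain ⟨f1, f2⟩ := log_seven
  norm_num at a1 a2 b1 b2 c1 c2 d1 d2 f1 f2 ⊢
  linarith

/-- `N = 7` -/
lemma case7 : AdmN (7 / 2 : ℝ) 3 ![7] (fun a => 1 / ((![7] : Fin 1 → ℕ) a : ℝ)) ∧
    0 < FF (7 / 2) 3 ![7] := by
  have e3 : ((3 : ℕ) : ℝ) = 3 := by norm_num
  have q0 : (((![7] : Fin 1 → ℕ) 0 : ℕ) : ℝ) = 7 := by simp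
  have hqp : ∀ a, 2 ≤ (![7] : Fin 1 → ℕ) a := by
    intro a
    fin_cases a
    simp
  have hs : ∑ a, 1 / ((![7] : Fin 1 → ℕ) a : ℝ) = ((7 / 2 : ℝ) - (3 : ℕ)) / (7 / 2) := by
    rw [Fin.sum_univ_one, q0]
    norm_num
  refine ⟨adm_of _ (by norm_num) (by norm_num) (by norm_num) hqp hs, ?_⟩
  have hF := F_ge (κ := 7 / 2) (by norm_num) ![7] (j := 3) (by norm_num) (by norm_num)
    (fun a => by have := hqp a; omega) hs
  refine lt_of_lt_of_le ?_ hF
  rw [lC (by norm_num)]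
  unfold DD GG
  rw [Fin.sum_univ_one, q0, e3, lA (by norm_num) (by norm_num), lB (by norm_num) (by norm_num) (by norm_num)]
  have g1 : Real.log ((3 : ℝ) / (7 / 2)) = Real.log 2 + Real.log 3 - Real.log 7 := by
    rw [show (3 : ℝ) / (7 / 2) = 2 * 3 / 7 by norm_num, Real.log_div (by norm_num) (by norm_num),
      Real.log_mul (by norm_num) (by norm_num)]
  have g2 : Real.log (1 + (3 : ℝ) / (7 / 2)) = Real.log 13 - Real.log 7 := by
    rw [show 1 + (3 : ℝ) / (7 / 2) = 13 / 7 by norm_num, Real.log_div (by norm_num) (by norm_num)]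
  have g3 : Real.log ((7 / 2 : ℝ) + 3) = Real.log 13 - Real.log 2 := by
    rw [show (7 / 2 : ℝ) + 3 = 13 / 2 by norm_num, Real.log_div (by norm_num) (by norm_num)]
  have g4 : Real.log (7 / 2 : ℝ) = Real.log 7 - Real.log 2 := Real.log_div (by norm_num) (by norm_num)
  rw [g1, g2, g3, g4]
  have a1 := Real.log_two_gt_d9
  have a2 := Real.log_two_lt_d9
  have b1 := Real.log_three_gt_d9
  have b2 := Real.log_three_lt_d9
  have c1 := log_pi_gt
  have c2 := log_pi_lt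
  obtain ⟨d1, d2⟩ := log_thirteen
  obtain ⟨f1, f2⟩ := log_seven
  norm_num at a1 a2 b1 b2 c1 c2 d1 d2 f1 f2 ⊢
  linarith

/-- `N = 9` -/
lemma case9 : AdmN (9 / 2 : ℝ) 3 ![3] (fun a => 1 / ((![3] : Fin 1 → ℕ) a : ℝ)) ∧
    3 < FF (9 / 2) 3 ![3] := by
  have e3 : ((3 : ℕ) : ℝ) = 3 := by norm_num
  have q0 : (((![3] : Fin 1 → ℕ) 0 : ℕ) : ℝ) = 3 := by simp
  have hqp : ∀ a, 2 ≤ (![3] : Fin 1 → ℕ) a := by
    intro a
    fin_cases a
    simp
  have hs : ∑ a, 1 / ((![3] : Fin 1 → ℕ) a : ℝ) = ((9 / 2 : ℝ) - (3 : ℕ)) / (9 / 2) := by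
    rw [Fin.sum_univ_one, q0]
    norm_num
  refine ⟨adm_of _ (by norm_num) (by norm_num) (by norm_num) hqp hs, ?_⟩
  have hF := F_ge (κ := 9 / 2) (by norm_num) ![3] (j := 3) (by norm_num) (by norm_num)
    (fun a => by have := hqp a; omega) hs
  refine lt_of_lt_of_le ?_ hF
  rw [lC (by norm_num)]
  unfold DD GG
  rw [Fin.sum_univ_one, q0, e3, lA (by norm_num) (by norm_num), lB (by norm_num) (by norm_num) (by norm_num)]
  have g1 : Real.log ((3 : ℝ) / (9 / 2)) = Real.log 2 - Real.log 3 := by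
    rw [show (3 : ℝ) / (9 / 2) = 2 / 3 by norm_num, Real.log_div (by norm_num) (by norm_num)]
  have g2 : Real.log (1 + (3 : ℝ) / (9 / 2)) = Real.log 5 - Real.log 3 := by
    rw [show 1 + (3 : ℝ) / (9 / 2) = 5 / 3 by norm_num, Real.log_div (by norm_num) (by norm_num)]
  have g3 : Real.log ((9 / 2 : ℝ) + 3) = Real.log 3 + Real.log 5 - Real.log 2 := by
    rw [show (9 / 2 : ℝ) + 3 = 3 * 5 / 2 by norm_num, Real.log_div (by norm_num) (by norm_num),
      Real.log_mul (by norm_num) (by norm_num)]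
  have g4 : Real.log (9 / 2 : ℝ) = 2 * Real.log 3 - Real.log 2 := by
    rw [show (9 / 2 : ℝ) = 3 ^ 2 / 2 by norm_num, Real.log_div (by norm_num) (by norm_num), Real.log_pow]
    push_cast
    ring
  rw [g1, g2, g3, g4]
  have a1 := Real.log_two_gt_d9
  have a2 := Real.log_two_lt_d9
  have b1 := Real.log_three_gt_d9
  have b2 := Real.log_three_lt_d9
  have c1 := log_pi_gt
  have c2 := log_pi_lt
  have d1 := Real.log_five_gt_d9
  have d2 := Real.log_five_lt_d9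
  norm_num at a1 a2 b1 b2 c1 c2 d1 d2 ⊢
  linarith

/-- **Explicit parameters.** -/
theorem expl (N : ℕ) (hN : 8 ≤ N) : ∃ (n j : ℕ) (q : Fin n → ℕ),
    AdmN ((N : ℝ) / 2) j q (fun a => 1 / (q a : ℝ)) ∧ TG ((N : ℝ) / 2) < FF ((N : ℝ) / 2) j q := by
  have h4 : N = 4 * (N / 4) + N % 4 := by omega
  have hr : N % 4 < 4 := Nat.mod_lt _ (by norm_num)
  set j := N / 4 with hj
  have hj2 : 2 ≤ j := by omega
  interval_cases hm : N % 4
  · exact ⟨1, j, ![2], case0 hj2 (by rw [h4]; push_cast; ring) _ rfl⟩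
  · exact ⟨2, j, ![2, 8 * j + 2], case1 hj2 (by rw [h4]; push_cast; ring) _ rfl⟩
  · exact ⟨2, j, ![2, 4 * j + 2], case2 hj2 (by rw [h4]; push_cast; ring) _ rfl⟩
  · by_cases hj4 : 4 ≤ j
    · exact ⟨3, j, ![2, 4 * j + 3, 8 * j + 6], case3 hj4 (by rw [h4]; push_cast; ring) _ rfl⟩
    · have : N = 11 ∨ N = 15 := by omega
      rcases this with h | h
      · have e : (N : ℝ) / 2 = 11 / 2 := by rw [h]; norm_num
        rw [e]
        exact ⟨3, 3, ![3, 11, 33], case11⟩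
      · have e : (N : ℝ) / 2 = 15 / 2 := by rw [h]; norm_num
        rw [e]
        exact ⟨2, 3, ![2, 10], case15⟩

lemma adm_const {κ C : ℝ} (hκ : 0 < κ) {n j : ℕ} {q : Fin n → ℕ}
    (hA : AdmN κ j q (fun a => 1 / (q a : ℝ))) (hC : 0 < C) (h : Real.log C < FF κ j q) :
    C * (aF κ / Real.Gamma (κ ^ 2 + 1)) < aF κ * MN κ j q (fun a => 1 / (q a : ℝ)) := by
  rw [MN_eq hκ hA]
  have hG : 0 < Real.Gamma (κ ^ 2 + 1) := Real.Gamma_pos_of_pos (by positivity)
  have haF := aF_pos hκ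
  have h3 : C < Real.exp (κ / j * LR κ j q) * Real.Gamma (κ ^ 2 + 1) := by
    have e1 : Real.Gamma (κ ^ 2 + 1) = Real.exp (LG (κ ^ 2)) := by
      unfold LG
      rw [Real.exp_log hG]
    rw [e1, ← Real.exp_add, ← Real.log_lt_iff_lt_exp hC]
    exact h
  calc C * (aF κ / Real.Gamma (κ ^ 2 + 1)) = aF κ * (C / Real.Gamma (κ ^ 2 + 1)) := by ring
    _ < _ := by
      refine mul_lt_mul_of_pos_left ?_ haF
      rw [div_lt_iff₀ hG]
      exact h3

lemma log_target {N : ℕ} (hN : 0 < N) :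
    Real.log ((4 / 3) ^ (3 * (N : ℝ) ^ 2 / 8) / (N : ℝ) ^ 4) = TG ((N : ℝ) / 2) := by
  have hN0 : (0 : ℝ) < N := by exact_mod_cast hN
  unfold TG
  rw [Real.log_div (by positivity) (by positivity), Real.log_rpow (by norm_num), Real.log_pow,
    Real.log_div (by norm_num) (by norm_num), show (4 : ℝ) = 2 ^ 2 by norm_num, Real.log_pow,
    show 2 * ((N : ℝ) / 2) = N by ring]
  push_cast
  ring

/-- explicit lower bounds for the constants -/
theorem expl_const (N : ℕ) (hN : 8 ≤ N) : ∃ (n j : ℕ) (q : Fin n → ℕ),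
    AdmN ((N : ℝ) / 2) j q (fun a => 1 / (q a : ℝ)) ∧
    (4 / 3) ^ (3 * (N : ℝ) ^ 2 / 8) / (N : ℝ) ^ 4 * (aF ((N : ℝ) / 2) / Real.Gamma (((N : ℝ) / 2) ^ 2 + 1)) <
      aF ((N : ℝ) / 2) * MN ((N : ℝ) / 2) j q (fun a => 1 / (q a : ℝ)) := by
  obtain ⟨n, j, q, h1, h2⟩ := expl N hN
  have hN0 : (0 : ℝ) < N := by exact_mod_cast (by omega : 0 < N)
  refine ⟨n, j, q, h1, adm_const (by positivity) h1 (by positivity) ?_⟩
  rw [log_target (by omega)]
  exact h2

end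

end Pool.Agent.TH535
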