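import Pool.Agent.TH535.Expl4

set_option autoImplicit false
set_option linter.unusedSectionVars false

/-! The exponent five. -/

namespace Pool.Agent.TH535

open Finset Filter Topology
open Pool.Agent.H306R2 hiding fr

noncomputable section

/-- `N = 5` -/
lemma case5 : AdmN (5 / 2 : ℝ) 2 ![5] (fun a => 1 / ((![5] : Fin 1 → ℕ) a : ℝ)) ∧
    Real.log (4 / 5) < FF (5 / 2) 2 ![5] := by
  have e3 : ((2 : ℕ) : ℝ) = 2 := by norm_num
  have q0 : (((![5] : Fin 1 → ℕ) 0 : ℕ) : ℝ) = 5 := by simp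
  have hqp : ∀ a, 2 ≤ (![5] : Fin 1 → ℕ) a := by
    intro a
    fin_cases a
    simp
  have hs : ∑ a, 1 / ((![5] : Fin 1 → ℕ) a : ℝ) = ((5 / 2 : ℝ) - (2 : ℕ)) / (5 / 2) := by
    rw [Fin.sum_univ_one, q0]
    norm_num
  refine ⟨adm_of _ (by norm_num) (by norm_num) (by norm_num) hqp hs, ?_⟩
  have h4 : LG 4 = 3 * Real.log 2 + Real.log 3 := by
    unfold LG
    have : Real.Gamma (4 + 1) = 2 ^ 3 * 3 := by
      have := Real.Gamma_nat_eq_factorial 4
      norm_num [Nat.factorial] at this ⊢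
    rw [this, Real.log_mul (by norm_num) (by norm_num), Real.log_pow]
    push_cast
    ring
  have h2 : LG 2 = Real.log 2 := by
    unfold LG
    have : Real.Gamma (2 + 1) = 2 := by
      have := Real.Gamma_nat_eq_factorial 2
      norm_num [Nat.factorial] at this ⊢
    rw [this]
  have h1 : LG 1 = 0 := by
    unfold LG
    have : Real.Gamma (1 + 1) = 1 := by
      have := Real.Gamma_nat_eq_factorial 1
      norm_num [Nat.factorial] at this ⊢
    rw [this, Real.log_one]
  have h94 : LG (9 / 4) = 2 * Real.log 3 - 2 * Real.log 2 + LG (5 / 4) := by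
    unfold LG
    have hp : 0 < Real.Gamma (5 / 4 + 1) := Real.Gamma_pos_of_pos (by norm_num)
    rw [show (9 / 4 + 1 : ℝ) = (5 / 4 + 1) + 1 by norm_num, Real.Gamma_add_one (by norm_num),
      Real.log_mul (by norm_num) hp.ne', show (5 / 4 + 1 : ℝ) = 3 ^ 2 / 2 ^ 2 by norm_num,
      Real.log_div (by norm_num) (by norm_num), Real.log_pow, Real.log_pow]
    push_cast
    ring
  have h25 := LG_ge (x := 25 / 4) (by norm_num)
  unfold HH at h25
  have hLR : LR (5 / 2) 2 ![5] = 4 * (2 * Real.log 2 - Real.log 5) - Real.log 5 -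
      (2 * Real.log 3 - 2 * Real.log 2) - (2 * Real.log 2 + Real.log 3) := by
    unfold LR Ph
    rw [Fin.sum_univ_one, q0, e3]
    norm_num
    have g0 : Real.log (1 / 5 : ℝ) = -Real.log 5 := by rw [one_div, Real.log_inv]
    rw [h4, h2, h1, h94, g0, show (4 / 5 : ℝ) = 2 ^ 2 / 5 by norm_num,
      Real.log_div (by norm_num) (by norm_num), Real.log_pow]
    push_cast
    ring
  unfold FF
  rw [hLR, e3]
  have g1 : Real.log (25 / 4 : ℝ) = 2 * Real.log 5 - 2 * Real.log 2 := by
    rw [show (25 / 4 : ℝ) = 5 ^ 2 / 2 ^ 2 by norm_num, Real.log_div (by norm_num) (by norm_num),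
      Real.log_pow, Real.log_pow]
    push_cast
    ring
  have g2 : Real.log (2 * Real.pi * (25 / 4)) = Real.log Real.pi + 2 * Real.log 5 - Real.log 2 := by
    have hpi := Real.pi_pos
    rw [show 2 * Real.pi * (25 / 4) = Real.pi * 5 ^ 2 / 2 by ring, Real.log_div (by positivity) (by norm_num),
      Real.log_mul (by positivity) (by norm_num), Real.log_pow]
    push_cast
    ring
  have g3 : Real.log (4 / 5 : ℝ) = 2 * Real.log 2 - Real.log 5 := by
    rw [show (4 / 5 : ℝ) = 2 ^ 2 / 5 by norm_num, Real.log_div (by norm_num) (by norm_num), Real.log_pow]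
    push_cast
    ring
  rw [g1, g2] at h25
  rw [g3, show ((5 / 2 : ℝ)) ^ 2 = 25 / 4 by norm_num]
  have a1 := Real.log_two_gt_d9
  have a2 := Real.log_two_lt_d9
  have b1 := Real.log_three_gt_d9
  have b2 := Real.log_three_lt_d9
  have c1 := log_pi_gt
  have c2 := log_pi_lt
  have d1 := Real.log_five_gt_d9
  have d2 := Real.log_five_lt_d9
  norm_num at a1 a2 b1 b2 c1 c2 d1 d2 ⊢
  linarith

end

end Pool.Agent.TH535
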