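import Pool.Agent.TH535.Expl4

set_option autoImplicit false
set_option linter.unusedSectionVars false
set_option linter.unusedVariables false

/-! Explicit lower bounds for the constants: the second family of parameters. -/

namespace Pool.Agent.TH535

open Finset Filter Topology
open Pool.Agent.H306R2 hiding fr

noncomputable section

/-- lower bound for the growth exponent near `1 / 4` -/
lemma GG_ge4 {t : ℝ} (ht : 21 / 100 ≤ t) (ht2 : t ≤ 1 / 4) :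
    (38 * Real.log 2 - 15 * Real.log 5) / 4 ≤ GG t := by
  have ht0 : 0 < t := by linarith
  have a1 := Real.log_two_gt_d9
  have a2 := Real.log_two_lt_d9
  have d1 := Real.log_five_gt_d9
  have d2 := Real.log_five_lt_d9
  have h1 := Real.log_le_sub_one_of_pos (by positivity : 0 < 2 ^ 2 * t)
  rw [Real.log_mul (by norm_num) ht0.ne', Real.log_pow] at h1
  have h2 := Real.log_le_sub_one_of_pos (by positivity : 0 < 2 ^ 2 * (1 + t) / 5)
  rw [Real.log_div (by positivity) (by norm_num), Real.log_mul (by norm_num) (by positivity), Real.log_pow] at h2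
  push_cast at h1 h2
  unfold GG
  have h3 : t * Real.log t ≤ t * (4 * t - 1 - 2 * Real.log 2) := mul_le_mul_of_nonneg_left (by linarith) ht0.le
  have h4 : (1 - t ^ 2) / t * Real.log (1 + t) ≤
      (1 - t ^ 2) / t * (Real.log 5 - 2 * Real.log 2 + (4 * t - 1) / 5) := by
    refine mul_le_mul_of_nonneg_left (by linarith) ?_
    have : 0 ≤ 1 - t ^ 2 := by nlinarith
    positivity
  have h5 : 2 * (1 - t) * Real.log 2 - t * (4 * t - 1 - 2 * Real.log 2) -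
      (1 - t ^ 2) / t * (Real.log 5 - 2 * Real.log 2 + (4 * t - 1) / 5) -
      (38 * Real.log 2 - 15 * Real.log 5) / 4 =
      (1 - 4 * t) / (20 * t) * (16 * t ^ 2 + 4 - 5 * (4 + t) * (Real.log 5 - 2 * Real.log 2)) := by
    field_simp
    ring
  have h7 : (4 + t) * (Real.log 5 - 2 * Real.log 2) ≤ (4 + t) * 0.22315 :=
    mul_le_mul_of_nonneg_left (by norm_num at a1 d2 ⊢; linarith) (by linarith)
  have h6 : 0 ≤ (1 - 4 * t) / (20 * t) * (16 * t ^ 2 + 4 - 5 * (4 + t) * (Real.log 5 - 2 * Real.log 2)) := by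
    refine mul_nonneg (div_nonneg (by linarith) (by linarith)) ?_
    nlinarith
  linarith

lemma GGk4 {κ j : ℝ} (hκ : 0 < κ) (h1 : 21 / 100 * κ ≤ j) (h2 : 4 * j ≤ κ) :
    (38 * Real.log 2 - 15 * Real.log 5) / 4 * κ ^ 2 ≤ κ ^ 2 * GG (j / κ) := by
  have ht0 : 21 / 100 ≤ j / κ := by rw [le_div_iff₀ hκ]; exact h1
  have ht1 : j / κ ≤ 1 / 4 := by rw [div_le_iff₀ hκ]; linarith
  have h3 := mul_le_mul_of_nonneg_left (GG_ge4 ht0 ht1) (by positivity : 0 ≤ κ ^ 2)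
  linarith

/-- the second target -/
def TH (κ : ℝ) : ℝ := (38 * Real.log 2 - 15 * Real.log 5) / 4 * κ ^ 2 - 16 * Real.log κ

lemma sb4 {κ J : ℝ} (hJ : 0 < J) (h : 4 * J ≤ κ) : 1 / J + 1 / (κ + J) ≤ 6 / 5 * (1 / J) := by
  have : 1 / (κ + J) ≤ 1 / (5 * J) := one_div_le_one_div_of_le (by positivity) (by linarith)
  have e : 1 / (5 * J) = 1 / 5 * (1 / J) := by field_simp
  linarith

lemma tb4 {κ J : ℝ} (hJ : 0 < J) (h : 4 * J ≤ κ) :
    1 / (12 * J ^ 2) + 1 / (24 * J * (κ - J)) ≤ 7 / 72 * (1 / J) ^ 2 := by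
  have h1 : 1 / (24 * J * (κ - J)) ≤ 1 / (24 * J * (3 * J)) :=
    one_div_le_one_div_of_le (by positivity) (by nlinarith)
  have e : 1 / (12 * J ^ 2) + 1 / (24 * J * (3 * J)) = 7 / 72 * (1 / J) ^ 2 := by field_simp; ring
  linarith

lemma kb4 {κ J : ℝ} (hJ : 0 < J) (h : 4 * J ≤ κ) : 2 / (6 * κ) + 4 / (6 * κ) ≤ 1 / J / 4 := by
  rw [← add_div, div_div, div_le_div_iff₀ (by linarith) (by positivity)]
  nlinarith

/-- `k = 4 j + 0` -/
lemma caseC0 {κ : ℝ} {j : ℕ} (hj : 4 ≤ j) (hκ : κ = 4 * j) (q : Fin 2 → ℕ)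
    (hq : q = ![2, 4]) : AdmN κ j q (fun a => 1 / (q a : ℝ)) ∧ TH κ < FF κ j q := by
  have hJ : (4 : ℝ) ≤ j := by exact_mod_cast hj
  set J : ℝ := (j : ℝ) with hJd
  have hJ0 : 0 < J := by linarith
  have hκ0 : 0 < κ := by rw [hκ]; linarith
  have q0 : (q 0 : ℝ) = 2 := by rw [hq]; simp
  have q1 : (q 1 : ℝ) = 4 := by rw [hq]; simp
  have hs : ∑ a, 1 / (q a : ℝ) = (κ - J) / κ := by
    rw [Fin.sum_univ_two, q0, q1, hκ]
    field_simp
    ring
  have hqp : ∀ a, 2 ≤ q a := by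
    intro a
    rw [hq]
    fin_cases a <;> simp
  refine ⟨adm_of q (by norm_num) hκ0 (by omega) hqp hs, ?_⟩
  have hF := F_ge hκ0 q (by omega) (by rw [hκ]; linarith) (fun a => by have := hqp a; omega) hs
  rw [← hJd, lC hκ0] at hF
  have hG := GGk4 (κ := κ) (j := J) hκ0 (by rw [hκ]; linarith) (by rw [hκ])
  set u : ℝ := 1 / J with hu
  have hu0 : 0 < u := by positivity
  have hu2 : u ≤ 1 / 4 := one_div_le_one_div_of_le (by norm_num) hJ
  have huJ : u * J = 1 := by rw [hu]; field_simp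
  set L2 := Real.log 2 with hL2
  set L5 := Real.log 5 with hL5
  set Lpi := Real.log Real.pi with hLpi
  set Lj := Real.log J with hLj
  have a1 : 0.6931471803 < L2 := Real.log_two_gt_d9
  have a2 : L2 < 0.6931471808 := Real.log_two_lt_d9
  have b1 : 1.6094379123 < L5 := Real.log_five_gt_d9
  have b2 : L5 < 1.6094379126 := Real.log_five_lt_d9
  have c1 : 1.143 < Lpi := log_pi_gt
  have c2 : Lpi < 1.14582 := log_pi_lt
  have l4 : Real.log 4 = 2 * L2 := by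
    rw [show (4 : ℝ) = 2 ^ 2 by norm_num, Real.log_pow]
    push_cast
    rfl
  have hLj0 : 2 * L2 ≤ Lj := by
    rw [← l4]
    exact Real.log_le_log (by norm_num) hJ
  have hw : Lj * u ≤ 0.3679 := by
    have := mul_le_mul_of_nonneg_right (log_le_e hJ0) hu0.le
    rw [← hLj] at this
    nlinarith
  have hLk : 2 * L2 + Lj ≤ Real.log κ := by
    rw [← l4, hLj, ← Real.log_mul (by norm_num) hJ0.ne', hκ]
  have hLp : Real.log (κ + J) ≤ L5 + Lj := by
    rw [hL5, hLj, ← Real.log_mul (by norm_num) hJ0.ne', hκ]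
    refine le_of_eq (congrArg Real.log ?_)
    ring
  have hJκ : 4 * J ≤ κ := by rw [hκ]
  have hs1 := sb4 hJ0 hJκ
  have ht1 := tb4 hJ0 hJκ
  have hk1 := kb4 hJ0 hJκ
  rw [← hu] at hs1 ht1 hk1
  have hs0 : 0 ≤ 1 / J + 1 / (κ + J) := by positivity
  have hDD : DD κ j q ≤ 1 / 2 * (3 * Lpi + 3 * L5 - 3 * L2 + 6 * Lj) + 7 / 72 * u ^ 2 +
      6 / 5 * u * (u / 4 + 0) := by
    unfold DD
    rw [Fin.sum_univ_two, q0, q1, ← hJd, lA hκ0 hJ0, lB hκ0 hJ0 (by norm_num), lB hκ0 hJ0 (by norm_num), l4]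
    have f2 : (2 / (6 * κ) + 4 / (6 * κ)) * (1 / J + 1 / (κ + J)) ≤ u / 4 * (6 / 5 * u) :=
      mul_le_mul hk1 hs1 hs0 (by positivity)
    rw [add_mul] at f2
    linarith
  have hκJ : κ / J = 4 := by
    rw [hκ]
    field_simp
  have hm := mul_le_mul_of_nonneg_left hDD (by positivity : 0 ≤ κ / J)
  unfold TH FF
  refine lt_of_lt_of_le ?_ hF
  rw [hκJ] at hm ⊢
  have m2 : u ^ 2 ≤ 1 / 16 := le_trans (pow_le_pow_left₀ hu0.le hu2 2) (by norm_num)
  have m3 : u ^ 3 ≤ 1 / 64 := le_trans (pow_le_pow_left₀ hu0.le hu2 3) (by norm_num)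
  have h5 : (4) * (1 / 2 * (3 * Lpi + 3 * L5 - 3 * L2 + 6 * Lj) + 7 / 72 * u ^ 2 +
      6 / 5 * u * (u / 4 + 0)) < (L2 + Lpi) / 2 + 17 * (2 * L2 + Lj) := by
    have m1 : u * (3 * Lpi + 3 * L5 - 3 * L2) ≤ 1 / 4 * 6.1864 :=
      mul_le_mul hu2 (by linarith) (by linarith) (by norm_num)
    have h6 : (4) * (1 / 2 * (3 * Lpi + 3 * L5 - 3 * L2 + 6 * Lj) + 7 / 72 * u ^ 2 +
      6 / 5 * u * (u / 4 + 0)) =
      2 * (3 * Lpi + 3 * L5 - 3 * L2) + 12 * Lj + 0 * (u * (3 * Lpi + 3 * L5 - 3 * L2)) + 0 * (Lj * u) + 0 * u + 143/90 * u ^ 2 +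
      0 * u ^ 3 := by ring
    rw [h6]
    norm_num at a1 a2 b1 b2 c1 c2 hw m1
    linarith
  linarith

/-- `k = 4 j + 1` -/
lemma caseC1 {κ : ℝ} {j : ℕ} (hj : 4 ≤ j) (hκ : κ = 4 * j + 1) (q : Fin 3 → ℕ)
    (hq : q = ![2, 4, 16 * j + 4]) : AdmN κ j q (fun a => 1 / (q a : ℝ)) ∧ TH κ < FF κ j q := by
  have hJ : (4 : ℝ) ≤ j := by exact_mod_cast hj
  set J : ℝ := (j : ℝ) with hJd
  have hJ0 : 0 < J := by linarith
  have hκ0 : 0 < κ := by rw [hκ]; linarith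
  have q0 : (q 0 : ℝ) = 2 := by rw [hq]; simp
  have q1 : (q 1 : ℝ) = 4 := by rw [hq]; simp
  have q2 : (q 2 : ℝ) = 16 * J + 4 := by rw [hq]; simp [hJd]
  have hs : ∑ a, 1 / (q a : ℝ) = (κ - J) / κ := by
    rw [Fin.sum_univ_three, q0, q1, q2, hκ]
    field_simp
    ring
  have hqp : ∀ a, 2 ≤ q a := by
    intro a
    rw [hq]
    fin_cases a <;> simp
  refine ⟨adm_of q (by norm_num) hκ0 (by omega) hqp hs, ?_⟩
  have hF := F_ge hκ0 q (by omega) (by rw [hκ]; linarith) (fun a => by have := hqp a; omega) hs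
  rw [← hJd, lC hκ0] at hF
  have hG := GGk4 (κ := κ) (j := J) hκ0 (by rw [hκ]; linarith) (by rw [hκ]; linarith)
  set u : ℝ := 1 / J with hu
  have hu0 : 0 < u := by positivity
  have hu2 : u ≤ 1 / 4 := one_div_le_one_div_of_le (by norm_num) hJ
  have huJ : u * J = 1 := by rw [hu]; field_simp
  set L2 := Real.log 2 with hL2
  set L5 := Real.log 5 with hL5
  set Lpi := Real.log Real.pi with hLpi
  set Lj := Real.log J with hLj
  have a1 : 0.6931471803 < L2 := Real.log_two_gt_d9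
  have a2 : L2 < 0.6931471808 := Real.log_two_lt_d9
  have b1 : 1.6094379123 < L5 := Real.log_five_gt_d9
  have b2 : L5 < 1.6094379126 := Real.log_five_lt_d9
  have c1 : 1.143 < Lpi := log_pi_gt
  have c2 : Lpi < 1.14582 := log_pi_lt
  have l4 : Real.log 4 = 2 * L2 := by
    rw [show (4 : ℝ) = 2 ^ 2 by norm_num, Real.log_pow]
    push_cast
    rfl
  have hLj0 : 2 * L2 ≤ Lj := by
    rw [← l4]
    exact Real.log_le_log (by norm_num) hJ
  have hw : Lj * u ≤ 0.3679 := by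
    have := mul_le_mul_of_nonneg_right (log_le_e hJ0) hu0.le
    rw [← hLj] at this
    nlinarith
  have hLk : 2 * L2 + Lj ≤ Real.log κ := by
    rw [← l4, hLj, ← Real.log_mul (by norm_num) hJ0.ne']
    exact Real.log_le_log (by positivity) (by rw [hκ]; linarith)
  have hLp : Real.log (κ + J) ≤ L5 + Lj + 1 / 5 * u := by
    have h1 : κ + J = 5 * J * (1 + 1 / 5 * u) := by
      rw [hκ]
      linear_combination (-1 : ℝ) * huJ
    have h2 := Real.log_le_sub_one_of_pos (by positivity : 0 < 1 + 1 / 5 * u)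
    rw [h1, Real.log_mul (by positivity) (by positivity), Real.log_mul (by norm_num) hJ0.ne']
    linarith
  have hLq0 : Real.log (16 * J + 4) = 2 * L2 + Real.log κ := by
    rw [show 16 * J + 4 = 2 ^ 2 * κ by rw [hκ]; ring, Real.log_mul (by norm_num) hκ0.ne', Real.log_pow]
    push_cast
    ring
  have hJκ : 4 * J ≤ κ := by rw [hκ]; linarith
  have hs1 := sb4 hJ0 hJκ
  have ht1 := tb4 hJ0 hJκ
  have hk1 := kb4 hJ0 hJκ
  rw [← hu] at hs1 ht1 hk1
  have hs0 : 0 ≤ 1 / J + 1 / (κ + J) := by positivity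
  have hDD : DD κ j q ≤ 1 / 2 * (4 * Lpi + 5 * L5 - 8 * L2 + 7 * Lj + u) + 7 / 72 * u ^ 2 +
      6 / 5 * u * (u / 4 + 2 / 3) := by
    unfold DD
    rw [Fin.sum_univ_three, q0, q1, q2, ← hJd, lA hκ0 hJ0, lB hκ0 hJ0 (by norm_num), lB hκ0 hJ0 (by norm_num), lB hκ0 hJ0 (by positivity), l4, hLq0]
    have e0 : (16 * J + 4) / (6 * κ) = 2 / 3 := by
      rw [hκ, div_eq_div_iff (by positivity) (by norm_num)]
      ring
    rw [e0]
    have f2 : (2 / (6 * κ) + 4 / (6 * κ)) * (1 / J + 1 / (κ + J)) ≤ u / 4 * (6 / 5 * u) :=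
      mul_le_mul hk1 hs1 hs0 (by positivity)
    rw [add_mul] at f2
    linarith
  have hκJ : κ / J = 4 + u := by
    rw [hκ, hu]
    field_simp
  have hm := mul_le_mul_of_nonneg_left hDD (by positivity : 0 ≤ κ / J)
  unfold TH FF
  refine lt_of_lt_of_le ?_ hF
  rw [hκJ] at hm ⊢
  have m2 : u ^ 2 ≤ 1 / 16 := le_trans (pow_le_pow_left₀ hu0.le hu2 2) (by norm_num)
  have m3 : u ^ 3 ≤ 1 / 64 := le_trans (pow_le_pow_left₀ hu0.le hu2 3) (by norm_num)
  have h5 : (4 + u) * (1 / 2 * (4 * Lpi + 5 * L5 - 8 * L2 + 7 * Lj + u) + 7 / 72 * u ^ 2 +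
      6 / 5 * u * (u / 4 + 2 / 3)) < (L2 + Lpi) / 2 + 17 * (2 * L2 + Lj) := by
    have m1 : u * (4 * Lpi + 5 * L5 - 8 * L2) ≤ 1 / 4 * 7.0853 :=
      mul_le_mul hu2 (by linarith) (by linarith) (by norm_num)
    have h6 : (4 + u) * (1 / 2 * (4 * Lpi + 5 * L5 - 8 * L2 + 7 * Lj + u) + 7 / 72 * u ^ 2 +
      6 / 5 * u * (u / 4 + 2 / 3)) =
      2 * (4 * Lpi + 5 * L5 - 8 * L2) + 14 * Lj + 1/2 * (u * (4 * Lpi + 5 * L5 - 8 * L2)) + 7/2 * (Lj * u) + 26/5 * u + 26/9 * u ^ 2 +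
      143/360 * u ^ 3 := by ring
    rw [h6]
    norm_num at a1 a2 b1 b2 c1 c2 hw m1
    linarith
  linarith

/-- `k = 4 j + 2` -/
lemma caseC2 {κ : ℝ} {j : ℕ} (hj : 4 ≤ j) (hκ : κ = 4 * j + 2) (q : Fin 3 → ℕ)
    (hq : q = ![2, 4, 8 * j + 4]) : AdmN κ j q (fun a => 1 / (q a : ℝ)) ∧ TH κ < FF κ j q := by
  have hJ : (4 : ℝ) ≤ j := by exact_mod_cast hj
  set J : ℝ := (j : ℝ) with hJd
  have hJ0 : 0 < J := by linarith
  have hκ0 : 0 < κ := by rw [hκ]; linarith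
  have q0 : (q 0 : ℝ) = 2 := by rw [hq]; simp
  have q1 : (q 1 : ℝ) = 4 := by rw [hq]; simp
  have q2 : (q 2 : ℝ) = 8 * J + 4 := by rw [hq]; simp [hJd]
  have hs : ∑ a, 1 / (q a : ℝ) = (κ - J) / κ := by
    rw [Fin.sum_univ_three, q0, q1, q2, hκ]
    field_simp
    ring
  have hqp : ∀ a, 2 ≤ q a := by
    intro a
    rw [hq]
    fin_cases a <;> simp
  refine ⟨adm_of q (by norm_num) hκ0 (by omega) hqp hs, ?_⟩
  have hF := F_ge hκ0 q (by omega) (by rw [hκ]; linarith) (fun a => by have := hqp a; omega) hs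
  rw [← hJd, lC hκ0] at hF
  have hG := GGk4 (κ := κ) (j := J) hκ0 (by rw [hκ]; linarith) (by rw [hκ]; linarith)
  set u : ℝ := 1 / J with hu
  have hu0 : 0 < u := by positivity
  have hu2 : u ≤ 1 / 4 := one_div_le_one_div_of_le (by norm_num) hJ
  have huJ : u * J = 1 := by rw [hu]; field_simp
  set L2 := Real.log 2 with hL2
  set L5 := Real.log 5 with hL5
  set Lpi := Real.log Real.pi with hLpi
  set Lj := Real.log J with hLj
  have a1 : 0.6931471803 < L2 := Real.log_two_gt_d9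
  have a2 : L2 < 0.6931471808 := Real.log_two_lt_d9
  have b1 : 1.6094379123 < L5 := Real.log_five_gt_d9
  have b2 : L5 < 1.6094379126 := Real.log_five_lt_d9
  have c1 : 1.143 < Lpi := log_pi_gt
  have c2 : Lpi < 1.14582 := log_pi_lt
  have l4 : Real.log 4 = 2 * L2 := by
    rw [show (4 : ℝ) = 2 ^ 2 by norm_num, Real.log_pow]
    push_cast
    rfl
  have hLj0 : 2 * L2 ≤ Lj := by
    rw [← l4]
    exact Real.log_le_log (by norm_num) hJ
  have hw : Lj * u ≤ 0.3679 := by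
    have := mul_le_mul_of_nonneg_right (log_le_e hJ0) hu0.le
    rw [← hLj] at this
    nlinarith
  have hLk : 2 * L2 + Lj ≤ Real.log κ := by
    rw [← l4, hLj, ← Real.log_mul (by norm_num) hJ0.ne']
    exact Real.log_le_log (by positivity) (by rw [hκ]; linarith)
  have hLp : Real.log (κ + J) ≤ L5 + Lj + 2 / 5 * u := by
    have h1 : κ + J = 5 * J * (1 + 2 / 5 * u) := by
      rw [hκ]
      linear_combination (-2 : ℝ) * huJ
    have h2 := Real.log_le_sub_one_of_pos (by positivity : 0 < 1 + 2 / 5 * u)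
    rw [h1, Real.log_mul (by positivity) (by positivity), Real.log_mul (by norm_num) hJ0.ne']
    linarith
  have hLq0 : Real.log (8 * J + 4) = 1 * L2 + Real.log κ := by
    rw [show 8 * J + 4 = 2 ^ 1 * κ by rw [hκ]; ring, Real.log_mul (by norm_num) hκ0.ne', Real.log_pow]
    push_cast
    ring
  have hJκ : 4 * J ≤ κ := by rw [hκ]; linarith
  have hs1 := sb4 hJ0 hJκ
  have ht1 := tb4 hJ0 hJκ
  have hk1 := kb4 hJ0 hJκ
  rw [← hu] at hs1 ht1 hk1
  have hs0 : 0 ≤ 1 / J + 1 / (κ + J) := by positivity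
  have hDD : DD κ j q ≤ 1 / 2 * (4 * Lpi + 5 * L5 - 7 * L2 + 7 * Lj + 2 * u) + 7 / 72 * u ^ 2 +
      6 / 5 * u * (u / 4 + 1 / 3) := by
    unfold DD
    rw [Fin.sum_univ_three, q0, q1, q2, ← hJd, lA hκ0 hJ0, lB hκ0 hJ0 (by norm_num), lB hκ0 hJ0 (by norm_num), lB hκ0 hJ0 (by positivity), l4, hLq0]
    have e0 : (8 * J + 4) / (6 * κ) = 1 / 3 := by
      rw [hκ, div_eq_div_iff (by positivity) (by norm_num)]
      ring
    rw [e0]
    have f2 : (2 / (6 * κ) + 4 / (6 * κ)) * (1 / J + 1 / (κ + J)) ≤ u / 4 * (6 / 5 * u) :=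
      mul_le_mul hk1 hs1 hs0 (by positivity)
    rw [add_mul] at f2
    linarith
  have hκJ : κ / J = 4 + 2 * u := by
    rw [hκ, hu]
    field_simp
  have hm := mul_le_mul_of_nonneg_left hDD (by positivity : 0 ≤ κ / J)
  unfold TH FF
  refine lt_of_lt_of_le ?_ hF
  rw [hκJ] at hm ⊢
  have m2 : u ^ 2 ≤ 1 / 16 := le_trans (pow_le_pow_left₀ hu0.le hu2 2) (by norm_num)
  have m3 : u ^ 3 ≤ 1 / 64 := le_trans (pow_le_pow_left₀ hu0.le hu2 3) (by norm_num)
  have h5 : (4 + 2 * u) * (1 / 2 * (4 * Lpi + 5 * L5 - 7 * L2 + 7 * Lj + 2 * u) + 7 / 72 * u ^ 2 +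
      6 / 5 * u * (u / 4 + 1 / 3)) < (L2 + Lpi) / 2 + 17 * (2 * L2 + Lj) := by
    have m1 : u * (4 * Lpi + 5 * L5 - 7 * L2) ≤ 1 / 4 * 7.7785 :=
      mul_le_mul hu2 (by linarith) (by linarith) (by norm_num)
    have h6 : (4 + 2 * u) * (1 / 2 * (4 * Lpi + 5 * L5 - 7 * L2 + 7 * Lj + 2 * u) + 7 / 72 * u ^ 2 +
      6 / 5 * u * (u / 4 + 1 / 3)) =
      2 * (4 * Lpi + 5 * L5 - 7 * L2) + 14 * Lj + 1 * (u * (4 * Lpi + 5 * L5 - 7 * L2)) + 7 * (Lj * u) + 28/5 * u + 79/18 * u ^ 2 +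
      143/180 * u ^ 3 := by ring
    rw [h6]
    norm_num at a1 a2 b1 b2 c1 c2 hw m1
    linarith
  linarith

/-- `k = 4 j + 3` -/
lemma caseC3 {κ : ℝ} {j : ℕ} (hj : 4 ≤ j) (hκ : κ = 4 * j + 3) (q : Fin 4 → ℕ)
    (hq : q = ![2, 4, 8 * j + 6, 16 * j + 12]) : AdmN κ j q (fun a => 1 / (q a : ℝ)) ∧ TH κ < FF κ j q := by
  have hJ : (4 : ℝ) ≤ j := by exact_mod_cast hj
  set J : ℝ := (j : ℝ) with hJd
  have hJ0 : 0 < J := by linarith
  have hκ0 : 0 < κ := by rw [hκ]; linarith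
  have q0 : (q 0 : ℝ) = 2 := by rw [hq]; simp
  have q1 : (q 1 : ℝ) = 4 := by rw [hq]; simp
  have q2 : (q 2 : ℝ) = 8 * J + 6 := by rw [hq]; simp [hJd]
  have q3 : (q 3 : ℝ) = 16 * J + 12 := by rw [hq]; simp [hJd]
  have hs : ∑ a, 1 / (q a : ℝ) = (κ - J) / κ := by
    rw [Fin.sum_univ_four, q0, q1, q2, q3, hκ]
    field_simp
    ring
  have hqp : ∀ a, 2 ≤ q a := by
    intro a
    rw [hq]
    fin_cases a <;> simp
  refine ⟨adm_of q (by norm_num) hκ0 (by omega) hqp hs, ?_⟩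
  have hF := F_ge hκ0 q (by omega) (by rw [hκ]; linarith) (fun a => by have := hqp a; omega) hs
  rw [← hJd, lC hκ0] at hF
  have hG := GGk4 (κ := κ) (j := J) hκ0 (by rw [hκ]; linarith) (by rw [hκ]; linarith)
  set u : ℝ := 1 / J with hu
  have hu0 : 0 < u := by positivity
  have hu2 : u ≤ 1 / 4 := one_div_le_one_div_of_le (by norm_num) hJ
  have huJ : u * J = 1 := by rw [hu]; field_simp
  set L2 := Real.log 2 with hL2
  set L5 := Real.log 5 with hL5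
  set Lpi := Real.log Real.pi with hLpi
  set Lj := Real.log J with hLj
  have a1 : 0.6931471803 < L2 := Real.log_two_gt_d9
  have a2 : L2 < 0.6931471808 := Real.log_two_lt_d9
  have b1 : 1.6094379123 < L5 := Real.log_five_gt_d9
  have b2 : L5 < 1.6094379126 := Real.log_five_lt_d9
  have c1 : 1.143 < Lpi := log_pi_gt
  have c2 : Lpi < 1.14582 := log_pi_lt
  have l4 : Real.log 4 = 2 * L2 := by
    rw [show (4 : ℝ) = 2 ^ 2 by norm_num, Real.log_pow]
    push_cast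
    rfl
  have hLj0 : 2 * L2 ≤ Lj := by
    rw [← l4]
    exact Real.log_le_log (by norm_num) hJ
  have hw : Lj * u ≤ 0.3679 := by
    have := mul_le_mul_of_nonneg_right (log_le_e hJ0) hu0.le
    rw [← hLj] at this
    nlinarith
  have hLk : 2 * L2 + Lj + 63 / 100 * u ≤ Real.log κ := by
    have h1 : κ = 4 * J * (1 + 3 / 4 * u) := by
      rw [hκ]
      linear_combination (-3 : ℝ) * huJ
    have h2 := lb_log (by positivity : 0 < 1 + 3 / 4 * u)
    rw [h1, Real.log_mul (by positivity) (by positivity), Real.log_mul (by norm_num) hJ0.ne', l4]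
    have h3 : 63 / 100 * u ≤ 1 - 1 / (1 + 3 / 4 * u) := by
      have e : 1 - 1 / (1 + 3 / 4 * u) = (3 / 4 * u) / (1 + 3 / 4 * u) := by
        field_simp
        ring
      rw [e, le_div_iff₀ (by positivity)]
      nlinarith
    linarith
  have hLp : Real.log (κ + J) ≤ L5 + Lj + 3 / 5 * u := by
    have h1 : κ + J = 5 * J * (1 + 3 / 5 * u) := by
      rw [hκ]
      linear_combination (-3 : ℝ) * huJ
    have h2 := Real.log_le_sub_one_of_pos (by positivity : 0 < 1 + 3 / 5 * u)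
    rw [h1, Real.log_mul (by positivity) (by positivity), Real.log_mul (by norm_num) hJ0.ne']
    linarith
  have hLq0 : Real.log (8 * J + 6) = 1 * L2 + Real.log κ := by
    rw [show 8 * J + 6 = 2 ^ 1 * κ by rw [hκ]; ring, Real.log_mul (by norm_num) hκ0.ne', Real.log_pow]
    push_cast
    ring
  have hLq1 : Real.log (16 * J + 12) = 2 * L2 + Real.log κ := by
    rw [show 16 * J + 12 = 2 ^ 2 * κ by rw [hκ]; ring, Real.log_mul (by norm_num) hκ0.ne', Real.log_pow]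
    push_cast
    ring
  have hJκ : 4 * J ≤ κ := by rw [hκ]; linarith
  have hs1 := sb4 hJ0 hJκ
  have ht1 := tb4 hJ0 hJκ
  have hk1 := kb4 hJ0 hJκ
  rw [← hu] at hs1 ht1 hk1
  have hs0 : 0 ≤ 1 / J + 1 / (κ + J) := by positivity
  have hDD : DD κ j q ≤ 1 / 2 * (5 * Lpi + 7 * L5 - 12 * L2 + 8 * Lj + 147 / 50 * u) + 7 / 72 * u ^ 2 +
      6 / 5 * u * (u / 4 + 1) := by
    unfold DD
    rw [Fin.sum_univ_four, q0, q1, q2, q3, ← hJd, lA hκ0 hJ0, lB hκ0 hJ0 (by norm_num), lB hκ0 hJ0 (by norm_num), lB hκ0 hJ0 (by positivity), lB hκ0 hJ0 (by positivity), l4, hLq0, hLq1]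
    have e0 : (8 * J + 6) / (6 * κ) = 1 / 3 := by
      rw [hκ, div_eq_div_iff (by positivity) (by norm_num)]
      ring
    have e1 : (16 * J + 12) / (6 * κ) = 2 / 3 := by
      rw [hκ, div_eq_div_iff (by positivity) (by norm_num)]
      ring
    rw [e0, e1]
    have f2 : (2 / (6 * κ) + 4 / (6 * κ)) * (1 / J + 1 / (κ + J)) ≤ u / 4 * (6 / 5 * u) :=
      mul_le_mul hk1 hs1 hs0 (by positivity)
    rw [add_mul] at f2
    linarith
  have hκJ : κ / J = 4 + 3 * u := by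
    rw [hκ, hu]
    field_simp
  have hm := mul_le_mul_of_nonneg_left hDD (by positivity : 0 ≤ κ / J)
  unfold TH FF
  refine lt_of_lt_of_le ?_ hF
  rw [hκJ] at hm ⊢
  have m2 : u ^ 2 ≤ 1 / 16 := le_trans (pow_le_pow_left₀ hu0.le hu2 2) (by norm_num)
  have m3 : u ^ 3 ≤ 1 / 64 := le_trans (pow_le_pow_left₀ hu0.le hu2 3) (by norm_num)
  have h5 : (4 + 3 * u) * (1 / 2 * (5 * Lpi + 7 * L5 - 12 * L2 + 8 * Lj + 147 / 50 * u) + 7 / 72 * u ^ 2 +
      6 / 5 * u * (u / 4 + 1)) < (L2 + Lpi) / 2 + 17 * (2 * L2 + Lj + 63 / 100 * u) := by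
    have m1 : u * (5 * Lpi + 7 * L5 - 12 * L2) ≤ 1 / 4 * 8.6774 :=
      mul_le_mul hu2 (by linarith) (by linarith) (by norm_num)
    have h6 : (4 + 3 * u) * (1 / 2 * (5 * Lpi + 7 * L5 - 12 * L2 + 8 * Lj + 147 / 50 * u) + 7 / 72 * u ^ 2 +
      6 / 5 * u * (u / 4 + 1)) =
      2 * (5 * Lpi + 7 * L5 - 12 * L2) + 16 * Lj + 3/2 * (u * (5 * Lpi + 7 * L5 - 12 * L2)) + 12 * (Lj * u) + 267/25 * u + 8639/900 * u ^ 2 +
      143/120 * u ^ 3 := by ring
    rw [h6]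
    norm_num at a1 a2 b1 b2 c1 c2 hw m1
    linarith
  linarith

end

end Pool.Agent.TH535
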