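import Pool.Agent.TH535.Expl6

set_option autoImplicit false
set_option linter.unusedSectionVars false

/-! Explicit lower bounds for the constants: integral exponents. -/

namespace Pool.Agent.TH535

open Finset Filter Topology
open Pool.Agent.H306R2 hiding fr

noncomputable section

theorem explC (k : ℕ) (hk : 17 ≤ k) : ∃ (n j : ℕ) (q : Fin n → ℕ),
    AdmN (k : ℝ) j q (fun a => 1 / (q a : ℝ)) ∧ TH (k : ℝ) < FF (k : ℝ) j q := by
  have h4 : k = 4 * (k / 4) + k % 4 := by omega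
  have hr : k % 4 < 4 := Nat.mod_lt _ (by norm_num)
  set j := k / 4 with hj
  have hj2 : 4 ≤ j := by omega
  interval_cases hm : k % 4
  · exact ⟨2, j, ![2, 4], caseC0 hj2 (by rw [h4]; push_cast; ring) _ rfl⟩
  · exact ⟨3, j, ![2, 4, 16 * j + 4], caseC1 hj2 (by rw [h4]; push_cast; ring) _ rfl⟩
  · exact ⟨3, j, ![2, 4, 8 * j + 4], caseC2 hj2 (by rw [h4]; push_cast; ring) _ rfl⟩
  · exact ⟨4, j, ![2, 4, 8 * j + 6, 16 * j + 12], caseC3 hj2 (by rw [h4]; push_cast; ring) _ rfl⟩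

/-- comparison of the two targets for small exponents -/
lemma TH_le (k : ℕ) (h1 : 5 ≤ k) (h2 : k ≤ 16) : TH (k : ℝ) ≤ TG (k : ℝ) := by
  unfold TH TG
  have hk0 : (0 : ℝ) < k := by exact_mod_cast (by omega : 0 < k)
  rw [Real.log_mul (by norm_num) hk0.ne']
  have a1 := Real.log_two_gt_d9
  have a2 := Real.log_two_lt_d9
  have b1 := Real.log_three_gt_d9
  have b2 := Real.log_three_lt_d9
  have d1 := Real.log_five_gt_d9
  have d2 := Real.log_five_lt_d9
  obtain ⟨f1, f2⟩ := log_seven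
  obtain ⟨g1, g2⟩ := log_eleven
  obtain ⟨i1, i2⟩ := log_thirteen
  have l4 : Real.log 4 = 2 * Real.log 2 := by
    rw [show (4 : ℝ) = 2 ^ 2 by norm_num, Real.log_pow]; push_cast; ring
  have l6 : Real.log 6 = Real.log 2 + Real.log 3 := by
    rw [show (6 : ℝ) = 2 * 3 by norm_num, Real.log_mul (by norm_num) (by norm_num)]
  have l8 : Real.log 8 = 3 * Real.log 2 := by
    rw [show (8 : ℝ) = 2 ^ 3 by norm_num, Real.log_pow]; push_cast; ring
  have l9 : Real.log 9 = 2 * Real.log 3 := by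
    rw [show (9 : ℝ) = 3 ^ 2 by norm_num, Real.log_pow]; push_cast; ring
  have l10 : Real.log 10 = Real.log 2 + Real.log 5 := by
    rw [show (10 : ℝ) = 2 * 5 by norm_num, Real.log_mul (by norm_num) (by norm_num)]
  have l12 : Real.log 12 = 2 * Real.log 2 + Real.log 3 := by
    rw [show (12 : ℝ) = 2 ^ 2 * 3 by norm_num, Real.log_mul (by norm_num) (by norm_num), Real.log_pow]
    push_cast; ring
  have l14 : Real.log 14 = Real.log 2 + Real.log 7 := by
    rw [show (14 : ℝ) = 2 * 7 by norm_num, Real.log_mul (by norm_num) (by norm_num)]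
  have l15 : Real.log 15 = Real.log 3 + Real.log 5 := by
    rw [show (15 : ℝ) = 3 * 5 by norm_num, Real.log_mul (by norm_num) (by norm_num)]
  have l16 : Real.log 16 = 4 * Real.log 2 := by
    rw [show (16 : ℝ) = 2 ^ 4 by norm_num, Real.log_pow]; push_cast; ring
  norm_num at a1 a2 b1 b2 d1 d2 f1 f2 g1 g2 i1 i2
  interval_cases k
  all_goals push_cast
  all_goals first
    | linarith
    | (rw [l6]; linarith)
    | (rw [l8]; linarith)
    | (rw [l9]; linarith)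
    | (rw [l10]; linarith)
    | (rw [l12]; linarith)
    | (rw [l14]; linarith)
    | (rw [l15]; linarith)
    | (rw [l16]; linarith)

lemma log_targetA {k : ℕ} (hk : 0 < k) :
    Real.log ((4 / 3) ^ (3 * (k : ℝ) ^ 2 / 2) / (2 * (k : ℝ)) ^ 4) = TG (k : ℝ) := by
  have hk0 : (0 : ℝ) < k := by exact_mod_cast hk
  unfold TG
  rw [Real.log_div (by positivity) (by positivity), Real.log_rpow (by norm_num), Real.log_pow,
    Real.log_div (by norm_num) (by norm_num), show (4 : ℝ) = 2 ^ 2 by norm_num, Real.log_pow]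
  push_cast
  ring

lemma log_targetB {k : ℕ} (hk : 0 < k) :
    Real.log ((2 ^ 38 / 5 ^ 15) ^ ((k : ℝ) ^ 2 / 4) / (k : ℝ) ^ 16) = TH (k : ℝ) := by
  have hk0 : (0 : ℝ) < k := by exact_mod_cast hk
  unfold TH
  rw [Real.log_div (by positivity) (by positivity), Real.log_rpow (by norm_num), Real.log_pow,
    Real.log_div (by norm_num) (by norm_num), Real.log_pow, Real.log_pow]
  push_cast
  ring

/-- explicit parameters for every integral exponent `k ≥ 5` -/
theorem explK (k : ℕ) (hk : 5 ≤ k) : ∃ (n j : ℕ) (q : Fin n → ℕ),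
    AdmN (k : ℝ) j q (fun a => 1 / (q a : ℝ)) ∧
    max ((4 / 3) ^ (3 * (k : ℝ) ^ 2 / 2) / (2 * (k : ℝ)) ^ 4)
      ((2 ^ 38 / 5 ^ 15) ^ ((k : ℝ) ^ 2 / 4) / (k : ℝ) ^ 16) * (aF (k : ℝ) / Real.Gamma ((k : ℝ) ^ 2 + 1)) <
      aF (k : ℝ) * MN (k : ℝ) j q (fun a => 1 / (q a : ℝ)) := by
  have hk0 : (0 : ℝ) < k := by exact_mod_cast (by omega : 0 < k)
  have hA : ∃ (n j : ℕ) (q : Fin n → ℕ), AdmN (k : ℝ) j q (fun a => 1 / (q a : ℝ)) ∧
      TG (k : ℝ) < FF (k : ℝ) j q := by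
    have h := expl (2 * k) (by omega)
    have e : ((2 * k : ℕ) : ℝ) / 2 = (k : ℝ) := by push_cast; ring
    rwa [e] at h
  have h1 : (0 : ℝ) < (4 / 3) ^ (3 * (k : ℝ) ^ 2 / 2) / (2 * (k : ℝ)) ^ 4 := by positivity
  have h2 : (0 : ℝ) < (2 ^ 38 / 5 ^ 15) ^ ((k : ℝ) ^ 2 / 4) / (k : ℝ) ^ 16 := by positivity
  rcases le_total ((2 ^ 38 / 5 ^ 15) ^ ((k : ℝ) ^ 2 / 4) / (k : ℝ) ^ 16)
      ((4 / 3) ^ (3 * (k : ℝ) ^ 2 / 2) / (2 * (k : ℝ)) ^ 4) with h | h
  · obtain ⟨n, j, q, hA1, hA2⟩ := hA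
    rw [max_eq_left h]
    exact ⟨n, j, q, hA1, adm_const hk0 hA1 h1 (by rw [log_targetA (by omega)]; exact hA2)⟩
  · rw [max_eq_right h]
    by_cases h17 : 17 ≤ k
    · obtain ⟨n, j, q, hA1, hA2⟩ := explC k h17
      exact ⟨n, j, q, hA1, adm_const hk0 hA1 h2 (by rw [log_targetB (by omega)]; exact hA2)⟩
    · obtain ⟨n, j, q, hA1, hA2⟩ := hA
      refine ⟨n, j, q, hA1, adm_const hk0 hA1 h2 ?_⟩
      rw [log_targetB (by omega)]
      exact lt_of_le_of_lt (TH_le k hk (by omega)) hA2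

end

end Pool.Agent.TH535
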