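import Pool.Agent.TH535.Master
import Pool.Agent.H379R2.StirR

set_option autoImplicit false
set_option linter.unusedSectionVars false

/-! Growth of the constants. -/

namespace Pool.Agent.TH535

open Finset Filter Topology

noncomputable section

/-- `log Γ(x+1)` -/
def LG (x : ℝ) : ℝ := Real.log (Real.Gamma (x + 1))

/-- `x log x - x` -/
def HH (x : ℝ) : ℝ := x * Real.log x - x

lemma HH_cont : Continuous HH := by
  unfold HH
  exact Real.continuous_mul_log.sub continuous_id

lemma LG_bd {x : ℝ} (hx : 1 ≤ x) : |LG x - HH x| ≤ Real.log x + 2 := by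
  have h1 := H379R2.StirR.log_gamma_ge (by linarith : 0 < x)
  have h2 := H379R2.StirR.log_gamma_le (by linarith : 0 < x)
  have h0 : 0 ≤ Real.log x := Real.log_nonneg hx
  have hpi : Real.log (2 * Real.pi * x) = Real.log (2 * Real.pi) + Real.log x :=
    Real.log_mul (by positivity) (by linarith)
  have h3 : 0 ≤ Real.log (2 * Real.pi) := Real.log_nonneg (by nlinarith [Real.pi_gt_three])
  have h4 : Real.log (2 * Real.pi) ≤ 2 := by
    rw [Real.log_le_iff_le_exp (by positivity)]
    have h5 := Real.exp_one_gt_d9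
    have h6 : Real.exp 2 = Real.exp 1 * Real.exp 1 := by rw [← Real.exp_add]; norm_num
    rw [h6]
    nlinarith [Real.pi_lt_d2]
  have h5 : 1 / (12 * x) ≤ 1 := by
    rw [div_le_one (by positivity)]
    linarith
  unfold LG HH
  rw [abs_le]
  constructor <;> linarith

/-- the basic limit -/
lemma LG_lim {ξ K : ℕ → ℝ} {x : ℝ} (hK : Tendsto K atTop atTop) (hξ : Tendsto ξ atTop (𝓝 x))
    (h1 : ∀ᶠ N in atTop, 1 ≤ ξ N * K N) (h0 : ∀ᶠ N in atTop, 0 < ξ N) :
    Tendsto (fun N => LG (ξ N * K N) / K N - ξ N * Real.log (K N)) atTop (𝓝 (HH x)) := by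
  have e1 : Tendsto (fun N => (LG (ξ N * K N) - HH (ξ N * K N)) / K N) atTop (𝓝 0) := by
    have h2 : Tendsto (fun N => (Real.log (ξ N * K N) + 2) / K N) atTop (𝓝 0) := by
      have h3 : Tendsto (fun N => Real.log (K N) / K N) atTop (𝓝 0) := by
        have h := Real.isLittleO_log_id_atTop.tendsto_div_nhds_zero
        exact h.comp hK
      have h4 : Tendsto (fun N => (x + 3) / K N) atTop (𝓝 0) := by
        have h := (tendsto_const_nhds (x := x + 3) (f := atTop)).div_atTop hK
        exact h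
      have h5 := h3.add h4
      rw [add_zero] at h5
      refine squeeze_zero' ?_ ?_ h5
      · filter_upwards [h1, hK.eventually_gt_atTop 0] with N hN hN2
        have := Real.log_nonneg hN
        positivity
      · filter_upwards [h1, h0, hK.eventually_gt_atTop 0, hξ.eventually_lt_const (lt_add_one x)]
          with N hN hN0 hN2 hN3
        rw [← add_div]
        refine div_le_div_of_nonneg_right ?_ hN2.le
        rw [Real.log_mul hN0.ne' hN2.ne']
        have := Real.log_le_sub_one_of_pos hN0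
        linarith
    rw [tendsto_zero_iff_abs_tendsto_zero]
    refine squeeze_zero' (Eventually.of_forall fun N => abs_nonneg _) ?_ h2
    filter_upwards [h1, hK.eventually_gt_atTop 0] with N hN hN2
    simp only [Function.comp]
    rw [abs_div, abs_of_pos hN2]
    gcongr
    exact LG_bd hN
  have e2 : Tendsto (fun N => HH (ξ N)) atTop (𝓝 (HH x)) := (HH_cont.tendsto x).comp hξ
  have e3 := e1.add e2
  rw [zero_add] at e3
  refine e3.congr' ?_
  filter_upwards [h0, hK.eventually_gt_atTop 0] with N hN0 hN2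
  unfold HH
  rw [Real.log_mul hN0.ne' hN2.ne']
  field_simp
  ring

/-- the growth exponent -/
def GG (t : ℝ) : ℝ :=
  2 * (1 - t) * Real.log 2 - t * Real.log t - (1 - t ^ 2) / t * Real.log (1 + t)

/-- contribution of one factor to the logarithm of the constant -/
def Ph (κ : ℝ) (j : ℕ) (q : ℝ) : ℝ :=
  -(κ ^ 2 / q) * Real.log q + 2 * LG (2 * j * κ / q) + LG (κ ^ 2 / q) - 2 * LG (j * κ / q) -
    2 * LG ((κ + j) * κ / q)

/-- the logarithm of the constant without the power -/
def LR (κ : ℝ) {n : ℕ} (j : ℕ) (q : Fin n → ℕ) : ℝ :=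
  (j : ℝ) ^ 2 * Real.log (j / κ) - (κ - j) ^ 2 * Real.log ((κ - j) / κ) + LG ((κ + j) * (κ - j)) -
    LG ((j : ℝ) ^ 2) - LG (2 * j * (κ - j)) + ∑ a, Ph κ j (q a)

lemma log_Gamma {x : ℝ} : Real.log (Real.Gamma (x + 1)) = LG x := rfl

lemma MN_eq {κ : ℝ} (hκ0 : 0 < κ) {n j : ℕ} {q : Fin n → ℕ} (hA : AdmN κ j q (fun a => 1 / (q a : ℝ))) :
    MN κ j q (fun a => 1 / (q a : ℝ)) = Real.exp (κ / j * LR κ j q) := by
  have hj0 := hA.j0
  have hq0 := hA.q0
  have hi0 := hA.i0 hκ0
  have he := hA.e0 hκ0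
  have hθ : ∑ a, 1 / (q a : ℝ) = (κ - j) / κ := by
    have := hA.hsum
    rw [eq_div_iff hκ0.ne']
    have h2 : (j : ℝ) / κ * κ = j := by field_simp
    nlinarith
  have hα : 1 - ∑ a, 1 / (q a : ℝ) = j / κ := by
    rw [hθ]
    field_simp
    ring
  have hei := hA.eie hκ0
  have G1 : 0 < Real.Gamma ((j : ℝ) ^ 2 + 1) := Real.Gamma_pos_of_pos (by positivity)
  have G2 : 0 < Real.Gamma ((j : ℝ) * (κ - j) + 1) := Real.Gamma_pos_of_pos (by positivity)
  have G3 : 0 < Real.Gamma (2 * (j : ℝ) * (κ - j) + 1) := Real.Gamma_pos_of_pos (by positivity)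
  have G4 : 0 < Real.Gamma ((κ + j) * (κ - j) + 1) := Real.Gamma_pos_of_pos (by positivity)
  have P1 : ∀ a, 0 < Real.Gamma (2 * j * κ / (q a) + 1) := fun a =>
    Real.Gamma_pos_of_pos (by have := hq0 a; positivity)
  have P2 : ∀ a, 0 < Real.Gamma (κ ^ 2 / (q a) + 1) := fun a =>
    Real.Gamma_pos_of_pos (by have := hq0 a; positivity)
  have P3 : ∀ a, 0 < Real.Gamma (j * κ / (q a) + 1) := fun a =>
    Real.Gamma_pos_of_pos (by have := hq0 a; positivity)
  have P4 : ∀ a, 0 < Real.Gamma ((κ + j) * κ / (q a) + 1) := fun a =>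
    Real.Gamma_pos_of_pos (by have := hq0 a; positivity)
  have hjκ : 0 < (j : ℝ) / κ := by positivity
  have hiκ : 0 < (κ - j) / κ := by positivity
  unfold MN
  rw [hα, hθ]
  set VN := VL j (fun a => κ / (q a : ℝ)) (j / κ) (fun a => 1 / (q a : ℝ)) with hVN
  set VS := Vn j (κ - j) (j / κ) ((κ - j) / κ) with hVS
  set VP := ∏ a, ((1 / (q a : ℝ)) ^ (κ ^ 2 / (q a)) / Real.Gamma (κ ^ 2 / (q a) + 1)) with hVP
  have hVN0 : 0 < VN := VL_pos hA.hj he hA.hn hjκ (fun a => by have := hq0 a; positivity)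
  have hVS0 : 0 < VS := VL_pos hA.hj (fun _ => hi0) one_pos hjκ (fun _ => hiκ)
  have hVP0 : 0 < VP := prod_pos fun a _ => by
      have := P2 a
      have := hq0 a
      positivity
  -- logarithms
  have A1 : Real.log VN = (j : ℝ) ^ 2 * Real.log (j / κ) - LG ((j : ℝ) ^ 2) - LG ((j : ℝ) * (κ - j)) +
      ∑ a, ((j * κ / (q a)) * (Real.log ((κ - j) / κ) + Real.log (q a)) - LG (j * κ / (q a)) -
        ((κ + j) * κ / (q a)) * Real.log (q a) + LG (2 * j * κ / (q a)) - LG ((κ + j) * κ / (q a))) := by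
    have hVL : VN =
      (j / κ) ^ ((j : ℝ) ^ 2) / Real.Gamma ((j : ℝ) ^ 2 + 1) * (1 / Real.Gamma ((j : ℝ) * (κ - j) + 1)) *
      ∏ a, (((κ - j) / κ * q a) ^ (j * κ / (q a)) / Real.Gamma (j * κ / (q a) + 1) *
      ((1 / (q a : ℝ)) ^ ((κ + j) * κ / (q a)) * Real.Gamma (2 * j * κ / (q a) + 1) /
        Real.Gamma ((κ + j) * κ / (q a) + 1))) := by
      rw [hVN]
      unfold VL
      rw [hei]
      congr 1
      refine prod_congr rfl fun a _ => ?_
      rw [show (j : ℝ) * (κ / q a) = j * κ / q a by ring,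
        show (κ - j + 2 * j) * (κ / (q a : ℝ)) = (κ + j) * κ / q a by ring,
        show 2 * (j : ℝ) * (κ / q a) = 2 * j * κ / q a by ring,
        show (κ - j) / (κ / (q a : ℝ)) = (κ - j) / κ * q a by
          have := hq0 a
          field_simp]
    have hf : ∀ a, 0 < (((κ - j) / κ * q a) ^ (j * κ / (q a)) / Real.Gamma (j * κ / (q a) + 1) *
      ((1 / (q a : ℝ)) ^ ((κ + j) * κ / (q a)) * Real.Gamma (2 * j * κ / (q a) + 1) /
        Real.Gamma ((κ + j) * κ / (q a) + 1))) := fun a => by
      have := P1 a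
      have := P3 a
      have := P4 a
      have := hq0 a
      positivity
    rw [hVL, Real.log_mul (by positivity) (prod_pos fun a _ => hf a).ne',
      Real.log_mul (by positivity) (by positivity), Real.log_div (by positivity) (by positivity),
      Real.log_div one_ne_zero (by positivity), Real.log_one, Real.log_rpow hjκ,
      Real.log_prod fun a _ => (hf a).ne', log_Gamma, log_Gamma]
    have e1 : ∀ a, Real.log ((((κ - j) / κ * q a) ^ (j * κ / (q a)) / Real.Gamma (j * κ / (q a) + 1) *
      ((1 / (q a : ℝ)) ^ ((κ + j) * κ / (q a)) * Real.Gamma (2 * j * κ / (q a) + 1) /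
        Real.Gamma ((κ + j) * κ / (q a) + 1)))) =
        ((j * κ / (q a)) * (Real.log ((κ - j) / κ) + Real.log (q a)) - LG (j * κ / (q a)) -
        ((κ + j) * κ / (q a)) * Real.log (q a) + LG (2 * j * κ / (q a)) - LG ((κ + j) * κ / (q a))) := by
      intro a
      have p1 := P1 a
      have p3 := P3 a
      have p4 := P4 a
      have p0 := hq0 a
      rw [Real.log_mul (by positivity) (by positivity), Real.log_div (by positivity) (by positivity),
        Real.log_div (by positivity) (by positivity), Real.log_mul (by positivity) (by positivity),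
        Real.log_rpow (by positivity), Real.log_rpow (by positivity), Real.log_mul (by positivity) (by positivity),
        one_div, Real.log_inv, log_Gamma, log_Gamma, log_Gamma]
      ring
    simp only [e1]
    ring
  have A2 : Real.log VS = (j : ℝ) ^ 2 * Real.log (j / κ) - LG ((j : ℝ) ^ 2) +
      (κ + j) * (κ - j) * Real.log ((κ - j) / κ) + LG (2 * j * (κ - j)) - 2 * LG ((j : ℝ) * (κ - j)) -
      LG ((κ + j) * (κ - j)) := by
    rw [hVS, Vn_eq j hi0, show κ - j + 2 * j = κ + j by ring,
      Real.log_mul (by positivity) (by positivity), Real.log_div (by positivity) (by positivity),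
      Real.log_div (by positivity) (by positivity), Real.log_mul (by positivity) (by positivity),
      Real.log_mul (by positivity) (by positivity), Real.log_rpow hjκ, Real.log_rpow hiκ, Real.log_pow,
      log_Gamma, log_Gamma, log_Gamma, log_Gamma]
    push_cast
    ring
  have A3 : Real.log VP = ∑ a, (-(κ ^ 2 / (q a)) * Real.log (q a) - LG (κ ^ 2 / (q a))) := by
    have hf : ∀ a, 0 < ((1 / (q a : ℝ)) ^ (κ ^ 2 / (q a)) / Real.Gamma (κ ^ 2 / (q a) + 1)) := fun a => by
      have := P2 a
      have := hq0 a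
      positivity
    rw [hVP, Real.log_prod fun a _ => (hf a).ne']
    refine sum_congr rfl fun a _ => ?_
    have p2 := P2 a
    have p0 := hq0 a
    rw [Real.log_div (by positivity) (by positivity), Real.log_rpow (by positivity), one_div,
      Real.log_inv, log_Gamma]
    ring
  have hbase : 0 < VN ^ 2 / (VS * VP) := by positivity
  have key : Real.log (VN ^ 2 / (VS * VP)) = LR κ j q := by
    rw [Real.log_div (by positivity) (by positivity), Real.log_pow, Real.log_mul (by positivity) (by positivity),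
      A1, A2, A3]
    unfold LR Ph
    have e2 : ∑ a, (j * κ / (q a : ℝ)) = j * (κ - j) := by
      have : ∀ a, (j * κ / (q a : ℝ)) = j * κ * (1 / (q a : ℝ)) := fun a => by ring
      simp only [this]
      rw [← mul_sum, hθ]
      field_simp
    have e3 : ∑ a, ((j * κ / (q a)) * (Real.log ((κ - j) / κ) + Real.log (q a)) - LG (j * κ / (q a)) -
        ((κ + j) * κ / (q a)) * Real.log (q a) + LG (2 * j * κ / (q a)) - LG ((κ + j) * κ / (q a))) =
        (∑ a, (j * κ / (q a : ℝ))) * Real.log ((κ - j) / κ) +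
        ∑ a, ((j * κ / (q a)) * Real.log (q a) - LG (j * κ / (q a)) -
        ((κ + j) * κ / (q a)) * Real.log (q a) + LG (2 * j * κ / (q a)) - LG ((κ + j) * κ / (q a))) := by
      rw [sum_mul, ← sum_add_distrib]
      exact sum_congr rfl fun a _ => by ring
    rw [e3, e2]
    have e4 : ∑ a, (-(κ ^ 2 / (q a : ℝ)) * Real.log (q a) + 2 * LG (2 * j * κ / q a) + LG (κ ^ 2 / q a) -
        2 * LG (j * κ / q a) - 2 * LG ((κ + j) * κ / q a)) =
        2 * ∑ a, ((j * κ / (q a)) * Real.log (q a) - LG (j * κ / (q a)) -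
        ((κ + j) * κ / (q a)) * Real.log (q a) + LG (2 * j * κ / (q a)) - LG ((κ + j) * κ / (q a))) -
        ∑ a, (-(κ ^ 2 / (q a)) * Real.log (q a) - LG (κ ^ 2 / (q a))) := by
      rw [mul_sum, ← sum_sub_distrib]
      refine sum_congr rfl fun a _ => ?_
      ring
    rw [e4]
    push_cast
    ring
  rw [Real.rpow_def_of_pos hbase, key, mul_comm]

end

end Pool.Agent.TH535
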