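import Pool.Agent.TH535.Growth

set_option autoImplicit false
set_option linter.unusedSectionVars false

/-! Growth of the constants: the limit. -/

namespace Pool.Agent.TH535

open Finset Filter Topology

noncomputable section

/-- number of zeta factors -/
def jN (P Q N : ℕ) : ℕ := P * N / (2 * Q)
/-- remainder -/
def rN (P Q N : ℕ) : ℕ := P * N % (2 * Q)
/-- the orders of the short factors -/
def qN (P Q N : ℕ) : Fin ((Q - P) + rN P Q N) → ℕ := Fin.append (fun _ => Q) (fun _ => Q * N)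

lemma qN_sum (P Q N : ℕ) (f : ℕ → ℝ) :
    ∑ a, f (qN P Q N a) = ((Q - P : ℕ) : ℝ) * f Q + (rN P Q N : ℝ) * f (Q * N) := by
  unfold qN
  rw [Fin.sum_univ_add]
  simp only [Fin.append_left, Fin.append_right, sum_const, card_univ, Fintype.card_fin, nsmul_eq_mul]

lemma jr (P Q N : ℕ) : 2 * (Q : ℝ) * jN P Q N + rN P Q N = P * N := by
  have h := Nat.div_add_mod (P * N) (2 * Q)
  have h2 : ((2 * Q * (P * N / (2 * Q)) + P * N % (2 * Q) : ℕ) : ℝ) = ((P * N : ℕ) : ℝ) := by rw [h]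
  unfold jN rN
  push_cast at h2 ⊢
  exact h2

lemma rlt (P : ℕ) {Q : ℕ} (hQ : 0 < Q) (N : ℕ) : (rN P Q N : ℝ) < 2 * Q := by
  have h := Nat.mod_lt (P * N) (by omega : 0 < 2 * Q)
  unfold rN
  exact_mod_cast h

lemma admN_ok {P Q N : ℕ} (hP : 0 < P) (hPQ : P < Q) (hN : 2 * Q ≤ N) :
    AdmN ((N : ℝ) / 2) (jN P Q N) (qN P Q N) (fun a => 1 / (qN P Q N a : ℝ)) := by
  have hQ0 : (0 : ℝ) < Q := by exact_mod_cast (by omega : 0 < Q)
  have hN0 : (0 : ℝ) < N := by exact_mod_cast (by omega : 0 < N)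
  have hq : ∀ a, 2 ≤ qN P Q N a := by
    intro a
    unfold qN
    refine Fin.addCases (fun i => ?_) (fun i => ?_) a
    · rw [Fin.append_left]; omega
    · rw [Fin.append_right]; nlinarith
  have hq0 : ∀ a, (0 : ℝ) < qN P Q N a := fun a => by exact_mod_cast (by linarith [hq a] : 0 < qN P Q N a)
  refine ⟨?_, by omega, hq, ?_, fun a => by have := hq0 a; positivity, fun a => le_rfl⟩
  · unfold jN
    rw [Nat.one_le_div_iff (by omega)]
    nlinarith
  · rw [qN_sum P Q N (fun x => 1 / (x : ℝ))]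
    have h := jr P Q N
    have hc : ((Q - P : ℕ) : ℝ) = Q - P := by push_cast [Nat.cast_sub hPQ.le]; ring
    rw [hc]
    push_cast
    field_simp
    linarith

lemma tN_lim {P Q : ℕ} (hQ : 0 < Q) :
    Tendsto (fun N : ℕ => (jN P Q N : ℝ) / ((N : ℝ) / 2)) atTop (𝓝 ((P : ℝ) / Q)) := by
  have hQ0 : (0 : ℝ) < Q := by exact_mod_cast hQ
  have h1 : Tendsto (fun N : ℕ => (2 : ℝ) / N) atTop (𝓝 0) := tendsto_const_div_atTop_nhds_zero_nat 2
  rw [tendsto_iff_dist_tendsto_zero]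
  refine squeeze_zero' (Eventually.of_forall fun N => dist_nonneg) ?_ h1
  filter_upwards [eventually_gt_atTop 0] with N hN
  have hN0 : (0 : ℝ) < N := by exact_mod_cast hN
  have h := jr P Q N
  have h2 := rlt P hQ N
  have h3 : (0 : ℝ) ≤ rN P Q N := Nat.cast_nonneg _
  rw [Real.dist_eq]
  have e : (jN P Q N : ℝ) / ((N : ℝ) / 2) - P / Q = -(rN P Q N / (Q * N)) := by
    field_simp
    linarith
  rw [e, abs_neg, abs_of_nonneg (by positivity), div_le_div_iff₀ (by positivity) hN0]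
  nlinarith

lemma K_lim : Tendsto (fun N : ℕ => ((N : ℝ) / 2) ^ 2) atTop atTop :=
  (tendsto_pow_atTop (by norm_num)).comp
    (tendsto_natCast_atTop_atTop.atTop_div_const (by norm_num))

/-- limit of the contribution of one factor -/
def PhL (t y : ℝ) : ℝ :=
  2 * HH (2 * t * y) + HH y - 2 * HH (t * y) - 2 * HH ((1 + t) * y)

lemma Ph_lim {t : ℕ → ℝ} {y : ℕ → ℝ} {K : ℕ → ℝ} {t0 y0 : ℝ} (hK : Tendsto K atTop atTop)
    (ht : Tendsto t atTop (𝓝 t0)) (hy : Tendsto y atTop (𝓝 y0)) (ht0 : 0 < t0)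
    (hy0 : ∀ᶠ N in atTop, 0 < y N) (h1 : ∀ᶠ N in atTop, 1 ≤ t N * y N * K N)
    (h2 : ∀ᶠ N in atTop, t N ≤ 1) :
    Tendsto (fun N => (2 * LG (2 * t N * y N * K N) + LG (y N * K N) - 2 * LG (t N * y N * K N) -
      2 * LG ((1 + t N) * y N * K N)) / K N + y N * Real.log (K N)) atTop (𝓝 (PhL t0 y0)) := by
  have htp : ∀ᶠ N in atTop, 0 < t N := ht.eventually_const_lt ht0
  have a1 := LG_lim hK ((ht.const_mul 2).mul hy) (by
    filter_upwards [h1, hy0, htp, hK.eventually_gt_atTop 0] with N e1 e2 e3 e4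
    have : 0 < t N * y N * K N := by positivity
    nlinarith) (by filter_upwards [hy0, htp] with N e2 e3; positivity)
  have a2 := LG_lim hK hy (by
    filter_upwards [h1, hy0, htp, h2, hK.eventually_gt_atTop 0] with N e1 e2 e3 e4 e5
    have : 0 < y N * K N := by positivity
    nlinarith) hy0
  have a3 := LG_lim hK (ht.mul hy) h1 (by filter_upwards [hy0, htp] with N e2 e3; positivity)
  have a4 := LG_lim hK ((ht.const_add 1).mul hy) (by
    filter_upwards [h1, hy0, htp, hK.eventually_gt_atTop 0] with N e1 e2 e3 e4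
    have : 0 < y N * K N := by positivity
    nlinarith) (by filter_upwards [hy0, htp] with N e2 e3; positivity)
  have h := ((a1.const_mul 2).add a2).sub ((a3.const_mul 2).add (a4.const_mul 2))
  have e0 : 2 * HH (2 * t0 * y0) + HH y0 - (2 * HH (t0 * y0) + 2 * HH ((1 + t0) * y0)) = PhL t0 y0 := by
    unfold PhL; ring
  rw [e0] at h
  refine h.congr fun N => ?_
  ring

lemma PhL_zero (t : ℝ) : PhL t 0 = 0 := by
  unfold PhL HH
  simp

lemma HH_mul {c y : ℝ} (hc : 0 < c) (hy : 0 < y) : HH (c * y) = c * y * (Real.log c + Real.log y) - c * y := by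
  unfold HH
  rw [Real.log_mul hc.ne' hy.ne']

theorem growth_lim {P Q : ℕ} (hP : 0 < P) (hPQ : P < Q) :
    Tendsto (fun N : ℕ => (((N : ℝ) / 2) / jN P Q N * LR ((N : ℝ) / 2) (jN P Q N) (qN P Q N) +
      LG (((N : ℝ) / 2) ^ 2)) / ((N : ℝ) / 2) ^ 2) atTop (𝓝 (GG ((P : ℝ) / Q))) := by
  have hQ : 0 < Q := by omega
  have hQ0 : (0 : ℝ) < Q := by exact_mod_cast hQ
  have hP0 : (0 : ℝ) < P := by exact_mod_cast hP
  have hPQ' : (P : ℝ) < Q := by exact_mod_cast hPQ
  set t0 : ℝ := (P : ℝ) / Q with ht0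
  have ht0p : 0 < t0 := by positivity
  have ht01 : t0 < 1 := by rw [ht0, div_lt_one hQ0]; exact hPQ'
  set K : ℕ → ℝ := fun N => ((N : ℝ) / 2) ^ 2 with hKd
  set t : ℕ → ℝ := fun N => (jN P Q N : ℝ) / ((N : ℝ) / 2) with htd
  have hK : Tendsto K atTop atTop := K_lim
  have ht : Tendsto t atTop (𝓝 t0) := tN_lim hQ
  have htp : ∀ᶠ N in atTop, 0 < t N := ht.eventually_const_lt ht0p
  have ht1 : ∀ᶠ N in atTop, t N < 1 := ht.eventually_lt_const ht01
  -- large
  have big : ∀ (ξ : ℕ → ℝ) (x : ℝ), 0 < x → Tendsto ξ atTop (𝓝 x) → ∀ᶠ N in atTop, 1 ≤ ξ N * K N := by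
    intro ξ x hx hξ
    exact (hξ.pos_mul_atTop hx hK).eventually_ge_atTop 1
  have pos : ∀ (ξ : ℕ → ℝ) (x : ℝ), 0 < x → Tendsto ξ atTop (𝓝 x) → ∀ᶠ N in atTop, 0 < ξ N :=
    fun ξ x hx hξ => hξ.eventually_const_lt hx
  -- pieces
  have b1 : Tendsto (fun N => t N ^ 2 * Real.log (t N)) atTop (𝓝 (t0 ^ 2 * Real.log t0)) :=
    (ht.pow 2).mul (ht.log ht0p.ne')
  have b2 : Tendsto (fun N => (1 - t N) ^ 2 * Real.log (1 - t N)) atTop (𝓝 ((1 - t0) ^ 2 * Real.log (1 - t0))) :=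
    ((ht.const_sub 1).pow 2).mul ((ht.const_sub 1).log (by linarith))
  have c3 : Tendsto (fun N => (1 + t N) * (1 - t N)) atTop (𝓝 ((1 + t0) * (1 - t0))) :=
    (ht.const_add 1).mul (ht.const_sub 1)
  have c3p : 0 < (1 + t0) * (1 - t0) := mul_pos (by linarith) (by linarith)
  have b3 := LG_lim hK c3 (big _ _ c3p c3) (pos _ _ c3p c3)
  have c4 : Tendsto (fun N => t N ^ 2) atTop (𝓝 (t0 ^ 2)) := ht.pow 2
  have b4 := LG_lim hK c4 (big _ _ (by positivity) c4) (pos _ _ (by positivity) c4)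
  have c5 : Tendsto (fun N => 2 * t N * (1 - t N)) atTop (𝓝 (2 * t0 * (1 - t0))) :=
    (ht.const_mul 2).mul (ht.const_sub 1)
  have c5p : 0 < 2 * t0 * (1 - t0) := mul_pos (by linarith) (by linarith)
  have b5 := LG_lim hK c5 (big _ _ c5p c5) (pos _ _ c5p c5)
  have b6 := LG_lim hK (tendsto_const_nhds (x := (1 : ℝ))) (big _ _ one_pos tendsto_const_nhds)
    (Eventually.of_forall fun _ => one_pos)
  have b7 := Ph_lim (y := fun _ => 1 / (Q : ℝ)) hK ht tendsto_const_nhds ht0p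
    (Eventually.of_forall fun _ => by positivity) (big _ _ (by positivity)
      (ht.mul (tendsto_const_nhds (x := 1 / (Q : ℝ)))))
    (ht1.mono fun _ h => h.le)
  have cN : Tendsto (fun N : ℕ => 1 / ((Q : ℝ) * N)) atTop (𝓝 0) := by
    have := (tendsto_const_div_atTop_nhds_zero_nat (1 / (Q : ℝ)))
    refine this.congr fun N => ?_
    rw [div_div]
  have b8 := Ph_lim (y := fun N => 1 / ((Q : ℝ) * N)) hK ht cN ht0p
    (by filter_upwards [eventually_gt_atTop 0] with N hN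
        have : (0 : ℝ) < N := by exact_mod_cast hN
        positivity)
    (by
      have h1 : Tendsto (fun N : ℕ => t N * ((N : ℝ) / (4 * Q))) atTop atTop :=
        ht.pos_mul_atTop ht0p (tendsto_natCast_atTop_atTop.atTop_div_const (by positivity))
      filter_upwards [h1.eventually_ge_atTop 1, eventually_gt_atTop 0] with N hN hN2
      have : (0 : ℝ) < N := by exact_mod_cast hN2
      refine hN.trans (le_of_eq ?_)
      simp only [hKd]
      field_simp
      norm_num)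
    (ht1.mono fun _ h => h.le)
  rw [PhL_zero] at b8
  have b9 : Tendsto (fun N : ℕ => 1 / ((Q : ℝ) * N) * Real.log (Q * N)) atTop (𝓝 0) := by
    have h := Real.isLittleO_log_id_atTop.tendsto_div_nhds_zero
    have h2 : Tendsto (fun N : ℕ => (Q : ℝ) * N) atTop atTop :=
      tendsto_natCast_atTop_atTop.const_mul_atTop hQ0
    refine (h.comp h2).congr fun N => ?_
    simp only [Function.comp, id]
    ring
  -- bounded times null
  have b10 : Tendsto (fun N : ℕ => (rN P Q N : ℝ) * ((2 * LG (2 * t N * (1 / ((Q : ℝ) * N)) * K N) +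
      LG ((1 / ((Q : ℝ) * N)) * K N) - 2 * LG (t N * (1 / ((Q : ℝ) * N)) * K N) -
      2 * LG ((1 + t N) * (1 / ((Q : ℝ) * N)) * K N)) / K N + (1 / ((Q : ℝ) * N)) * Real.log (K N) -
      1 / ((Q : ℝ) * N) * Real.log (Q * N))) atTop (𝓝 0) := by
    have h := b8.sub b9
    rw [sub_zero] at h
    have h3 := h.abs
    rw [abs_zero] at h3
    have h4 := h3.const_mul (2 * (Q : ℝ))
    rw [mul_zero] at h4
    rw [tendsto_zero_iff_abs_tendsto_zero]
    refine squeeze_zero' (Eventually.of_forall fun N => abs_nonneg _) (Eventually.of_forall fun N => ?_) h4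
    simp only [Function.comp]
    rw [abs_mul, abs_of_nonneg (Nat.cast_nonneg _)]
    exact mul_le_mul_of_nonneg_right (rlt P hQ N).le (abs_nonneg _)
  have b11 : Tendsto (fun N : ℕ => ((Q - P : ℕ) : ℝ) * ((2 * LG (2 * t N * (1 / (Q : ℝ)) * K N) +
      LG ((1 / (Q : ℝ)) * K N) - 2 * LG (t N * (1 / (Q : ℝ)) * K N) -
      2 * LG ((1 + t N) * (1 / (Q : ℝ)) * K N)) / K N + (1 / (Q : ℝ)) * Real.log (K N) -
      1 / (Q : ℝ) * Real.log Q)) atTop
      (𝓝 (((Q - P : ℕ) : ℝ) * (PhL t0 (1 / Q) - 1 / (Q : ℝ) * Real.log Q))) :=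
    (b7.sub_const _).const_mul _
  have hsum := (((b1.sub b2).add ((b3.sub b4).sub b5)).add (b11.add b10)).div ht ht0p.ne'
  have hfin := hsum.add b6
  have hval : (t0 ^ 2 * Real.log t0 - (1 - t0) ^ 2 * Real.log (1 - t0) +
      (HH ((1 + t0) * (1 - t0)) - HH (t0 ^ 2) - HH (2 * t0 * (1 - t0))) +
      (((Q - P : ℕ) : ℝ) * (PhL t0 (1 / Q) - 1 / (Q : ℝ) * Real.log Q) + 0)) / t0 + HH 1 = GG t0 := by
    have hc : ((Q - P : ℕ) : ℝ) = (1 - t0) * Q := by
      push_cast [Nat.cast_sub hPQ.le]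
      rw [ht0]
      field_simp
    have hy : (0 : ℝ) < 1 / Q := by positivity
    have hlogy : Real.log (1 / (Q : ℝ)) = -Real.log Q := by rw [one_div, Real.log_inv]
    rw [hc]
    unfold PhL GG
    rw [show 2 * t0 * (1 / (Q : ℝ)) = (2 * t0) * (1 / Q) by ring, HH_mul (by positivity : 0 < 2 * t0) hy,
      HH_mul ht0p hy, HH_mul (by linarith : 0 < 1 + t0) hy, HH_mul (by linarith : 0 < 1 + t0)
        (by linarith : 0 < 1 - t0), HH_mul (by positivity : 0 < 2 * t0) (by linarith : 0 < 1 - t0),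
      Real.log_mul (by norm_num : (2 : ℝ) ≠ 0) ht0p.ne']
    unfold HH
    rw [hlogy, Real.log_pow, Real.log_one]
    push_cast
    field_simp
    ring
  rw [hval] at hfin
  refine hfin.congr' ?_
  filter_upwards [htp, eventually_ge_atTop (2 * Q), hK.eventually_gt_atTop 0] with N hN1 hN2 hN3
  have hN0 : (0 : ℝ) < N := by exact_mod_cast (by omega : 0 < N)
  have hj0 : (0 : ℝ) < jN P Q N := (admN_ok hP hPQ hN2).j0
  have hjr := jr P Q N
  have hc : ((Q - P : ℕ) : ℝ) = Q - P := by push_cast [Nat.cast_sub hPQ.le]; ring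
  -- rewrite arguments
  simp only [Pi.div_apply]
  set κ : ℝ := (N : ℝ) / 2 with hκ
  have hκ0 : 0 < κ := by positivity
  have hNκ : (N : ℝ) = 2 * κ := by rw [hκ]; ring
  have hKκ : K N = κ ^ 2 := rfl
  have htκ : (jN P Q N : ℝ) = t N * κ := (div_mul_cancel₀ _ hκ0.ne').symm
  unfold LR
  rw [qN_sum P Q N (fun x => Ph κ (jN P Q N) x)]
  unfold Ph
  rw [htκ]
  have f1 : (κ + t N * κ) * (κ - t N * κ) = (1 + t N) * (1 - t N) * κ ^ 2 := by ring
  have f2 : (t N * κ) ^ 2 = t N ^ 2 * κ ^ 2 := by ring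
  have f3 : 2 * (t N * κ) * (κ - t N * κ) = 2 * t N * (1 - t N) * κ ^ 2 := by ring
  have f4 : t N * κ / κ = t N := by field_simp
  have f5 : (κ - t N * κ) / κ = 1 - t N := by field_simp
  have g1 : ∀ y : ℝ, 2 * (t N * κ) * κ / y = 2 * t N * (1 / y) * κ ^ 2 := fun y => by ring
  have g2 : ∀ y : ℝ, κ ^ 2 / y = (1 / y) * κ ^ 2 := fun y => by ring
  have g3 : ∀ y : ℝ, t N * κ * κ / y = t N * (1 / y) * κ ^ 2 := fun y => by ring
  have g4 : ∀ y : ℝ, (κ + t N * κ) * κ / y = (1 + t N) * (1 / y) * κ ^ 2 := fun y => by ring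
  simp only [f1, f2, f3, f4, f5, g1, g2 _, g3, g4, hKκ]
  rw [one_mul]
  push_cast
  rw [hc]
  have hkey : 2 * (Q : ℝ) * (t N * κ) + rN P Q N = P * (2 * κ) := by rw [← htκ, ← hNκ]; exact hjr
  have hr : (rN P Q N : ℝ) = P * (2 * κ) - 2 * Q * (t N * κ) := by linarith
  rw [hr, hNκ]
  have hQN : (Q : ℝ) ≠ 0 := hQ0.ne'
  have htN : t N ≠ 0 := hN1.ne'
  have hκN : κ ≠ 0 := hκ0.ne'
  clear_value κ
  generalize t N = tt at *
  generalize LG ((1 + tt) * (1 - tt) * κ ^ 2) = L1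
  generalize LG (tt ^ 2 * κ ^ 2) = L2
  generalize LG (2 * tt * (1 - tt) * κ ^ 2) = L3
  generalize LG (2 * tt * (1 / (Q : ℝ)) * κ ^ 2) = L4
  generalize LG (1 / (Q : ℝ) * κ ^ 2) = L5
  generalize LG (tt * (1 / (Q : ℝ)) * κ ^ 2) = L6
  generalize LG ((1 + tt) * (1 / (Q : ℝ)) * κ ^ 2) = L7
  generalize LG (2 * tt * (1 / (Q * (2 * κ))) * κ ^ 2) = L8
  generalize LG (1 / (Q * (2 * κ)) * κ ^ 2) = L9
  generalize LG (tt * (1 / (Q * (2 * κ))) * κ ^ 2) = L10
  generalize LG ((1 + tt) * (1 / (Q * (2 * κ))) * κ ^ 2) = L11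
  generalize LG (κ ^ 2) = L12
  generalize Real.log (κ ^ 2) = L13
  generalize Real.log (Q * (2 * κ)) = L14
  generalize Real.log (Q : ℝ) = L15
  generalize Real.log tt = L16
  generalize Real.log (1 - tt) = L17
  field_simp
  ring

end

end Pool.Agent.TH535
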