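import Pool.Agent.TH535.Wt

set_option autoImplicit false

/-! The local sums of the weight of the correlation. -/

namespace Pool.Agent.TH535

open Finset Filter Topology Pool.Agent.H306R2 Pool.Agent.TH535.MA
open scoped ENNReal

noncomputable section

/-- `lc` with values in `[0,∞]` -/
def lcE (α : ℝ) (m : ℕ) : ℝ≥0∞ := ENNReal.ofReal (lc α m)

lemma cv_lc {α β : ℝ} (hα : 0 ≤ α) (hβ : 0 ≤ β) : cv (lcE α) (lcE β) = lcE (α + β) := by
  funext m
  unfold cv lcE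
  rw [← lc_conv, ENNReal.ofReal_sum_of_nonneg]
  · refine sum_congr rfl fun z _ => ?_
    rw [ENNReal.ofReal_mul (lc_nonneg hα _)]
  · intro z _
    exact mul_nonneg (lc_nonneg hα _) (lc_nonneg hβ _)

lemma lc_zero_left (m : ℕ) : lc 0 m = if m = 0 then 1 else 0 := by
  rcases Nat.eq_zero_or_pos m with h | h
  · subst h
    simp [lc_zero]
  · rw [if_neg (by omega)]
    unfold lc
    refine prod_eq_zero (mem_range.2 h) ?_
    simp

lemma cvn_lc {n : ℕ} (e : Fin n → ℝ) (he : ∀ a, 0 < e a) :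
    cvn (fun a => lcE (e a)) = lcE (ei e) := by
  induction n with
  | zero =>
    funext m
    have : ei e = 0 := by simp [ei]
    rw [this]
    unfold cvn lcE
    rw [lc_zero_left]
    split_ifs <;> simp
  | succ n ih =>
    have h1 : cvn (fun a => lcE (e a)) = cv (lcE (e 0)) (cvn fun a => lcE (e a.succ)) := rfl
    rw [h1, ih (fun a => e a.succ) (fun a => he _), cv_lc (he 0).le (ei_nonneg fun a => he _)]
    congr 1
    unfold ei
    rw [Fin.sum_univ_succ]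

lemma tsum_antidiag (h : ℕ → ℝ≥0∞) (G0 G1 : ℕ → ℝ≥0∞) :
    ∑' y : ℕ × ℕ, h (y.1 + y.2) * (G0 y.1 * G1 y.2) = ∑' m, h m * cv G0 G1 m := by
  rw [← ENNReal.tsum_fiberwise (fun x : ℕ × ℕ => h (x.1 + x.2) * (G0 x.1 * G1 x.2))
    (fun x : ℕ × ℕ => x.1 + x.2)]
  refine tsum_congr fun m => ?_
  have e1 : (fun x : ℕ × ℕ => x.1 + x.2) ⁻¹' {m} = (antidiagonal m : Set (ℕ × ℕ)) := by
    ext x
    simp only [Set.mem_preimage, Set.mem_singleton_iff, SetLike.mem_coe, HasAntidiagonal.mem_antidiagonal]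
  rw [e1, Finset.tsum_subtype' (antidiagonal m)
    (fun x : ℕ × ℕ => h (x.1 + x.2) * (G0 x.1 * G1 x.2))]
  unfold cv
  rw [mul_sum]
  refine sum_congr rfl fun z hz => ?_
  rw [HasAntidiagonal.mem_antidiagonal.1 hz]

lemma tsum_ix {n : ℕ} {α : Type} (F : (Ix n → α) → ℝ≥0∞) :
    ∑' v, F v = ∑' y : α × α, ∑' x : (Fin n → α) × (Fin n → α), F (ixE n α (x, y)) := by
  rw [← (ixE n α).tsum_eq, ENNReal.tsum_prod', ENNReal.tsum_comm]

theorem lam_tsumE {n : ℕ} (j : ℕ) (e : Fin n → ℝ) (he : ∀ a, 0 < e a) (p : ℕ) :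
    ∑' v, ENNReal.ofReal (lam j e p v) =
      ∑' m : ℕ, ENNReal.ofReal (lc (j + ei e) m ^ 2 * (1 / (p : ℝ)) ^ m) := by
  have hj0 : (0 : ℝ) ≤ j := Nat.cast_nonneg j
  have hi0 := ei_nonneg he
  have hx0 : (0 : ℝ) ≤ 1 / (p : ℝ) := by positivity
  set xE : ℕ → ℝ≥0∞ := fun m => ENNReal.ofReal ((1 / (p : ℝ)) ^ m) with hxE
  have hxadd : ∀ a b, xE (a + b) = xE a * xE b := by
    intro a b
    simp only [hxE]
    rw [pow_add, ENNReal.ofReal_mul (by positivity)]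
  rw [tsum_ix]
  have step1 : ∀ y : ℕ × ℕ, ∑' x : (Fin n → ℕ) × (Fin n → ℕ),
      ENNReal.ofReal (lam j e p (ixE n ℕ (x, y))) =
      ∑' z : ℕ × ℕ, lcE (ei e) (z.1 + z.2) * (if y.1 = 0 ∨ z.1 = 0 then
        lcE j (y.1 + z.2) * lcE j (y.1 + y.2) * lcE (ei e) (z.1 + y.2) *
          xE (y.1 + z.1 + z.2 + y.2) else 0) := by
    intro y
    have hm := mergeA (fun a => lcE (e a)) (fun A B => if y.1 = 0 ∨ A = 0 then
        lcE j (y.1 + B) * lcE j (y.1 + y.2) * lcE (ei e) (A + y.2) *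
          xE (y.1 + A + B + y.2) else 0)
    rw [cvn_lc e he] at hm
    refine Eq.trans ?_ hm
    refine tsum_congr fun x => ?_
    have hl : vl (ixE n ℕ (x, y)) = x.1 := rfl
    have hr : vr (ixE n ℕ (x, y)) = x.2 := rfl
    have hh : vh (ixE n ℕ (x, y)) = y.1 := rfl
    have hs : vs (ixE n ℕ (x, y)) = y.2 := rfl
    unfold lam
    rw [hl, hr, hh, hs]
    by_cases c1 : CanA x.1 x.2
    · by_cases c2 : y.1 = 0 ∨ ∑ a, x.1 a = 0
      · rw [if_pos ⟨c2, c1⟩, if_pos c1, if_pos c2]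
        have k1 := lc_nonneg hj0 (y.1 + ∑ a, x.2 a)
        have k2 := lc_nonneg hj0 (y.1 + y.2)
        have k3 := lc_nonneg hi0 (∑ a, x.1 a + y.2)
        have k4 : 0 ≤ ∏ a, lc (e a) (x.1 a + x.2 a) := prod_nonneg fun a _ => lc_nonneg (he a).le _
        rw [ENNReal.ofReal_mul (by positivity), ENNReal.ofReal_mul (by positivity),
          ENNReal.ofReal_mul (by positivity), ENNReal.ofReal_mul (by positivity),
          ENNReal.ofReal_prod_of_nonneg (fun a _ => lc_nonneg (he a).le _)]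
        unfold lcE
        simp only [hxE]
        ring
      · rw [if_neg (fun h => c2 h.1), if_pos c1, if_neg c2, mul_zero, ENNReal.ofReal_zero]
    · rw [if_neg (fun h => c1 h.2), if_neg c1, ENNReal.ofReal_zero]
  rw [tsum_congr step1]
  have step2 : ∑' y : ℕ × ℕ, ∑' z : ℕ × ℕ, lcE (ei e) (z.1 + z.2) * (if y.1 = 0 ∨ z.1 = 0 then
        lcE j (y.1 + z.2) * lcE j (y.1 + y.2) * lcE (ei e) (z.1 + y.2) *
          xE (y.1 + z.1 + z.2 + y.2) else 0) =
      ∑' x : (ℕ × ℕ) × (ℕ × ℕ), (if x.1.2 = 0 ∨ x.2.1 = 0 then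
      lcE j (x.1.1 + x.1.2) * lcE (ei e) (x.2.1 + x.2.2) *
        (fun u v => (xE (u + v)) * (lcE (ei e) u * lcE j v)) (x.1.1 + x.2.1) (x.1.2 + x.2.2) else 0) := by
    rw [ENNReal.tsum_prod' (f := fun x : (ℕ × ℕ) × (ℕ × ℕ) => (if x.1.2 = 0 ∨ x.2.1 = 0 then
      lcE j (x.1.1 + x.1.2) * lcE (ei e) (x.2.1 + x.2.2) *
        (fun u v => (xE (u + v)) * (lcE (ei e) u * lcE j v)) (x.1.1 + x.2.1) (x.1.2 + x.2.2) else 0)),
      ← (Equiv.prodComm ℕ ℕ).tsum_eq]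
    refine tsum_congr fun y => ?_
    refine tsum_congr fun z => ?_
    show lcE (ei e) (z.1 + z.2) * (if y.2 = 0 ∨ z.1 = 0 then
        lcE j (y.2 + z.2) * lcE j (y.2 + y.1) * lcE (ei e) (z.1 + y.1) *
          xE (y.2 + z.1 + z.2 + y.1) else 0) =
      (if y.2 = 0 ∨ z.1 = 0 then
      lcE j (y.1 + y.2) * lcE (ei e) (z.1 + z.2) *
        (xE ((y.1 + z.1) + (y.2 + z.2)) * (lcE (ei e) (y.1 + z.1) * lcE j (y.2 + z.2))) else 0)
    by_cases hc : y.2 = 0 ∨ z.1 = 0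
    · rw [if_pos hc, if_pos hc]
      have e1 : xE (y.2 + z.1 + z.2 + y.1) = xE (y.1 + z.1 + (y.2 + z.2)) := by
        congr 1
        ring
      rw [e1, add_comm y.1 y.2, add_comm z.1 y.1]
      ring
    · rw [if_neg hc, if_neg hc, mul_zero]
  have hm2 := mergeA2 (lcE j) (lcE (ei e)) (fun u v => (xE (u + v)) * (lcE (ei e) u * lcE j v))
  rw [step2]
  refine Eq.trans hm2 ?_
  rw [cv_lc hj0 hi0]
  have step3 : ∀ y : ℕ × ℕ, lcE (j + ei e) (y.1 + y.2) *
      (fun u v => (xE (u + v)) * (lcE (ei e) u * lcE j v)) y.1 y.2 =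
      (fun m => lcE (j + ei e) m * xE m) (y.1 + y.2) * (lcE (ei e) y.1 * lcE j y.2) := by
    intro y
    simp only
    ring
  refine Eq.trans (tsum_congr step3) ?_
  refine Eq.trans (tsum_antidiag (fun m => lcE (j + ei e) m * xE m) (lcE (ei e)) (lcE j)) ?_
  rw [cv_lc hi0 hj0]
  refine tsum_congr fun m => ?_
  have k := lc_nonneg (add_nonneg hj0 hi0) m
  rw [add_comm (ei e) (j : ℝ), sq, ENNReal.ofReal_mul (by positivity), ENNReal.ofReal_mul k]
  unfold lcE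
  simp only [hxE]
  ring

theorem lam_tsum {n : ℕ} {j : ℕ} (hj : 1 ≤ j) (e : Fin n → ℝ) (he : ∀ a, 0 < e a) {p : ℕ}
    (hp : p.Prime) :
    ∑' v, lam j e p v = ∑' m : ℕ, lc (j + ei e) m ^ 2 * (1 / (p : ℝ)) ^ m := by
  have h := lam_tsumE j e he p
  have hj0 : (0 : ℝ) < j := by exact_mod_cast hj
  have hi0 := ei_nonneg he
  obtain ⟨h0, h1⟩ := prime_x hp
  have hs : Summable (fun m : ℕ => lc (j + ei e) m ^ 2 * (1 / (p : ℝ)) ^ m) := by
    refine Summable.of_nonneg_of_le (fun m => by positivity) (fun m => ?_)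
      (lc_summable (α := (j + ei e) ^ 2) (by positivity) h0 (by linarith))
    exact mul_le_mul_of_nonneg_right (lc_sq_le (by linarith) m) (by positivity)
  rw [← ENNReal.ofReal_tsum_of_nonneg (lam_nonneg j he p) (lam_summable he hp),
    ← ENNReal.ofReal_tsum_of_nonneg (fun m => by positivity) hs,
    ENNReal.ofReal_eq_ofReal_iff (tsum_nonneg (lam_nonneg j he p))
      (tsum_nonneg fun m => by positivity)] at h
  exact h

end

end Pool.Agent.TH535
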