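import Pool.Agent.TH535.WtInt
import Pool.Agent.TH535.LocS
import Pool.Agent.H306R2.NW

set_option autoImplicit false

/-! The main term of the correlation as a sum of the weight. -/

namespace Pool.Agent.TH535

open Finset Filter Topology Pool.Agent.H306R2 Pool.Agent.TH535.MA
open scoped ENNReal

noncomputable section

/-- coprime pairs -/
def SPs (XH Xt : ℝ) : Finset (ℕ × ℕ) :=
  ((Icc 1 ⌊XH⌋₊) ×ˢ (Icc 1 ⌊Xt⌋₊)).filter (fun b => Nat.Coprime b.1 b.2)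

/-- the coefficients of the test function, `(h, l) = b` -/
def cc (j : ℕ) (i : ℝ) (Xt : ℝ) (b : ℕ × ℕ) : ℝ :=
  (∑ s ∈ Icc 1 ⌊Xt⌋₊, if ((b.2 * s : ℕ) : ℝ) ≤ Xt then dv j (b.1 * s) * dv i (b.2 * s) / (s : ℝ) else 0) /
    Real.sqrt ((b.1 : ℝ) * b.2)

/-- the Fourier coefficients of `ζ^j V` -/
def rr (j : ℕ) (v : ArithmeticFunction ℝ) (Xt : ℝ) (b : ℕ × ℕ) : ℝ :=
  (∑ r ∈ Icc 1 ⌊Xt⌋₊, dv j (b.1 * r) * v (b.2 * r) / (r : ℝ)) / Real.sqrt ((b.1 : ℝ) * b.2)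

/-- the main term of the correlation -/
def CR (j : ℕ) (i : ℝ) (v : ArithmeticFunction ℝ) (XH Xt : ℝ) : ℝ :=
  ∑ b ∈ SPs XH Xt, cc j i Xt b * rr j v Xt b

/-- the summand -/
def Gr (j : ℕ) (i : ℝ) (v : ArithmeticFunction ℝ) (XH Xt : ℝ) (x : (ℕ × ℕ) × (ℕ × ℕ)) : ℝ :=
  if x.1.1 ≠ 0 ∧ x.1.2 ≠ 0 ∧ x.2.1 ≠ 0 ∧ x.2.2 ≠ 0 ∧ Nat.Coprime x.1.1 x.2.1 ∧
      (x.1.1 : ℝ) ≤ XH ∧ ((x.2.1 * x.1.2 : ℕ) : ℝ) ≤ Xt then
    v (x.2.1 * x.2.2) * (dv j (x.1.1 * x.2.2) * dv j (x.1.1 * x.1.2) * dv i (x.2.1 * x.1.2) *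
      (1 / ((x.1.1 * x.2.1 * x.2.2 * x.1.2 : ℕ) : ℝ)))
  else 0

lemma CR_eq (j : ℕ) (i : ℝ) (v : ArithmeticFunction ℝ) (XH Xt : ℝ) (hH : 0 ≤ XH) :
    CR j i v XH Xt = ∑ x ∈ ((Icc 1 ⌊XH⌋₊) ×ˢ (Icc 1 ⌊Xt⌋₊)) ×ˢ ((Icc 1 ⌊Xt⌋₊) ×ˢ (Icc 1 ⌊Xt⌋₊)),
      Gr j i v XH Xt x := by
  unfold CR SPs
  rw [sum_filter, sum_product, sum_product, sum_product]
  refine sum_congr rfl fun h hh => ?_
  have h2 : ∀ s ∈ Icc 1 ⌊Xt⌋₊, ∑ z ∈ (Icc 1 ⌊Xt⌋₊) ×ˢ (Icc 1 ⌊Xt⌋₊), Gr j i v XH Xt ((h, s), z) =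
      ∑ A ∈ Icc 1 ⌊Xt⌋₊, ∑ B ∈ Icc 1 ⌊Xt⌋₊, Gr j i v XH Xt ((h, s), (A, B)) := fun s _ => by
    rw [sum_product]
  rw [sum_congr rfl h2, sum_comm]
  refine sum_congr rfl fun A hA => ?_
  rw [mem_Icc] at hh hA
  have hh0 : (0 : ℝ) < h := by exact_mod_cast hh.1
  have hA0 : (0 : ℝ) < A := by exact_mod_cast hA.1
  have hhX : (h : ℝ) ≤ XH := (Nat.le_floor_iff hH).1 hh.2
  by_cases hc : Nat.Coprime h A
  · rw [if_pos hc]
    unfold cc rr
    rw [div_mul_div_comm, Real.mul_self_sqrt (by positivity), sum_mul_sum, sum_div]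
    refine sum_congr rfl fun s hs => ?_
    rw [sum_div]
    refine sum_congr rfl fun B hB => ?_
    rw [mem_Icc] at hs hB
    have hs0 : (0 : ℝ) < s := by exact_mod_cast hs.1
    have hB0 : (0 : ℝ) < B := by exact_mod_cast hB.1
    unfold Gr
    simp only
    by_cases h3 : ((A * s : ℕ) : ℝ) ≤ Xt
    · rw [if_pos h3, if_pos ⟨by omega, by omega, by omega, by omega, hc, hhX, h3⟩]
      push_cast
      field_simp
    · rw [if_neg h3, if_neg (fun h => h3 h.2.2.2.2.2.2)]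
      simp
  · rw [if_neg hc]
    symm
    refine sum_eq_zero fun s _ => sum_eq_zero fun B _ => ?_
    unfold Gr
    rw [if_neg (fun h => hc h.2.2.2.2.1)]

lemma Gr_nonneg (j : ℕ) {i : ℝ} (hi : 0 ≤ i) (v : ArithmeticFunction ℝ) (hv : ∀ m, 0 ≤ v m)
    (XH Xt : ℝ) (x : (ℕ × ℕ) × (ℕ × ℕ)) : 0 ≤ Gr j i v XH Xt x := by
  unfold Gr
  split_ifs
  · have hj0 : (0 : ℝ) ≤ j := Nat.cast_nonneg j
    have h1 := dv_nonneg hj0 (x.1.1 * x.2.2)
    have h2 := dv_nonneg hj0 (x.1.1 * x.1.2)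
    have h3 := dv_nonneg hi (x.2.1 * x.1.2)
    have h4 := hv (x.2.1 * x.2.2)
    positivity
  · exact le_rfl

open Classical in
/-- the region in terms of integers -/
def chI {n : ℕ} (XH Xt : ℝ) (X : Fin n → ℝ) (b : Ix n → ℕ) : ℝ :=
  if ((vh b : ℕ) : ℝ) ≤ XH ∧ (((∏ a, vl b a) * vs b : ℕ) : ℝ) ≤ Xt ∧ ∀ a, ((vl b a * vr b a : ℕ) : ℝ) ≤ X a
    then 1 else 0

lemma chI_nonneg {n : ℕ} (XH Xt : ℝ) (X : Fin n → ℝ) (b : Ix n → ℕ) : 0 ≤ chI XH Xt X b := by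
  unfold chI
  split_ifs <;> norm_num

lemma mw_nonneg {n : ℕ} (j : ℕ) {e : Fin n → ℝ} (he : ∀ a, 0 < e a) (b : Ix n → ℕ) :
    0 ≤ mw (lam j e) b := by
  unfold mw
  split_ifs
  · exact prod_nonneg fun p _ => lam_nonneg j he p _
  · exact le_rfl

/-- the identity, with values in `[0,∞]` -/
lemma identE {n : ℕ} (j : ℕ) (e : Fin n → ℝ) (he : ∀ a, 0 < e a) (XH Xt : ℝ) (X : Fin n → ℝ)
    (hH : 0 ≤ XH) (hX1 : ∀ a, 1 ≤ X a) (hX : ∏ a, X a ≤ Xt) :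
    ∑' b : Ix n → ℕ, ENNReal.ofReal (mw (lam j e) b * chI XH Xt X b) =
      ENNReal.ofReal (CR j (ei e) (PA e X) XH Xt) := by
  classical
  have hi0 := ei_nonneg he
  have hj0 : (0 : ℝ) ≤ j := Nat.cast_nonneg j
  have hXt : 0 ≤ Xt := le_trans (prod_nonneg fun a _ => by linarith [hX1 a]) hX
  have htr : ∀ a m, 0 ≤ tr (dA (e a)) (X a) m := fun a m => tr_nonneg (fun m => dv_nonneg (he a).le m) _ m
  have hv0 : ∀ m, 0 ≤ PA e X m := fun m => prod_nonneg_af _ _ htr m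
  have hsupp : ∀ m : ℕ, Xt < m → PA e X m = 0 := fun m hm =>
    (Dp_prod univ (fun a => tr (dA (e a)) (X a)) X hX1 (fun a m hm => tr_supp _ _ m hm) 0).1 m
      (lt_of_le_of_lt hX hm)
  rw [tsum_ix]
  have step1 : ∀ y : ℕ × ℕ, ∑' x : (Fin n → ℕ) × (Fin n → ℕ),
      ENNReal.ofReal (mw (lam j e) (ixE n ℕ (x, y)) * chI XH Xt X (ixE n ℕ (x, y))) =
      ∑' z : ℕ × ℕ, ENNReal.ofReal (Gr j (ei e) (PA e X) XH Xt (y, z)) := by
    intro y
    set F : ℕ → ℕ → ℝ≥0∞ := fun A B => if y.1 ≠ 0 ∧ y.2 ≠ 0 ∧ A ≠ 0 ∧ B ≠ 0 ∧ Nat.Coprime y.1 A ∧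
      (y.1 : ℝ) ≤ XH ∧ ((A * y.2 : ℕ) : ℝ) ≤ Xt then
      ENNReal.ofReal (dv j (y.1 * B) * dv j (y.1 * y.2) * dv (ei e) (A * y.2) *
        (1 / ((y.1 * A * B * y.2 : ℕ) : ℝ))) else 0 with hF
    have hm := merge (fun a => toE (tr (dA (e a)) (X a))) F
    refine Eq.trans ?_ (hm.trans ?_)
    · refine tsum_congr fun x => ?_
      have hl : vl (ixE n ℕ (x, y)) = x.1 := rfl
      have hr : vr (ixE n ℕ (x, y)) = x.2 := rfl
      have hh : vh (ixE n ℕ (x, y)) = y.1 := rfl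
      have hs : vs (ixE n ℕ (x, y)) = y.2 := rfl
      rw [mw_lam]
      unfold chI
      rw [hl, hr, hh, hs]
      by_cases c1 : Can x.1 x.2
      · rw [if_pos c1]
        by_cases c2 : ∀ z, (ixE n ℕ (x, y)) z ≠ 0
        · have d1 : ∀ a, x.1 a ≠ 0 := fun a => c2 (Sum.inl (Sum.inl a))
          have d2 : ∀ a, x.2 a ≠ 0 := fun a => c2 (Sum.inl (Sum.inr a))
          have d3 : y.1 ≠ 0 := c2 (Sum.inr 0)
          have d4 : y.2 ≠ 0 := c2 (Sum.inr 1)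
          have d5 : ∏ a, x.1 a ≠ 0 := prod_ne_zero_iff.2 fun a _ => d1 a
          have d6 : ∏ a, x.2 a ≠ 0 := prod_ne_zero_iff.2 fun a _ => d2 a
          by_cases c3 : ∀ a, ((x.1 a * x.2 a : ℕ) : ℝ) ≤ X a
          · have e1 : ∏ a, toE (tr (dA (e a)) (X a)) (x.1 a * x.2 a) =
                ENNReal.ofReal (∏ a, dv (e a) (x.1 a * x.2 a)) := by
              rw [ENNReal.ofReal_prod_of_nonneg fun a _ => dv_nonneg (he a).le _]
              refine prod_congr rfl fun a _ => ?_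
              rw [toE_apply, tr_apply, if_pos (c3 a), dA_apply]
            by_cases c4 : Nat.Coprime y.1 (∏ a, x.1 a) ∧ (y.1 : ℝ) ≤ XH ∧
                (((∏ a, x.1 a) * y.2 : ℕ) : ℝ) ≤ Xt
            · rw [if_pos ⟨c2, c4.1, c1⟩, if_pos ⟨c4.2.1, c4.2.2, c3⟩, mul_one, e1]
              simp only [hF]
              rw [if_pos ⟨d3, d4, d5, d6, c4⟩,
                ← ENNReal.ofReal_mul (prod_nonneg fun a _ => dv_nonneg (he a).le _)]
              congr 1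
              unfold Wv
              ring
            · simp only [hF]
              rw [if_neg (fun h : y.1 ≠ 0 ∧ y.2 ≠ 0 ∧ ∏ a, x.1 a ≠ 0 ∧ ∏ a, x.2 a ≠ 0 ∧
                Nat.Coprime y.1 (∏ a, x.1 a) ∧ (y.1 : ℝ) ≤ XH ∧
                (((∏ a, x.1 a) * y.2 : ℕ) : ℝ) ≤ Xt => c4 h.2.2.2.2), mul_zero]
              by_cases c5 : Nat.Coprime y.1 (∏ a, x.1 a)
              · have c6 : ¬ ((y.1 : ℝ) ≤ XH ∧ (((∏ a, x.1 a) * y.2 : ℕ) : ℝ) ≤ Xt ∧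
                    ∀ a, ((x.1 a * x.2 a : ℕ) : ℝ) ≤ X a) := fun h => c4 ⟨c5, h.1, h.2.1⟩
                rw [if_neg c6, mul_zero, ENNReal.ofReal_zero]
              · rw [if_neg (fun h => c5 h.2.1), zero_mul, ENNReal.ofReal_zero]
          · push Not at c3
            obtain ⟨a, ha⟩ := c3
            have e1 : ∏ a, toE (tr (dA (e a)) (X a)) (x.1 a * x.2 a) = 0 := by
              refine prod_eq_zero (mem_univ a) ?_
              rw [toE_apply, tr_apply, if_neg (by linarith), ENNReal.ofReal_zero]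
            rw [e1, zero_mul, if_neg (fun h : (y.1 : ℝ) ≤ XH ∧ (((∏ a, x.1 a) * y.2 : ℕ) : ℝ) ≤ Xt ∧
                ∀ a, ((x.1 a * x.2 a : ℕ) : ℝ) ≤ X a => absurd (h.2.2 a) (by linarith)),
              mul_zero, ENNReal.ofReal_zero]
        · rw [if_neg (fun h => c2 h.1), zero_mul, ENNReal.ofReal_zero]
          symm
          push Not at c2
          obtain ⟨z, hz⟩ := c2
          rcases z with (a | a) | z
          · have : x.1 a = 0 := hz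
            rw [prod_eq_zero (mem_univ a), zero_mul]
            rw [this, zero_mul, ArithmeticFunction.map_zero]
          · have : x.2 a = 0 := hz
            rw [prod_eq_zero (mem_univ a), zero_mul]
            rw [this, mul_zero, ArithmeticFunction.map_zero]
          · simp only [hF]
            rw [if_neg, mul_zero]
            intro h
            fin_cases z
            · exact h.1 hz
            · exact h.2.1 hz
      · rw [if_neg c1, if_neg (fun h => c1 h.2.2), zero_mul, ENNReal.ofReal_zero]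
    · refine tsum_congr fun z => ?_
      rw [← toE_prod _ _ htr]
      have e2 : toE (∏ a, tr (dA (e a)) (X a)) (z.1 * z.2) = ENNReal.ofReal (PA e X (z.1 * z.2)) := rfl
      rw [e2]
      unfold Gr
      simp only [hF]
      split_ifs with hc
      · rw [ENNReal.ofReal_mul (hv0 _)]
      · rw [mul_zero, ENNReal.ofReal_zero]
  rw [tsum_congr step1, ← ENNReal.tsum_prod' (f := fun x : (ℕ × ℕ) × (ℕ × ℕ) =>
    ENNReal.ofReal (Gr j (ei e) (PA e X) XH Xt x))]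
  rw [CR_eq j (ei e) (PA e X) XH Xt hH, ENNReal.ofReal_sum_of_nonneg
    (fun x _ => Gr_nonneg j hi0 _ hv0 XH Xt x)]
  refine tsum_eq_sum fun x hx => ?_
  rw [ENNReal.ofReal_eq_zero]
  unfold Gr
  split_ifs with hc
  · obtain ⟨h1, h2, h3, h4, h5, h6, h7⟩ := hc
    have hfl : ∀ a b : ℕ, 1 ≤ b → ((a * b : ℕ) : ℝ) ≤ Xt → a ≤ ⌊Xt⌋₊ := fun a b hb hab =>
      (Nat.le_mul_of_pos_right a (by omega)).trans ((Nat.le_floor_iff hXt).2 hab)
    have hfr : ∀ a b : ℕ, 1 ≤ a → ((a * b : ℕ) : ℝ) ≤ Xt → b ≤ ⌊Xt⌋₊ := fun a b ha hab =>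
      (Nat.le_mul_of_pos_left b (by omega)).trans ((Nat.le_floor_iff hXt).2 hab)
    by_cases hAB : ((x.2.1 * x.2.2 : ℕ) : ℝ) ≤ Xt
    · exfalso
      apply hx
      simp only [mem_product, mem_Icc]
      exact ⟨⟨⟨by omega, (Nat.le_floor_iff hH).2 h6⟩, by omega, hfr _ _ (by omega) h7⟩,
        ⟨by omega, hfl _ _ (by omega) h7⟩, by omega, hfr _ _ (by omega) hAB⟩
    · rw [hsupp _ (not_le.1 hAB), zero_mul]
  · exact le_rfl

end

end Pool.Agent.TH535
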