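import Pool.Agent.TH535.MB
import Pool.Agent.H306R2.Karamata2

set_option autoImplicit false
set_option linter.unusedSectionVars false

/-! The limit theorem for multiplicative weights on a finite index type. -/

namespace Pool.Agent.TH535

open Finset Filter Topology MeasureTheory Pool.Agent.H306R2 Pool.Agent.TH535.MA

noncomputable section

variable {ι : Type} [Fintype ι] [DecidableEq ι]

/-- logarithmic position -/
def posI (L : ℝ) (b : ι → ℕ) : ι → ℝ := fun x => Real.log (b x) / L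

/-- the limit density -/
def GdI (m : ι → ℝ) (u : ι → ℝ) : ℝ := ∏ x, gd (m x) (u x)

lemma GdI_nonneg {m : ι → ℝ} (hm : ∀ i, 0 < m i) (u : ι → ℝ) : 0 ≤ GdI m u :=
  prod_nonneg fun i _ => gd_nonneg (hm i) _

/-- the numbering of the index set -/
abbrev sg (ι : Type) [Fintype ι] : ι ≃ Fin (Fintype.card ι) := Fintype.equivFin ι

/-- the induced equivalence of tuples -/
abbrev sgA (ι : Type) [Fintype ι] (α : Type) : (ι → α) ≃ (Fin (Fintype.card ι) → α) :=
  Equiv.arrowCongr (sg ι) (Equiv.refl α)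

lemma sgA_apply {α : Type} (f : ι → α) (i : Fin (Fintype.card ι)) :
    sgA ι α f i = f ((sg ι).symm i) := rfl

lemma sgA_comp {α : Type} (f : ι → α) : (fun x => sgA ι α f (sg ι x)) = f := by
  funext x
  rw [sgA_apply, Equiv.symm_apply_apply]

/-- transported weight -/
def w' (lam : ℕ → (ι → ℕ) → ℝ) (b : Fin (Fintype.card ι) → ℕ) : ℝ := mw lam (fun x => b (sg ι x))

lemma w'_sgA (lam : ℕ → (ι → ℕ) → ℝ) (f : ι → ℕ) : w' lam (sgA ι ℕ f) = mw lam f := by
  unfold w'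
  rw [sgA_comp]

lemma prod_sg (F : ι → ℝ) : ∏ i, F ((sg ι).symm i) = ∏ x, F x := Equiv.prod_comp (sg ι).symm F

lemma term_eq (lam : ℕ → (ι → ℕ) → ℝ) (s : Fin (Fintype.card ι) → ℝ) (f : ι → ℕ) :
    w' lam (sgA ι ℕ f) * ∏ i, ((sgA ι ℕ f i : ℕ) : ℝ) ^ (-(s i)) =
      mw lam f * ∏ x, (f x : ℝ) ^ (-(s (sg ι x))) := by
  rw [w'_sgA]
  congr 1
  rw [← prod_sg (fun x => (f x : ℝ) ^ (-(s (sg ι x))))]
  refine prod_congr rfl fun i _ => ?_
  rw [Equiv.apply_symm_apply, sgA_apply]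

lemma mw_nonneg' {m : ι → ℝ} {lam : ℕ → (ι → ℕ) → ℝ} (H : LW m lam) (b : ι → ℕ) : 0 ≤ mw lam b := by
  unfold mw
  split_ifs
  · exact Finset.prod_nonneg fun p hp => H.nonneg p (Nat.prime_of_mem_primeFactors hp) _
  · exact le_rfl

theorem w'_KH {m : ι → ℝ} {lam : ℕ → (ι → ℕ) → ℝ} (H : LW m lam) :
    KH (Fintype.card ι) (w' lam) where
  hw b := mw_nonneg' H _
  hw0 b hb := by
    obtain ⟨i, hi⟩ := hb
    unfold w' mw
    rw [if_neg]
    intro h
    refine h ((sg ι).symm i) ?_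
    show b (sg ι ((sg ι).symm i)) = 0
    rw [Equiv.apply_symm_apply]
    exact hi
  hsum s hs := by
    rw [← (sgA ι ℕ).summable_iff]
    refine (mw_euler m lam H (fun x => s (sg ι x)) (fun x => hs _)).1.congr fun f => ?_
    exact (term_eq lam s f).symm

theorem w'_lim {m : ι → ℝ} {lam : ℕ → (ι → ℕ) → ℝ} (H : LW m lam)
    (s : Fin (Fintype.card ι) → ℝ) (hs : ∀ i, 0 < s i) :
    Tendsto (fun L : ℝ => (∑' b : Fin (Fintype.card ι) → ℕ, w' lam b *
        ∏ i, (b i : ℝ) ^ (-(s i / L))) / L ^ (∑ x, m x)) atTop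
      (𝓝 ((∏' p : Nat.Primes, ((1 - 1 / (p : ℝ)) ^ (∑ x, m x) * ∑' v : ι → ℕ, lam p v)) *
        ∏ i, (s i) ^ (-(m ((sg ι).symm i))))) := by
  have h := (MB.mw_prod_lim m lam H (fun x => s (sg ι x)) (fun x => hs _)).2
  have e1 : ∏ x, (s (sg ι x)) ^ (-(m x : ℝ)) = ∏ i, (s i) ^ (-(m ((sg ι).symm i))) := by
    rw [← prod_sg (fun x => (s (sg ι x)) ^ (-(m x : ℝ)))]
    refine prod_congr rfl fun i _ => ?_
    rw [Equiv.apply_symm_apply]
  rw [e1] at h
  refine h.congr' ?_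
  filter_upwards [eventually_gt_atTop (0 : ℝ)] with L hL
  congr 1
  rw [(mw_euler m lam H (fun x => s (sg ι x) / L) (fun x => div_pos (hs _) hL)).2.tprod_eq,
    ← (sgA ι ℕ).tsum_eq]
  refine tsum_congr fun f => ?_
  exact (term_eq lam (fun i => s i / L) f).symm

/-- transported test function -/
def phi' (φ : (ι → ℝ) → ℝ) (u : Fin (Fintype.card ι) → ℝ) : ℝ := φ (fun x => u (sg ι x))

lemma phi'_cont {φ : (ι → ℝ) → ℝ} (hφ : Continuous φ) : Continuous (phi' φ) := by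
  unfold phi'
  exact hφ.comp (by fun_prop)

lemma int_eq (m : ι → ℝ) (φ : (ι → ℝ) → ℝ) :
    ∫ u : Fin (Fintype.card ι) → ℝ, Gd (fun i => m ((sg ι).symm i)) u * phi' φ u =
      ∫ u : ι → ℝ, GdI m u * φ u := by
  have hmp := volume_measurePreserving_piCongrLeft (fun _ : Fin (Fintype.card ι) => ℝ) (sg ι)
  have h := hmp.integral_comp' (g := fun u : Fin (Fintype.card ι) → ℝ =>
    Gd (fun i => m ((sg ι).symm i)) u * phi' φ u)
  rw [← h]
  refine integral_congr_ae (Eventually.of_forall fun u => ?_)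
  have e0 : ∀ i, MeasurableEquiv.piCongrLeft (fun _ : Fin (Fintype.card ι) => ℝ) (sg ι) u i =
      u ((sg ι).symm i) := by
    intro i
    rw [MeasurableEquiv.coe_piCongrLeft]
    obtain ⟨x, rfl⟩ := (sg ι).surjective i
    rw [Equiv.piCongrLeft_apply_apply, Equiv.symm_apply_apply]
  have e1 : Gd (fun i => m ((sg ι).symm i))
      (MeasurableEquiv.piCongrLeft (fun _ : Fin (Fintype.card ι) => ℝ) (sg ι) u) = GdI m u := by
    unfold Gd GdI
    rw [← prod_sg (fun x => gd (m x) (u x))]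
    refine prod_congr rfl fun i _ => ?_
    rw [e0]
  have e2 : phi' φ (MeasurableEquiv.piCongrLeft (fun _ : Fin (Fintype.card ι) => ℝ) (sg ι) u) = φ u := by
    unfold phi'
    congr 1
    funext x
    rw [e0, Equiv.symm_apply_apply]
  simp only [e1, e2]

lemma int_able {m : ι → ℝ} (hm : ∀ i, 0 < m i) (φ : (ι → ℝ) → ℝ) (hφ : Continuous φ) (M : ℝ)
    (h0 : ∀ u : ι → ℝ, (∀ i, 0 ≤ u i) → (∃ i, M ≤ u i) → φ u = 0) (hM : 0 ≤ M) :
    Integrable (fun u : ι → ℝ => GdI m u * φ u) := by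
  have h1 := tf_integrable (phi' φ) (phi'_cont hφ) M (fun u hu hi => h0 _ (fun x => hu _) (by
    obtain ⟨i, hi⟩ := hi
    exact ⟨(sg ι).symm i, by rw [Equiv.apply_symm_apply]; exact hi⟩)) hM
    (m := fun i => m ((sg ι).symm i)) (fun i => hm _)
  have hmp := volume_measurePreserving_piCongrLeft (fun _ : Fin (Fintype.card ι) => ℝ) (sg ι)
  have h2 := (hmp.integrable_comp_emb (MeasurableEquiv.measurableEmbedding _)).2 h1
  refine h2.congr (Eventually.of_forall fun u => ?_)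
  have e0 : ∀ i, MeasurableEquiv.piCongrLeft (fun _ : Fin (Fintype.card ι) => ℝ) (sg ι) u i =
      u ((sg ι).symm i) := by
    intro i
    rw [MeasurableEquiv.coe_piCongrLeft]
    obtain ⟨x, rfl⟩ := (sg ι).surjective i
    rw [Equiv.piCongrLeft_apply_apply, Equiv.symm_apply_apply]
  have e1 : Gd (fun i => m ((sg ι).symm i))
      (MeasurableEquiv.piCongrLeft (fun _ : Fin (Fintype.card ι) => ℝ) (sg ι) u) = GdI m u := by
    unfold Gd GdI
    rw [← prod_sg (fun x => gd (m x) (u x))]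
    refine prod_congr rfl fun i _ => ?_
    rw [e0]
  have e2 : phi' φ (MeasurableEquiv.piCongrLeft (fun _ : Fin (Fintype.card ι) => ℝ) (sg ι) u) = φ u := by
    unfold phi'
    congr 1
    funext x
    rw [e0, Equiv.symm_apply_apply]
  simp only [Function.comp, e1, e2]

theorem kar {m : ι → ℝ} (hm : ∀ i, 0 < m i) {lam : ℕ → (ι → ℕ) → ℝ} (H : LW m lam)
    (A : ℝ) (hA : A = ∏' p : Nat.Primes, ((1 - 1 / (p : ℝ)) ^ (∑ x, m x) * ∑' v : ι → ℕ, lam p v))
    (hA0 : 0 ≤ A)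
    (φ : (ι → ℝ) → ℝ) (hφ : Continuous φ) (M : ℝ)
    (h0 : ∀ u : ι → ℝ, (∀ i, 0 ≤ u i) → (∃ i, M ≤ u i) → φ u = 0) (hM : 0 ≤ M) :
    (∀ L : ℝ, 0 < L → Summable (fun b => mw lam b * φ (posI L b))) ∧
    Tendsto (fun L : ℝ => (∑' b, mw lam b * φ (posI L b)) / L ^ (∑ x, m x))
      atTop (𝓝 (A * ∫ u : ι → ℝ, GdI m u * φ u)) := by
  have h0' : ∀ u : Fin (Fintype.card ι) → ℝ, (∀ i, 0 ≤ u i) → (∃ i, M ≤ u i) → phi' φ u = 0 := by
    intro u hu hi
    refine h0 _ (fun x => hu _) ?_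
    obtain ⟨i, hi⟩ := hi
    exact ⟨(sg ι).symm i, by rw [Equiv.apply_symm_apply]; exact hi⟩
  have e1 : ∀ (L : ℝ) (f : ι → ℕ), w' lam (sgA ι ℕ f) * phi' φ (pos L (sgA ι ℕ f)) =
      mw lam f * φ (posI L f) := by
    intro L f
    rw [w'_sgA]
    congr 1
    unfold phi'
    congr 1
    funext x
    unfold pos posI
    rw [sgA_apply, Equiv.symm_apply_apply]
  refine ⟨fun L hL => ?_, ?_⟩
  · have := tf_summable (w'_KH H) (phi' φ) (phi'_cont hφ) M h0' hM hL
    rw [← (sgA ι ℕ).summable_iff] at this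
    exact this.congr fun f => e1 L f
  · have h := karamata (w'_KH H) (∑ x, m x) A hA0 (fun i => m ((sg ι).symm i)) (fun i => hm _)
      (fun s hs => by rw [hA]; exact w'_lim H s hs) (phi' φ) (phi'_cont hφ) M h0' hM
    rw [int_eq] at h
    refine h.congr fun L => ?_
    congr 1
    rw [← (sgA ι ℕ).tsum_eq]
    exact tsum_congr fun f => e1 L f

end

end Pool.Agent.TH535
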