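import Pool.Agent.TH535.Vol2
import Pool.Agent.TH535.Ident

set_option autoImplicit false
set_option linter.unusedSectionVars false

/-! Asymptotic bounds for the main term of the correlation. -/

namespace Pool.Agent.TH535

open Finset Filter Topology MeasureTheory Pool.Agent.H306R2 Pool.Agent.TH535.MA
open scoped ENNReal

noncomputable section

lemma CR_nonneg {n : ℕ} (j : ℕ) (e : Fin n → ℝ) (he : ∀ a, 0 < e a) (XH Xt : ℝ) (X : Fin n → ℝ)
    (hH : 0 ≤ XH) : 0 ≤ CR j (ei e) (PA e X) XH Xt := by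
  rw [CR_eq j (ei e) (PA e X) XH Xt hH]
  refine sum_nonneg fun x _ => Gr_nonneg j (ei_nonneg he) _ (fun m => ?_) XH Xt x
  exact prod_nonneg_af _ _ (fun a m => tr_nonneg (fun m => dv_nonneg (he a).le m) _ m) m

theorem CR_sum {n : ℕ} (j : ℕ) (e : Fin n → ℝ) (he : ∀ a, 0 < e a) (XH Xt : ℝ) (X : Fin n → ℝ)
    (hH : 0 ≤ XH) (hX1 : ∀ a, 1 ≤ X a) (hX : ∏ a, X a ≤ Xt) :
    Summable (fun b : Ix n → ℕ => mw (lam j e) b * chI XH Xt X b) ∧
      ∑' b : Ix n → ℕ, mw (lam j e) b * chI XH Xt X b = CR j (ei e) (PA e X) XH Xt := by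
  have h := identE j e he XH Xt X hH hX1 hX
  have h0 : ∀ b : Ix n → ℕ, 0 ≤ mw (lam j e) b * chI XH Xt X b := fun b =>
    mul_nonneg (mw_nonneg j he b) (chI_nonneg _ _ _ _)
  have hs : Summable (fun b : Ix n → ℕ => mw (lam j e) b * chI XH Xt X b) := by
    have h1 := ENNReal.summable_toReal (f := fun b : Ix n → ℕ =>
      ENNReal.ofReal (mw (lam j e) b * chI XH Xt X b)) (by rw [h]; exact ENNReal.ofReal_ne_top)
    refine h1.congr fun b => ?_
    rw [ENNReal.toReal_ofReal (h0 b)]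
  refine ⟨hs, ?_⟩
  rw [← ENNReal.ofReal_tsum_of_nonneg h0 hs] at h
  have h2 := congrArg ENNReal.toReal h
  rwa [ENNReal.toReal_ofReal (tsum_nonneg h0), ENNReal.toReal_ofReal (CR_nonneg j e he XH Xt X hH)] at h2

lemma le_exp_iff {L : ℝ} (hL : 0 < L) {x : ℕ} (hx : x ≠ 0) (a : ℝ) :
    (x : ℝ) ≤ Real.exp (a * L) ↔ Real.log x / L ≤ a := by
  have hx0 : (0:ℝ) < x := by exact_mod_cast Nat.pos_of_ne_zero hx
  rw [div_le_iff₀ hL, Real.log_le_iff_le_exp hx0]

lemma chI_eq {n : ℕ} {L : ℝ} (hL : 0 < L) (α θ : ℝ) (β : Fin n → ℝ) (b : Ix n → ℕ)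
    (hb : ∀ x, b x ≠ 0) :
    chI (Real.exp (α * L)) (Real.exp (θ * L)) (fun a => Real.exp (β a * L)) b = chR α θ β (posI L b) := by
  have hh : vh b ≠ 0 := hb _
  have hs : vs b ≠ 0 := hb _
  have hl : ∀ a, vl b a ≠ 0 := fun a => hb _
  have hr : ∀ a, vr b a ≠ 0 := fun a => hb _
  have hl1 : ∏ a, vl b a ≠ 0 := prod_ne_zero_iff.2 fun a _ => hl a
  have e1 : ((vh b : ℕ) : ℝ) ≤ Real.exp (α * L) ↔ vh (posI L b) ≤ α := le_exp_iff hL hh α
  have e2 : (((∏ a, vl b a) * vs b : ℕ) : ℝ) ≤ Real.exp (θ * L) ↔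
      ∑ a, vl (posI L b) a + vs (posI L b) ≤ θ := by
    rw [le_exp_iff hL (mul_ne_zero hl1 hs) θ]
    have : Real.log (((∏ a, vl b a) * vs b : ℕ) : ℝ) / L = ∑ a, vl (posI L b) a + vs (posI L b) := by
      rw [Nat.cast_mul, Real.log_mul (by exact_mod_cast hl1) (by exact_mod_cast hs), Nat.cast_prod,
        Real.log_prod fun a _ => by exact_mod_cast hl a, add_div, sum_div]
      rfl
    rw [this]
  have e3 : ∀ a, ((vl b a * vr b a : ℕ) : ℝ) ≤ Real.exp (β a * L) ↔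
      vl (posI L b) a + vr (posI L b) a ≤ β a := by
    intro a
    rw [le_exp_iff hL (mul_ne_zero (hl a) (hr a)) (β a)]
    have : Real.log ((vl b a * vr b a : ℕ) : ℝ) / L = vl (posI L b) a + vr (posI L b) a := by
      rw [Nat.cast_mul, Real.log_mul (by exact_mod_cast hl a) (by exact_mod_cast hr a), add_div]
      rfl
    rw [this]
  unfold chI chR
  simp only [e1, e2, e3]

lemma mw_chI {n : ℕ} (j : ℕ) (e : Fin n → ℝ) {L : ℝ} (hL : 0 < L) (α θ : ℝ) (β : Fin n → ℝ)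
    (b : Ix n → ℕ) :
    mw (lam j e) b * chI (Real.exp (α * L)) (Real.exp (θ * L)) (fun a => Real.exp (β a * L)) b =
      mw (lam j e) b * chR α θ β (posI L b) := by
  by_cases hb : ∀ x, b x ≠ 0
  · rw [chI_eq hL α θ β b hb]
  · have : mw (lam j e) b = 0 := by
      unfold mw
      rw [if_neg hb]
    rw [this, zero_mul, zero_mul]

/-- test function -/
def tf {n : ℕ} (α θ : ℝ) (β : Fin n → ℝ) (d : ℝ) (u : Ix n → ℝ) : ℝ :=
  sc α d (vh u) * sc θ d (∑ a, vl u a + vs u) * ∏ a, sc (β a) d (vl u a + vr u a)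

lemma tf_cont {n : ℕ} (α θ : ℝ) (β : Fin n → ℝ) (d : ℝ) : Continuous (tf α θ β d) := by
  unfold tf
  refine Continuous.mul (Continuous.mul ((sc_cont _ _).comp ?_) ((sc_cont _ _).comp ?_)) ?_
  · exact continuous_apply _
  · refine Continuous.add (continuous_finsetSum _ fun a _ => continuous_apply _) (continuous_apply _)
  · refine continuous_finsetProd _ fun a _ => (sc_cont _ _).comp ?_
    exact (continuous_apply _).add (continuous_apply _)

lemma tf_nonneg {n : ℕ} (α θ : ℝ) (β : Fin n → ℝ) (d : ℝ) (u : Ix n → ℝ) : 0 ≤ tf α θ β d u :=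
  mul_nonneg (mul_nonneg (sc_nonneg _ _ _) (sc_nonneg _ _ _)) (prod_nonneg fun a _ => sc_nonneg _ _ _)

lemma tf_ge {n : ℕ} (α θ : ℝ) (β : Fin n → ℝ) {d : ℝ} (hd : 0 < d) (u : Ix n → ℝ) :
    chR α θ β u ≤ tf α θ β d u := by
  unfold chR
  split_ifs with h
  · unfold tf
    rw [sc_eq_one hd h.1, sc_eq_one hd h.2.1, prod_eq_one fun a _ => sc_eq_one hd (h.2.2 a)]
    norm_num
  · exact tf_nonneg _ _ _ _ _

lemma tf_le {n : ℕ} (α θ : ℝ) (β : Fin n → ℝ) {d : ℝ} (hd : 0 < d) (α' θ' : ℝ) (β' : Fin n → ℝ)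
    (h1 : α + d ≤ α') (h2 : θ + d ≤ θ') (h3 : ∀ a, β a + d ≤ β' a) (u : Ix n → ℝ) :
    tf α θ β d u ≤ chR α' θ' β' u := by
  unfold chR
  split_ifs with h
  · unfold tf
    exact mul_le_one₀ (mul_le_one₀ (sc_le_one _ _ _) (sc_nonneg _ _ _) (sc_le_one _ _ _))
      (prod_nonneg fun a _ => sc_nonneg _ _ _) (prod_le_one (fun a _ => sc_nonneg _ _ _)
        fun a _ => sc_le_one _ _ _)
  · unfold tf
    rw [not_and_or, not_and_or] at h
    rcases h with h | h | h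
    · rw [sc_eq_zero hd (by linarith)]; simp
    · rw [sc_eq_zero (a := θ) hd (by linarith)]; simp
    · push Not at h
      obtain ⟨a, ha⟩ := h
      rw [prod_eq_zero (mem_univ a) (sc_eq_zero hd (by linarith [h3 a]))]; simp

lemma tf_zero {n : ℕ} (α θ : ℝ) (β : Fin n → ℝ) {d : ℝ} (hd : 0 < d) (M : ℝ)
    (h1 : α + d ≤ M) (h2 : θ + d ≤ M) (h3 : ∀ a, β a + d ≤ M) (u : Ix n → ℝ) (hu : ∀ x, 0 ≤ u x)
    (hx : ∃ x, M ≤ u x) : tf α θ β d u = 0 := by
  have hl : ∀ a, 0 ≤ vl u a := fun a => hu _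
  have hr : ∀ a, 0 ≤ vr u a := fun a => hu _
  have hs : 0 ≤ vs u := hu _
  obtain ⟨x, hx⟩ := hx
  unfold tf
  rcases x with (a | a) | x
  · have h4 : vl u a ≤ ∑ a, vl u a := single_le_sum (fun a _ => hl a) (mem_univ a)
    have h5 : M ≤ vl u a := hx
    rw [sc_eq_zero (a := θ) hd (by linarith)]; simp
  · have h5 : M ≤ vr u a := hx
    rw [prod_eq_zero (mem_univ a) (sc_eq_zero hd (by linarith [h3 a, hl a]))]; simp
  · fin_cases x
    · have h5 : M ≤ vh u := hx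
      rw [sc_eq_zero (a := α) hd (by linarith)]; simp
    · have h5 : M ≤ vs u := hx
      have h4 : 0 ≤ ∑ a, vl u a := sum_nonneg fun a _ => hl a
      rw [sc_eq_zero (a := θ) hd (by linarith)]; simp

lemma aF_lam {n : ℕ} {j : ℕ} (hj : 1 ≤ j) (e : Fin n → ℝ) (he : ∀ a, 0 < e a) :
    aF (j + ei e) = ∏' p : Nat.Primes, ((1 - 1 / (p : ℝ)) ^ (∑ x, mm j e x) *
      ∑' v : Ix n → ℕ, lam j e p v) := by
  unfold aF
  refine tprod_congr fun p => ?_
  rw [mm_sum, lam_tsum hj e he p.2]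

lemma tf_lim {n : ℕ} {j : ℕ} (hj : 1 ≤ j) (e : Fin n → ℝ) (he : ∀ a, 0 < e a) (hn : 0 < n)
    (α θ : ℝ) (β : Fin n → ℝ) {d : ℝ} (hd : 0 < d) :
    Integrable (fun u => GdI (mm j e) u * tf α θ β d u) ∧
    (∀ L : ℝ, 0 < L → Summable (fun b => mw (lam j e) b * tf α θ β d (posI L b))) ∧
    Tendsto (fun L : ℝ => (∑' b, mw (lam j e) b * tf α θ β d (posI L b)) / L ^ (((j : ℝ) + ei e) ^ 2))
      atTop (𝓝 (aF (j + ei e) * ∫ u : Ix n → ℝ, GdI (mm j e) u * tf α θ β d u)) := by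
  have hj0 : (0 : ℝ) < j := by exact_mod_cast hj
  have hi0 : 0 < ei e := sum_pos (fun a _ => he a) ⟨⟨0, hn⟩, mem_univ _⟩
  have hm := fun x => mm_pos hj he hn x
  set M : ℝ := |α| + |θ| + (∑ a, |β a|) + d with hM
  have q1 := le_abs_self α
  have q2 := le_abs_self θ
  have q3 := abs_nonneg α
  have q4 := abs_nonneg θ
  have q5 : 0 ≤ ∑ a, |β a| := sum_nonneg fun a _ => abs_nonneg _
  have hM0 : 0 ≤ M := by positivity
  have hz : ∀ u : Ix n → ℝ, (∀ x, 0 ≤ u x) → (∃ x, M ≤ u x) → tf α θ β d u = 0 := by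
    intro u hu hx
    refine tf_zero α θ β hd M (by linarith) (by linarith) (fun a => ?_) u hu hx
    have h4 : |β a| ≤ ∑ a, |β a| := single_le_sum (fun a _ => abs_nonneg (β a)) (mem_univ a)
    have := le_abs_self (β a)
    linarith
  have hk := kar hm (lam_LW hj he hn) (aF (j + ei e)) (aF_lam hj e he) (aF_pos (by positivity)).le
    (tf α θ β d) (tf_cont α θ β d) M hz hM0
  rw [mm_sum] at hk
  exact ⟨int_able hm _ (tf_cont α θ β d) M hz hM0, hk.1, hk.2⟩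

lemma posI_nonneg {ι : Type} {L : ℝ} (hL : 0 < L) (b : ι → ℕ) (x : ι) : 0 ≤ posI L b x :=
  div_nonneg (Real.log_natCast_nonneg _) hL.le

lemma VL_cont {n : ℕ} {j : ℕ} (e : Fin n → ℝ) {α : ℝ} (hα : 0 < α) {β : Fin n → ℝ} (hβ : ∀ a, 0 < β a) :
    ContinuousAt (fun d : ℝ => VL j e (α + d) (fun a => β a + d)) 0 := by
  unfold VL
  refine ContinuousAt.mul (ContinuousAt.mul (ContinuousAt.div_const ?_ _) continuousAt_const)
    (tendsto_finsetProd _ fun a _ => ?_)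
  · exact ContinuousAt.rpow_const (by fun_prop) (Or.inl (by linarith))
  · have : ContinuousAt (fun d : ℝ => (ei e / e a) ^ ((j : ℝ) * e a) / Real.Gamma ((j : ℝ) * e a + 1) *
      ((β a + d) ^ ((ei e + 2 * j) * e a) * Real.Gamma (2 * j * e a + 1) /
        Real.Gamma ((ei e + 2 * j) * e a + 1))) 0 := by
      refine ContinuousAt.mul continuousAt_const (ContinuousAt.div_const (ContinuousAt.mul ?_
        continuousAt_const) _)
      exact ContinuousAt.rpow_const (by fun_prop) (Or.inl (by linarith [hβ a]))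
    exact this

theorem CR_lower {n : ℕ} {j : ℕ} (hj : 1 ≤ j) (e : Fin n → ℝ) (he : ∀ a, 0 < e a) (hn : 0 < n)
    (α : ℝ) (hα : 0 < α) (β : Fin n → ℝ) (hβ : ∀ a, 0 < β a) (c : ℝ)
    (hc : c < aF (j + ei e) * VL j e α β) :
    ∀ᶠ L : ℝ in atTop, c * L ^ (((j : ℝ) + ei e) ^ 2) ≤
      CR j (ei e) (PA e (fun a => Real.exp (β a * L))) (Real.exp (α * L)) (Real.exp ((∑ a, β a) * L)) := by
  have hj0 : (0 : ℝ) < j := by exact_mod_cast hj
  have hi0 : 0 < ei e := sum_pos (fun a _ => he a) ⟨⟨0, hn⟩, mem_univ _⟩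
  have haF := aF_pos (by positivity : 0 < (j : ℝ) + ei e)
  have hm := fun x => mm_pos hj he hn x
  -- choose d
  have hct : Tendsto (fun d : ℝ => aF (j + ei e) * VL j e (α + d) (fun a => β a + d)) (𝓝[<] 0)
      (𝓝 (aF (j + ei e) * VL j e α β)) := by
    have h := ((VL_cont (j := j) e hα hβ).const_mul (aF (j + ei e))).tendsto
    simp only [add_zero] at h
    exact h.mono_left nhdsWithin_le_nhds
  have hex : ∃ d : ℝ, c < aF (j + ei e) * VL j e (α + d) (fun a => β a + d) ∧ d < 0 ∧ -α < d ∧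
      ∀ a, -β a < d := by
    have h1 := hct.eventually_const_lt hc
    have h2 : ∀ᶠ d : ℝ in 𝓝[<] 0, d < 0 := eventually_mem_nhdsWithin
    have h3 : ∀ᶠ d : ℝ in 𝓝[<] 0, -α < d :=
      (eventually_gt_nhds (by linarith : -α < 0)).filter_mono nhdsWithin_le_nhds
    have h4 : ∀ᶠ d : ℝ in 𝓝[<] 0, ∀ a, -β a < d := eventually_all.2 fun a =>
      (eventually_gt_nhds (by linarith [hβ a] : -β a < 0)).filter_mono nhdsWithin_le_nhds
    exact (h1.and (h2.and (h3.and h4))).exists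
  obtain ⟨d0, hd1, hd2, hd3, hd4⟩ := hex
  set d : ℝ := -d0 with hd
  have hd0 : 0 < d := by linarith
  set β' : Fin n → ℝ := fun a => β a + d0 with hβ'
  have hβ'0 : ∀ a, 0 < β' a := fun a => by
    have := hd4 a
    simp only [hβ']
    linarith
  have hn1 : (1 : ℝ) ≤ n := by exact_mod_cast hn
  have hsum' : ∑ a, β' a + d ≤ ∑ a, β a := by
    simp only [hβ']
    rw [sum_add_distrib, sum_const, card_univ, Fintype.card_fin, nsmul_eq_mul]
    nlinarith
  obtain ⟨hI, hS, hT⟩ := tf_lim hj e he hn (α + d0) (∑ a, β' a) β' hd0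
  have hlow := int_lower hj e he hn (α + d0) (by linarith) β' hβ'0 _ hI (tf_nonneg _ _ _ _)
    (fun u _ => tf_ge _ _ _ hd0 u)
  have hc2 : c < aF (j + ei e) * ∫ u : Ix n → ℝ, GdI (mm j e) u * tf (α + d0) (∑ a, β' a) β' d u :=
    hd1.trans_le (mul_le_mul_of_nonneg_left hlow haF.le)
  filter_upwards [hT.eventually_const_lt hc2, eventually_gt_atTop 0] with L hL hL0
  rw [lt_div_iff₀ (by positivity)] at hL
  have hX1 : ∀ a, 1 ≤ Real.exp (β a * L) := fun a => Real.one_le_exp (by have := hβ a; positivity)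
  have hXp : ∏ a, Real.exp (β a * L) ≤ Real.exp ((∑ a, β a) * L) := by
    rw [← Real.exp_sum, ← sum_mul]
  obtain ⟨s1, s2⟩ := CR_sum j e he (Real.exp (α * L)) (Real.exp ((∑ a, β a) * L))
    (fun a => Real.exp (β a * L)) (Real.exp_pos _).le hX1 hXp
  rw [← s2]
  refine hL.le.trans ((hS L hL0).tsum_le_tsum (fun b => ?_) s1)
  rw [mw_chI j e hL0]
  refine mul_le_mul_of_nonneg_left ?_ (mw_nonneg j he b)
  exact tf_le _ _ _ hd0 _ _ _ (by linarith) hsum' (fun a => by simp only [hβ']; linarith) _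

theorem CR_upper {j : ℕ} (hj : 1 ≤ j) {i : ℝ} (hi : 0 < i)
    (α : ℝ) (hα : 0 < α) (θ : ℝ) (hθ : 0 < θ) (c : ℝ)
    (hc : aF (j + i) * Vn j i α θ < c) :
    ∀ᶠ L : ℝ in atTop,
      CR j i (PA (fun _ : Fin 1 => i) (fun _ => Real.exp (θ * L))) (Real.exp (α * L)) (Real.exp (θ * L)) ≤
        c * L ^ (((j : ℝ) + i) ^ 2) := by
  have hj0 : (0 : ℝ) < j := by exact_mod_cast hj
  have haF := aF_pos (by positivity : 0 < (j : ℝ) + i)
  have hm := fun x => mm_pos hj (fun _ : Fin 1 => hi) one_pos x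
  have hct : Tendsto (fun d : ℝ => aF (j + i) * Vn j i (α + d) (θ + d)) (𝓝[>] 0)
      (𝓝 (aF (j + i) * Vn j i α θ)) := by
    have h := ((VL_cont (j := j) (fun _ : Fin 1 => i) hα (fun _ => hθ)).const_mul (aF (j + i))).tendsto
    simp only [add_zero] at h
    exact h.mono_left nhdsWithin_le_nhds
  have hex : ∃ d : ℝ, aF (j + i) * Vn j i (α + d) (θ + d) < c ∧ 0 < d := by
    have h1 := hct.eventually_lt_const hc
    have h2 : ∀ᶠ d : ℝ in 𝓝[>] 0, 0 < d := eventually_mem_nhdsWithin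
    exact (h1.and h2).exists
  obtain ⟨d, hd1, hd0⟩ := hex
  obtain ⟨hI, hS, hT⟩ := tf_lim hj (fun _ : Fin 1 => i) (fun _ => hi) one_pos α θ (fun _ => θ) hd0
  have hup := int_upper hj hi (α + d) (by linarith) (θ + d) (by linarith) _ hI (tf_nonneg _ _ _ _)
    (fun u _ => tf_le _ _ _ hd0 _ _ _ le_rfl le_rfl (fun _ => le_rfl) u)
  rw [ei_one] at hT
  have hc2 : aF (j + i) * ∫ u : Ix 1 → ℝ, GdI (mm j (fun _ => i)) u * tf α θ (fun _ => θ) d u < c :=
    (mul_le_mul_of_nonneg_left hup haF.le).trans_lt hd1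
  filter_upwards [hT.eventually_lt_const hc2, eventually_gt_atTop 0] with L hL hL0
  rw [div_lt_iff₀ (by positivity)] at hL
  obtain ⟨s1, s2⟩ := CR_sum j (fun _ : Fin 1 => i) (fun _ => hi) (Real.exp (α * L)) (Real.exp (θ * L))
    (fun _ => Real.exp (θ * L)) (Real.exp_pos _).le (fun _ => Real.one_le_exp (by positivity))
    (by rw [Fin.prod_univ_one])
  rw [ei_one] at s2
  rw [← s2]
  refine le_trans (s1.tsum_le_tsum (fun b => ?_) (hS L hL0)) hL.le
  have := mw_chI j (fun _ : Fin 1 => i) hL0 α θ (fun _ => θ) b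
  rw [this]
  exact mul_le_mul_of_nonneg_left (tf_ge _ _ _ hd0 _) (mw_nonneg j (fun _ => hi) b)

/-- the mean square of the test function -/
def ES (j : ℕ) (i : ℝ) (XH Xt : ℝ) : ℝ := ∑ b ∈ SPs XH Xt, cc j i Xt b ^ 2

lemma ES_eq (j : ℕ) (i : ℝ) (XH Xt : ℝ) :
    ES j i XH Xt = CR j i (PA (fun _ : Fin 1 => i) (fun _ => Xt)) XH Xt := by
  unfold ES CR
  refine sum_congr rfl fun b _ => ?_
  rw [sq]
  congr 1
  unfold cc rr PA
  rw [Fin.prod_univ_one]
  congr 1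
  refine sum_congr rfl fun s _ => ?_
  rw [tr_apply, dA_apply]
  split_ifs <;> simp

end

end Pool.Agent.TH535
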