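import Pool.Agent.H306R2.Region
import Pool.Agent.H306R2.EPLim

set_option autoImplicit false
set_option linter.unusedSectionVars false
set_option linter.unusedVariables false

/-!
Multiplicative functions of several variables (real first order weights): the Euler product.
Adapted from the eighth moment project.
-/

namespace Pool.Agent.TH535.MA

open Finset Filter Topology MeasureTheory Complex
open Pool.Agent.H306R2

noncomputable section


/-- local weights of a multiplicative function of finitely many variables with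
`lam p e_i = m_i/p + O(p^-2)` -/
structure LW {ι : Type} [Fintype ι] [DecidableEq ι] (m : ι → ℝ) (lam : ℕ → (ι → ℕ) → ℝ) : Prop where
  mnn : ∀ i, 0 ≤ m i
  nonneg : ∀ p : ℕ, p.Prime → ∀ v, 0 ≤ lam p v
  zero : ∀ p : ℕ, p.Prime → lam p 0 = 1
  sum : ∀ p : ℕ, p.Prime → Summable (lam p)
  first : ∃ C : ℝ, ∀ p : ℕ, p.Prime → ∀ i, |lam p (Pi.single i 1) - (m i : ℝ) / p| ≤ C / (p : ℝ) ^ 2
  second : ∃ C : ℝ, ∀ p : ℕ, p.Prime →
    ∑' v : ι → ℕ, (if 2 ≤ ∑ i, v i then lam p v else 0) ≤ C / (p : ℝ) ^ 2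

/-- the multiplicative function with local weights `lam` -/
def mw {ι : Type} [Fintype ι] (lam : ℕ → (ι → ℕ) → ℝ) (b : ι → ℕ) : ℝ :=
  if ∀ i, b i ≠ 0 then ∏ p ∈ (∏ i, b i).primeFactors, lam p (fun i => (b i).factorization p) else 0

/-- exponent vector -/
def vec {ι : Type} [Fintype ι] (q : ℕ) (b : ι → ℕ) : ι → ℕ := fun i => (b i).factorization q

/-- local term -/
def gl {ι : Type} [Fintype ι] (lam : ℕ → (ι → ℕ) → ℝ) (s : ι → ℝ) (q : ℕ) (v : ι → ℕ) : ℝ :=
  lam q v * (q : ℝ) ^ (-(∑ i, s i * (v i : ℝ)))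

/-- full term -/
def FF {ι : Type} [Fintype ι] (lam : ℕ → (ι → ℕ) → ℝ) (s : ι → ℝ) (b : ι → ℕ) : ℝ :=
  mw lam b * ∏ i, (b i : ℝ) ^ (-(s i))

variable {ι : Type} [Fintype ι] [DecidableEq ι] {m : ι → ℝ} {lam : ℕ → (ι → ℕ) → ℝ}

theorem mw_eq (hz : ∀ p : ℕ, p.Prime → lam p 0 = 1) {b : ι → ℕ} (hb : ∀ i, b i ≠ 0)
    {P : Finset ℕ} (hP : ∀ p ∈ P, p.Prime) (hbP : (∏ i, b i).primeFactors ⊆ P) :
    mw lam b = ∏ q ∈ P, lam q (vec q b) := by
  rw [mw, if_pos hb]
  refine Finset.prod_subset hbP fun q hq hq' => ?_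
  have e : vec q b = 0 := by
    funext i
    refine Nat.factorization_eq_zero_of_not_dvd fun h => hq' ?_
    rw [Nat.mem_primeFactors]
    exact ⟨hP q hq, h.trans (Finset.dvd_prod_of_mem b (Finset.mem_univ i)),
      Finset.prod_ne_zero_iff.2 fun i _ => hb i⟩
  change lam q (vec q b) = 1
  rw [e]
  exact hz q (hP q hq)

theorem rpow_eq (s : ι → ℝ) {b : ι → ℕ} (hb : ∀ i, b i ≠ 0)
    {P : Finset ℕ} (hP : ∀ p ∈ P, p.Prime) (hbP : (∏ i, b i).primeFactors ⊆ P) :
    ∏ i, (b i : ℝ) ^ (-(s i)) = ∏ q ∈ P, (q : ℝ) ^ (-(∑ i, s i * (vec q b i : ℝ))) := by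
  have h1 : ∀ i, (b i : ℝ) ^ (-(s i)) = ∏ q ∈ P, (q : ℝ) ^ (-(s i * (vec q b i : ℝ))) := by
    intro i
    have hsub : (b i).primeFactors ⊆ P := by
      refine subset_trans ?_ hbP
      exact Nat.primeFactors_mono (Finset.dvd_prod_of_mem b (Finset.mem_univ i))
        (Finset.prod_ne_zero_iff.2 fun i _ => hb i)
    have h2 : ((b i : ℕ) : ℝ) = ∏ q ∈ P, (q : ℝ) ^ (vec q b i) := by
      have h3 : b i = ∏ q ∈ P, q ^ (vec q b i) := by
        conv_lhs => rw [← Nat.prod_factorization_pow_eq_self (hb i)]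
        refine Finset.prod_subset hsub fun q _ hq => ?_
        have : (b i).factorization q = 0 := Finsupp.notMem_support_iff.1 hq
        rw [this]
        exact pow_zero _
      conv_lhs => rw [h3]
      push_cast
      rfl
    rw [h2, ← Real.finsetProd_rpow _ _ (fun q _ => by positivity)]
    refine Finset.prod_congr rfl fun q hq => ?_
    rw [← Real.rpow_natCast, ← Real.rpow_mul (by positivity)]
    congr 1
    ring
  rw [Finset.prod_congr rfl fun i _ => h1 i, Finset.prod_comm]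
  refine Finset.prod_congr rfl fun q hq => ?_
  have hq0 : (0 : ℝ) < q := by exact_mod_cast (hP q hq).pos
  rw [← Finset.sum_neg_distrib, Real.rpow_sum_of_pos hq0]

theorem FF_eq (hz : ∀ p : ℕ, p.Prime → lam p 0 = 1) (s : ι → ℝ) {b : ι → ℕ}
    (hb : ∀ i, b i ≠ 0) {P : Finset ℕ} (hP : ∀ p ∈ P, p.Prime)
    (hbP : (∏ i, b i).primeFactors ⊆ P) :
    FF lam s b = ∏ q ∈ P, gl lam s q (vec q b) := by
  rw [FF, mw_eq hz hb hP hbP, rpow_eq s hb hP hbP, ← Finset.prod_mul_distrib]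
  rfl

theorem FF_zero (s : ι → ℝ) {b : ι → ℕ} (hb : ¬ ∀ i, b i ≠ 0) : FF lam s b = 0 := by
  rw [FF, mw, if_neg hb, zero_mul]

/-- the tuples of integers composed of primes of `P` -/
abbrev TT (ι : Type) (P : Finset ℕ) : Type := ι → Nat.factoredNumbers P

/-- forget -/
def jj {P : Finset ℕ} (b : TT ι P) : ι → ℕ := fun i => (b i : ℕ)

theorem jj_inj {P : Finset ℕ} : Function.Injective (jj : TT ι P → ι → ℕ) := by
  intro a b h
  funext i
  exact Subtype.ext (congrFun h i)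

theorem jj_range {P : Finset ℕ} {b : ι → ℕ} :
    b ∈ Set.range (jj : TT ι P → ι → ℕ) ↔ (∀ i, b i ≠ 0) ∧ (∏ i, b i).primeFactors ⊆ P := by
  constructor
  · rintro ⟨c, rfl⟩
    have h0 : ∀ i, jj c i ≠ 0 := fun i => Nat.ne_zero_of_mem_factoredNumbers (c i).2
    refine ⟨h0, fun q hq => ?_⟩
    rw [Nat.mem_primeFactors] at hq
    obtain ⟨hq, hd, -⟩ := hq
    obtain ⟨i, -, hi⟩ := (Prime.dvd_finsetProd_iff hq.prime _).1 hd
    exact Nat.primeFactors_subset_of_mem_factoredNumbers (c i).2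
      (Nat.mem_primeFactors.2 ⟨hq, hi, h0 i⟩)
  · rintro ⟨h0, hP⟩
    refine ⟨fun i => ⟨b i, Nat.mem_factoredNumbers_of_primeFactors_subset (h0 i) ?_⟩, rfl⟩
    refine subset_trans ?_ hP
    exact Nat.primeFactors_mono (Finset.dvd_prod_of_mem b (Finset.mem_univ i))
      (Finset.prod_ne_zero_iff.2 fun i _ => h0 i)

/-- splitting off one prime -/
def spl {P : Finset ℕ} {p : ℕ} (hp : p.Prime) (h : p ∉ P) :
    (ι → ℕ) × TT ι P ≃ TT ι (insert p P) :=
  (Equiv.arrowProdEquivProdArrow ι (fun _ => ℕ)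
    (fun _ => Nat.factoredNumbers P)).symm.trans
    (Equiv.piCongrRight fun _ => Nat.equivProdNatFactoredNumbers hp h)

theorem spl_apply {P : Finset ℕ} {p : ℕ} (hp : p.Prime) (h : p ∉ P) (x : (ι → ℕ) × TT ι P)
    (i : ι) : jj (spl hp h x) i = p ^ (x.1 i) * jj x.2 i :=
  Nat.equivProdNatFactoredNumbers_apply' hp h (x.1 i, x.2 i)

theorem vec_spl_self {P : Finset ℕ} {p : ℕ} (hp : p.Prime) (h : p ∉ P)
    (x : (ι → ℕ) × TT ι P) : vec p (jj (spl hp h x)) = x.1 := by
  funext i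
  unfold vec
  have h0 : jj x.2 i ≠ 0 := Nat.ne_zero_of_mem_factoredNumbers (x.2 i).2
  have hd : ¬ p ∣ jj x.2 i := fun hd =>
    h (Nat.primeFactors_subset_of_mem_factoredNumbers (x.2 i).2
      (Nat.mem_primeFactors.2 ⟨hp, hd, h0⟩))
  rw [spl_apply, Nat.factorization_mul (pow_ne_zero _ hp.ne_zero) h0, Finsupp.add_apply,
    Nat.factorization_eq_zero_of_not_dvd hd, hp.factorization_pow, Finsupp.single_eq_same,
    add_zero]

theorem vec_spl_ne {P : Finset ℕ} {p : ℕ} (hp : p.Prime) (h : p ∉ P)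
    (x : (ι → ℕ) × TT ι P) {q : ℕ} (hq : q ≠ p) :
    vec q (jj (spl hp h x)) = vec q (jj x.2) := by
  funext i
  unfold vec
  have h0 : jj x.2 i ≠ 0 := Nat.ne_zero_of_mem_factoredNumbers (x.2 i).2
  rw [spl_apply, Nat.factorization_mul (pow_ne_zero _ hp.ne_zero) h0, Finsupp.add_apply,
    hp.factorization_pow, Finsupp.single_eq_of_ne hq, zero_add]

theorem gl_nonneg (hn : ∀ p : ℕ, p.Prime → ∀ v, 0 ≤ lam p v) (s : ι → ℝ) {p : ℕ}
    (hp : p.Prime) (v : ι → ℕ) : 0 ≤ gl lam s p v :=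
  mul_nonneg (hn p hp v) (by positivity)

/-- finite Euler product -/
theorem fin_euler (hn : ∀ p : ℕ, p.Prime → ∀ v, 0 ≤ lam p v) (s : ι → ℝ)
    (hs : ∀ p : ℕ, p.Prime → Summable (gl lam s p)) (P : Finset ℕ) (hP : ∀ p ∈ P, p.Prime) :
    HasSum (fun b : TT ι P => ∏ q ∈ P, gl lam s q (vec q (jj b)))
      (∏ q ∈ P, ∑' v, gl lam s q v) := by
  classical
  induction P using Finset.induction with
  | empty =>
    simp only [Finset.prod_empty]
    have h1 : (1 : ℕ) ∈ Nat.factoredNumbers ∅ := by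
      rw [Nat.factoredNumbers_empty]
      exact Set.mem_singleton 1
    have h3 : ∀ n ∈ Nat.factoredNumbers ∅, n = 1 := by
      intro n hn
      rw [Nat.factoredNumbers_empty] at hn
      exact hn
    refine hasSum_single (f := fun _ : TT ι ∅ => (1 : ℝ)) (fun _ => ⟨1, h1⟩) fun b hb => ?_
    exact absurd (funext fun i => Subtype.ext (h3 _ (b i).2)) hb
  | insert p P hp ih =>
    have hpp : p.Prime := hP p (Finset.mem_insert_self p P)
    have ih' := ih fun q hq => hP q (Finset.mem_insert_of_mem hq)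
    rw [Finset.prod_insert hp, ← (spl hpp hp).hasSum_iff]
    have h1 : HasSum (gl lam s p) (∑' v, gl lam s p v) := (hs p hpp).hasSum
    have hP' : ∀ q ∈ P, q.Prime := fun q hq => hP q (Finset.mem_insert_of_mem hq)
    have h2 := h1.mul ih' (h1.summable.mul_of_nonneg ih'.summable (fun v => gl_nonneg hn s hpp v)
      (fun b => Finset.prod_nonneg fun q hq => gl_nonneg hn s (hP' q hq) _))
    refine h2.congr_fun ?_
    intro x
    simp only [Function.comp]
    rw [Finset.prod_insert hp, vec_spl_self]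
    congr 1
    refine Finset.prod_congr rfl fun q hq => ?_
    rw [vec_spl_ne hpp hp x (fun e => hp (e ▸ hq))]

/-- the local factor -/
def loc (lam : ℕ → (ι → ℕ) → ℝ) (s : ι → ℝ) (p : ℕ) : ℝ := ∑' v, gl lam s p v

theorem gl_le (hn : ∀ p : ℕ, p.Prime → ∀ v, 0 ≤ lam p v) (s : ι → ℝ) (hs : ∀ i, 0 < s i)
    {p : ℕ} (hp : p.Prime) (v : ι → ℕ) : gl lam s p v ≤ lam p v := by
  unfold gl
  have h1 : (p : ℝ) ^ (-(∑ i, s i * (v i : ℝ))) ≤ 1 := by
    apply Real.rpow_le_one_of_one_le_of_nonpos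
    · exact_mod_cast hp.one_lt.le
    · have : 0 ≤ ∑ i, s i * (v i : ℝ) :=
        Finset.sum_nonneg fun i _ => mul_nonneg (hs i).le (Nat.cast_nonneg _)
      linarith
  exact mul_le_of_le_one_right (hn p hp v) h1

theorem gl_summable (H : LW m lam) (s : ι → ℝ) (hs : ∀ i, 0 < s i) (p : ℕ)
    (hp : p.Prime) : Summable (gl lam s p) :=
  Summable.of_nonneg_of_le (fun v => gl_nonneg H.nonneg s hp v)
    (fun v => gl_le H.nonneg s hs hp v) (H.sum p hp)

theorem gl_zero (H : LW m lam) (s : ι → ℝ) {p : ℕ} (hp : p.Prime) : gl lam s p 0 = 1 := by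
  unfold gl
  rw [H.zero p hp]
  simp

theorem one_le_loc (H : LW m lam) (s : ι → ℝ) (hs : ∀ i, 0 < s i) {p : ℕ}
    (hp : p.Prime) : 1 ≤ loc lam s p := by
  rw [← gl_zero H s hp]
  exact (gl_summable H s hs p hp).le_tsum 0 fun v _ => gl_nonneg H.nonneg s hp v

theorem vec_cases (v : ι → ℕ) :
    v = 0 ∨ (∃ i, v = Pi.single i 1) ∨ 2 ≤ ∑ i, v i := by
  classical
  by_cases h0 : v = 0
  · exact Or.inl h0
  right
  obtain ⟨i, hi⟩ := Function.ne_iff.1 h0
  have hi' : 1 ≤ v i := Nat.one_le_iff_ne_zero.2 hi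
  have hsum : ∑ j, v j = v i + ∑ j ∈ Finset.univ.erase i, v j :=
    (Finset.add_sum_erase Finset.univ v (Finset.mem_univ i)).symm
  rcases Nat.lt_or_ge (∑ i, v i) 2 with h2 | h2
  · left
    refine ⟨i, ?_⟩
    have h3 : ∑ j ∈ Finset.univ.erase i, v j = 0 := by omega
    have h4 : v i = 1 := by omega
    funext j
    by_cases hj : j = i
    · subst hj
      rw [Pi.single_eq_same, h4]
    · rw [Pi.single_eq_of_ne hj]
      exact (Finset.sum_eq_zero_iff.1 h3) j (Finset.mem_erase.2 ⟨hj, Finset.mem_univ j⟩)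
  · exact Or.inr h2

theorem loc_le (H : LW m lam) (s : ι → ℝ) (hs : ∀ i, 0 < s i) {p : ℕ} (hp : p.Prime) :
    loc lam s p ≤ 1 + ∑ i, lam p (Pi.single i 1) * (p : ℝ) ^ (-(s i)) +
      ∑' v : ι → ℕ, (if 2 ≤ ∑ i, v i then lam p v else 0) := by
  classical
  have hS : Summable fun v : ι → ℕ => (if 2 ≤ ∑ i, v i then lam p v else 0) := by
    refine Summable.of_nonneg_of_le (fun v => ?_) (fun v => ?_) (H.sum p hp)
    · split_ifs
      · exact H.nonneg p hp v
      · exact le_refl _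
    · split_ifs
      · exact le_refl _
      · exact H.nonneg p hp v
  have h1 : HasSum (fun v : ι → ℕ => if v = 0 then (1 : ℝ) else 0) 1 := hasSum_ite_eq 0 1
  have h2 : HasSum (fun v : ι → ℕ => ∑ i, if v = Pi.single i 1 then
      lam p (Pi.single i 1) * (p : ℝ) ^ (-(s i)) else 0)
      (∑ i, lam p (Pi.single i 1) * (p : ℝ) ^ (-(s i))) :=
    hasSum_sum fun i _ => hasSum_ite_eq (Pi.single i 1) _
  have h3 := (h1.add h2).add hS.hasSum
  refine hasSum_le (fun v => ?_) (gl_summable H s hs p hp).hasSum h3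
  have n1 : ∀ v : ι → ℕ, 0 ≤ (if v = 0 then (1 : ℝ) else 0) := fun v => by
    split_ifs <;> norm_num
  have n2 : ∀ (v : ι → ℕ) (i : ι), 0 ≤ (if v = Pi.single i 1 then
      lam p (Pi.single i 1) * (p : ℝ) ^ (-(s i)) else 0) := fun v i => by
    split_ifs
    · exact mul_nonneg (H.nonneg p hp _) (by positivity)
    · exact le_refl _
  have n3 : ∀ v : ι → ℕ, 0 ≤ (if 2 ≤ ∑ i, v i then lam p v else 0) := fun v => by
    split_ifs
    · exact H.nonneg p hp v
    · exact le_refl _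
  rcases vec_cases v with h | ⟨i, h⟩ | h
  · have e : (if v = 0 then (1 : ℝ) else 0) = 1 := if_pos h
    have e2 : gl lam s p v = 1 := by rw [h, gl_zero H s hp]
    rw [e2, e]
    have := Finset.sum_nonneg fun i (_ : i ∈ (Finset.univ : Finset ι)) => n2 v i
    have := n3 v
    linarith
  · have e2 : gl lam s p v = (if v = Pi.single i 1 then
        lam p (Pi.single i 1) * (p : ℝ) ^ (-(s i)) else 0) := by
      rw [if_pos h, h]
      unfold gl
      congr 3
      rw [Finset.sum_eq_single i]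
      · rw [Pi.single_eq_same, Nat.cast_one, mul_one]
      · intro j _ hj
        rw [Pi.single_eq_of_ne hj, Nat.cast_zero, mul_zero]
      · intro hi
        exact absurd (Finset.mem_univ i) hi
    have h4 := Finset.single_le_sum (f := fun i => (if v = Pi.single i 1 then
      lam p (Pi.single i 1) * (p : ℝ) ^ (-(s i)) else 0)) (fun i _ => n2 v i) (Finset.mem_univ i)
    have h5 := n1 v
    have h6 := n3 v
    rw [e2]
    linarith
  · have e : (if 2 ≤ ∑ i, v i then lam p v else 0) = lam p v := if_pos h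
    rw [e]
    have := gl_le H.nonneg s hs hp v
    have := Finset.sum_nonneg fun i (_ : i ∈ (Finset.univ : Finset ι)) => n2 v i
    have := n1 v
    linarith

theorem loc_summable (H : LW m lam) (s : ι → ℝ) (hs : ∀ i, 0 < s i) :
    Summable fun p : Nat.Primes => loc lam s p - 1 := by
  obtain ⟨C, hC⟩ := H.first
  obtain ⟨C', hC'⟩ := H.second
  have hps : Summable (fun p : Nat.Primes => (1 / ((p:ℕ):ℝ)) ^ 2) := by
    have h : Summable (fun n : ℕ => (1 / (n:ℝ)) ^ 2) := by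
      have := Real.summable_one_div_nat_pow.mpr (by norm_num : 1 < 2)
      refine this.congr fun n => ?_
      rw [one_div, one_div, inv_pow]
    exact h.comp_injective Nat.Primes.coe_nat_injective
  have hpi : ∀ i, Summable (fun p : Nat.Primes => ((p : ℕ) : ℝ) ^ (-1 - s i)) := by
    intro i
    have h : Summable (fun n : ℕ => (n : ℝ) ^ (-1 - s i)) := by
      rw [Real.summable_nat_rpow]
      linarith [hs i]
    exact h.comp_injective Nat.Primes.coe_nat_injective
  have hB : Summable fun p : Nat.Primes => (∑ i, (m i : ℝ) * ((p : ℕ) : ℝ) ^ (-1 - s i)) +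
      ((Fintype.card ι : ℝ) * |C| + |C'|) * (1 / ((p:ℕ):ℝ)) ^ 2 :=
    (summable_sum fun i _ => (hpi i).mul_left _).add (hps.mul_left _)
  refine Summable.of_nonneg_of_le (fun p => sub_nonneg.2 (one_le_loc H s hs p.2)) (fun p => ?_) hB
  have hp0 : (0 : ℝ) < (p : ℕ) := by exact_mod_cast p.2.pos
  have h1 := loc_le H s hs p.2
  have h2 := hC' p p.2
  have h3 : ∀ i, lam p (Pi.single i 1) * ((p : ℕ) : ℝ) ^ (-(s i)) ≤
      (m i : ℝ) * ((p : ℕ) : ℝ) ^ (-1 - s i) + |C| * (1 / ((p:ℕ):ℝ)) ^ 2 := by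
    intro i
    have h4 := (abs_le.1 (hC p p.2 i)).2
    have h5 : ((p : ℕ) : ℝ) ^ (-(s i)) ≤ 1 := by
      apply Real.rpow_le_one_of_one_le_of_nonpos
      · exact_mod_cast p.2.one_lt.le
      · linarith [hs i]
    have h6 : 0 ≤ ((p : ℕ) : ℝ) ^ (-(s i)) := by positivity
    have h7 : lam p (Pi.single i 1) ≤ (m i : ℝ) / (p : ℕ) + |C| * (1 / ((p:ℕ):ℝ)) ^ 2 := by
      have h8 : C / ((p : ℕ) : ℝ) ^ 2 ≤ |C| * (1 / ((p:ℕ):ℝ)) ^ 2 := by
        rw [div_pow, one_pow, mul_one_div]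
        exact div_le_div_of_nonneg_right (le_abs_self C) (by positivity)
      linarith
    have h9 : ((p : ℕ) : ℝ) ^ (-1 - s i) = ((p : ℕ) : ℝ)⁻¹ * ((p : ℕ) : ℝ) ^ (-(s i)) := by
      rw [← Real.rpow_neg_one, ← Real.rpow_add hp0]
      congr 1
    have h10 : 0 ≤ |C| * (1 / ((p:ℕ):ℝ)) ^ 2 := by positivity
    calc lam p (Pi.single i 1) * ((p : ℕ) : ℝ) ^ (-(s i)) ≤
        ((m i : ℝ) / (p : ℕ) + |C| * (1 / ((p:ℕ):ℝ)) ^ 2) * ((p : ℕ) : ℝ) ^ (-(s i)) :=
          mul_le_mul_of_nonneg_right h7 h6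
      _ = (m i : ℝ) * ((p : ℕ) : ℝ) ^ (-1 - s i) +
          |C| * (1 / ((p:ℕ):ℝ)) ^ 2 * ((p : ℕ) : ℝ) ^ (-(s i)) := by
          rw [h9]
          ring
      _ ≤ _ := by
          have := mul_le_of_le_one_right h10 h5
          linarith
  have h4 := Finset.sum_le_sum fun i (_ : i ∈ (Finset.univ : Finset ι)) => h3 i
  rw [Finset.sum_add_distrib, Finset.sum_const, Finset.card_univ, nsmul_eq_mul] at h4
  have h5 : C' / ((p : ℕ) : ℝ) ^ 2 ≤ |C'| * (1 / ((p:ℕ):ℝ)) ^ 2 := by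
    rw [div_pow, one_pow, mul_one_div]
    exact div_le_div_of_nonneg_right (le_abs_self C') (by positivity)
  linarith

/-- the part of the sum over the `P`-tuples -/
theorem part_hasSum (H : LW m lam) (s : ι → ℝ) (hs : ∀ i, 0 < s i) (P : Finset ℕ)
    (hP : ∀ p ∈ P, p.Prime) :
    HasSum (Set.indicator (Set.range (jj : TT ι P → ι → ℕ)) (FF lam s))
      (∏ q ∈ P, loc lam s q) := by
  rw [← jj_inj.hasSum_iff (fun x hx => Set.indicator_of_notMem hx _)]
  refine (fin_euler H.nonneg s (gl_summable H s hs) P hP).congr_fun fun b => ?_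
  have hb : jj b ∈ Set.range (jj : TT ι P → ι → ℕ) := Set.mem_range_self b
  rw [Function.comp, Set.indicator_of_mem hb]
  have h1 := jj_range.1 hb
  exact FF_eq H.zero s h1.1 hP h1.2

theorem FF_nonneg (H : LW m lam) (s : ι → ℝ) (b : ι → ℕ) : 0 ≤ FF lam s b := by
  unfold FF mw
  split_ifs
  · refine mul_nonneg (Finset.prod_nonneg fun p hp => ?_)
      (Finset.prod_nonneg fun i _ => by positivity)
    exact H.nonneg p (Nat.prime_of_mem_primeFactors hp) _
  · rw [zero_mul]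

theorem prod_le_exp (H : LW m lam) (s : ι → ℝ) (hs : ∀ i, 0 < s i)
    (P : Finset Nat.Primes) :
    ∏ q ∈ P, loc lam s q ≤ Real.exp (∑' p : Nat.Primes, (loc lam s p - 1)) := by
  calc ∏ q ∈ P, loc lam s q ≤ ∏ q ∈ P, Real.exp (loc lam s q - 1) := by
        refine Finset.prod_le_prod (fun q _ => ?_) fun q _ => ?_
        · linarith [one_le_loc H s hs q.2]
        · have := Real.add_one_le_exp (loc lam s q - 1)
          linarith
    _ = Real.exp (∑ q ∈ P, (loc lam s q - 1)) := (Real.exp_sum _ _).symm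
    _ ≤ _ := by
        apply Real.exp_le_exp.2
        exact (loc_summable H s hs).sum_le_tsum P
          fun q _ => sub_nonneg.2 (one_le_loc H s hs q.2)

/-- the set of primes, as naturals -/
def pm (P : Finset Nat.Primes) : Finset ℕ := P.map ⟨_, Nat.Primes.coe_nat_injective⟩

theorem pm_prime (P : Finset Nat.Primes) : ∀ p ∈ pm P, p.Prime := by
  intro p hp
  obtain ⟨q, -, rfl⟩ := Finset.mem_map.1 hp
  exact q.2

theorem prod_pm (P : Finset Nat.Primes) (f : ℕ → ℝ) : ∏ q ∈ pm P, f q = ∏ q ∈ P, f q :=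
  Finset.prod_map _ _ _

/-- the primes dividing `n` -/
def pf (n : ℕ) : Finset Nat.Primes := n.primeFactors.subtype Nat.Prime

theorem sub_pm {n : ℕ} {P : Finset Nat.Primes} (h : pf n ≤ P) : n.primeFactors ⊆ pm P := by
  intro p hp
  have hpp := Nat.prime_of_mem_primeFactors hp
  refine Finset.mem_map.2 ⟨⟨p, hpp⟩, h ?_, rfl⟩
  exact Finset.mem_subtype.2 hp

theorem ind_eq (s : ι → ℝ) {b : ι → ℕ} {P : Finset Nat.Primes}
    (h : pf (∏ i, b i) ≤ P) :
    Set.indicator (Set.range (jj : TT ι (pm P) → ι → ℕ)) (FF lam s) b = FF lam s b := by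
  by_cases hb : ∀ i, b i ≠ 0
  · exact Set.indicator_of_mem (jj_range.2 ⟨hb, sub_pm h⟩) _
  · by_cases hm : b ∈ Set.range (jj : TT ι (pm P) → ι → ℕ)
    · rw [Set.indicator_of_mem hm]
    · rw [Set.indicator_of_notMem hm, FF_zero s hb]

theorem FF_summable (H : LW m lam) (s : ι → ℝ) (hs : ∀ i, 0 < s i) :
    Summable (FF lam s) := by
  classical
  refine summable_of_sum_le (c := Real.exp (∑' p : Nat.Primes, (loc lam s p - 1)))
    (fun b => FF_nonneg H s b) fun u => ?_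
  obtain ⟨P, hP⟩ : ∃ P : Finset Nat.Primes, ∀ b ∈ u, pf (∏ i, b i) ≤ P :=
    ⟨u.biUnion (fun b : ι → ℕ => pf (∏ i, b i)),
      fun b hb p hp => Finset.mem_biUnion.2 ⟨b, hb, hp⟩⟩
  have h1 : ∀ b ∈ u, Set.indicator (Set.range (jj : TT ι (pm P) → ι → ℕ)) (FF lam s) b =
      FF lam s b := fun b hb => ind_eq s (hP b hb)
  rw [← Finset.sum_congr rfl h1]
  have h2 := part_hasSum H s hs (pm P) (pm_prime P)
  refine (sum_le_hasSum u (fun b _ => Set.indicator_nonneg (fun b _ => FF_nonneg H s b) b) h2).trans ?_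
  rw [prod_pm]
  exact prod_le_exp H s hs P

/-- MA. Euler product of `mw lam` -/
theorem mw_euler (m : ι → ℝ) (lam : ℕ → (ι → ℕ) → ℝ) (H : LW m lam)
    (s : ι → ℝ) (hs : ∀ i, 0 < s i) :
    Summable (fun b : ι → ℕ => mw lam b * ∏ i, (b i : ℝ) ^ (-(s i))) ∧
    HasProd (fun p : Nat.Primes => ∑' v : ι → ℕ, lam p v * (p : ℝ) ^ (-(∑ i, s i * (v i : ℝ))))
      (∑' b : ι → ℕ, mw lam b * ∏ i, (b i : ℝ) ^ (-(s i))) := by
  have hF := FF_summable H s hs
  refine ⟨hF, ?_⟩
  change Tendsto (fun P : Finset Nat.Primes => ∏ p ∈ P, loc lam s p) _ (𝓝 (∑' b, FF lam s b))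
  have h1 : ∀ P : Finset Nat.Primes, ∏ p ∈ P, loc lam s p =
      ∑' b, Set.indicator (Set.range (jj : TT ι (pm P) → ι → ℕ)) (FF lam s) b := by
    intro P
    rw [(part_hasSum H s hs (pm P) (pm_prime P)).tsum_eq, prod_pm]
  simp only [h1]
  refine tendsto_tsum_of_dominated_convergence hF (fun b => ?_) ?_
  · refine tendsto_const_nhds.congr' ?_
    rw [SummationFilter.unconditional_filter]
    filter_upwards [eventually_ge_atTop (pf (∏ i, b i))] with P hP
    exact (ind_eq s hP).symm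
  · refine Eventually.of_forall fun P b => ?_
    rw [Real.norm_of_nonneg (Set.indicator_nonneg (fun b _ => FF_nonneg H s b) b)]
    exact Set.indicator_le_self' (fun b _ => FF_nonneg H s b) b

end

end Pool.Agent.TH535.MA
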