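import Pool.Agent.TH535.Win2

set_option autoImplicit false
set_option linter.unusedSectionVars false

/-! The master lower bound. -/

namespace Pool.Agent.TH535

open Finset Filter Topology MeasureTheory
open Pool.Agent.H306R2 hiding fr

noncomputable section

/-- admissible parameters for the exponent `2κ` -/
structure AdmN (κ : ℝ) {n : ℕ} (j : ℕ) (q : Fin n → ℕ) (β : Fin n → ℝ) : Prop where
  hj : 1 ≤ j
  hn : 0 < n
  hq : ∀ i, 2 ≤ q i
  hsum : (j : ℝ) / κ + ∑ i, 1 / (q i : ℝ) = 1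
  hβ : ∀ i, 0 < β i
  hβq : ∀ i, β i ≤ 1 / (q i : ℝ)

/-- the constant -/
def MN (κ : ℝ) {n : ℕ} (j : ℕ) (q : Fin n → ℕ) (β : Fin n → ℝ) : ℝ :=
  (VL j (fun a => κ / q a) (1 - ∑ a, β a) β ^ 2 /
    (Vn j (κ - j) (1 - ∑ a, β a) (∑ a, β a) *
      ∏ a, (β a ^ (κ ^ 2 / q a) / Real.Gamma (κ ^ 2 / q a + 1)))) ^ (κ / (j : ℝ))

lemma perturb {n : ℕ} (q : Fin n → ℕ) (κ e : ℝ) (N0 S0 : ℝ)
    (K0 : Fin n → ℝ) (hN : 0 < N0) (hS : 0 < S0) (hK : ∀ i, 0 < K0 i) (c : ℝ)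
    (hc : c < (N0 / (S0 ^ (1 / 2 : ℝ) * ∏ i, K0 i ^ (1 / (2 * (q i : ℝ))))) ^ e) :
    ∃ x : ℝ, 0 < x ∧ x < 1 / 4 ∧
      c < (((1 - x) * N0) / (((1 + x) * S0) ^ (1 / 2 : ℝ) *
      ∏ i, ((1 + x) * K0 i) ^ (1 / (2 * (q i : ℝ))))) ^ e *
        ((1 - 2 * x) * (1 - 2 * x) ^ (κ ^ 2)) := by
  have hP : 0 < ∏ i, K0 i ^ (1 / (2 * (q i : ℝ))) := prod_pos fun i _ => Real.rpow_pos_of_pos (hK i) _
  set f : ℝ → ℝ := fun x => (((1 - x) * N0) / (((1 + x) * S0) ^ (1 / 2 : ℝ) *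
      ∏ i, ((1 + x) * K0 i) ^ (1 / (2 * (q i : ℝ))))) ^ e *
        ((1 - 2 * x) * (1 - 2 * x) ^ (κ ^ 2)) with hf
  have hf0 : f 0 = (N0 / (S0 ^ (1 / 2 : ℝ) * ∏ i, K0 i ^ (1 / (2 * (q i : ℝ))))) ^ e := by
    rw [hf]
    simp only [sub_zero, one_mul, add_zero, mul_zero, Real.one_rpow, mul_one]
  have hlim : Tendsto f (𝓝[>] 0) (𝓝 (f 0)) := by
    have h1 : ContinuousAt f 0 := by
      rw [hf]
      have hprod : ContinuousAt (fun x : ℝ => ∏ i, ((1 + x) * K0 i) ^ (1 / (2 * (q i : ℝ)))) 0 := by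
        refine tendsto_finsetProd _ fun i _ => ?_
        have hc : ContinuousAt (fun x : ℝ => ((1 + x) * K0 i) ^ (1 / (2 * (q i : ℝ)))) 0 := by
          refine ContinuousAt.rpow_const (by fun_prop) (Or.inl ?_)
          have := hK i
          simp only [add_zero, one_mul]
          positivity
        exact hc
      have hD0 : ((1 + (0:ℝ)) * S0) ^ (1 / 2 : ℝ) *
          ∏ i, ((1 + (0:ℝ)) * K0 i) ^ (1 / (2 * (q i : ℝ))) ≠ 0 := by
        simp only [add_zero, one_mul]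
        positivity
      have hS : ContinuousAt (fun x : ℝ => ((1 + x) * S0) ^ (1 / 2 : ℝ)) 0 := by
        refine ContinuousAt.rpow_const (by fun_prop) (Or.inl ?_)
        simp only [add_zero, one_mul]
        positivity
      refine ContinuousAt.mul (ContinuousAt.rpow_const (ContinuousAt.div (by fun_prop)
        (hS.mul hprod) hD0) (Or.inl ?_)) (ContinuousAt.mul (by fun_prop)
          (ContinuousAt.rpow_const (by fun_prop) (Or.inl (by norm_num))))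
      simp only [sub_zero, add_zero, one_mul]
      positivity
    exact h1.tendsto.mono_left nhdsWithin_le_nhds
  rw [hf0] at hlim
  obtain ⟨x, hxc, hx0, hx4⟩ := ((hlim.eventually_const_lt hc).and
    (Ioo_mem_nhdsGT (by norm_num : (0:ℝ) < 1 / 4))).exists
  exact ⟨x, hx0, hx4, hxc⟩

section
variable {κ : ℝ} {n j : ℕ} {q : Fin n → ℕ} {β : Fin n → ℝ}

lemma AdmN.q0 (hA : AdmN κ j q β) (i : Fin n) : (0 : ℝ) < q i := by
  exact_mod_cast (by linarith [hA.hq i] : 0 < q i)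

lemma AdmN.j0 (hA : AdmN κ j q β) : (0 : ℝ) < j := by exact_mod_cast hA.hj

lemma AdmN.sumq (hA : AdmN κ j q β) (hκ0 : 0 < κ) : (j:ℝ) + ∑ i, κ / q i = κ := by
  have h := hA.hsum
  have h1 : ∑ i, κ / (q i:ℝ) = κ * ∑ i, 1 / (q i : ℝ) := by
    rw [mul_sum]
    exact sum_congr rfl fun i _ => by ring
  have h2 : ∑ i, 1 / (q i : ℝ) = 1 - (j:ℝ) / κ := by linarith
  rw [h1, h2]
  field_simp
  ring

lemma AdmN.jk (hA : AdmN κ j q β) (hκ0 : 0 < κ) :
    (j:ℝ) / (2 * κ) + 1 / 2 + ∑ i, 1 / (2 * (q i : ℝ)) = 1 := by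
  have h := hA.hsum
  have h1 : ∑ i, 1 / (2 * (q i : ℝ)) = (∑ i, 1 / (q i : ℝ)) / 2 := by
    rw [sum_div]
    exact sum_congr rfl fun i _ => by rw [div_div, mul_comm (q i : ℝ) 2]
  rw [h1]
  have h2 : ∑ i, 1 / (q i : ℝ) = 1 - (j:ℝ) / κ := by linarith
  rw [h2]
  field_simp
  ring

lemma AdmN.e0 (hA : AdmN κ j q β) (hκ0 : 0 < κ) (i : Fin n) : 0 < κ / (q i : ℝ) :=
  div_pos hκ0 (hA.q0 i)

lemma AdmN.eie (hA : AdmN κ j q β) (hκ0 : 0 < κ) : ei (fun a => κ / (q a : ℝ)) = κ - j := by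
  have := hA.sumq hκ0
  unfold ei
  linarith

lemma AdmN.i0 (hA : AdmN κ j q β) (hκ0 : 0 < κ) : 0 < κ - j := by
  rw [← hA.eie hκ0]
  exact sum_pos (fun a _ => hA.e0 hκ0 a) ⟨⟨0, hA.hn⟩, mem_univ _⟩

lemma AdmN.θ0 (hA : AdmN κ j q β) : 0 < ∑ a, β a := sum_pos (fun a _ => hA.hβ a) ⟨⟨0, hA.hn⟩, mem_univ _⟩

lemma AdmN.α0 (hA : AdmN κ j q β) (hκ0 : 0 < κ) : 0 < 1 - ∑ a, β a := by
  have h1 : ∑ a, β a ≤ ∑ a, 1 / (q a : ℝ) := sum_le_sum fun a _ => hA.hβq a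
  have h2 := hA.hsum
  have h3 : 0 < (j : ℝ) / κ := div_pos hA.j0 hκ0
  linarith

end

/-- lower bound with fixed parameters -/
theorem lower_fixedN {n : ℕ} (κ : ℝ) (hκ0 : 0 < κ) (j : ℕ) (q : Fin n → ℕ) (β : Fin n → ℝ)
    (hA : AdmN κ j q β) (N S : ℝ) (K : Fin n → ℝ) (hN : 0 < N)
    (hNV : N < aF κ * VL j (fun a => κ / q a) (1 - ∑ a, β a) β)
    (hSV : aF κ * Vn j (κ - j) (1 - ∑ a, β a) (∑ a, β a) < S)
    (hKV : ∀ i, aF κ * ((β i) ^ (κ ^ 2 / q i) /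
        Real.Gamma (κ ^ 2 / q i + 1)) ^ (q i) < K i)
    (x : ℝ) (hx : 0 < x) (hx2 : x < 1 / 4) :
    ∀ᶠ T : ℝ in atTop,
      (N / (S ^ (1 / 2 : ℝ) * ∏ i, K i ^ (1 / (2 * (q i : ℝ))))) ^ (2 * κ / (j:ℝ)) *
        ((1 - 2 * x) * (1 - 2 * x) ^ (κ ^ 2)) * (T * Real.log T ^ (κ ^ 2)) ≤
      ∫ t in (0:ℝ)..T, ‖riemannZeta (1 / 2 + t * Complex.I)‖ ^ (2 * κ) := by
  have hj0 := hA.j0
  have hq0 := hA.q0
  have hα0 := hA.α0 hκ0
  have hθ0 := hA.θ0
  have hi0 := hA.i0 hκ0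
  have hei := hA.eie hκ0
  have he := hA.e0 hκ0
  have hjk := hA.jk hκ0
  have hji : (j : ℝ) + ei (fun a => κ / (q a : ℝ)) = κ := by rw [hei]; ring
  have hji2 : (j : ℝ) + (κ - j) = κ := by ring
  have hVn0 : 0 < Vn j (κ - j) (1 - ∑ a, β a) (∑ a, β a) :=
    VL_pos hA.hj (fun _ => hi0) one_pos hα0 (fun _ => hθ0)
  have hS0 : 0 < S := lt_trans (mul_pos (aF_pos hκ0) hVn0) hSV
  have hV0 : ∀ i, 0 < (β i) ^ (κ ^ 2 / q i) / Real.Gamma (κ ^ 2 / q i + 1) := fun i => by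
    have h1 := hA.hβ i
    have h2 := hq0 i
    have h3 := Real.Gamma_pos_of_pos (by positivity : 0 < κ ^ 2 / q i + 1)
    positivity
  have hK0 : ∀ i, 0 < K i := fun i =>
    lt_trans (mul_pos (aF_pos hκ0) (pow_pos (hV0 i) _)) (hKV i)
  have hκe : ∀ i, κ * (κ / (q i : ℝ)) = κ ^ 2 / q i := fun i => by ring
  have hqe : ∀ i, (q i : ℝ) * (κ / (q i : ℝ)) = κ := fun i => by
    have := hq0 i
    field_simp
  have hEN := N_win hA.hj (fun i => κ / (q i : ℝ)) he hA.hn (1 - ∑ a, β a) hα0 β hA.hβ (by linarith) N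
    (by rw [hji]; exact hNV) x x hx (by linarith) hx (by linarith)
  have hES := C_win hA.hj hi0 (1 - ∑ a, β a) hα0 (∑ a, β a) hθ0 (by linarith) S
    (by rw [hji2]; exact hSV) x x hx (by linarith) hx (by linarith)
  rw [hji, hei] at hEN
  rw [hji2] at hES
  have hEK : ∀ i, ∀ᶠ T : ℝ in atTop, ∀ τ : ℝ, x * T ≤ τ → τ ≤ T →
      ∫ t in (τ - x / 2 * T)..(τ + x / 2 * T),
        ‖Dp (tr (dA (κ / (q i : ℝ))) (Yt x T ^ β i)) (Yt x T ^ β i) (1 / 2 + t * Complex.I)‖ ^ (2 * q i) *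
          gw τ (Ht x T) t ≤ K i * Real.log (Yt x T) ^ (κ ^ 2) := by
    intro i
    have h := K_window (κ / (q i : ℝ)) (he i) (q i) (by linarith [hA.hq i]) (β i) (hA.hβ i) (by
      have := hA.hβq i
      rwa [le_div_iff₀ (hq0 i)] at this) (K i) (by
      rw [hqe, hκe]
      exact hKV i) x x hx (by linarith) hx (by linarith)
    rw [hqe] at h
    exact h
  have hEK' := eventually_all.mpr hEK
  filter_upwards [hEN, hES, hEK', eventually_gt_atTop 1, (Yt_tendsto (η := x) (by linarith)).eventually_gt_atTop 0]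
    with T hT1 hT2 hT3 hT4 hT5
  have hT0 : 0 < T := by linarith
  have hH0 : 0 < Ht x T := Real.rpow_pos_of_pos hT0 _
  set Λ := Real.log (Yt x T) ^ (κ ^ 2) with hΛ
  have hΛ0 : 0 < Λ := Real.rpow_pos_of_pos hT5 _
  set D := (N / (S ^ (1 / 2 : ℝ) * ∏ i, K i ^ (1 / (2 * (q i : ℝ))))) ^ (2 * κ / (j:ℝ)) with hD
  have hD0 : 0 ≤ D := by
    have : 0 < S ^ (1 / 2 : ℝ) * ∏ i, K i ^ (1 / (2 * (q i : ℝ))) :=
      mul_pos (by positivity) (prod_pos fun i _ => Real.rpow_pos_of_pos (hK0 i) _)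
    positivity
  have hwin : ∀ τ ∈ Set.Icc (x * T) ((1 - x) * T), D * Λ ≤
      ∫ t in (τ - x / 2 * T)..(τ + x / 2 * T), ‖riemannZeta (1 / 2 + t * Complex.I)‖ ^ (2 * κ) *
        gw τ (Ht x T) t := by
    intro τ hτ
    have hτ2 : τ ≤ T := by
      have := hτ.2
      nlinarith
    have h := window_holder_real n q (fun i => by linarith [hA.hq i]) j (2 * κ) hA.hj (by positivity) hjk
      (fun t => riemannZeta (1 / 2 + t * Complex.I))
      (fun t => Ct j (κ - j) (Yt x T ^ (1 - ∑ a, β a)) (Yt x T ^ (∑ a, β a)) t)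
      (fun i t => (starRingEnd ℂ) (Dp (tr (dA (κ / (q i : ℝ))) (Yt x T ^ β i)) (Yt x T ^ β i)
        (1 / 2 + t * Complex.I)))
      zeta_line_continuous (by
        unfold Ct
        exact continuous_finsetSum _ fun b _ => continuous_const.mul (fr_cont _ _))
      (fun i => Complex.continuous_conj.comp (Dp_line_continuous _ _))
      (gw τ (Ht x T)) (gw_continuous _ _) (fun t => gw_nonneg _ _ _ hH0)
      (τ - x / 2 * T) (τ + x / 2 * T) (by nlinarith) (N * Λ) (S * Λ) (fun i => K i * Λ)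
      (by positivity) (by positivity) (fun i => mul_pos (hK0 i) hΛ0)
      (hT1 τ hτ.1 hτ2)
      (hT2 τ hτ.1 hτ2)
      (fun i => by
        have := hT3 i τ hτ.1 hτ2
        simp only [RCLike.norm_conj]
        exact this)
    rw [pullR q j (2 * κ) hA.hj (by positivity) hjk N S K Λ hN hS0 hK0 hΛ0] at h
    exact h
  have hfin := window_sum (fun t => ‖riemannZeta (1 / 2 + t * Complex.I)‖ ^ (2 * κ))
    (zeta_line_continuous.norm.rpow_const fun _ => Or.inr (by positivity)) (fun t => by positivity)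
    (fun τ t => gw τ (Ht x T) t) (by unfold gw; fun_prop) (fun τ t => gw_nonneg _ _ _ hH0)
    (by
      intro t
      have h1 : ∀ τ, gw τ (Ht x T) t = gw t (Ht x T) τ := fun τ => gw_symm _ _ _
      simp only [h1]
      rw [← ofReal_integral_eq_lintegral_ofReal (gw_integrable _ _ hH0)
        (Eventually.of_forall fun τ => gw_nonneg _ _ _ hH0), gw_integral _ _ hH0]
      simp)
    T (x * T) ((1 - x) * T) (x / 2 * T) (D * Λ) (by nlinarith) (by positivity) (by nlinarith)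
    (by nlinarith) (by positivity) hwin
  refine le_trans (le_of_eq ?_) hfin
  have hlog : Real.log (Yt x T) = (1 - 2 * x) * Real.log T := by
    unfold Yt
    rw [Real.log_rpow hT0]
  rw [hΛ, hlog, Real.mul_rpow (by linarith) (Real.log_nonneg hT4.le)]
  ring

/-- **Master lower bound.** -/
theorem masterN {n : ℕ} (κ : ℝ) (hκ0 : 0 < κ) (j : ℕ) (q : Fin n → ℕ) (β : Fin n → ℝ)
    (hA : AdmN κ j q β) (c : ℝ) (hc : c < aF κ * MN κ j q β) :
    ∀ᶠ T : ℝ in atTop, c * (T * Real.log T ^ (κ ^ 2)) ≤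
      ∫ t in (0:ℝ)..T, ‖riemannZeta (1 / 2 + t * Complex.I)‖ ^ (2 * κ) := by
  have hj0 := hA.j0
  have hq0 := hA.q0
  have hα0 := hA.α0 hκ0
  have hθ0 := hA.θ0
  have hi0 := hA.i0 hκ0
  have he := hA.e0 hκ0
  have hjk := hA.jk hκ0
  set a := aF κ with ha
  have ha0 : 0 < a := aF_pos hκ0
  set V : Fin n → ℝ := fun i => (β i) ^ (κ ^ 2 / q i) / Real.Gamma (κ ^ 2 / q i + 1) with hV
  have hV0 : ∀ i, 0 < V i := fun i => by
    have h1 := hA.hβ i
    have h2 := hq0 i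
    have h3 := Real.Gamma_pos_of_pos (by positivity : 0 < κ ^ 2 / q i + 1)
    rw [hV]
    positivity
  have hPV : 0 < ∏ i, V i := prod_pos fun i _ => hV0 i
  set VN := VL j (fun a => κ / (q a : ℝ)) (1 - ∑ a, β a) β with hVN
  have hVN0 : 0 < VN := VL_pos hA.hj he hA.hn hα0 hA.hβ
  set VS := Vn j (κ - j) (1 - ∑ a, β a) (∑ a, β a) with hVS
  have hVS0 : 0 < VS := VL_pos hA.hj (fun _ => hi0) one_pos hα0 (fun _ => hθ0)
  have hconst : ((a * VN) / ((a * VS) ^ (1 / 2 : ℝ) * ∏ i, (a * V i ^ (q i)) ^ (1 / (2 * (q i : ℝ))))) ^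
      (2 * κ / (j:ℝ)) = a * MN κ j q β := by
    have h := const_eqR q hA.hq j (2 * κ) hA.hj (by positivity) hjk a ha0 V hV0 1 0 (1 / VS)
      ((∏ i, V i) / VN) one_pos (by positivity) (by positivity)
    have e1 : (∏ i, V i) * (1 ^ (0 : ℝ) / ((∏ i, V i) / VN)) = VN := by
      rw [Real.one_rpow]
      field_simp
    have e2 : a / (1 / VS) = a * VS := by field_simp
    rw [e1, e2] at h
    rw [h]
    unfold MN
    have e3 : ∏ a, (β a ^ (κ ^ 2 / q a) / Real.Gamma (κ ^ 2 / q a + 1)) = ∏ i, V i := rfl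
    rw [e3, ← hVN, ← hVS, mul_zero, Real.one_rpow, show 2 * κ / 2 / (j:ℝ) = κ / j by ring]
    congr 2
    field_simp
  rw [← hconst] at hc
  obtain ⟨x, hx0, hx4, hxc⟩ := perturb q κ _ _ _ _ (mul_pos ha0 hVN0) (mul_pos ha0 hVS0)
    (fun i => mul_pos ha0 (pow_pos (hV0 i) _)) c hc
  have hmain := lower_fixedN κ hκ0 j q β hA ((1 - x) * (a * VN)) ((1 + x) * (a * VS))
    (fun i => (1 + x) * (a * V i ^ (q i))) (mul_pos (by linarith) (mul_pos ha0 hVN0))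
    (by
      have h0 := mul_pos ha0 hVN0
      have : (1 - x) * (a * VN) < a * VN := by nlinarith
      exact this)
    (by
      have h0 := mul_pos ha0 hVS0
      have : a * VS < (1 + x) * (a * VS) := by nlinarith
      exact this)
    (fun i => by
      have h1 : 0 < a * V i ^ (q i) := mul_pos ha0 (pow_pos (hV0 i) _)
      have : a * V i ^ (q i) < (1 + x) * (a * V i ^ (q i)) := by nlinarith
      exact this) x hx0 hx4
  filter_upwards [hmain, eventually_gt_atTop 1] with T hT hT1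
  refine le_trans ?_ hT
  have hlog : 0 ≤ Real.log T := Real.log_nonneg hT1.le
  have : 0 ≤ T * Real.log T ^ (κ ^ 2) := by positivity
  exact mul_le_mul_of_nonneg_right hxc.le this

end

end Pool.Agent.TH535
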