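import Pool.Agent.H306R2.Tuple

set_option autoImplicit false

/-! Canonical splittings of factorisations, for integers and for exponents. -/

namespace Pool.Agent.TH535

open Finset Pool.Agent.H306R2
open scoped ENNReal

noncomputable section

/-- canonical pairs of tuples of integers -/
def Can {n : ℕ} (l r : Fin n → ℕ) : Prop := ∀ a b : Fin n, a < b → Nat.Coprime (r a) (l b)

lemma can_cons {n : ℕ} (l0 r0 : ℕ) (l r : Fin n → ℕ) :
    Can (Fin.cons l0 l : Fin (n + 1) → ℕ) (Fin.cons r0 r : Fin (n + 1) → ℕ) ↔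
      Can l r ∧ Nat.Coprime r0 (∏ a, l a) := by
  constructor
  · intro h
    refine ⟨fun a b hab => ?_, ?_⟩
    · have := h a.succ b.succ (Fin.succ_lt_succ_iff.2 hab)
      simpa using this
    · refine Nat.Coprime.prod_right fun b _ => ?_
      have := h 0 b.succ (Fin.succ_pos b)
      simpa using this
  · rintro ⟨h1, h2⟩ a b hab
    induction b using Fin.cases with
    | zero => exact absurd hab (Fin.not_lt_zero a)
    | succ b =>
      induction a using Fin.cases with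
      | zero =>
        simp only [Fin.cons_zero, Fin.cons_succ]
        exact Nat.Coprime.coprime_dvd_right (Finset.dvd_prod_of_mem l (mem_univ b)) h2
      | succ a =>
        simp only [Fin.cons_succ]
        exact h1 a b (Fin.succ_lt_succ_iff.1 hab)

open Classical in
/-- merging two factorisations -/
lemma merge2 (G0 G1 : ArithmeticFunction ℝ≥0∞) (F : ℕ → ℕ → ℝ≥0∞) :
    ∑' x : (ℕ × ℕ) × (ℕ × ℕ), (if Nat.Coprime x.1.2 x.2.1 then
      G0 (x.1.1 * x.1.2) * G1 (x.2.1 * x.2.2) * F (x.1.1 * x.2.1) (x.1.2 * x.2.2) else 0) =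
    ∑' y : ℕ × ℕ, (G0 * G1) (y.1 * y.2) * F y.1 y.2 := by
  set f : (ℕ × ℕ) × (ℕ × ℕ) → ℝ≥0∞ := fun z =>
    if z.2.1 * z.2.2 = z.1.1 * z.1.2 ∧ z.1.1 * z.1.2 ≠ 0 then
      G0 z.2.1 * G1 z.2.2 * F z.1.1 z.1.2 else 0 with hf
  set g : (ℕ × ℕ) × (ℕ × ℕ) → ℝ≥0∞ := fun x => (if Nat.Coprime x.1.2 x.2.1 then
      G0 (x.1.1 * x.1.2) * G1 (x.2.1 * x.2.2) * F (x.1.1 * x.2.1) (x.1.2 * x.2.2) else 0) with hg
  have hR : ∑' y : ℕ × ℕ, (G0 * G1) (y.1 * y.2) * F y.1 y.2 = ∑' z, f z := by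
    refine Eq.trans ?_ (ENNReal.tsum_prod' (f := f)).symm
    refine tsum_congr fun y => ?_
    by_cases hy : y.1 * y.2 = 0
    · rw [hy, ArithmeticFunction.map_zero, zero_mul]
      symm
      rw [ENNReal.tsum_eq_zero]
      intro z
      simp only [hf]
      rw [if_neg]
      intro h
      exact h.2 hy
    · rw [ArithmeticFunction.mul_apply, sum_mul]
      rw [tsum_eq_sum (s := (y.1 * y.2).divisorsAntidiagonal)]
      · refine sum_congr rfl fun z hz => ?_
        simp only [hf]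
        rw [if_pos ⟨(Nat.mem_divisorsAntidiagonal.1 hz).1, hy⟩]
      · intro z hz
        simp only [hf]
        rw [if_neg]
        intro h
        exact hz (Nat.mem_divisorsAntidiagonal.2 h)
  rw [hR]
  -- the support of `g`
  have hsupp : ∀ x, g x ≠ 0 → Nat.Coprime x.1.2 x.2.1 ∧ x.1.1 ≠ 0 ∧ x.1.2 ≠ 0 ∧ x.2.1 ≠ 0 ∧ x.2.2 ≠ 0 := by
    intro x hx
    simp only [hg] at hx
    split_ifs at hx with hc
    · refine ⟨hc, ?_, ?_, ?_, ?_⟩ <;> intro h0 <;> apply hx <;> simp [h0]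
    · exact absurd rfl hx
  refine (tsum_eq_tsum_of_ne_zero_bij
    (fun x : Function.support g => ((x.1.1.1 * x.1.2.1, x.1.1.2 * x.1.2.2),
      (x.1.1.1 * x.1.1.2, x.1.2.1 * x.1.2.2))) ?_ ?_ ?_).symm
  · rintro ⟨⟨⟨l0, r0⟩, ⟨A, B⟩⟩, hx⟩ ⟨⟨⟨l0', r0'⟩, ⟨A', B'⟩⟩, hx'⟩ h
    obtain ⟨h1, h2, h3, h4, h5⟩ := hsupp _ hx
    obtain ⟨h1', h2', h3', h4', h5'⟩ := hsupp _ hx'
    simp only [Prod.mk.injEq] at h h1 h2 h3 h4 h5 h1' h2' h3' h4' h5'
    obtain ⟨⟨e1, e2⟩, e3, e4⟩ := h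
    have k1 : Nat.gcd (l0 * A) (l0 * r0) = l0 := by
      rw [Nat.gcd_mul_left, Nat.Coprime.gcd_eq_one h1.symm, mul_one]
    have k2 : Nat.gcd (l0' * A') (l0' * r0') = l0' := by
      rw [Nat.gcd_mul_left, Nat.Coprime.gcd_eq_one h1'.symm, mul_one]
    have k3 : l0 = l0' := by rw [← k1, ← k2, e1, e3]
    subst k3
    have k4 : A = A' := Nat.eq_of_mul_eq_mul_left (Nat.pos_of_ne_zero h2) e1
    have k5 : r0 = r0' := Nat.eq_of_mul_eq_mul_left (Nat.pos_of_ne_zero h2) e3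
    subst k4 k5
    have k6 : B = B' := Nat.eq_of_mul_eq_mul_left (Nat.pos_of_ne_zero h4) e4
    subst k6
    rfl
  · rintro ⟨⟨A, B⟩, ⟨x, y⟩⟩ hz
    have hz' : x * y = A * B ∧ A * B ≠ 0 := by
      by_contra hcon
      apply hz
      simp only [hf]
      rw [if_neg hcon]
    have hz1 : G0 x * G1 y * F A B ≠ 0 := by
      intro h0
      apply hz
      simp only [hf]
      rw [if_pos hz', h0]
    obtain ⟨e, hne⟩ := hz'
    have hA : A ≠ 0 := left_ne_zero_of_mul hne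
    have hB : B ≠ 0 := right_ne_zero_of_mul hne
    have hx : x ≠ 0 := by
      rw [← e] at hne
      exact left_ne_zero_of_mul hne
    have hy : y ≠ 0 := by
      rw [← e] at hne
      exact right_ne_zero_of_mul hne
    set l0 := Nat.gcd A x with hl0
    have hl0p : 0 < l0 := Nat.gcd_pos_of_pos_left _ (Nat.pos_of_ne_zero hA)
    obtain ⟨A1, hA1⟩ := Nat.gcd_dvd_left A x
    obtain ⟨r0, hr0⟩ := Nat.gcd_dvd_right A x
    rw [← hl0] at hA1 hr0
    have hcop : Nat.Coprime A1 r0 := by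
      have h1 : l0 = Nat.gcd (l0 * A1) (l0 * r0) := by rw [← hA1, ← hr0]
      rw [Nat.gcd_mul_left] at h1
      exact (Nat.eq_of_mul_eq_mul_left hl0p (by rw [mul_one]; exact h1.symm) : Nat.gcd A1 r0 = 1)
    have e2 : r0 * y = A1 * B := by
      have : l0 * (r0 * y) = l0 * (A1 * B) := by
        rw [← mul_assoc, ← hr0, ← mul_assoc, ← hA1]
        exact e
      exact Nat.eq_of_mul_eq_mul_left hl0p this
    have hA1y : A1 ∣ y := hcop.dvd_of_dvd_mul_left (Dvd.intro _ e2.symm)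
    obtain ⟨B1, hB1⟩ := hA1y
    have hA1p : 0 < A1 := by
      rcases Nat.eq_zero_or_pos A1 with h0 | h0
      · rw [h0, mul_zero] at hA1
        exact absurd hA1 hA
      · exact h0
    have e3 : B = r0 * B1 := by
      have : A1 * B = A1 * (r0 * B1) := by
        rw [← e2, hB1]
        ring
      exact Nat.eq_of_mul_eq_mul_left hA1p this
    have hgx : g ((l0, r0), (A1, B1)) ≠ 0 := by
      simp only [hg]
      rw [if_pos hcop.symm, ← hA1, ← hr0, ← hB1, ← e3]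
      exact hz1
    refine ⟨⟨((l0, r0), (A1, B1)), hgx⟩, ?_⟩
    simp only
    rw [← hA1, ← hr0, ← hB1, ← e3]
  · rintro ⟨⟨⟨l0, r0⟩, ⟨A, B⟩⟩, hx⟩
    obtain ⟨h1, h2, h3, h4, h5⟩ := hsupp _ hx
    simp only at h1 h2 h3 h4 h5
    simp only [hf, hg]
    rw [if_pos h1, if_pos]
    refine ⟨by ring, ?_⟩
    exact Nat.mul_ne_zero (Nat.mul_ne_zero h2 h4) (Nat.mul_ne_zero h3 h5)

open Classical in
/-- merging several factorisations -/
lemma merge {n : ℕ} (g : Fin n → ArithmeticFunction ℝ≥0∞) (F : ℕ → ℕ → ℝ≥0∞) :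
    ∑' x : (Fin n → ℕ) × (Fin n → ℕ), (if Can x.1 x.2 then
      (∏ a, g a (x.1 a * x.2 a)) * F (∏ a, x.1 a) (∏ a, x.2 a) else 0) =
    ∑' y : ℕ × ℕ, (∏ a, g a) (y.1 * y.2) * F y.1 y.2 := by
  induction n generalizing F with
  | zero =>
    rw [tsum_eq_single ((fun _ => 0), (fun _ => 0))
      (fun b hb => absurd (Subsingleton.elim _ _) hb)]
    rw [tsum_eq_single (1, 1)]
    · have hc : Can (fun _ => 0 : Fin 0 → ℕ) (fun _ => 0) := fun a => Fin.elim0 a
      simp [hc]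
    · rintro ⟨a, b⟩ hne
      rw [Fin.prod_univ_zero, ArithmeticFunction.one_apply_ne, zero_mul]
      intro h
      apply hne
      have h1 : a = 1 := Nat.eq_one_of_mul_eq_one_right h
      have h2 : b = 1 := Nat.eq_one_of_mul_eq_one_left h
      rw [h1, h2]
  | succ n ih =>
    rw [Fin.prod_univ_succ, ← merge2]
    set E := (Fin.consEquiv (fun _ : Fin (n + 1) => ℕ)) with hE
    have h1 : ∀ (G : (Fin (n + 1) → ℕ) × (Fin (n + 1) → ℕ) → ℝ≥0∞),
        ∑' x, G x = ∑' u : ℕ × ℕ, ∑' v : (Fin n → ℕ) × (Fin n → ℕ),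
          G (Fin.cons u.1 v.1, Fin.cons u.2 v.2) := by
      intro G
      rw [← ((Equiv.prodProdProdComm ℕ ℕ (Fin n → ℕ) (Fin n → ℕ)).trans (E.prodCongr E)).tsum_eq,
        ENNReal.tsum_prod']
      rfl
    rw [h1]
    refine Eq.trans ?_ (ENNReal.tsum_prod' (f := fun x : (ℕ × ℕ) × (ℕ × ℕ) => _)).symm
    refine tsum_congr fun u => ?_
    have h2 := ih (fun a => g a.succ) (fun A B => if Nat.Coprime u.2 A then
      g 0 (u.1 * u.2) * F (u.1 * A) (u.2 * B) else 0)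
    have h3 : ∀ v : (Fin n → ℕ) × (Fin n → ℕ),
        (if Can (Fin.cons u.1 v.1 : Fin (n + 1) → ℕ) (Fin.cons u.2 v.2 : Fin (n + 1) → ℕ) then
          (∏ a, g a ((Fin.cons u.1 v.1 : Fin (n + 1) → ℕ) a * (Fin.cons u.2 v.2 : Fin (n + 1) → ℕ) a)) *
            F (∏ a, (Fin.cons u.1 v.1 : Fin (n + 1) → ℕ) a)
              (∏ a, (Fin.cons u.2 v.2 : Fin (n + 1) → ℕ) a) else 0) =
        (if Can v.1 v.2 then (∏ a, g a.succ (v.1 a * v.2 a)) *
          (if Nat.Coprime u.2 (∏ a, v.1 a) then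
            g 0 (u.1 * u.2) * F (u.1 * ∏ a, v.1 a) (u.2 * ∏ a, v.2 a) else 0) else 0) := by
      intro v
      simp only [can_cons, Fin.prod_univ_succ, Fin.cons_zero, Fin.cons_succ]
      by_cases c1 : Can v.1 v.2
      · by_cases c2 : Nat.Coprime u.2 (∏ a, v.1 a)
        · rw [if_pos ⟨c1, c2⟩, if_pos c1, if_pos c2]
          ring
        · rw [if_neg (fun h => c2 h.2), if_pos c1, if_neg c2, mul_zero]
      · rw [if_neg (fun h => c1 h.1), if_neg c1]
    simp only [h3]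
    rw [h2]
    refine tsum_congr fun y => ?_
    split_ifs
    · ring
    · rw [mul_zero]

end

end Pool.Agent.TH535
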