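import Pool.Agent.H306R2.Tuple

set_option autoImplicit false

/-! Canonical splittings of exponents. -/

namespace Pool.Agent.TH535

open Finset Pool.Agent.H306R2
open scoped ENNReal

noncomputable section

/-- canonical pairs of tuples of exponents -/
def CanA {n : ℕ} (l r : Fin n → ℕ) : Prop := ∀ a b : Fin n, a < b → (r a = 0 ∨ l b = 0)

lemma canA_cons {n : ℕ} (l0 r0 : ℕ) (l r : Fin n → ℕ) :
    CanA (Fin.cons l0 l : Fin (n + 1) → ℕ) (Fin.cons r0 r : Fin (n + 1) → ℕ) ↔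
      CanA l r ∧ (r0 = 0 ∨ ∑ a, l a = 0) := by
  constructor
  · intro h
    refine ⟨fun a b hab => ?_, ?_⟩
    · have := h a.succ b.succ (Fin.succ_lt_succ_iff.2 hab)
      simpa using this
    · by_cases h0 : r0 = 0
      · exact Or.inl h0
      · right
        refine sum_eq_zero fun b _ => ?_
        have := h 0 b.succ (Fin.succ_pos b)
        simp only [Fin.cons_zero, Fin.cons_succ] at this
        exact this.resolve_left h0
  · rintro ⟨h1, h2⟩ a b hab
    induction b using Fin.cases with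
    | zero => exact absurd hab (Fin.not_lt_zero a)
    | succ b =>
      induction a using Fin.cases with
      | zero =>
        simp only [Fin.cons_zero, Fin.cons_succ]
        rcases h2 with h2 | h2
        · exact Or.inl h2
        · exact Or.inr ((sum_eq_zero_iff.1 h2) b (mem_univ b))
      | succ a =>
        simp only [Fin.cons_succ]
        exact h1 a b (Fin.succ_lt_succ_iff.1 hab)

/-- convolution of sequences -/
def cv (G0 G1 : ℕ → ℝ≥0∞) (m : ℕ) : ℝ≥0∞ := ∑ z ∈ antidiagonal m, G0 z.1 * G1 z.2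

/-- iterated convolution of sequences -/
def cvn : {n : ℕ} → (Fin n → ℕ → ℝ≥0∞) → ℕ → ℝ≥0∞
  | 0, _ => fun m => if m = 0 then 1 else 0
  | (_ + 1), g => cv (g 0) (cvn fun a => g a.succ)

/-- merging two splittings of exponents -/
lemma mergeA2 (G0 G1 : ℕ → ℝ≥0∞) (F : ℕ → ℕ → ℝ≥0∞) :
    ∑' x : (ℕ × ℕ) × (ℕ × ℕ), (if x.1.2 = 0 ∨ x.2.1 = 0 then
      G0 (x.1.1 + x.1.2) * G1 (x.2.1 + x.2.2) * F (x.1.1 + x.2.1) (x.1.2 + x.2.2) else 0) =
    ∑' y : ℕ × ℕ, cv G0 G1 (y.1 + y.2) * F y.1 y.2 := by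
  set f : (ℕ × ℕ) × (ℕ × ℕ) → ℝ≥0∞ := fun z =>
    if z.2.1 + z.2.2 = z.1.1 + z.1.2 then G0 z.2.1 * G1 z.2.2 * F z.1.1 z.1.2 else 0 with hf
  set g : (ℕ × ℕ) × (ℕ × ℕ) → ℝ≥0∞ := fun x => (if x.1.2 = 0 ∨ x.2.1 = 0 then
      G0 (x.1.1 + x.1.2) * G1 (x.2.1 + x.2.2) * F (x.1.1 + x.2.1) (x.1.2 + x.2.2) else 0) with hg
  have hR : ∑' y : ℕ × ℕ, cv G0 G1 (y.1 + y.2) * F y.1 y.2 = ∑' z, f z := by
    refine Eq.trans ?_ (ENNReal.tsum_prod' (f := f)).symm
    refine tsum_congr fun y => ?_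
    unfold cv
    rw [sum_mul, tsum_eq_sum (s := antidiagonal (y.1 + y.2))]
    · refine sum_congr rfl fun z hz => ?_
      simp only [hf]
      rw [if_pos (mem_antidiagonal.1 hz)]
    · intro z hz
      simp only [hf]
      rw [if_neg]
      intro h
      exact hz (mem_antidiagonal.2 h)
  rw [hR]
  have hsupp : ∀ x, g x ≠ 0 → (x.1.2 = 0 ∨ x.2.1 = 0) := by
    intro x hx
    by_contra hcon
    apply hx
    simp only [hg]
    rw [if_neg hcon]
  refine (tsum_eq_tsum_of_ne_zero_bij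
    (fun x : Function.support g => ((x.1.1.1 + x.1.2.1, x.1.1.2 + x.1.2.2),
      (x.1.1.1 + x.1.1.2, x.1.2.1 + x.1.2.2))) ?_ ?_ ?_).symm
  · rintro ⟨⟨⟨l0, r0⟩, ⟨A, B⟩⟩, hx⟩ ⟨⟨⟨l0', r0'⟩, ⟨A', B'⟩⟩, hx'⟩ h
    have h1 := hsupp _ hx
    have h1' := hsupp _ hx'
    simp only [Prod.mk.injEq] at h h1 h1'
    obtain ⟨⟨e1, e2⟩, e3, e4⟩ := h
    have k1 : l0 = l0' := by omega
    have k2 : r0 = r0' := by omega
    have k3 : A = A' := by omega
    have k4 : B = B' := by omega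
    subst k1 k2 k3 k4
    rfl
  · rintro ⟨⟨A, B⟩, ⟨x, y⟩⟩ hz
    have hz' : x + y = A + B := by
      by_contra hcon
      apply hz
      simp only [hf]
      rw [if_neg hcon]
    have hz1 : G0 x * G1 y * F A B ≠ 0 := by
      intro h0
      apply hz
      simp only [hf]
      rw [if_pos hz', h0]
    have e1 : min A x + (x - min A x) = x := by omega
    have e2 : (A - min A x) + (y - (A - min A x)) = y := by omega
    have e3 : min A x + (A - min A x) = A := by omega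
    have e4 : (x - min A x) + (y - (A - min A x)) = B := by omega
    have hgx : g ((min A x, x - min A x), (A - min A x, y - (A - min A x))) ≠ 0 := by
      simp only [hg]
      rw [if_pos (by omega), e1, e2, e3, e4]
      exact hz1
    refine ⟨⟨((min A x, x - min A x), (A - min A x, y - (A - min A x))), hgx⟩, ?_⟩
    simp only
    rw [e1, e2, e3, e4]
  · rintro ⟨⟨⟨l0, r0⟩, ⟨A, B⟩⟩, hx⟩
    have h1 := hsupp _ hx
    simp only at h1
    simp only [hf, hg]
    rw [if_pos h1, if_pos (by ring)]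

open Classical in
/-- merging several splittings of exponents -/
lemma mergeA {n : ℕ} (g : Fin n → ℕ → ℝ≥0∞) (F : ℕ → ℕ → ℝ≥0∞) :
    ∑' x : (Fin n → ℕ) × (Fin n → ℕ), (if CanA x.1 x.2 then
      (∏ a, g a (x.1 a + x.2 a)) * F (∑ a, x.1 a) (∑ a, x.2 a) else 0) =
    ∑' y : ℕ × ℕ, cvn g (y.1 + y.2) * F y.1 y.2 := by
  induction n generalizing F with
  | zero =>
    rw [tsum_eq_single ((fun _ => 0), (fun _ => 0))
      (fun b hb => absurd (Subsingleton.elim _ _) hb)]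
    rw [tsum_eq_single (0, 0)]
    · have hc : CanA (fun _ => 0 : Fin 0 → ℕ) (fun _ => 0) := fun a => Fin.elim0 a
      simp [cvn, hc]
    · rintro ⟨a, b⟩ hne
      have : a + b ≠ 0 := by
        intro h
        apply hne
        have h1 : a = 0 := by omega
        have h2 : b = 0 := by omega
        rw [h1, h2]
      simp only [cvn]
      rw [if_neg this, zero_mul]
  | succ n ih =>
    have hcv : cvn g = cv (g 0) (cvn fun a => g a.succ) := rfl
    rw [hcv, ← mergeA2]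
    set E := (Fin.consEquiv (fun _ : Fin (n + 1) => ℕ)) with hE
    have h1 : ∀ (G : (Fin (n + 1) → ℕ) × (Fin (n + 1) → ℕ) → ℝ≥0∞),
        ∑' x, G x = ∑' u : ℕ × ℕ, ∑' v : (Fin n → ℕ) × (Fin n → ℕ),
          G (Fin.cons u.1 v.1, Fin.cons u.2 v.2) := by
      intro G
      rw [← ((Equiv.prodProdProdComm ℕ ℕ (Fin n → ℕ) (Fin n → ℕ)).trans (E.prodCongr E)).tsum_eq,
        ENNReal.tsum_prod']
      rfl
    rw [h1]
    refine Eq.trans ?_ (ENNReal.tsum_prod' (f := fun x : (ℕ × ℕ) × (ℕ × ℕ) => _)).symm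
    refine tsum_congr fun u => ?_
    have h2 := ih (fun a => g a.succ) (fun A B => if u.2 = 0 ∨ A = 0 then
      g 0 (u.1 + u.2) * F (u.1 + A) (u.2 + B) else 0)
    have h3 : ∀ v : (Fin n → ℕ) × (Fin n → ℕ),
        (if CanA (Fin.cons u.1 v.1 : Fin (n + 1) → ℕ) (Fin.cons u.2 v.2 : Fin (n + 1) → ℕ) then
          (∏ a, g a ((Fin.cons u.1 v.1 : Fin (n + 1) → ℕ) a + (Fin.cons u.2 v.2 : Fin (n + 1) → ℕ) a)) *
            F (∑ a, (Fin.cons u.1 v.1 : Fin (n + 1) → ℕ) a)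
              (∑ a, (Fin.cons u.2 v.2 : Fin (n + 1) → ℕ) a) else 0) =
        (if CanA v.1 v.2 then (∏ a, g a.succ (v.1 a + v.2 a)) *
          (if u.2 = 0 ∨ (∑ a, v.1 a) = 0 then
            g 0 (u.1 + u.2) * F (u.1 + ∑ a, v.1 a) (u.2 + ∑ a, v.2 a) else 0) else 0) := by
      intro v
      simp only [canA_cons, Fin.prod_univ_succ, Fin.sum_univ_succ, Fin.cons_zero, Fin.cons_succ]
      by_cases c1 : CanA v.1 v.2
      · by_cases c2 : u.2 = 0 ∨ (∑ a, v.1 a) = 0
        · rw [if_pos ⟨c1, c2⟩, if_pos c1, if_pos c2]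
          ring
        · rw [if_neg (fun h => c2 h.2), if_pos c1, if_neg c2, mul_zero]
      · rw [if_neg (fun h => c1 h.1), if_neg c1]
    simp only [h3]
    rw [h2]
    refine tsum_congr fun y => ?_
    split_ifs
    · ring
    · rw [mul_zero]

end

end Pool.Agent.TH535
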