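import Pool.Agent.TH535.Expl4
import Pool.Agent.H379R2.ConstR

set_option autoImplicit false
set_option linter.unusedSectionVars false

/-! Rational exponents. -/

namespace Pool.Agent.TH535

open Finset Filter Topology

noncomputable section

/-- lower bound for the constants, general remainders -/
theorem F_gen {κ : ℝ} (hκ : 0 < κ) {n j : ℕ} (q : Fin n → ℕ) (hj : 1 ≤ j) (hjκ : (j : ℝ) < κ)
    (hq : ∀ a, 0 < q a) (hs : ∑ a, 1 / (q a : ℝ) = (κ - j) / κ) (R : Fin n → ℝ)
    (hPh : ∀ a, (κ / (q a : ℝ)) * (4 * (j : ℝ) * Real.log 2 + 2 * j * Real.log j + κ -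
        2 * (κ + j) * Real.log (κ + j)) - R a ≤ Ph κ j (q a)) :
    κ ^ 2 * GG (j / κ) - κ / j * (Real.log (4 * Real.pi * j ^ 3 / (κ + j)) / 2 + 1 / (12 * (j : ℝ) ^ 2) +
      1 / (24 * j * (κ - j)) + ∑ a, R a) + Real.log (2 * Real.pi * κ ^ 2) / 2 ≤
      κ / j * LR κ j q + LG (κ ^ 2) := by
  have hpi := Real.pi_pos
  have hj0 : (0 : ℝ) < j := by exact_mod_cast hj
  have hm : (0 : ℝ) < κ - j := by linarith
  have hsum := Finset.sum_le_sum (fun a (_ : a ∈ univ) => hPh a)
  rw [sum_sub_distrib, ← sum_mul] at hsum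
  have hs2 : ∑ a, κ / (q a : ℝ) = κ - j := by
    have : ∑ a, κ / (q a : ℝ) = κ * ∑ a, 1 / (q a : ℝ) := by
      rw [mul_sum]
      refine sum_congr rfl fun a _ => ?_
      ring
    rw [this, hs]
    field_simp
  rw [hs2] at hsum
  have h1 := LG_ge (x := (κ + j) * (κ - j)) (by positivity)
  have h2 := LG_le (x := (j : ℝ) ^ 2) (by positivity)
  have h3 := LG_le (x := 2 * (j : ℝ) * (κ - j)) (by positivity)
  have h4 := LG_ge (x := κ ^ 2) (by positivity)
  set S : ℝ := ∑ a, R a with hS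
  have l1 : Real.log ((j : ℝ) / κ) = Real.log j - Real.log κ := Real.log_div hj0.ne' hκ.ne'
  have l2 : Real.log ((κ - j) / κ) = Real.log (κ - j) - Real.log κ := Real.log_div hm.ne' hκ.ne'
  have l3 : Real.log ((κ + j) * (κ - j)) = Real.log (κ + j) + Real.log (κ - j) :=
    Real.log_mul (by positivity) hm.ne'
  have l4 : Real.log ((j : ℝ) ^ 2) = 2 * Real.log j := by rw [Real.log_pow]; norm_num
  have l5 : Real.log (2 * (j : ℝ) * (κ - j)) = Real.log 2 + Real.log j + Real.log (κ - j) := by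
    rw [Real.log_mul (by positivity) hm.ne', Real.log_mul (by positivity) (by positivity)]
  have l6 : Real.log (κ ^ 2) = 2 * Real.log κ := by rw [Real.log_pow]; norm_num
  have l7 : ∀ x : ℝ, 0 < x → Real.log (2 * Real.pi * x) = Real.log 2 + Real.log Real.pi + Real.log x := by
    intro x hx
    rw [Real.log_mul (by positivity) (by positivity), Real.log_mul (by positivity) (by positivity)]
  have l8 : Real.log (4 * Real.pi * (j : ℝ) ^ 3 / (κ + j)) =
      2 * Real.log 2 + Real.log Real.pi + 3 * Real.log j - Real.log (κ + j) := lA hκ hj0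
  have l9 : Real.log (1 + (j : ℝ) / κ) = Real.log (κ + j) - Real.log κ := by
    rw [show 1 + (j : ℝ) / κ = (κ + j) / κ by field_simp, Real.log_div (by positivity) hκ.ne']
  have hLR : (j : ℝ) ^ 2 * Real.log (j / κ) - (κ - j) ^ 2 * Real.log ((κ - j) / κ) +
      (HH ((κ + j) * (κ - j)) + Real.log (2 * Real.pi * ((κ + j) * (κ - j))) / 2) -
      (HH ((j : ℝ) ^ 2) + Real.log (2 * Real.pi * (j : ℝ) ^ 2) / 2 + 1 / (12 * (j : ℝ) ^ 2)) -
      (HH (2 * (j : ℝ) * (κ - j)) + Real.log (2 * Real.pi * (2 * (j : ℝ) * (κ - j))) / 2 +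
        1 / (12 * (2 * (j : ℝ) * (κ - j)))) +
      ((κ - j) * (4 * (j : ℝ) * Real.log 2 + 2 * j * Real.log j + κ - 2 * (κ + j) * Real.log (κ + j)) - S) ≤
      LR κ j q := by
    unfold LR
    linarith
  have hmain : κ ^ 2 * GG (j / κ) - κ / j * (Real.log (4 * Real.pi * j ^ 3 / (κ + j)) / 2 +
      1 / (12 * (j : ℝ) ^ 2) + 1 / (24 * j * (κ - j)) + S) + Real.log (2 * Real.pi * κ ^ 2) / 2 =
      κ / j * ((j : ℝ) ^ 2 * Real.log (j / κ) - (κ - j) ^ 2 * Real.log ((κ - j) / κ) +
      (HH ((κ + j) * (κ - j)) + Real.log (2 * Real.pi * ((κ + j) * (κ - j))) / 2) -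
      (HH ((j : ℝ) ^ 2) + Real.log (2 * Real.pi * (j : ℝ) ^ 2) / 2 + 1 / (12 * (j : ℝ) ^ 2)) -
      (HH (2 * (j : ℝ) * (κ - j)) + Real.log (2 * Real.pi * (2 * (j : ℝ) * (κ - j))) / 2 +
        1 / (12 * (2 * (j : ℝ) * (κ - j)))) +
      ((κ - j) * (4 * (j : ℝ) * Real.log 2 + 2 * j * Real.log j + κ - 2 * (κ + j) * Real.log (κ + j)) - S)) +
      (HH (κ ^ 2) + Real.log (2 * Real.pi * κ ^ 2) / 2) := by
    unfold GG HH
    rw [l7 _ (by positivity), l7 _ (by positivity), l7 _ (by positivity), l7 _ (by positivity), l9, l8,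
      l1, l2, l3, l4, l5, l6]
    field_simp
    ring
  rw [hmain]
  have := mul_le_mul_of_nonneg_left hLR (by positivity : 0 ≤ κ / j)
  linarith

lemma LG_half {x : ℝ} (hx : 0 < x) : -(x * Real.log Real.pi) ≤ LG x := by
  have hpi := Real.pi_pos
  have hc := Real.convexOn_log_Gamma
  have h1 : (1 / 2 : ℝ) ∈ Set.Ioi (0 : ℝ) := by norm_num
  have h2 : x + 1 ∈ Set.Ioi (0 : ℝ) := by simp; linarith
  have ha : 0 ≤ x / (x + 1 / 2) := by positivity
  have hb : 0 ≤ (1 / 2) / (x + 1 / 2) := by positivity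
  have hab : x / (x + 1 / 2) + (1 / 2) / (x + 1 / 2) = 1 := by field_simp
  have h := hc.2 h1 h2 ha hb hab
  simp only [smul_eq_mul, Function.comp] at h
  have e : x / (x + 1 / 2) * (1 / 2) + (1 / 2) / (x + 1 / 2) * (x + 1) = 1 := by
    field_simp
    ring
  rw [e, Real.Gamma_one, Real.log_one, Real.Gamma_one_half_eq, Real.log_sqrt hpi.le] at h
  have h3 : 0 ≤ (x / (x + 1 / 2) * (Real.log Real.pi / 2) + 1 / 2 / (x + 1 / 2) * Real.log (Real.Gamma (x + 1))) *
      (2 * (x + 1 / 2)) := mul_nonneg h (by positivity)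
  have h4 : (x / (x + 1 / 2) * (Real.log Real.pi / 2) + 1 / 2 / (x + 1 / 2) * Real.log (Real.Gamma (x + 1))) *
      (2 * (x + 1 / 2)) = x * Real.log Real.pi + Real.log (Real.Gamma (x + 1)) := by
    field_simp
  rw [h4] at h3
  unfold LG
  linarith

/-- `x log x - x ≤ log Γ(x + 1)` for all `x > 0` -/
lemma HH_le {x : ℝ} (hx : 0 < x) : HH x ≤ LG x := by
  have hpi := Real.pi_pos
  have hp3 := Real.pi_gt_three
  by_cases h : 1 / 6 ≤ x
  · have h1 := LG_ge hx
    have h2 : 0 ≤ Real.log (2 * Real.pi * x) := Real.log_nonneg (by nlinarith)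
    linarith
  · push Not at h
    have h1 := LG_half hx
    have h2 := log_pi_lt
    have h3 : Real.log x ≤ 0 := Real.log_nonpos hx.le (by linarith)
    have h4 : Real.log x ≤ -(1 / 2) := by
      have := Real.log_le_sub_one_of_pos hx
      linarith
    unfold HH
    have h5 : x * Real.log x ≤ x * (-(1 / 2)) := mul_le_mul_of_nonneg_left h4 hx.le
    norm_num at h2
    nlinarith

lemma up_le {x : ℝ} (hx : 0 < x) : LG x ≤ HH x + (2 * Real.sqrt x + x) := by
  have h1 : LG x ≤ x * Real.log (x + 1) := H379R2.ConstR.gam_le hx.le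
  have hs : 0 < Real.sqrt x := Real.sqrt_pos.2 hx
  have hss : Real.sqrt x * Real.sqrt x = x := Real.mul_self_sqrt hx.le
  have h2 : Real.log (x + 1) ≤ Real.log x + 2 / Real.sqrt x := by
    have h3 : x + 1 ≤ x * (1 + 1 / Real.sqrt x) ^ 2 := by
      have : x * (1 + 1 / Real.sqrt x) ^ 2 = x + 2 * Real.sqrt x + 1 := by
        nth_rewrite 1 [← hss]
        field_simp
        linear_combination hss
      rw [this]
      linarith
    have h4 := Real.log_le_log (by positivity) h3
    rw [Real.log_mul hx.ne' (by positivity), Real.log_pow] at h4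
    have h5 := Real.log_le_sub_one_of_pos (by positivity : 0 < 1 + 1 / Real.sqrt x)
    have h6 : 2 / Real.sqrt x = 2 * (1 / Real.sqrt x) := by ring
    push_cast at h4
    rw [h6]
    linarith
  have h3 : x * Real.log (x + 1) ≤ x * (Real.log x + 2 / Real.sqrt x) :=
    mul_le_mul_of_nonneg_left h2 hx.le
  have h4 : x * (2 / Real.sqrt x) = 2 * Real.sqrt x := by
    nth_rewrite 1 [← hss]
    field_simp
  unfold HH
  rw [mul_add, h4] at h3
  linarith

/-- lower bound for one factor with a large denominator -/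
lemma Ph_ge2 {κ : ℝ} (hκ : 0 < κ) {j : ℕ} (hj : 1 ≤ j) (hjκ : (j : ℝ) ≤ κ) {q : ℝ} (hq : 0 < q) :
    (κ / q) * (4 * (j : ℝ) * Real.log 2 + 2 * j * Real.log j + κ - 2 * (κ + j) * Real.log (κ + j)) -
      (12 * κ * (1 / Real.sqrt q) + 6 * κ ^ 2 * (1 / q)) ≤ Ph κ j q := by
  have hj0 : (0 : ℝ) < j := by exact_mod_cast hj
  have h1 := HH_le (x := 2 * j * κ / q) (by positivity)
  have h2 := HH_le (x := κ ^ 2 / q) (by positivity)
  have h3 := up_le (x := j * κ / q) (by positivity)
  have h4 := up_le (x := (κ + j) * κ / q) (by positivity)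
  have hsq : 0 < Real.sqrt q := Real.sqrt_pos.2 hq
  have b3 : (j : ℝ) * κ / q ≤ κ ^ 2 * (1 / q) := by
    rw [mul_one_div]
    exact div_le_div_of_nonneg_right (by nlinarith) hq.le
  have b4 : (κ + j) * κ / q ≤ 2 * κ ^ 2 * (1 / q) := by
    rw [mul_one_div]
    exact div_le_div_of_nonneg_right (by nlinarith) hq.le
  have s3 : Real.sqrt (j * κ / q) ≤ κ * (1 / Real.sqrt q) := by
    have : κ * (1 / Real.sqrt q) = Real.sqrt (κ ^ 2 * (1 / q)) := by
      rw [Real.sqrt_mul (by positivity), Real.sqrt_sq hκ.le, one_div, one_div, Real.sqrt_inv]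
    rw [this]
    exact Real.sqrt_le_sqrt b3
  have s4 : Real.sqrt ((κ + j) * κ / q) ≤ 2 * κ * (1 / Real.sqrt q) := by
    have : 2 * κ * (1 / Real.sqrt q) = Real.sqrt ((2 * κ) ^ 2 * (1 / q)) := by
      rw [Real.sqrt_mul (by positivity), Real.sqrt_sq (by positivity), one_div, one_div, Real.sqrt_inv]
    rw [this]
    refine Real.sqrt_le_sqrt (b4.trans ?_)
    exact mul_le_mul_of_nonneg_right (by nlinarith) (by positivity)
  have key : (κ / q) * (4 * (j : ℝ) * Real.log 2 + 2 * j * Real.log j + κ - 2 * (κ + j) * Real.log (κ + j)) =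
      -(κ ^ 2 / q) * Real.log q + 2 * HH (2 * j * κ / q) + HH (κ ^ 2 / q) - 2 * HH (j * κ / q) -
        2 * HH ((κ + j) * κ / q) := by
    have l1 : Real.log (2 * j * κ / q) = Real.log 2 + Real.log j + Real.log κ - Real.log q := by
      rw [Real.log_div (by positivity) (by positivity), Real.log_mul (by positivity) (by positivity),
        Real.log_mul (by positivity) (by positivity)]
    have l2 : Real.log (κ ^ 2 / q) = 2 * Real.log κ - Real.log q := by
      rw [Real.log_div (by positivity) (by positivity), Real.log_pow]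
      norm_num
    have l3 : Real.log (j * κ / q) = Real.log j + Real.log κ - Real.log q := by
      rw [Real.log_div (by positivity) (by positivity), Real.log_mul (by positivity) (by positivity)]
    have l4 : Real.log ((κ + j) * κ / q) = Real.log (κ + j) + Real.log κ - Real.log q := by
      rw [Real.log_div (by positivity) (by positivity), Real.log_mul (by positivity) (by positivity)]
    unfold HH
    rw [l1, l2, l3, l4]
    field_simp
    ring
  rw [key]
  unfold Ph
  linarith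

end

end Pool.Agent.TH535
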