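import Pool.Agent.TH535.RatA

set_option autoImplicit false
set_option linter.unusedSectionVars false

/-! Rational exponents: the growth theorem. -/

namespace Pool.Agent.TH535

open Finset Filter Topology
open Pool.Agent.H306R2 hiding fr

noncomputable section

/-- the orders of the short factors -/
def qE (P Q : ℕ) {r : ℕ} (e : Fin r → ℕ) : Fin ((Q - P) + r) → ℕ := Fin.append (fun _ => Q) e

lemma log16 {κ x : ℝ} (hκ : 0 < κ) (hx0 : 0 < x) (hx : x ≤ 16 * κ ^ 2) : Real.log x ≤ 8 * κ := by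
  have h1 := Real.log_le_log hx0 hx
  have h2 : Real.log (16 * κ ^ 2) = 2 * Real.log (4 * κ) := by
    rw [show 16 * κ ^ 2 = (4 * κ) ^ 2 by ring, Real.log_pow]
    push_cast
    ring
  have h3 := Real.log_le_sub_one_of_pos (by positivity : 0 < 4 * κ)
  linarith

/-- the constants for the parameters with a remainder -/
lemma F_rat {κ : ℝ} {P Q r j : ℕ} (e : Fin r → ℕ) (hP : 0 < P) (hPQ : P < Q) (hκQ : 2 * (Q : ℝ) ≤ κ)
    (hj1 : (j : ℝ) ≤ P / Q * κ) (hj2 : (P : ℝ) / Q * κ < j + 1) (hj : 1 ≤ j) (he : ∀ i, κ < e i)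
    (hs : ∑ i, 1 / (e i : ℝ) = P / Q - j / κ) (hr : ∑ i, 1 / Real.sqrt (e i : ℝ) ≤ 5) :
    AdmN κ j (qE P Q e) (fun a => 1 / (qE P Q e a : ℝ)) ∧
    κ ^ 2 * GG (j / κ) - 2 * Q / P * ((72 + (Q - P) * (4 + Q)) * κ) ≤ FF κ j (qE P Q e) := by
  have hP0 : (0 : ℝ) < P := by exact_mod_cast hP
  have hP1 : (1 : ℝ) ≤ P := by exact_mod_cast hP
  have hQ0 : (0 : ℝ) < Q := by exact_mod_cast (by omega : 0 < Q)
  have hQ2 : (2 : ℝ) ≤ Q := by exact_mod_cast (by omega : 2 ≤ Q)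
  have hPQ' : (P : ℝ) + 1 ≤ Q := by exact_mod_cast hPQ
  have hκ4 : (4 : ℝ) ≤ κ := by linarith
  have hκ0 : 0 < κ := by linarith
  have hj0 : (1 : ℝ) ≤ j := by exact_mod_cast hj
  have hQP : ((Q - P : ℕ) : ℝ) = (Q : ℝ) - P := by rw [Nat.cast_sub hPQ.le]
  have hpi := Real.pi_pos
  have hp4 := Real.pi_le_four
  have hκj : 1 ≤ κ - j := by
    have h1 : (P : ℝ) / Q * κ = κ - (Q - P) / Q * κ := by field_simp; ring
    have h2 : 1 ≤ (Q - P) / Q * κ := by
      rw [div_mul_eq_mul_div, le_div_iff₀ hQ0]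
      nlinarith
    linarith
  have hjκ : (j : ℝ) < κ := by linarith
  have he0 : ∀ i, (0 : ℝ) < e i := fun i => by have := he i; linarith
  have hq2 : ∀ a, 2 ≤ qE P Q e a := by
    intro a
    refine Fin.addCases (fun i => ?_) (fun i => ?_) a
    · simp only [qE, Fin.append_left]
      omega
    · simp only [qE, Fin.append_right]
      have : (2 : ℝ) < e i := by have := he i; linarith
      exact_mod_cast this.le
  have hsum : ∑ a, 1 / (qE P Q e a : ℝ) = (κ - j) / κ := by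
    rw [Fin.sum_univ_add]
    simp only [qE, Fin.append_left, Fin.append_right, sum_const, card_univ, Fintype.card_fin, nsmul_eq_mul]
    rw [hs, hQP]
    field_simp
    ring
  refine ⟨adm_of _ (by omega) hκ0 hj hq2 hsum, ?_⟩
  set R : Fin ((Q - P) + r) → ℝ := Fin.append
    (fun _ : Fin (Q - P) => Real.log (Real.pi * (κ + j) ^ 2 / (2 * Q)) / 2 + Q / (6 * κ) * (1 / j + 1 / (κ + j)))
    (fun i : Fin r => 12 * κ * (1 / Real.sqrt (e i)) + 6 * κ ^ 2 * (1 / (e i : ℝ))) with hR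
  have hF := F_gen hκ0 (qE P Q e) hj hjκ (fun a => by have := hq2 a; omega) hsum R (by
    intro a
    refine Fin.addCases (fun i => ?_) (fun i => ?_) a
    · simp only [qE, hR, Fin.append_left]
      exact Ph_ge hκ0 j rfl (by linarith) hQ0
    · simp only [qE, hR, Fin.append_right]
      exact Ph_ge2 hκ0 hj hjκ.le (he0 i))
  have hRs : ∑ a, R a = (Q - P) * (Real.log (Real.pi * (κ + j) ^ 2 / (2 * Q)) / 2 +
      Q / (6 * κ) * (1 / j + 1 / (κ + j))) + (12 * κ * ∑ i, 1 / Real.sqrt (e i) +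
        6 * κ ^ 2 * ∑ i, 1 / (e i : ℝ)) := by
    rw [Fin.sum_univ_add]
    simp only [hR, Fin.append_left, Fin.append_right, sum_const, card_univ, Fintype.card_fin, nsmul_eq_mul]
    rw [hQP, sum_add_distrib, ← mul_sum, ← mul_sum]
  have b1 : Real.log (4 * Real.pi * j ^ 3 / (κ + j)) ≤ 8 * κ := by
    refine log16 hκ0 (by positivity) ?_
    rw [div_le_iff₀ (by positivity)]
    have h3 : (j : ℝ) ^ 3 ≤ κ ^ 2 * (κ + j) := by
      have h5 : (j : ℝ) ^ 3 ≤ κ ^ 3 := pow_le_pow_left₀ (by positivity) hjκ.le 3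
      have h6 : 0 ≤ κ ^ 2 * j := by positivity
      linarith
    have h4 : 4 * Real.pi * (j : ℝ) ^ 3 ≤ 16 * (j : ℝ) ^ 3 :=
      mul_le_mul_of_nonneg_right (by linarith) (by positivity)
    linarith
  have b2 : 1 / (12 * (j : ℝ) ^ 2) ≤ κ := by
    rw [div_le_iff₀ (by positivity)]
    have h1 : 1 ≤ κ * (j : ℝ) ^ 2 := one_le_mul_of_one_le_of_one_le (by linarith) (one_le_pow₀ hj0)
    linarith
  have b3 : 1 / (24 * (j : ℝ) * (κ - j)) ≤ κ := by
    rw [div_le_iff₀ (by positivity)]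
    have h1 : 1 ≤ (j : ℝ) * (κ - j) := one_le_mul_of_one_le_of_one_le hj0 hκj
    have h2 : 1 ≤ κ * ((j : ℝ) * (κ - j)) := one_le_mul_of_one_le_of_one_le (by linarith) h1
    linarith
  have b4 : Real.log (Real.pi * (κ + j) ^ 2 / (2 * Q)) ≤ 8 * κ := by
    refine log16 hκ0 (by positivity) ?_
    rw [div_le_iff₀ (by positivity)]
    have h3 : (κ + j) ^ 2 ≤ (2 * κ) ^ 2 := pow_le_pow_left₀ (by positivity) (by linarith) 2
    have h4 : Real.pi * (κ + j) ^ 2 ≤ 4 * (2 * κ) ^ 2 :=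
      mul_le_mul hp4 h3 (by positivity) (by norm_num)
    have h5 : 16 * κ ^ 2 * 1 ≤ 16 * κ ^ 2 * (2 * Q) :=
      mul_le_mul_of_nonneg_left (by linarith) (by positivity)
    linarith
  have b5 : Q / (6 * κ) * (1 / j + 1 / (κ + j)) ≤ Q * κ := by
    have h1 : 1 / (j : ℝ) ≤ 1 := by rw [div_le_one (by positivity)]; exact hj0
    have h2 : 1 / (κ + j) ≤ 1 := by rw [div_le_one (by positivity)]; linarith
    have h3 : (Q : ℝ) / (6 * κ) ≤ Q / 6 := by
      refine div_le_div_of_nonneg_left hQ0.le (by norm_num) (by linarith)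
    calc Q / (6 * κ) * (1 / j + 1 / (κ + j)) ≤ Q / 6 * 2 :=
          mul_le_mul h3 (by linarith) (by positivity) (by positivity)
      _ ≤ Q * κ := by
        have : (Q : ℝ) * 4 ≤ Q * κ := mul_le_mul_of_nonneg_left hκ4 hQ0.le
        linarith
  have b6 : κ ^ 2 * ∑ i, 1 / (e i : ℝ) ≤ κ := by
    rw [hs]
    have : κ ^ 2 * ((P : ℝ) / Q - j / κ) = κ * (P / Q * κ - j) := by field_simp
    rw [this]
    have h1 : κ * (P / Q * κ - j) ≤ κ * 1 := mul_le_mul_of_nonneg_left (by linarith) hκ0.le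
    linarith
  have hB : Real.log (4 * Real.pi * j ^ 3 / (κ + j)) / 2 + 1 / (12 * (j : ℝ) ^ 2) +
      1 / (24 * j * (κ - j)) + ∑ a, R a ≤ (72 + (Q - P) * (4 + Q)) * κ := by
    rw [hRs]
    have h1 : ((Q : ℝ) - P) * (Real.log (Real.pi * (κ + j) ^ 2 / (2 * Q)) / 2 +
      Q / (6 * κ) * (1 / j + 1 / (κ + j))) ≤ (Q - P) * ((4 + Q) * κ) :=
      mul_le_mul_of_nonneg_left (by linarith) (by linarith)
    have h2 : 12 * κ * ∑ i, 1 / Real.sqrt (e i) ≤ 12 * κ * 5 :=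
      mul_le_mul_of_nonneg_left hr (by positivity)
    linarith
  have hB0 : (0 : ℝ) ≤ (72 + (Q - P) * (4 + Q)) * κ := by
    have : (0 : ℝ) ≤ (Q : ℝ) - P := by linarith
    positivity
  have hκj2 : κ / j ≤ 2 * Q / P := by
    rw [div_le_div_iff₀ (by positivity) hP0]
    have h1 : (P : ℝ) * κ < (j + 1) * Q := by
      have := hj2
      rw [div_mul_eq_mul_div, div_lt_iff₀ hQ0] at this
      exact this
    have h2 : ((j : ℝ) + 1) * Q ≤ 2 * j * Q := mul_le_mul_of_nonneg_right (by linarith) hQ0.le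
    linarith
  have hlog : 0 ≤ Real.log (2 * Real.pi * κ ^ 2) := by
    refine Real.log_nonneg ?_
    have h1 := Real.pi_gt_three
    have h2 : (1 : ℝ) ≤ κ ^ 2 := one_le_pow₀ (by linarith)
    exact one_le_mul_of_one_le_of_one_le (by linarith) h2
  have h1 : κ / j * (Real.log (4 * Real.pi * j ^ 3 / (κ + j)) / 2 + 1 / (12 * (j : ℝ) ^ 2) +
      1 / (24 * j * (κ - j)) + ∑ a, R a) ≤ 2 * Q / P * ((72 + (Q - P) * (4 + Q)) * κ) :=
    (mul_le_mul_of_nonneg_left hB (by positivity)).trans (mul_le_mul_of_nonneg_right hκj2 hB0)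
  unfold FF
  linarith

end

end Pool.Agent.TH535
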