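import Pool.Agent.TH535.RatB

set_option autoImplicit false
set_option linter.unusedSectionVars false

/-! Rational exponents: the growth theorem. -/

namespace Pool.Agent.TH535

open Finset Filter Topology
open Pool.Agent.H306R2 hiding fr

noncomputable section

/-- admissible parameters for large rational exponents -/
theorem growthR {t A : ℝ} (ht : 0 < t) (ht1 : t < 1) (hA0 : 0 < A) (hA : A < Real.exp (GG t)) :
    ∃ K : ℝ, ∀ κ : ℚ, K ≤ (κ : ℝ) → ∃ (n j : ℕ) (q : Fin n → ℕ),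
      AdmN (κ : ℝ) j q (fun a => 1 / (q a : ℝ)) ∧
      A ^ ((κ : ℝ) ^ 2) * (aF (κ : ℝ) / Real.Gamma ((κ : ℝ) ^ 2 + 1)) <
        aF (κ : ℝ) * MN (κ : ℝ) j q (fun a => 1 / (q a : ℝ)) := by
  have hA' : Real.log A < GG t := by rwa [Real.log_lt_iff_lt_exp hA0]
  obtain ⟨P, Q, hP, hPQ, hlt⟩ := rat_near ht ht1 hA'
  have hP0 : (0 : ℝ) < P := by exact_mod_cast hP
  have hQ0 : (0 : ℝ) < Q := by exact_mod_cast (by omega : 0 < Q)
  have hQ2 : (2 : ℝ) ≤ Q := by exact_mod_cast (by omega : 2 ≤ Q)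
  have hQP0 : (0 : ℝ) ≤ (Q : ℝ) - P := by
    have : (P : ℝ) ≤ Q := by exact_mod_cast hPQ.le
    linarith
  obtain ⟨m0, hm0, hm1⟩ := exists_between hlt
  have hφ : (0 : ℝ) < P / Q := by positivity
  have hc : ∀ᶠ s in 𝓝 ((P : ℝ) / Q), m0 < GG s := (GG_cont hφ).eventually_const_lt hm1
  obtain ⟨δ, hδ, hδs⟩ := Metric.eventually_nhds_iff.1 hc
  set C : ℝ := 2 * Q / P * (72 + (Q - P) * (4 + Q)) with hC
  have hC0 : 0 < C := by positivity
  have hε : 0 < m0 - Real.log A := by linarith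
  refine ⟨max (max (2 * Q) (2 * Q / P)) (max (2 / δ) (2 * C / (m0 - Real.log A))), ?_⟩
  intro κ hκ
  have hκ1 : 2 * (Q : ℝ) ≤ κ := (le_max_left _ _).trans ((le_max_left _ _).trans hκ)
  have hκ2 : 2 * (Q : ℝ) / P ≤ κ := (le_max_right _ _).trans ((le_max_left _ _).trans hκ)
  have hκ3 : 2 / δ ≤ κ := (le_max_left _ _).trans ((le_max_right _ _).trans hκ)
  have hκ5 : 2 * C / (m0 - Real.log A) ≤ κ := (le_max_right _ _).trans ((le_max_right _ _).trans hκ)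
  have hκ4 : (4 : ℝ) ≤ κ := by linarith
  have hκ0 : (0 : ℝ) < κ := by linarith
  have hκQ4 : (4 : ℚ) ≤ κ := by exact_mod_cast hκ4
  have hκQ0 : (0 : ℚ) < κ := by linarith
  obtain ⟨j, hj⟩ : ∃ j : ℕ, j = ⌊(P : ℚ) / Q * κ⌋₊ := ⟨_, rfl⟩
  have hj1Q : (j : ℚ) ≤ (P : ℚ) / Q * κ := by
    rw [hj]; exact Nat.floor_le (by positivity)
  have hj2Q : (P : ℚ) / Q * κ < j + 1 := by
    rw [hj]; exact Nat.lt_floor_add_one _
  have hj1 : (j : ℝ) ≤ (P : ℝ) / Q * κ := by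
    have := (Rat.cast_le (K := ℝ)).mpr hj1Q
    push_cast at this
    exact this
  have hj2 : (P : ℝ) / Q * κ < j + 1 := by
    have := (Rat.cast_lt (K := ℝ)).mpr hj2Q
    push_cast at this
    exact this
  have hPκ : 2 ≤ (P : ℝ) / Q * κ := by
    rw [div_le_iff₀ hP0] at hκ2
    rw [div_mul_eq_mul_div, le_div_iff₀ hQ0]
    linarith
  have hj1' : 1 ≤ j := by
    have : (1 : ℝ) < j + 1 := by linarith
    have : (0 : ℝ) < j := by linarith
    exact_mod_cast this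
  obtain ⟨m, hm⟩ : ∃ m : ℕ, m = ⌊κ⌋₊ := ⟨_, rfl⟩
  have hm1 : (m : ℚ) ≤ κ := by rw [hm]; exact Nat.floor_le hκQ0.le
  have hm2Q : κ < (m : ℚ) + 1 := by rw [hm]; exact Nat.lt_floor_add_one _
  have hm2 : (κ : ℝ) < m + 1 := by exact_mod_cast (Rat.cast_lt (K := ℝ)).mpr hm2Q
  have hm3 : 3 ≤ m := by
    have h1 : (4 : ℚ) < ((m + 1 : ℕ) : ℚ) := by push_cast; linarith
    have h2 : 4 < m + 1 := by exact_mod_cast h1
    omega
  -- the remainder
  obtain ⟨ρ, hρ⟩ : ∃ ρ : ℚ, ρ = (P : ℚ) / Q - j / κ := ⟨_, rfl⟩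
  have hρ0 : 0 ≤ ρ := by
    rw [hρ, sub_nonneg, div_le_iff₀ hκQ0]; exact hj1Q
  have hρκ : ρ < 1 / κ := by
    rw [hρ, sub_lt_iff_lt_add, ← add_div, lt_div_iff₀ hκQ0]; linarith
  have hpq : ρ.num.toNat * m < ρ.den := by
    have h1 : ρ * m < 1 := by
      have h3 : ρ * m ≤ ρ * κ := mul_le_mul_of_nonneg_left hm1 hρ0
      rw [lt_div_iff₀ hκQ0] at hρκ
      linarith
    have h4 : (ρ.num.toNat : ℚ) = ρ.num := by
      have : ((ρ.num.toNat : ℤ)) = ρ.num := Int.toNat_of_nonneg (Rat.num_nonneg.mpr hρ0)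
      exact_mod_cast this
    have h5 : (0 : ℚ) < ρ.den := by exact_mod_cast ρ.den_pos
    have h6 : (ρ.num : ℚ) = ρ * ρ.den := (Rat.mul_den_eq_num ρ).symm
    have h7 : (ρ.num.toNat : ℚ) * m < ρ.den := by
      rw [h4, h6]
      have := mul_lt_mul_of_pos_right h1 h5
      linarith
    exact_mod_cast h7
  obtain ⟨r, e, he1, he2, he3⟩ := H379R2.ConstR.egy _ _ m hm3 hpq
  have hρR : (ρ : ℝ) = (P : ℝ) / Q - j / κ := by rw [hρ]; push_cast; rfl
  have hρe : ∑ i, 1 / (e i : ℝ) = (P : ℝ) / Q - j / κ := by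
    rw [he2, ← hρR]
    have h4 : ((ρ.num.toNat : ℕ) : ℝ) = ((ρ.num : ℤ) : ℝ) := by
      have : ((ρ.num.toNat : ℤ)) = ρ.num := Int.toNat_of_nonneg (Rat.num_nonneg.mpr hρ0)
      exact_mod_cast congrArg (Int.cast : ℤ → ℝ) this
    rw [h4, Rat.cast_def ρ]
  have he : ∀ i, (κ : ℝ) < e i := by
    intro i
    have h1 : m + 1 ≤ e i := he1 i
    have h2 : ((m + 1 : ℕ) : ℝ) ≤ e i := by exact_mod_cast h1
    push_cast at h2
    linarith
  have hr5 : ∑ i, 1 / Real.sqrt (e i : ℝ) ≤ 5 := by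
    refine he3.trans ?_
    have h1 : 1 ≤ Real.sqrt (m : ℝ) := by
      rw [Real.one_le_sqrt]
      exact_mod_cast (by omega : 1 ≤ m)
    rw [div_le_iff₀ (by linarith)]
    linarith
  obtain ⟨hAdm, hF⟩ := F_rat e hP hPQ hκ1 hj1 hj2 hj1' he hρe hr5
  refine ⟨_, j, qE P Q e, hAdm, ?_⟩
  refine adm_const (C := A ^ ((κ : ℝ) ^ 2)) hκ0 hAdm (Real.rpow_pos_of_pos hA0 _) ?_
  rw [Real.log_rpow hA0]
  refine lt_of_lt_of_le ?_ hF
  have hG : m0 < GG ((j : ℝ) / κ) := by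
    refine hδs ?_
    rw [Real.dist_eq, abs_lt]
    have h1 : (j : ℝ) / κ ≤ P / Q := by
      rw [div_le_iff₀ hκ0]
      exact hj1
    have h2 : (P : ℝ) / Q - j / κ < δ := by
      have h3 : (P : ℝ) / Q - j / κ ≤ 1 / κ := by
        rw [le_div_iff₀ hκ0, _root_.sub_mul, div_mul_cancel₀ _ hκ0.ne']
        linarith
      have h4 : 1 / (κ : ℝ) < δ := by
        rw [div_le_iff₀ hδ] at hκ3
        rw [div_lt_iff₀ hκ0]
        linarith
      linarith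
    constructor <;> linarith
  have h1 : (κ : ℝ) ^ 2 * m0 < (κ : ℝ) ^ 2 * GG ((j : ℝ) / κ) :=
    mul_lt_mul_of_pos_left hG (by positivity)
  have h2 : 2 * (Q : ℝ) / P * ((72 + (Q - P) * (4 + Q)) * κ) = C * κ := by rw [hC]; ring
  rw [h2]
  have h3 : C * κ ≤ (κ : ℝ) ^ 2 * (m0 - Real.log A) := by
    rw [div_le_iff₀ hε] at hκ5
    have h4 : 2 * C * κ ≤ κ * (m0 - Real.log A) * κ := mul_le_mul_of_nonneg_right hκ5 hκ0.le
    have h5 : 0 ≤ C * κ := by positivity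
    linarith
  linarith

end

end Pool.Agent.TH535
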