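import Pool.Agent.TH535.Wt
import Pool.Agent.TH535.Kar
import Pool.Agent.H306R2.Box

set_option autoImplicit false
set_option linter.unusedSectionVars false

/-! Volumes of the regions. -/

namespace Pool.Agent.TH535

open Finset Filter Topology MeasureTheory Pool.Agent.H306R2
open scoped ENNReal

noncomputable section

theorem lint_fin' {n : ℕ} (μ : Fin n → Measure ℝ)
    [∀ i, SigmaFinite (μ i)] (f : Fin n → ℝ → ℝ≥0∞) (hf : ∀ i, Measurable (f i)) :
    ∫⁻ x : Fin n → ℝ, ∏ i, f i (x i) ∂(Measure.pi μ) = ∏ i, ∫⁻ x, f i x ∂(μ i) := by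
  induction n with
  | zero => simp
  | succ n n_ih =>
      calc
        _ = ∫⁻ x : ℝ × (Fin n → ℝ),
            f 0 x.1 * ∏ i : Fin n, f (Fin.succ i) (x.2 i)
            ∂((μ 0).prod (Measure.pi (fun i ↦ μ i.succ))) := by
          rw [← ((measurePreserving_piFinSuccAbove μ 0).symm).lintegral_comp_emb
            (MeasurableEquiv.measurableEmbedding _)]
          simp_rw [MeasurableEquiv.piFinSuccAbove_symm_apply, Fin.insertNthEquiv,
            Fin.prod_univ_succ, Fin.insertNth_zero, Equiv.coe_fn_mk, Fin.cons_succ,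
            Fin.zero_succAbove, cast_eq, Fin.cons_zero]
        _ = (∫⁻ x, f 0 x ∂μ 0)
            * ∏ i : Fin n, ∫⁻ (x : ℝ), f (Fin.succ i) x ∂(μ i.succ) := by
          rw [← n_ih (fun i => μ i.succ) (fun i => f i.succ) (fun i => hf _)]
          exact lintegral_prod_mul (hf 0).aemeasurable (Finset.measurable_prod _ (fun i _ =>
            (hf _).comp (measurable_pi_apply i))).aemeasurable
        _ = ∏ i, ∫⁻ x, f i x ∂(μ i) := by rw [Fin.prod_univ_succ]

theorem lint_fin {n : ℕ} (f : Fin n → ℝ → ℝ≥0∞) (hf : ∀ i, Measurable (f i)) :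
    ∫⁻ x : Fin n → ℝ, ∏ i, f i (x i) = ∏ i, ∫⁻ x, f i x := by
  rw [volume_pi]
  exact lint_fin' (fun _ => volume) f hf

lemma lint_gd_ct {m : ℝ} (hm : 0 < m) (B : ℝ) :
    ∫⁻ u, ENNReal.ofReal (gd m u * ct B u) = ENNReal.ofReal ((max B 0) ^ m / Real.Gamma (m + 1)) := by
  rw [← gd_ct_integral hm, ofReal_integral_eq_lintegral_ofReal (gd_ct_integrable hm B)
    (Eventually.of_forall fun u => mul_nonneg (gd_nonneg hm u) (ct_nonneg _ _))]

lemma betaR {a b : ℝ} (ha : 0 < a) (hb : 0 < b) :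
    Integrable (ProbabilityTheory.betaPDFReal a b) ∧ ∫ x, ProbabilityTheory.betaPDFReal a b x = 1 := by
  have h := ProbabilityTheory.lintegral_betaPDF_eq_one ha hb
  have h0 : ∀ x, 0 ≤ ProbabilityTheory.betaPDFReal a b x := by
    intro x
    by_cases hx : 0 < x ∧ x < 1
    · exact (ProbabilityTheory.betaPDFReal_pos hx.1 hx.2 ha hb).le
    · unfold ProbabilityTheory.betaPDFReal
      rw [if_neg hx]
  have h1 : Integrable (ProbabilityTheory.betaPDFReal a b) := by
    rw [← lintegral_ofReal_ne_top_iff_integrable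
      (ProbabilityTheory.measurable_betaPDFReal a b).aestronglyMeasurable (Eventually.of_forall h0)]
    have : ∫⁻ x, ENNReal.ofReal (ProbabilityTheory.betaPDFReal a b x) = 1 := h
    rw [this]
    exact ENNReal.one_ne_top
  refine ⟨h1, ?_⟩
  rw [integral_eq_lintegral_of_nonneg_ae (Eventually.of_forall h0)
    (ProbabilityTheory.measurable_betaPDFReal a b).aestronglyMeasurable]
  have : ∫⁻ x, ENNReal.ofReal (ProbabilityTheory.betaPDFReal a b x) = 1 := h
  rw [this]
  simp

lemma lint_beta {a b B : ℝ} (ha : 0 < a) (hb : 0 < b) (hB : 0 < B) :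
    ∫⁻ u, ENNReal.ofReal (gd a u * (max (B - u) 0) ^ b) =
      ENNReal.ofReal (B ^ (a + b) * Real.Gamma (b + 1) / Real.Gamma (a + b + 1)) := by
  obtain ⟨h1, h2⟩ := betaR ha (by linarith : 0 < b + 1)
  have hG1 := Real.Gamma_pos_of_pos ha
  have hG2 := Real.Gamma_pos_of_pos (by linarith : 0 < b + 1)
  have hG3 := Real.Gamma_pos_of_pos (by linarith : 0 < a + (b + 1))
  set K : ℝ := B ^ (a + b - 1) * (Real.Gamma (b + 1) / Real.Gamma (a + (b + 1))) with hK
  have hK0 : 0 ≤ K := by positivity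
  have e1 : ∀ u, gd a u * (max (B - u) 0) ^ b = K * ProbabilityTheory.betaPDFReal a (b + 1) (u / B) := by
    intro u
    unfold ProbabilityTheory.betaPDFReal gd
    by_cases hu : 0 < u
    · by_cases hu2 : u < B
      · rw [if_pos hu, max_eq_left (by linarith), if_pos ⟨by positivity, by rw [div_lt_one hB]; exact hu2⟩]
        unfold ProbabilityTheory.beta
        have e2 : 1 - u / B = (B - u) / B := by field_simp
        rw [e2, Real.div_rpow hu.le hB.le, Real.div_rpow (by linarith) hB.le,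
          show b + 1 - 1 = b by ring, hK, show a + b - 1 = (a - 1) + b by ring, Real.rpow_add hB]
        have p1 : 0 < B ^ (a - 1) := by positivity
        have p2 : 0 < B ^ b := by positivity
        field_simp
      · rw [if_pos hu, max_eq_right (by linarith), Real.zero_rpow hb.ne', mul_zero, if_neg, mul_zero]
        intro h
        have := h.2
        rw [div_lt_one hB] at this
        exact hu2 this
    · rw [if_neg hu, zero_mul, if_neg, mul_zero]
      intro h
      apply hu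
      have := h.1
      rwa [div_pos_iff_of_pos_right hB] at this
  simp only [e1]
  have h3 : Integrable (fun u => K * ProbabilityTheory.betaPDFReal a (b + 1) (u / B)) :=
    (h1.comp_div hB.ne').const_mul K
  have h0 : ∀ x, 0 ≤ ProbabilityTheory.betaPDFReal a (b + 1) x := by
    intro x
    by_cases hx : 0 < x ∧ x < 1
    · exact (ProbabilityTheory.betaPDFReal_pos hx.1 hx.2 ha (by linarith)).le
    · unfold ProbabilityTheory.betaPDFReal
      rw [if_neg hx]
  rw [← ofReal_integral_eq_lintegral_ofReal h3 (Eventually.of_forall fun u => mul_nonneg hK0 (h0 _)),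
    integral_const_mul, Measure.integral_comp_div, h2, abs_of_pos hB]
  congr 1
  rw [hK, smul_eq_mul, mul_one, show a + b = (a + b - 1) + 1 by ring, Real.rpow_add_one hB.ne',
    show a + b - 1 + 1 - 1 = a + b - 1 by ring, show a + b - 1 + 1 + 1 = a + (b + 1) by ring]
  ring

open Classical in
/-- the region of the correlation -/
def chR {n : ℕ} (α θ : ℝ) (β : Fin n → ℝ) (u : Ix n → ℝ) : ℝ :=
  if vh u ≤ α ∧ ∑ a, vl u a + vs u ≤ θ ∧ ∀ a, vl u a + vr u a ≤ β a then 1 else 0

lemma chR_nonneg {n : ℕ} (α θ : ℝ) (β : Fin n → ℝ) (u : Ix n → ℝ) : 0 ≤ chR α θ β u := by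
  unfold chR
  split_ifs <;> norm_num

/-- reordering of the variables -/
def gE (n : ℕ) (u : Ix n → ℝ) : ((Fin n → ℝ) × (Fin n → ℝ)) × (ℝ × ℝ) := ((vl u, vr u), (vh u, vs u))

lemma gE_mp (n : ℕ) : MeasurePreserving (gE n) volume volume := by
  have h1 := volume_measurePreserving_sumPiEquivProdPi (fun _ : Ix n => ℝ)
  have h2 := volume_measurePreserving_sumPiEquivProdPi (fun _ : Fin n ⊕ Fin n => ℝ)
  have h3 := volume_preserving_finTwoArrow ℝ
  have h4 := (h2.prod h3).comp h1
  exact h4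

/-- the integral over the region, one layer -/
theorem lint_chR {n : ℕ} {j : ℕ} (hj : 1 ≤ j) (e : Fin n → ℝ) (he : ∀ a, 0 < e a) (hn : 0 < n)
    (α θ : ℝ) (β : Fin n → ℝ) :
    ∫⁻ u : Ix n → ℝ, ENNReal.ofReal (GdI (mm j e) u * chR α θ β u) =
      ENNReal.ofReal ((max α 0) ^ ((j : ℝ) ^ 2) / Real.Gamma ((j : ℝ) ^ 2 + 1)) *
      ∫⁻ x : Fin n → ℝ, (∏ a, ENNReal.ofReal (gd (ei e * e a) (x a) *
          ((max (β a - x a) 0) ^ ((j : ℝ) * e a) / Real.Gamma ((j : ℝ) * e a + 1)))) *
        ENNReal.ofReal ((max (θ - ∑ a, x a) 0) ^ ((j : ℝ) * ei e) / Real.Gamma ((j : ℝ) * ei e + 1)) := by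
  have hj0 : (0 : ℝ) < j := by exact_mod_cast hj
  have hi0 : 0 < ei e := sum_pos (fun a _ => he a) ⟨⟨0, hn⟩, mem_univ _⟩
  have hje : ∀ a, 0 < (j : ℝ) * e a := fun a => mul_pos hj0 (he a)
  have hie : ∀ a, 0 < ei e * e a := fun a => mul_pos hi0 (he a)
  have hj2 : 0 < (j : ℝ) ^ 2 := by positivity
  have hji : 0 < (j : ℝ) * ei e := by positivity
  set A : (Fin n → ℝ) → ℝ≥0∞ := fun x => ∏ a, ENNReal.ofReal (gd (ei e * e a) (x a)) with hA
  set B : (Fin n → ℝ) → (Fin n → ℝ) → ℝ≥0∞ := fun x y =>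
    ∏ a, ENNReal.ofReal (gd ((j : ℝ) * e a) (y a) * ct (β a - x a) (y a)) with hB
  set C : ℝ → ℝ≥0∞ := fun z => ENNReal.ofReal (gd ((j : ℝ) ^ 2) z * ct α z) with hC
  set D : (Fin n → ℝ) → ℝ → ℝ≥0∞ := fun x w =>
    ENNReal.ofReal (gd ((j : ℝ) * ei e) w * ct (θ - ∑ a, x a) w) with hD
  have hct2 : Measurable (fun p : ℝ × ℝ => ct p.1 p.2) := by
    unfold ct
    exact Measurable.ite (measurableSet_le measurable_snd measurable_fst) measurable_const measurable_const
  have hAm : Measurable A := Finset.measurable_prod _ fun a _ =>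
    ((gd_meas _).comp (measurable_pi_apply a)).ennreal_ofReal
  have hBm : Measurable (fun p : (Fin n → ℝ) × (Fin n → ℝ) => B p.1 p.2) := by
    refine Finset.measurable_prod _ fun a _ => Measurable.ennreal_ofReal ?_
    refine Measurable.mul ((gd_meas _).comp ((measurable_pi_apply a).comp measurable_snd)) ?_
    exact hct2.comp (Measurable.prodMk (measurable_const.sub
      ((measurable_pi_apply a).comp measurable_fst)) ((measurable_pi_apply a).comp measurable_snd))
  have hCm : Measurable C := ((gd_meas _).mul (ct_meas _)).ennreal_ofReal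
  have hDm : Measurable (fun p : (Fin n → ℝ) × ℝ => D p.1 p.2) := by
    refine Measurable.ennreal_ofReal ?_
    refine Measurable.mul ((gd_meas _).comp measurable_snd) ?_
    exact hct2.comp (Measurable.prodMk (measurable_const.sub (by fun_prop)) measurable_snd)
  have hpt : ∀ u : Ix n → ℝ, ENNReal.ofReal (GdI (mm j e) u * chR α θ β u) =
      (fun p : ((Fin n → ℝ) × (Fin n → ℝ)) × (ℝ × ℝ) =>
        (A p.1.1 * B p.1.1 p.1.2) * (C p.2.1 * D p.1.1 p.2.2)) (gE n u) := by
    intro u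
    simp only [gE, hA, hB, hC, hD]
    rw [← ENNReal.ofReal_prod_of_nonneg fun a _ => gd_nonneg (hie a) _,
      ← ENNReal.ofReal_prod_of_nonneg fun a _ => mul_nonneg (gd_nonneg (hje a) _) (ct_nonneg _ _),
      ← ENNReal.ofReal_mul (prod_nonneg fun a _ => gd_nonneg (hie a) _),
      ← ENNReal.ofReal_mul (mul_nonneg (gd_nonneg hj2 _) (ct_nonneg _ _)),
      ← ENNReal.ofReal_mul (mul_nonneg (prod_nonneg fun a _ => gd_nonneg (hie a) _)
        (prod_nonneg fun a _ => mul_nonneg (gd_nonneg (hje a) _) (ct_nonneg _ _)))]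
    congr 1
    have e1 : GdI (mm j e) u = ((∏ a, gd (ei e * e a) (vl u a)) * ∏ a, gd ((j : ℝ) * e a) (vr u a)) *
        (gd ((j : ℝ) ^ 2) (vh u) * gd ((j : ℝ) * ei e) (vs u)) := by
      unfold GdI
      rw [prod_ix]
      rfl
    have e2 : chR α θ β u = (∏ a, ct (β a - vl u a) (vr u a)) * (ct α (vh u) * ct (θ - ∑ a, vl u a) (vs u)) := by
      unfold chR ct
      by_cases c1 : vh u ≤ α
      · by_cases c2 : ∑ a, vl u a + vs u ≤ θ
        · by_cases c3 : ∀ a, vl u a + vr u a ≤ β a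
          · rw [if_pos ⟨c1, c2, c3⟩, if_pos c1, if_pos (by linarith), prod_eq_one]
            · ring
            · intro a _
              rw [if_pos (by linarith [c3 a])]
          · rw [if_neg (fun h => c3 h.2.2)]
            push Not at c3
            obtain ⟨a, ha⟩ := c3
            rw [prod_eq_zero (mem_univ a) (if_neg (by linarith)), zero_mul]
        · rw [if_neg (fun h => c2 h.2.1), if_neg (show ¬ vs u ≤ θ - ∑ a, vl u a from fun h => c2 (by linarith))]
          ring
      · rw [if_neg (fun h => c1 h.1), if_neg c1]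
        ring
    rw [e1, e2, prod_mul_distrib]
    ring
  have hF : Measurable (fun p : ((Fin n → ℝ) × (Fin n → ℝ)) × (ℝ × ℝ) =>
        (A p.1.1 * B p.1.1 p.1.2) * (C p.2.1 * D p.1.1 p.2.2)) := by
    refine Measurable.mul (Measurable.mul (hAm.comp (by fun_prop)) (hBm.comp (by fun_prop))) ?_
    refine Measurable.mul (hCm.comp (by fun_prop)) ?_
    exact hDm.comp (Measurable.prodMk (by fun_prop) (by fun_prop))
  simp_rw [hpt]
  rw [(gE_mp n).lintegral_comp hF, Measure.volume_eq_prod, lintegral_prod _ hF.aemeasurable]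
  have hCi : ∫⁻ z, C z = ENNReal.ofReal ((max α 0) ^ ((j : ℝ) ^ 2) / Real.Gamma ((j : ℝ) ^ 2 + 1)) :=
    lint_gd_ct hj2 α
  have hDi : ∀ x, ∫⁻ w, D x w = ENNReal.ofReal ((max (θ - ∑ a, x a) 0) ^ ((j : ℝ) * ei e) /
      Real.Gamma ((j : ℝ) * ei e + 1)) := fun x => lint_gd_ct hji _
  have hBi : ∀ x : Fin n → ℝ, ∫⁻ y, B x y = ∏ a, ENNReal.ofReal ((max (β a - x a) 0) ^ ((j : ℝ) * e a) /
      Real.Gamma ((j : ℝ) * e a + 1)) := by
    intro x
    rw [hB]
    rw [lint_fin (fun a y => ENNReal.ofReal (gd ((j : ℝ) * e a) y * ct (β a - x a) y)) (fun a =>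
      ((gd_meas _).mul (ct_meas _)).ennreal_ofReal)]
    exact prod_congr rfl fun a _ => lint_gd_ct (hje a) _
  have hDx : ∀ x, Measurable (D x) := fun x => hDm.comp measurable_prodMk_left
  have hBx : ∀ x, Measurable (B x) := fun x => hBm.comp measurable_prodMk_left
  have hin : ∀ q : (Fin n → ℝ) × (Fin n → ℝ), ∫⁻ r : ℝ × ℝ, (A q.1 * B q.1 q.2) * (C r.1 * D q.1 r.2) =
      (A q.1 * B q.1 q.2) * ((∫⁻ z, C z) * ∫⁻ w, D q.1 w) := by
    intro q
    have hm0 : Measurable (fun r : ℝ × ℝ => C r.1 * D q.1 r.2) :=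
      (hCm.comp measurable_fst).mul ((hDx _).comp measurable_snd)
    rw [lintegral_const_mul _ hm0,
      Measure.volume_eq_prod, lintegral_prod_mul hCm.aemeasurable (hDx _).aemeasurable]
  simp_rw [hin, hCi, hDi]
  have hm2 : Measurable (fun x : Fin n → ℝ => ENNReal.ofReal ((max (θ - ∑ a, x a) 0) ^ ((j : ℝ) * ei e) /
      Real.Gamma ((j : ℝ) * ei e + 1))) := by fun_prop
  rw [Measure.volume_eq_prod, lintegral_prod _ (by
    refine Measurable.aemeasurable ?_
    refine Measurable.mul (Measurable.mul (hAm.comp measurable_fst) hBm) ?_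
    exact measurable_const.mul (hm2.comp measurable_fst))]
  rw [← lintegral_const_mul _ (by
    refine Measurable.mul (Finset.measurable_prod _ fun a _ => Measurable.ennreal_ofReal ?_) hm2
    exact Measurable.mul ((gd_meas _).comp (measurable_pi_apply a)) (by fun_prop))]
  refine lintegral_congr fun x => ?_
  simp only
  have e3 : ∀ y, A x * B x y * (ENNReal.ofReal ((max α 0) ^ ((j : ℝ) ^ 2) / Real.Gamma ((j : ℝ) ^ 2 + 1)) *
      ENNReal.ofReal ((max (θ - ∑ a, x a) 0) ^ ((j : ℝ) * ei e) / Real.Gamma ((j : ℝ) * ei e + 1))) =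
      (A x * (ENNReal.ofReal ((max α 0) ^ ((j : ℝ) ^ 2) / Real.Gamma ((j : ℝ) ^ 2 + 1)) *
      ENNReal.ofReal ((max (θ - ∑ a, x a) 0) ^ ((j : ℝ) * ei e) / Real.Gamma ((j : ℝ) * ei e + 1)))) * B x y := by
    intro y
    ring
  simp_rw [e3]
  rw [lintegral_const_mul _ (hBx x), hBi]
  have e4 : ∏ a, ENNReal.ofReal (gd (ei e * e a) (x a) *
          ((max (β a - x a) 0) ^ ((j : ℝ) * e a) / Real.Gamma ((j : ℝ) * e a + 1))) =
      A x * ∏ a, ENNReal.ofReal ((max (β a - x a) 0) ^ ((j : ℝ) * e a) / Real.Gamma ((j : ℝ) * e a + 1)) := by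
    simp only [hA]
    rw [← prod_mul_distrib]
    exact prod_congr rfl fun a _ => ENNReal.ofReal_mul (gd_nonneg (hie a) _)
  rw [e4]
  ring

end

end Pool.Agent.TH535
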