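import Pool.Agent.TH535.Vol

set_option autoImplicit false
set_option linter.unusedSectionVars false

/-! Closed forms for the volumes. -/

namespace Pool.Agent.TH535

open Finset Filter Topology MeasureTheory Pool.Agent.H306R2
open scoped ENNReal

noncomputable section

/-- lower bound for the volume of the region; exact for one factor -/
def VL {n : ℕ} (j : ℕ) (e : Fin n → ℝ) (α : ℝ) (β : Fin n → ℝ) : ℝ :=
  α ^ ((j : ℝ) ^ 2) / Real.Gamma ((j : ℝ) ^ 2 + 1) * (1 / Real.Gamma ((j : ℝ) * ei e + 1)) *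
    ∏ a, ((ei e / e a) ^ ((j : ℝ) * e a) / Real.Gamma ((j : ℝ) * e a + 1) *
      (β a ^ ((ei e + 2 * j) * e a) * Real.Gamma (2 * j * e a + 1) /
        Real.Gamma ((ei e + 2 * j) * e a + 1)))

lemma VL_pos {n : ℕ} {j : ℕ} (hj : 1 ≤ j) {e : Fin n → ℝ} (he : ∀ a, 0 < e a) (hn : 0 < n)
    {α : ℝ} (hα : 0 < α) {β : Fin n → ℝ} (hβ : ∀ a, 0 < β a) : 0 < VL j e α β := by
  have hj0 : (0 : ℝ) < j := by exact_mod_cast hj
  have hi0 : 0 < ei e := sum_pos (fun a _ => he a) ⟨⟨0, hn⟩, mem_univ _⟩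
  have h1 : 0 < Real.Gamma ((j : ℝ) ^ 2 + 1) := Real.Gamma_pos_of_pos (by positivity)
  have h2 : 0 < Real.Gamma ((j : ℝ) * ei e + 1) := Real.Gamma_pos_of_pos (by positivity)
  unfold VL
  refine mul_pos (by positivity) (prod_pos fun a _ => ?_)
  have h3 := he a
  have h4 := hβ a
  have h5 : 0 < Real.Gamma ((j : ℝ) * e a + 1) := Real.Gamma_pos_of_pos (by positivity)
  have h6 : 0 < Real.Gamma (2 * (j : ℝ) * e a + 1) := Real.Gamma_pos_of_pos (by positivity)
  have h7 : 0 < Real.Gamma ((ei e + 2 * j) * e a + 1) := Real.Gamma_pos_of_pos (by positivity)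
  positivity

lemma amgm {n : ℕ} {j : ℕ} (hj : 1 ≤ j) (e : Fin n → ℝ) (he : ∀ a, 0 < e a) (hn : 0 < n)
    (t : Fin n → ℝ) (ht : ∀ a, 0 ≤ t a) :
    ∏ a, (t a * (ei e / e a)) ^ ((j : ℝ) * e a) ≤ (∑ a, t a) ^ ((j : ℝ) * ei e) := by
  have hj0 : (0 : ℝ) < j := by exact_mod_cast hj
  have hi0 : 0 < ei e := sum_pos (fun a _ => he a) ⟨⟨0, hn⟩, mem_univ _⟩
  have hz : ∀ a, 0 ≤ t a * (ei e / e a) := fun a => by
    have := ht a
    have := he a
    positivity
  have h := Real.geom_mean_le_arith_mean_weighted univ (fun a => e a / ei e) (fun a => t a * (ei e / e a))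
    (fun a _ => (div_pos (he a) hi0).le) (by rw [← sum_div]; exact div_self hi0.ne') (fun a _ => hz a)
  have e1 : ∑ a, e a / ei e * (t a * (ei e / e a)) = ∑ a, t a := by
    refine sum_congr rfl fun a _ => ?_
    have := he a
    field_simp
  rw [e1] at h
  have h2 := Real.rpow_le_rpow (prod_nonneg fun a _ => Real.rpow_nonneg (hz a) _) h
    (by positivity : 0 ≤ (j : ℝ) * ei e)
  refine le_trans (le_of_eq ?_) h2
  rw [← Real.finsetProd_rpow _ _ fun a _ => Real.rpow_nonneg (hz a) _]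
  refine prod_congr rfl fun a _ => ?_
  rw [← Real.rpow_mul (hz a)]
  congr 1
  field_simp

theorem volLow {n : ℕ} {j : ℕ} (hj : 1 ≤ j) (e : Fin n → ℝ) (he : ∀ a, 0 < e a) (hn : 0 < n)
    (α : ℝ) (hα : 0 < α) (β : Fin n → ℝ) (hβ : ∀ a, 0 < β a) :
    ENNReal.ofReal (VL j e α β) ≤
      ∫⁻ u : Ix n → ℝ, ENNReal.ofReal (GdI (mm j e) u * chR α (∑ a, β a) β u) := by
  have hj0 : (0 : ℝ) < j := by exact_mod_cast hj
  have hi0 : 0 < ei e := sum_pos (fun a _ => he a) ⟨⟨0, hn⟩, mem_univ _⟩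
  have hje : ∀ a, 0 < (j : ℝ) * e a := fun a => mul_pos hj0 (he a)
  have hie : ∀ a, 0 < ei e * e a := fun a => mul_pos hi0 (he a)
  have h1 : 0 < Real.Gamma ((j : ℝ) ^ 2 + 1) := Real.Gamma_pos_of_pos (by positivity)
  have h2 : 0 < Real.Gamma ((j : ℝ) * ei e + 1) := Real.Gamma_pos_of_pos (by positivity)
  have h5 : ∀ a, 0 < Real.Gamma ((j : ℝ) * e a + 1) := fun a =>
    Real.Gamma_pos_of_pos (by linarith [hje a])
  rw [lint_chR hj e he hn, max_eq_left hα.le]
  have e0 : VL j e α β = α ^ ((j : ℝ) ^ 2) / Real.Gamma ((j : ℝ) ^ 2 + 1) *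
      ((1 / Real.Gamma ((j : ℝ) * ei e + 1)) *
      ∏ a, ((ei e / e a) ^ ((j : ℝ) * e a) / Real.Gamma ((j : ℝ) * e a + 1) *
        (β a ^ ((ei e + 2 * j) * e a) * Real.Gamma (2 * j * e a + 1) /
        Real.Gamma ((ei e + 2 * j) * e a + 1)))) := by
    unfold VL
    ring
  rw [e0, ENNReal.ofReal_mul (by positivity)]
  gcongr
  set c : Fin n → ℝ := fun a => (ei e / e a) ^ ((j : ℝ) * e a) / Real.Gamma ((j : ℝ) * e a + 1) with hc
  have hc0 : ∀ a, 0 ≤ c a := fun a => by
    have := h5 a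
    have := he a
    rw [hc]
    positivity
  have hF : ∀ a, ∫⁻ x, ENNReal.ofReal (c a * (gd (ei e * e a) x * (max (β a - x) 0) ^ (2 * j * e a))) =
      ENNReal.ofReal (c a * (β a ^ ((ei e + 2 * j) * e a) * Real.Gamma (2 * j * e a + 1) /
        Real.Gamma ((ei e + 2 * j) * e a + 1))) := by
    intro a
    simp_rw [ENNReal.ofReal_mul (hc0 a)]
    rw [lintegral_const_mul _ (by
      refine Measurable.ennreal_ofReal ?_
      exact (gd_meas _).mul (by fun_prop)), lint_beta (hie a) (by have := hje a; linarith) (hβ a)]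
    congr 3
    · ring_nf
    · ring_nf
  have hpr : ENNReal.ofReal ((1 / Real.Gamma ((j : ℝ) * ei e + 1)) *
      ∏ a, (c a * (β a ^ ((ei e + 2 * j) * e a) * Real.Gamma (2 * j * e a + 1) /
        Real.Gamma ((ei e + 2 * j) * e a + 1)))) =
      ∫⁻ x : Fin n → ℝ, ENNReal.ofReal (1 / Real.Gamma ((j : ℝ) * ei e + 1)) *
        ∏ a, ENNReal.ofReal (c a * (gd (ei e * e a) (x a) * (max (β a - x a) 0) ^ (2 * j * e a))) := by
    have hms : ∀ a, Measurable (fun x => ENNReal.ofReal (c a * (gd (ei e * e a) x *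
        (max (β a - x) 0) ^ (2 * j * e a)))) := fun a =>
      (measurable_const.mul ((gd_meas _).mul (by fun_prop))).ennreal_ofReal
    have hm0 : Measurable (fun x : Fin n → ℝ => ∏ a, ENNReal.ofReal (c a * (gd (ei e * e a) (x a) *
        (max (β a - x a) 0) ^ (2 * j * e a)))) :=
      Finset.measurable_prod _ fun a _ => (hms a).comp (measurable_pi_apply a)
    rw [lintegral_const_mul _ hm0, lint_fin (fun a x => ENNReal.ofReal (c a * (gd (ei e * e a) x * (max (β a - x) 0) ^ (2 * j * e a)))) hms,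
      ENNReal.ofReal_mul (by positivity), ENNReal.ofReal_prod_of_nonneg fun a _ => by
        refine mul_nonneg (hc0 a) ?_
        have h3 := he a
        have h4 := hβ a
        have h6 : 0 < Real.Gamma (2 * (j : ℝ) * e a + 1) := Real.Gamma_pos_of_pos (by positivity)
        have h7 : 0 < Real.Gamma ((ei e + 2 * j) * e a + 1) := Real.Gamma_pos_of_pos (by positivity)
        positivity]
    congr 1
    exact prod_congr rfl fun a _ => (hF a).symm
  rw [hpr]
  refine lintegral_mono fun x => ?_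
  simp only
  by_cases hx : ∀ a, x a ≤ β a
  · have hm : ∀ a, max (β a - x a) 0 = β a - x a := fun a => max_eq_left (by linarith [hx a])
    have hs : max (∑ a, β a - ∑ a, x a) 0 = ∑ a, (β a - x a) := by
      rw [sum_sub_distrib, max_eq_left]
      have := sum_le_sum fun a (_ : a ∈ univ) => hx a
      linarith
    simp only [hm, hs]
    rw [← ENNReal.ofReal_prod_of_nonneg fun a _ => by
        have := gd_nonneg (hie a) (x a)
        have := hc0 a
        have : 0 ≤ β a - x a := by linarith [hx a]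
        positivity,
      ← ENNReal.ofReal_prod_of_nonneg fun a _ => by
        have := gd_nonneg (hie a) (x a)
        have := h5 a
        have : 0 ≤ β a - x a := by linarith [hx a]
        positivity,
      ← ENNReal.ofReal_mul (by positivity), ← ENNReal.ofReal_mul (prod_nonneg fun a _ => by
        have := gd_nonneg (hie a) (x a)
        have := h5 a
        have : 0 ≤ β a - x a := by linarith [hx a]
        positivity)]
    refine ENNReal.ofReal_le_ofReal ?_
    have ht : ∀ a, 0 ≤ β a - x a := fun a => by linarith [hx a]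
    have h := amgm hj e he hn (fun a => β a - x a) ht
    have e1 : ∏ a, c a * (gd (ei e * e a) (x a) * (β a - x a) ^ (2 * j * e a)) =
        (∏ a, gd (ei e * e a) (x a) * ((β a - x a) ^ ((j : ℝ) * e a) / Real.Gamma ((j : ℝ) * e a + 1))) *
        ∏ a, ((β a - x a) * (ei e / e a)) ^ ((j : ℝ) * e a) := by
      rw [← prod_mul_distrib]
      refine prod_congr rfl fun a _ => ?_
      rw [Real.mul_rpow (ht a) (div_pos hi0 (he a)).le,
        show 2 * (j : ℝ) * e a = (j : ℝ) * e a + (j : ℝ) * e a by ring,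
        Real.rpow_add_of_nonneg (ht a) (hje a).le (hje a).le, hc]
      ring
    rw [e1]
    have h0 : 0 ≤ ∏ a, gd (ei e * e a) (x a) * ((β a - x a) ^ ((j : ℝ) * e a) / Real.Gamma ((j : ℝ) * e a + 1)) :=
      prod_nonneg fun a _ => by
        have := gd_nonneg (hie a) (x a)
        have := h5 a
        have := ht a
        positivity
    calc _ = (∏ a, gd (ei e * e a) (x a) * ((β a - x a) ^ ((j : ℝ) * e a) / Real.Gamma ((j : ℝ) * e a + 1))) *
          ((∏ a, ((β a - x a) * (ei e / e a)) ^ ((j : ℝ) * e a)) / Real.Gamma ((j : ℝ) * ei e + 1)) := by ring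
      _ ≤ _ := by gcongr
  · push Not at hx
    obtain ⟨a, ha⟩ := hx
    rw [prod_eq_zero (mem_univ a), mul_zero]
    · exact zero_le
    · rw [max_eq_right (by linarith), Real.zero_rpow (by have := hje a; linarith), mul_zero, mul_zero,
        ENNReal.ofReal_zero]

/-- the volume for one factor -/
def Vn (j : ℕ) (i α θ : ℝ) : ℝ := VL j (fun _ : Fin 1 => i) α (fun _ => θ)

lemma ei_one (i : ℝ) : ei (fun _ : Fin 1 => i) = i := by
  unfold ei
  simp

lemma Vn_eq (j : ℕ) {i : ℝ} (hi : 0 < i) (α θ : ℝ) : Vn j i α θ =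
    α ^ ((j : ℝ) ^ 2) / Real.Gamma ((j : ℝ) ^ 2 + 1) *
      (θ ^ ((i + 2 * j) * i) * Real.Gamma (2 * j * i + 1) /
        (Real.Gamma ((j : ℝ) * i + 1) ^ 2 * Real.Gamma ((i + 2 * j) * i + 1))) := by
  unfold Vn VL
  rw [ei_one, Fin.prod_univ_one, div_self hi.ne', Real.one_rpow]
  simp only [div_eq_mul_inv, mul_inv, sq]
  ring

theorem volOne {j : ℕ} (hj : 1 ≤ j) {i : ℝ} (hi : 0 < i)
    (α : ℝ) (hα : 0 < α) (θ : ℝ) (hθ : 0 < θ) :
    ∫⁻ u : Ix 1 → ℝ, ENNReal.ofReal (GdI (mm j (fun _ => i)) u * chR α θ (fun _ => θ) u) =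
      ENNReal.ofReal (Vn j i α θ) := by
  have hj0 : (0 : ℝ) < j := by exact_mod_cast hj
  have h1 : 0 < Real.Gamma ((j : ℝ) ^ 2 + 1) := Real.Gamma_pos_of_pos (by positivity)
  have h2 : 0 < Real.Gamma ((j : ℝ) * i + 1) := Real.Gamma_pos_of_pos (by positivity)
  have h3 : 0 < Real.Gamma (2 * (j : ℝ) * i + 1) := Real.Gamma_pos_of_pos (by positivity)
  have h4 : 0 < Real.Gamma ((i + 2 * j) * i + 1) := Real.Gamma_pos_of_pos (by positivity)
  have hii : 0 < i * i := by positivity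
  rw [lint_chR hj (fun _ : Fin 1 => i) (fun _ => hi) one_pos, max_eq_left hα.le, Vn_eq j hi,
    ENNReal.ofReal_mul (by positivity)]
  congr 1
  simp only [ei_one, univ_unique, Fin.default_eq_zero, sum_singleton, prod_singleton]
  have e1 : ∀ x : Fin 1 → ℝ, ENNReal.ofReal (gd (i * i) (x 0) *
          ((max (θ - x 0) 0) ^ ((j : ℝ) * i) / Real.Gamma ((j : ℝ) * i + 1))) *
        ENNReal.ofReal ((max (θ - x 0) 0) ^ ((j : ℝ) * i) / Real.Gamma ((j : ℝ) * i + 1)) =
      ∏ a : Fin 1, ENNReal.ofReal (1 / Real.Gamma ((j : ℝ) * i + 1) ^ 2 *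
        (gd (i * i) (x a) * (max (θ - x a) 0) ^ (2 * j * i))) := by
    intro x
    rw [Fin.prod_univ_one, ← ENNReal.ofReal_mul (by
      have := gd_nonneg hii (x 0)
      have : 0 ≤ max (θ - x 0) 0 := le_max_right _ _
      positivity)]
    congr 1
    have h0 : 0 ≤ max (θ - x 0) 0 := le_max_right _ _
    rw [show 2 * (j : ℝ) * i = (j : ℝ) * i + (j : ℝ) * i by ring,
        Real.rpow_add_of_nonneg h0 (by positivity) (by positivity)]
    field_simp
  simp_rw [e1]
  rw [lint_fin (fun _ x => ENNReal.ofReal (1 / Real.Gamma ((j : ℝ) * i + 1) ^ 2 *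
        (gd (i * i) x * (max (θ - x) 0) ^ (2 * j * i)))) (fun _ =>
      (measurable_const.mul ((gd_meas _).mul (by fun_prop))).ennreal_ofReal), Fin.prod_univ_one]
  have e2 : ∀ x : ℝ, ENNReal.ofReal (1 / Real.Gamma ((j : ℝ) * i + 1) ^ 2 *
        (gd (i * i) x * (max (θ - x) 0) ^ (2 * j * i))) =
      ENNReal.ofReal (1 / Real.Gamma ((j : ℝ) * i + 1) ^ 2) *
        ENNReal.ofReal (gd (i * i) x * (max (θ - x) 0) ^ (2 * j * i)) := fun x =>
    ENNReal.ofReal_mul (by positivity)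
  have hm0 : Measurable (fun x : ℝ => ENNReal.ofReal (gd (i * i) x * (max (θ - x) 0) ^ (2 * j * i))) :=
    ((gd_meas _).mul (by fun_prop)).ennreal_ofReal
  rw [lintegral_congr e2, lintegral_const_mul _ hm0,
    lint_beta hii (by positivity) hθ, ← ENNReal.ofReal_mul (by positivity)]
  congr 1
  rw [show i * i + 2 * (j : ℝ) * i = (i + 2 * j) * i by ring]
  field_simp

/-- lower bound for the integral of a test function -/
lemma int_lower {n : ℕ} {j : ℕ} (hj : 1 ≤ j) (e : Fin n → ℝ) (he : ∀ a, 0 < e a) (hn : 0 < n)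
    (α : ℝ) (hα : 0 < α) (β : Fin n → ℝ) (hβ : ∀ a, 0 < β a) (φ : (Ix n → ℝ) → ℝ)
    (hI : Integrable (fun u => GdI (mm j e) u * φ u)) (hφ : ∀ u, 0 ≤ φ u)
    (h : ∀ u, (∀ x, 0 < u x) → chR α (∑ a, β a) β u ≤ φ u) :
    VL j e α β ≤ ∫ u, GdI (mm j e) u * φ u := by
  have hm := fun x => mm_pos hj he hn x
  have h0 : ∀ u, 0 ≤ GdI (mm j e) u * φ u := fun u => mul_nonneg (GdI_nonneg hm u) (hφ u)
  have h1 := volLow hj e he hn α hα β hβ
  have h2 : ∫⁻ u : Ix n → ℝ, ENNReal.ofReal (GdI (mm j e) u * chR α (∑ a, β a) β u) ≤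
      ENNReal.ofReal (∫ u, GdI (mm j e) u * φ u) := by
    rw [ofReal_integral_eq_lintegral_ofReal hI (Eventually.of_forall h0)]
    refine lintegral_mono fun u => ENNReal.ofReal_le_ofReal ?_
    by_cases hu : ∀ x, 0 < u x
    · exact mul_le_mul_of_nonneg_left (h u hu) (GdI_nonneg hm u)
    · push Not at hu
      obtain ⟨x, hx⟩ := hu
      have : GdI (mm j e) u = 0 := by
        unfold GdI
        refine prod_eq_zero (mem_univ x) ?_
        unfold gd
        rw [if_neg (by linarith)]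
      rw [this, zero_mul, zero_mul]
  exact (ENNReal.ofReal_le_ofReal_iff (integral_nonneg h0)).1 (h1.trans h2)

/-- upper bound for the integral of a test function, one factor -/
lemma int_upper {j : ℕ} (hj : 1 ≤ j) {i : ℝ} (hi : 0 < i)
    (α : ℝ) (hα : 0 < α) (θ : ℝ) (hθ : 0 < θ) (φ : (Ix 1 → ℝ) → ℝ)
    (hI : Integrable (fun u => GdI (mm j (fun _ => i)) u * φ u)) (hφ : ∀ u, 0 ≤ φ u)
    (h : ∀ u, (∀ x, 0 < u x) → φ u ≤ chR α θ (fun _ => θ) u) :
    ∫ u, GdI (mm j (fun _ : Fin 1 => i)) u * φ u ≤ Vn j i α θ := by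
  have hm := fun x => mm_pos hj (fun _ : Fin 1 => hi) one_pos x
  have h0 : ∀ u, 0 ≤ GdI (mm j (fun _ : Fin 1 => i)) u * φ u := fun u => mul_nonneg (GdI_nonneg hm u) (hφ u)
  have h1 := volOne hj hi α hα θ hθ
  have h2 : ENNReal.ofReal (∫ u, GdI (mm j (fun _ : Fin 1 => i)) u * φ u) ≤
      ∫⁻ u : Ix 1 → ℝ, ENNReal.ofReal (GdI (mm j (fun _ => i)) u * chR α θ (fun _ => θ) u) := by
    rw [ofReal_integral_eq_lintegral_ofReal hI (Eventually.of_forall h0)]
    refine lintegral_mono fun u => ENNReal.ofReal_le_ofReal ?_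
    by_cases hu : ∀ x, 0 < u x
    · exact mul_le_mul_of_nonneg_left (h u hu) (GdI_nonneg hm u)
    · push Not at hu
      obtain ⟨x, hx⟩ := hu
      have : GdI (mm j (fun _ : Fin 1 => i)) u = 0 := by
        unfold GdI
        refine prod_eq_zero (mem_univ x) ?_
        unfold gd
        rw [if_neg (by linarith)]
      rw [this, zero_mul, zero_mul]
  rw [h1] at h2
  exact (ENNReal.ofReal_le_ofReal_iff (VL_pos hj (fun _ => hi) one_pos hα (fun _ => hθ)).le).1 h2

end

end Pool.Agent.TH535
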