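import Pool.Agent.TH535.Lim
import Pool.Agent.H802R2.MK_R1
import Pool.Agent.H295R2.MK.R2

set_option autoImplicit false
set_option linter.unusedSectionVars false

/-! The window integrals. -/

namespace Pool.Agent.TH535

open Finset Filter Topology MeasureTheory
open Pool.Agent.H306R2 hiding fr
open H295MK hiding cc

noncomputable section

/-- the test function `C(t) = Σ c(h,l) (l/h)^{it}` -/
def Ct (j : ℕ) (i XH Xt : ℝ) (t : ℝ) : ℂ := ∑ b ∈ SPs XH Xt, (cc j i Xt b : ℂ) * fr b.1 b.2 t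

/-- conjugated Dirichlet polynomial -/
def Vt (v : ArithmeticFunction ℝ) (X : ℝ) (t : ℝ) : ℂ :=
  ∑ n ∈ Icc 1 ⌊X⌋₊, ((v n / Real.sqrt n : ℝ) : ℂ) * fr 1 n t

lemma fr_conj (a b : ℕ) (t : ℝ) : (starRingEnd ℂ) (fr a b t) = fr b a t := by
  unfold H295MK.fr
  rw [← Complex.exp_conj, map_mul, Complex.conj_ofReal, Complex.conj_I]
  congr 1
  push_cast
  ring

lemma fr_mul' (n h l : ℕ) (hn : 1 ≤ n) (hh : 1 ≤ h) (t : ℝ) :
    fr 1 n t * fr l h t = fr l (n * h) t := by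
  unfold H295MK.fr
  rw [← Complex.exp_add]
  congr 1
  have h1 : (n : ℝ) ≠ 0 := by exact_mod_cast (by omega : n ≠ 0)
  have h2 : (h : ℝ) ≠ 0 := by exact_mod_cast (by omega : h ≠ 0)
  rw [Nat.cast_mul, Real.log_mul h1 h2, Nat.cast_one, Real.log_one]
  push_cast
  ring

lemma fr_cont (a b : ℕ) : Continuous (fr a b) := by
  unfold H295MK.fr
  fun_prop

lemma Vt_eq (v : ArithmeticFunction ℝ) (X : ℝ) (t : ℝ) :
    Vt v X t = (starRingEnd ℂ) (Dp v X (1 / 2 + t * Complex.I)) := by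
  unfold Vt Dp
  rw [map_sum]
  refine sum_congr rfl fun n hn => ?_
  rw [mem_Icc] at hn
  rw [Pool.Agent.H802R2.MK.pt le_rfl hn.1, map_mul, Complex.conj_ofReal]
  have hs : Real.sqrt n ≠ 0 := by
    have : (0 : ℝ) < n := by exact_mod_cast hn.1
    positivity
  rw [Nat.cast_one, one_mul, Nat.cast_one, Complex.one_cpow, one_mul]
  push_cast
  have : ((Real.sqrt n : ℝ) : ℂ) ≠ 0 := by exact_mod_cast hs
  field_simp

lemma mem_SPs {XH Xt : ℝ} {b : ℕ × ℕ} (hb : b ∈ SPs XH Xt) (hH : 0 ≤ XH) (ht : 0 ≤ Xt) :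
    1 ≤ b.1 ∧ (b.1 : ℝ) ≤ XH ∧ 1 ≤ b.2 ∧ (b.2 : ℝ) ≤ Xt ∧ Nat.Coprime b.1 b.2 := by
  unfold SPs at hb
  rw [mem_filter, mem_product, mem_Icc, mem_Icc] at hb
  exact ⟨hb.1.1.1, (Nat.le_floor_iff hH).1 hb.1.1.2, hb.1.2.1, (Nat.le_floor_iff ht).1 hb.1.2.2, hb.2⟩

lemma mt_coprime (j h l n : ℕ) (hc : Nat.Coprime h l) (hn : ¬ l ∣ n) : mt j l (n * h) = 0 := by
  unfold H295MK.mt
  rw [if_neg]
  intro hcon
  exact hn (hc.symm.dvd_of_dvd_mul_right hcon)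

lemma mt_mul (j h l r : ℕ) (hh : 1 ≤ h) (hl : 1 ≤ l) (hr : 1 ≤ r) (v : ArithmeticFunction ℝ) :
    v (l * r) / Real.sqrt ((l * r : ℕ) : ℝ) * mt j l ((l * r) * h) =
      dv j (h * r) * v (l * r) / (r : ℝ) / Real.sqrt ((h : ℝ) * l) := by
  have h0 : (0 : ℝ) < h := by exact_mod_cast hh
  have l0 : (0 : ℝ) < l := by exact_mod_cast hl
  have r0 : (0 : ℝ) < r := by exact_mod_cast hr
  unfold H295MK.mt
  rw [if_pos (by rw [mul_assoc]; exact dvd_mul_right l (r * h)), mul_assoc l r h,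
    Nat.mul_div_cancel_left _ (by omega), mul_comm r h]
  have e1 : (l : ℝ) / ((l * (h * r) : ℕ) : ℝ) = 1 / (h * r) := by
    push_cast
    field_simp
  rw [e1, Real.sqrt_div zero_le_one, Real.sqrt_one]
  have e2 : (r : ℝ) * Real.sqrt ((h : ℝ) * l) = Real.sqrt ((l * r : ℕ) : ℝ) * Real.sqrt ((h : ℝ) * r) := by
    rw [← Real.sqrt_mul (by positivity)]
    have : ((l * r : ℕ) : ℝ) * ((h : ℝ) * r) = r ^ 2 * ((h : ℝ) * l) := by
      push_cast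
      ring
    rw [this, Real.sqrt_mul (by positivity : (0 : ℝ) ≤ (r : ℝ) ^ 2), Real.sqrt_sq r0.le]
  rw [div_div, e2, mul_one_div, div_mul_div_comm, mul_comm (v (l * r))]

/-- the diagonal sum over `n` -/
lemma inner_sum (j : ℕ) (v : ArithmeticFunction ℝ) (X : ℝ) (hv : ∀ m : ℕ, X < m → v m = 0)
    (h l : ℕ) (hh : 1 ≤ h) (hl : 1 ≤ l) (hc : Nat.Coprime h l) :
    ∑ n ∈ Icc 1 ⌊X⌋₊, v n / Real.sqrt n * mt j l (n * h) = rr j v X (h, l) := by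
  classical
  have e1 : ∑ n ∈ Icc 1 ⌊X⌋₊, v n / Real.sqrt n * mt j l (n * h) =
      ∑ n ∈ (Icc 1 ⌊X⌋₊).filter (fun n => l ∣ n), v n / Real.sqrt n * mt j l (n * h) := by
    rw [sum_filter]
    refine sum_congr rfl fun n _ => ?_
    split_ifs with hln
    · rfl
    · rw [mt_coprime j h l n hc hln, mul_zero]
  rw [e1]
  unfold rr
  have e2 : ∑ r ∈ Icc 1 ⌊X⌋₊, dv j ((h, l).1 * r) * v ((h, l).2 * r) / (r : ℝ) =
      ∑ r ∈ (Icc 1 ⌊X⌋₊).filter (fun r => ((l * r : ℕ) : ℝ) ≤ X), dv j (h * r) * v (l * r) / (r : ℝ) := by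
    rw [sum_filter]
    refine sum_congr rfl fun r _ => ?_
    split_ifs with hln
    · rfl
    · rw [hv _ (not_le.1 hln)]; simp
  rw [e2, sum_div]
  symm
  refine sum_nbij' (fun r => l * r) (fun n => n / l) ?_ ?_ ?_ ?_ ?_
  · intro r hr
    obtain ⟨hr1, hr2⟩ := mem_filter.1 hr
    rw [mem_Icc] at hr1
    rw [mem_filter, mem_Icc]
    refine ⟨⟨Nat.one_le_iff_ne_zero.2 (Nat.mul_ne_zero (by omega) (by omega)), ?_⟩, dvd_mul_right _ _⟩
    exact Nat.le_floor hr2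
  · intro n hn
    obtain ⟨hn1, hn2⟩ := mem_filter.1 hn
    rw [mem_Icc] at hn1
    obtain ⟨r, rfl⟩ := hn2
    have hr : 1 ≤ r := by
      rcases Nat.eq_zero_or_pos r with h0 | h0
      · rw [h0, mul_zero] at hn1
        omega
      · exact h0
    rw [Nat.mul_div_cancel_left _ (by omega), mem_filter, mem_Icc]
    refine ⟨⟨hr, (Nat.le_mul_of_pos_left r (by omega)).trans hn1.2⟩, ?_⟩
    have hX : 0 ≤ X := by
      by_contra hcon
      rw [Nat.floor_of_nonpos (not_le.1 hcon).le] at hn1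
      omega
    exact (Nat.le_floor_iff hX).1 hn1.2
  · intro r _
    exact Nat.mul_div_cancel_left _ (by omega)
  · intro n hn
    exact Nat.mul_div_cancel' (mem_filter.1 hn).2
  · intro r hr
    obtain ⟨hr1, _⟩ := mem_filter.1 hr
    rw [mem_Icc] at hr1
    exact (mt_mul j h l r hh hl hr1.1 v).symm

lemma CR_main (j : ℕ) (i : ℝ) (v : ArithmeticFunction ℝ) (XH Xt : ℝ) (hH : 0 ≤ XH) (ht : 0 ≤ Xt)
    (hv : ∀ m : ℕ, Xt < m → v m = 0) :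
    ∑ b ∈ SPs XH Xt, ∑ n ∈ Icc 1 ⌊Xt⌋₊, (v n / Real.sqrt n * cc j i Xt b) * mt j b.2 (n * b.1) =
      CR j i v XH Xt := by
  unfold CR
  refine sum_congr rfl fun b hb => ?_
  obtain ⟨h1, _, h3, _, h5⟩ := mem_SPs hb hH ht
  conv_rhs => rw [← inner_sum j v Xt hv b.1 b.2 h1 h3 h5]
  rw [mul_sum]
  refine sum_congr rfl fun n _ => ?_
  ring

/-- the integral as a sum of twisted integrals -/
lemma integral_eq (j : ℕ) (i : ℝ) (v : ArithmeticFunction ℝ) (η δ T τ XH Xt : ℝ) (hH : 0 ≤ XH)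
    (ht : 0 ≤ Xt) :
    ∫ t in (τ - δ / 2 * T)..(τ + δ / 2 * T), (riemannZeta (cl t) ^ j * Vt v Xt t) *
      (starRingEnd ℂ) (Ct j i XH Xt t) * (gw τ (Ht η T) t : ℂ) =
    ∑ b ∈ SPs XH Xt, ∑ n ∈ Icc 1 ⌊Xt⌋₊, ((v n / Real.sqrt n * cc j i Xt b : ℝ) : ℂ) *
      win η δ T τ (fun t => riemannZeta (cl t) ^ j * fr b.2 (n * b.1) t) := by
  have hc : ∀ b : ℕ × ℕ, ∀ n : ℕ, Continuous (fun t : ℝ => ((v n / Real.sqrt n * cc j i Xt b : ℝ) : ℂ) *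
      (riemannZeta (cl t) ^ j * fr b.2 (n * b.1) t * (gw τ (Ht η T) t : ℂ))) := by
    intro b n
    refine continuous_const.mul (((Continuous.pow ?_ j).mul (fr_cont _ _)).mul
      (Complex.continuous_ofReal.comp (gw_continuous _ _)))
    exact zeta_line_continuous
  unfold win
  have e2 : ∑ b ∈ SPs XH Xt, ∑ n ∈ Icc 1 ⌊Xt⌋₊, ((v n / Real.sqrt n * cc j i Xt b : ℝ) : ℂ) *
      ∫ t in (τ - δ / 2 * T)..(τ + δ / 2 * T), riemannZeta (cl t) ^ j * fr b.2 (n * b.1) t *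
        (gw τ (Ht η T) t : ℂ) =
      ∫ t in (τ - δ / 2 * T)..(τ + δ / 2 * T), ∑ b ∈ SPs XH Xt, ∑ n ∈ Icc 1 ⌊Xt⌋₊,
        ((v n / Real.sqrt n * cc j i Xt b : ℝ) : ℂ) *
        (riemannZeta (cl t) ^ j * fr b.2 (n * b.1) t * (gw τ (Ht η T) t : ℂ)) := by
    rw [intervalIntegral.integral_finsetSum]
    · refine sum_congr rfl fun b _ => ?_
      rw [intervalIntegral.integral_finsetSum]
      · refine sum_congr rfl fun n _ => ?_
        rw [intervalIntegral.integral_const_mul]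
      · intro n _
        exact (hc b n).intervalIntegrable _ _
    · intro b _
      exact (continuous_finsetSum _ fun n _ => hc b n).intervalIntegrable _ _
  rw [e2]
  refine intervalIntegral.integral_congr fun t _ => ?_
  show (riemannZeta (cl t) ^ j * Vt v Xt t) *
      (starRingEnd ℂ) (Ct j i XH Xt t) * (gw τ (Ht η T) t : ℂ) = _
  unfold Vt Ct
  rw [map_sum]
  have e3 : (riemannZeta (cl t) ^ j * ∑ n ∈ Icc 1 ⌊Xt⌋₊, ((v n / Real.sqrt n : ℝ) : ℂ) * fr 1 n t) *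
      (∑ b ∈ SPs XH Xt, (starRingEnd ℂ) ((cc j i Xt b : ℂ) * fr b.1 b.2 t)) * (gw τ (Ht η T) t : ℂ) =
      (riemannZeta (cl t) ^ j * (gw τ (Ht η T) t : ℂ)) *
        ((∑ b ∈ SPs XH Xt, (starRingEnd ℂ) ((cc j i Xt b : ℂ) * fr b.1 b.2 t)) *
        ∑ n ∈ Icc 1 ⌊Xt⌋₊, ((v n / Real.sqrt n : ℝ) : ℂ) * fr 1 n t) := by ring
  rw [e3, sum_mul_sum, mul_sum]
  refine sum_congr rfl fun b hb => ?_
  rw [mul_sum]
  refine sum_congr rfl fun n hn => ?_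
  obtain ⟨h1, _, _, _, _⟩ := mem_SPs hb hH ht
  rw [map_mul, Complex.conj_ofReal, fr_conj, ← fr_mul' n b.1 b.2 (mem_Icc.1 hn).1 h1]
  push_cast
  ring

lemma dv_le_pow {α : ℝ} (hα : 0 ≤ α) {J : ℕ} (hJ : α ≤ J) (n : ℕ) {T : ℝ} (hn : (n : ℝ) ≤ T) :
    dv α n ≤ T ^ J := by
  have h := PB_dA hα hJ n
  rw [dA_apply] at h
  exact (le_abs_self _).trans (h.trans (pow_le_pow_left₀ (Nat.cast_nonneg n) hn J))

lemma cc_bd (j : ℕ) {i : ℝ} (hi : 0 ≤ i) {J : ℕ} (hJ : i ≤ J) (XH Xt : ℝ) {T : ℝ}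
    (hH : 1 ≤ XH) (ht : 1 ≤ Xt) (hX : XH * Xt ≤ T) (b : ℕ × ℕ)
    (hb : b ∈ SPs XH Xt) : 0 ≤ cc j i Xt b ∧ cc j i Xt b ≤ T ^ (j + J + 1) := by
  obtain ⟨h1, h2, h3, h4, h5⟩ := mem_SPs hb (by linarith) (by linarith)
  have hXT : Xt ≤ T := by nlinarith
  have hT1 : 1 ≤ T := by linarith
  have hfl : ((⌊Xt⌋₊ : ℕ) : ℝ) ≤ Xt := Nat.floor_le (by linarith)
  have hj0 : (0 : ℝ) ≤ j := Nat.cast_nonneg j
  have hterm : ∀ r ∈ Icc 1 ⌊Xt⌋₊,
      0 ≤ (if ((b.2 * r : ℕ) : ℝ) ≤ Xt then dv j (b.1 * r) * dv i (b.2 * r) / (r : ℝ) else 0) ∧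
      (if ((b.2 * r : ℕ) : ℝ) ≤ Xt then dv j (b.1 * r) * dv i (b.2 * r) / (r : ℝ) else 0) ≤
        T ^ j * T ^ J := by
    intro r hr
    rw [mem_Icc] at hr
    have d1 := dv_nonneg hj0 (b.1 * r)
    have d2 := dv_nonneg hi (b.2 * r)
    have hr1 : (1 : ℝ) ≤ r := by exact_mod_cast hr.1
    have hrX : (r : ℝ) ≤ Xt := le_trans (by exact_mod_cast hr.2) hfl
    have p1 : ((b.1 * r : ℕ) : ℝ) ≤ T := by
      push_cast
      exact (mul_le_mul h2 hrX (by positivity) (by linarith)).trans hX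
    split_ifs with hc
    · refine ⟨by positivity, ?_⟩
      exact (div_le_self (mul_nonneg d1 d2) hr1).trans
        (mul_le_mul (dv_le_pow hj0 le_rfl _ p1) (dv_le_pow hi hJ _ (hc.trans hXT)) d2 (by positivity))
    · exact ⟨le_rfl, by positivity⟩
  have hs0 : 0 ≤ ∑ r ∈ Icc 1 ⌊Xt⌋₊,
      (if ((b.2 * r : ℕ) : ℝ) ≤ Xt then dv j (b.1 * r) * dv i (b.2 * r) / (r : ℝ) else 0) :=
    sum_nonneg fun r hr => (hterm r hr).1
  unfold cc
  refine ⟨by positivity, ?_⟩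
  have hsq : 1 ≤ Real.sqrt ((b.1 : ℝ) * b.2) := by
    refine Real.one_le_sqrt.2 ?_
    have : 1 ≤ b.1 * b.2 := Nat.one_le_iff_ne_zero.2 (Nat.mul_ne_zero (by omega) (by omega))
    exact_mod_cast this
  refine (div_le_self hs0 hsq).trans ?_
  refine (sum_le_card_nsmul _ _ (T ^ j * T ^ J) fun r hr => (hterm r hr).2).trans ?_
  rw [nsmul_eq_mul, Nat.card_Icc, Nat.add_sub_cancel]
  calc (⌊Xt⌋₊ : ℝ) * (T ^ j * T ^ J) ≤ T * (T ^ j * T ^ J) :=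
        mul_le_mul_of_nonneg_right (hfl.trans hXT) (by positivity)
    _ = T ^ (j + J + 1) := by ring

lemma card_SPs (XH Xt T : ℝ) (hH : 1 ≤ XH) (ht : 1 ≤ Xt) (hX : XH * Xt ≤ T) :
    ((SPs XH Xt).card : ℝ) ≤ T := by
  have h1 : (SPs XH Xt).card ≤ ⌊XH⌋₊ * ⌊Xt⌋₊ := by
    unfold SPs
    refine (card_filter_le _ _).trans ?_
    rw [card_product, Nat.card_Icc, Nat.card_Icc, Nat.add_sub_cancel, Nat.add_sub_cancel]
  calc ((SPs XH Xt).card : ℝ) ≤ ((⌊XH⌋₊ * ⌊Xt⌋₊ : ℕ) : ℝ) := by exact_mod_cast h1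
    _ = (⌊XH⌋₊ : ℝ) * ⌊Xt⌋₊ := by push_cast; rfl
    _ ≤ XH * Xt := mul_le_mul (Nat.floor_le (by linarith)) (Nat.floor_le (by linarith))
        (Nat.cast_nonneg _) (by linarith)
    _ ≤ T := hX

/-- the correlation over a window -/
theorem winN (j : ℕ) {n : ℕ} (e : Fin n → ℝ) (he : ∀ a, 0 < e a) (η δ : ℝ) (hη : 0 < η)
    (hη2 : η < 1 / 2) (hδ : 0 < δ) (hδ1 : δ ≤ 1) :
    ∀ᶠ T : ℝ in atTop, ∀ τ : ℝ, δ * T ≤ τ → τ ≤ T → ∀ (XH Xt : ℝ) (X : Fin n → ℝ),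
      1 ≤ XH → 1 ≤ Xt → XH * Xt ≤ Yt η T → (∀ a, 1 ≤ X a) → ∏ a, X a ≤ Xt →
      CR j (ei e) (PA e X) XH Xt - 1 ≤
      ‖∫ t in (τ - δ / 2 * T)..(τ + δ / 2 * T), (riemannZeta (1 / 2 + t * Complex.I) ^ j *
          ∏ a, (starRingEnd ℂ) (Dp (tr (dA (e a)) (X a)) (X a) (1 / 2 + t * Complex.I))) *
        (starRingEnd ℂ) (Ct j (ei e) XH Xt t) * (gw τ (Ht η T) t : ℂ)‖ := by
  have hi0 := ei_nonneg he
  obtain ⟨J, hJ⟩ := exists_nat_ge (ei e)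
  filter_upwards [Pool.Agent.H802R2.MK.R1 j (j + 2 * J + 3) η δ hη hη2 hδ hδ1, eventually_ge_atTop 1]
    with T hT hT1 τ hτ1 hτ2 XH Xt X hH ht hHt hX1 hX
  have hT0 : 0 < T := by linarith
  have hYT : Yt η T ≤ T := Yt_le hη hT1
  have hHtT : XH * Xt ≤ T := hHt.trans hYT
  have hXT : Xt ≤ T := by nlinarith
  have hfl : ((⌊Xt⌋₊ : ℕ) : ℝ) ≤ Xt := Nat.floor_le (by linarith)
  set v : ArithmeticFunction ℝ := PA e X with hv
  have hD := fun s => Dp_prod univ (fun i => tr (dA (e i)) (X i)) X hX1 (fun i n hn => tr_supp _ _ n hn) s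
  have hsupp : ∀ m : ℕ, Xt < m → v m = 0 := fun m hm => (hD 0).1 m (lt_of_le_of_lt hX hm)
  have hPB : PB v J := PA_PB (fun i => (he i).le) _ hJ
  have hVt : ∀ t : ℝ, Vt v Xt t =
      ∏ a, (starRingEnd ℂ) (Dp (tr (dA (e a)) (X a)) (X a) (1 / 2 + t * Complex.I)) := by
    intro t
    rw [Vt_eq, Dp_mono v (∏ a, X a) Xt hX (hD 0).1, ← map_prod]
    congr 1
    exact (hD _).2
  simp only [← hVt]
  have hint := integral_eq j (ei e) v η δ T τ XH Xt (by linarith) (by linarith)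
  have hcl : ∀ t : ℝ, (1 / 2 + t * Complex.I : ℂ) = cl t := fun t => rfl
  simp only [hcl]
  rw [hint]
  set S : ℂ := ∑ b ∈ SPs XH Xt, ∑ n ∈ Icc 1 ⌊Xt⌋₊, ((v n / Real.sqrt n * cc j (ei e) Xt b : ℝ) : ℂ) *
      win η δ T τ (fun t => riemannZeta (cl t) ^ j * fr b.2 (n * b.1) t) with hS
  have hE : ((CR j (ei e) v XH Xt : ℝ) : ℂ) = ∑ b ∈ SPs XH Xt, ∑ n ∈ Icc 1 ⌊Xt⌋₊,
      ((v n / Real.sqrt n * cc j (ei e) Xt b : ℝ) : ℂ) * (mt j b.2 (n * b.1) : ℂ) := by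
    rw [← CR_main j (ei e) v XH Xt (by linarith) (by linarith) hsupp]
    push_cast
    rfl
  have hvn : ∀ n : ℕ, 1 ≤ n → (n : ℝ) ≤ T → |v n / Real.sqrt n| ≤ T ^ J := by
    intro n h1 hn
    rw [abs_div, abs_of_nonneg (Real.sqrt_nonneg _)]
    have hs : 1 ≤ Real.sqrt n := Real.one_le_sqrt.2 (by exact_mod_cast h1)
    exact (div_le_self (abs_nonneg _) hs).trans ((hPB n).trans
      (pow_le_pow_left₀ (Nat.cast_nonneg n) hn J))
  have hdiff : ‖S - ((CR j (ei e) v XH Xt : ℝ) : ℂ)‖ ≤ 1 := by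
    rw [hE, hS, ← sum_sub_distrib]
    have hb1 : ∀ b ∈ SPs XH Xt, ‖∑ n ∈ Icc 1 ⌊Xt⌋₊, ((v n / Real.sqrt n * cc j (ei e) Xt b : ℝ) : ℂ) *
        win η δ T τ (fun t => riemannZeta (cl t) ^ j * fr b.2 (n * b.1) t) -
        ∑ n ∈ Icc 1 ⌊Xt⌋₊, ((v n / Real.sqrt n * cc j (ei e) Xt b : ℝ) : ℂ) * (mt j b.2 (n * b.1) : ℂ)‖ ≤
        T * (T ^ J * T ^ (j + J + 1) * (1 / T ^ (j + 2 * J + 3))) := by
      intro b hb
      obtain ⟨h1, h2, h3, h4, h5⟩ := mem_SPs hb (by linarith) (by linarith)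
      obtain ⟨c1, c2⟩ := cc_bd j hi0 hJ XH Xt hH ht hHtT b hb
      rw [← sum_sub_distrib]
      refine (norm_sum_le _ _).trans ?_
      refine (sum_le_card_nsmul _ _ (T ^ J * T ^ (j + J + 1) * (1 / T ^ (j + 2 * J + 3)))
        fun n hn => ?_).trans ?_
      · rw [mem_Icc] at hn
        have hnX : (n : ℝ) ≤ Xt := le_trans (by exact_mod_cast hn.2) hfl
        rw [← mul_sub, norm_mul, Complex.norm_real, Real.norm_eq_abs, abs_mul]
        refine mul_le_mul (mul_le_mul (hvn n hn.1 (hnX.trans hXT))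
          (by rw [abs_of_nonneg c1]; exact c2) (abs_nonneg _) (by positivity)) ?_
          (norm_nonneg _) (by positivity)
        refine hT τ hτ1 hτ2 b.2 (n * b.1) h3 (h4.trans hXT)
          (Nat.one_le_iff_ne_zero.2 (Nat.mul_ne_zero (by omega) (by omega))) ?_
        push_cast
        refine le_trans (mul_le_mul hnX h2 (by positivity) (by linarith)) ?_
        rw [mul_comm]
        exact hHt
      · rw [nsmul_eq_mul, Nat.card_Icc, Nat.add_sub_cancel]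
        exact mul_le_mul_of_nonneg_right (hfl.trans hXT) (by positivity)
    refine (norm_sum_le _ _).trans ((sum_le_card_nsmul _ _ _ hb1).trans ?_)
    rw [nsmul_eq_mul]
    calc _ ≤ T * (T * (T ^ J * T ^ (j + J + 1) * (1 / T ^ (j + 2 * J + 3)))) :=
          mul_le_mul_of_nonneg_right (card_SPs XH Xt T hH ht hHtT) (by positivity)
      _ = T ^ (j + 2 * J + 3) * (1 / T ^ (j + 2 * J + 3)) := by ring
      _ = 1 := mul_one_div_cancel (by positivity)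
      _ ≤ 1 := le_rfl
  have h1 : CR j (ei e) v XH Xt ≤ ‖((CR j (ei e) v XH Xt : ℝ) : ℂ)‖ := by
    rw [Complex.norm_real]
    exact le_abs_self _
  have h2 : ‖((CR j (ei e) v XH Xt : ℝ) : ℂ)‖ ≤ ‖S‖ + ‖S - ((CR j (ei e) v XH Xt : ℝ) : ℂ)‖ := by
    have := norm_sub_le S (S - ((CR j (ei e) v XH Xt : ℝ) : ℂ))
    rwa [sub_sub_cancel] at this
  linarith

end

end Pool.Agent.TH535
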