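import Pool.Agent.TH535.MB
import Pool.Agent.TH535.MergeA

set_option autoImplicit false

/-! The weight of the correlation: definitions, and the conditions on the local weights. -/

namespace Pool.Agent.TH535

open Finset Filter Topology Pool.Agent.H306R2 Pool.Agent.TH535.MA
open scoped ENNReal

noncomputable section

/-- index set of the variables `l_a`, `r_a`, `h`, `s` -/
abbrev Ix (n : ℕ) : Type := (Fin n ⊕ Fin n) ⊕ Fin 2

/-- the variables `l_a` -/
def vl {n : ℕ} {α : Type} (v : Ix n → α) (a : Fin n) : α := v (Sum.inl (Sum.inl a))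
/-- the variables `r_a` -/
def vr {n : ℕ} {α : Type} (v : Ix n → α) (a : Fin n) : α := v (Sum.inl (Sum.inr a))
/-- the variable `h` -/
def vh {n : ℕ} {α : Type} (v : Ix n → α) : α := v (Sum.inr 0)
/-- the variable `s` -/
def vs {n : ℕ} {α : Type} (v : Ix n → α) : α := v (Sum.inr 1)

/-- put the variables together -/
def ixE (n : ℕ) (α : Type) : ((Fin n → α) × (Fin n → α)) × (α × α) ≃ (Ix n → α) where
  toFun x := Sum.elim (Sum.elim x.1.1 x.1.2) ![x.2.1, x.2.2]
  invFun v := ((vl v, vr v), (vh v, vs v))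
  left_inv x := by
    rcases x with ⟨⟨a, b⟩, ⟨c, d⟩⟩
    rfl
  right_inv v := by
    funext x
    rcases x with (x | x) | x
    · rfl
    · rfl
    · fin_cases x <;> rfl

lemma prod_ix {n : ℕ} {β : Type} [CommMonoid β] (f : Ix n → β) :
    ∏ x, f x = ((∏ a, f (Sum.inl (Sum.inl a))) * ∏ a, f (Sum.inl (Sum.inr a))) *
      (f (Sum.inr 0) * f (Sum.inr 1)) := by
  rw [Fintype.prod_sum_type, Fintype.prod_sum_type, Fin.prod_univ_two]

lemma sum_ix {n : ℕ} {β : Type} [AddCommMonoid β] (f : Ix n → β) :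
    ∑ x, f x = ((∑ a, f (Sum.inl (Sum.inl a))) + ∑ a, f (Sum.inl (Sum.inr a))) +
      (f (Sum.inr 0) + f (Sum.inr 1)) := by
  rw [Fintype.sum_sum_type, Fintype.sum_sum_type, Fin.sum_univ_two]

/-- `i = Σ e_a` -/
def ei {n : ℕ} (e : Fin n → ℝ) : ℝ := ∑ a, e a

open Classical in
/-- the local weights -/
def lam {n : ℕ} (j : ℕ) (e : Fin n → ℝ) (p : ℕ) (v : Ix n → ℕ) : ℝ :=
  if (vh v = 0 ∨ ∑ a, vl v a = 0) ∧ CanA (vl v) (vr v) then
    lc j (vh v + ∑ a, vr v a) * lc j (vh v + vs v) * lc (ei e) (∑ a, vl v a + vs v) *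
      (∏ a, lc (e a) (vl v a + vr v a)) *
        (1 / (p : ℝ)) ^ (vh v + ∑ a, vl v a + ∑ a, vr v a + vs v)
  else 0

/-- the exponents -/
def mm {n : ℕ} (j : ℕ) (e : Fin n → ℝ) : Ix n → ℝ :=
  Sum.elim (Sum.elim (fun a => ei e * e a) (fun a => (j : ℝ) * e a)) ![(j : ℝ) ^ 2, (j : ℝ) * ei e]

lemma mm_sum {n : ℕ} (j : ℕ) (e : Fin n → ℝ) : ∑ x, mm j e x = ((j : ℝ) + ei e) ^ 2 := by
  rw [sum_ix]
  simp only [mm, Sum.elim_inl, Sum.elim_inr, Matrix.cons_val_zero, Matrix.cons_val_one]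
  rw [← mul_sum, ← mul_sum]
  have : ∑ a, e a = ei e := rfl
  rw [this]
  ring

lemma ei_nonneg {n : ℕ} {e : Fin n → ℝ} (he : ∀ a, 0 < e a) : 0 ≤ ei e :=
  sum_nonneg fun a _ => (he a).le

lemma lam_nonneg {n : ℕ} (j : ℕ) {e : Fin n → ℝ} (he : ∀ a, 0 < e a) (p : ℕ) (v : Ix n → ℕ) :
    0 ≤ lam j e p v := by
  have hj : (0 : ℝ) ≤ j := Nat.cast_nonneg j
  have h := fun m => lc_nonneg hj m
  have h2 := fun m => lc_nonneg (ei_nonneg he) m
  have h3 : 0 ≤ ∏ a, lc (e a) (vl v a + vr v a) := prod_nonneg fun a _ => lc_nonneg (he a).le _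
  unfold lam
  split_ifs
  · have := h (vh v + ∑ a, vr v a)
    have := h (vh v + vs v)
    have := h2 (∑ a, vl v a + vs v)
    positivity
  · exact le_rfl

lemma sub_mul {α : ℝ} (hα : 1 ≤ α) (a b : ℕ) : lc α (a + b) ≤ lc α a * lc α b := by
  induction b with
  | zero => rw [lc_zero, mul_one, add_zero]
  | succ b ih =>
    rw [← add_assoc, lc_succ, lc_succ, ← mul_assoc]
    have h0 : 0 ≤ lc α a * lc α b :=
      mul_nonneg (lc_nonneg (by linarith) a) (lc_nonneg (by linarith) b)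
    refine mul_le_mul ih ?_ (by positivity) h0
    rw [div_le_div_iff₀ (by positivity) (by positivity)]
    push_cast
    have ha : (0 : ℝ) ≤ a := Nat.cast_nonneg a
    nlinarith

lemma sub_sum {α : ℝ} (hα : 1 ≤ α) {ι : Type} (S : Finset ι) (f : ι → ℕ) :
    lc α (∑ a ∈ S, f a) ≤ ∏ a ∈ S, lc α (f a) := by
  classical
  induction S using Finset.induction with
  | empty => simp [lc_zero]
  | insert a S ha ih =>
    rw [sum_insert ha, prod_insert ha]
    exact (sub_mul hα _ _).trans (mul_le_mul_of_nonneg_left ih (lc_nonneg (by linarith) _))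

lemma pi_summable {ι : Type} [Fintype ι] [DecidableEq ι] (g : ℕ → ℝ) (hg : ∀ n, 0 ≤ g n)
    (hs : Summable g) : Summable (fun v : ι → ℕ => ∏ i, g (v i)) := by
  refine summable_of_sum_le (c := (∑' n, g n) ^ (Fintype.card ι))
    (fun v => prod_nonneg fun i _ => hg _) fun s => ?_
  let N := s.sup (fun v => univ.sup v)
  calc ∑ v ∈ s, ∏ i, g (v i) ≤ ∑ v ∈ Fintype.piFinset (fun _ : ι => range (N + 1)), ∏ i, g (v i) := by
        refine sum_le_sum_of_subset_of_nonneg ?_ (fun v _ _ => prod_nonneg fun i _ => hg _)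
        intro v hv
        rw [Fintype.mem_piFinset]
        intro i
        rw [mem_range]
        have h1 : v i ≤ univ.sup v := le_sup (f := v) (mem_univ i)
        have h2 : univ.sup v ≤ N := le_sup (f := fun v : ι → ℕ => univ.sup v) hv
        omega
    _ = ∏ _i : ι, ∑ j ∈ range (N + 1), g j := by
        rw [Finset.prod_univ_sum]
    _ ≤ ∏ _i : ι, ∑' n, g n := by
        refine prod_le_prod (fun i _ => sum_nonneg fun j _ => hg j) (fun i _ => ?_)
        exact hs.sum_le_tsum _ (fun j _ => hg j)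
    _ = (∑' n, g n) ^ (Fintype.card ι) := by simp

lemma g_summable {A : ℝ} (hA : 1 ≤ A) {x : ℝ} (hx0 : 0 < x) (hx1 : x < 1) :
    Summable (fun n : ℕ => lc A n ^ 2 * x ^ n) := by
  refine Summable.of_nonneg_of_le (fun n => by positivity) (fun n => ?_)
    (lc_summable (α := A ^ 2) (by positivity) hx0 hx1)
  exact mul_le_mul_of_nonneg_right (lc_sq_le (by linarith) n) (by positivity)

/-- crude majorant -/
lemma lam_le {n : ℕ} {j : ℕ} {e : Fin n → ℝ} (he : ∀ a, 0 < e a) {A : ℝ} (hA : 1 ≤ A)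
    (hjA : (j : ℝ) ≤ A) (heA : ei e ≤ A) (p : ℕ) (v : Ix n → ℕ) :
    lam j e p v ≤ ∏ x, (lc A (v x) ^ 2 * (1 / (p : ℝ)) ^ (v x)) := by
  have hn := fun m => lc_nonneg (α := A) (by linarith) m
  have hea : ∀ a, e a ≤ A := fun a =>
    (single_le_sum (f := e) (fun b _ => (he b).le) (mem_univ a)).trans heA
  have hj0 : (0 : ℝ) ≤ j := Nat.cast_nonneg j
  have e1 : ∏ x, (lc A (v x) ^ 2 * (1 / (p : ℝ)) ^ (v x)) =
      (lc A (vh v) * ∏ a, lc A (vr v a)) * (lc A (vh v) * lc A (vs v)) *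
        ((∏ a, lc A (vl v a)) * lc A (vs v)) * ((∏ a, lc A (vl v a)) * ∏ a, lc A (vr v a)) *
        (1 / (p : ℝ)) ^ (vh v + ∑ a, vl v a + ∑ a, vr v a + vs v) := by
    rw [prod_mul_distrib, prod_pow_eq_pow_sum, prod_ix, sum_ix, prod_pow, prod_pow]
    unfold vl vr vh vs
    ring
  rw [e1]
  have P0 : ∀ f : Fin n → ℕ, 0 ≤ ∏ a, lc A (f a) := fun f => prod_nonneg fun a _ => hn _
  have q1 := P0 (vl v)
  have q2 := P0 (vr v)
  have q3 := hn (vh v)
  have q4 := hn (vs v)
  unfold lam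
  split_ifs
  · have g1 : lc j (vh v + ∑ a, vr v a) ≤ lc A (vh v) * ∏ a, lc A (vr v a) :=
      (lc_mono hj0 hjA _).trans ((sub_mul hA _ _).trans
        (mul_le_mul_of_nonneg_left (sub_sum hA univ _) q3))
    have g2 : lc j (vh v + vs v) ≤ lc A (vh v) * lc A (vs v) :=
      (lc_mono hj0 hjA _).trans (sub_mul hA _ _)
    have g3 : lc (ei e) (∑ a, vl v a + vs v) ≤ (∏ a, lc A (vl v a)) * lc A (vs v) :=
      (lc_mono (ei_nonneg he) heA _).trans ((sub_mul hA _ _).trans
        (mul_le_mul_of_nonneg_right (sub_sum hA univ _) q4))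
    have g4 : ∏ a, lc (e a) (vl v a + vr v a) ≤ (∏ a, lc A (vl v a)) * ∏ a, lc A (vr v a) := by
      rw [← prod_mul_distrib]
      exact prod_le_prod (fun a _ => lc_nonneg (he a).le _) fun a _ =>
        (lc_mono (he a).le (hea a) _).trans (sub_mul hA _ _)
    have k1 := lc_nonneg hj0 (vh v + ∑ a, vr v a)
    have k2 := lc_nonneg hj0 (vh v + vs v)
    have k3 := lc_nonneg (ei_nonneg he) (∑ a, vl v a + vs v)
    have k4 : 0 ≤ ∏ a, lc (e a) (vl v a + vr v a) := prod_nonneg fun a _ => lc_nonneg (he a).le _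
    gcongr
  · positivity

lemma prime_x {p : ℕ} (hp : p.Prime) : (0 : ℝ) < 1 / (p : ℝ) ∧ 1 / (p : ℝ) ≤ 1 / 2 := by
  have h2 : (2 : ℝ) ≤ p := by exact_mod_cast hp.two_le
  refine ⟨by positivity, ?_⟩
  exact one_div_le_one_div_of_le (by norm_num) h2

lemma lam_summable {n : ℕ} {j : ℕ} {e : Fin n → ℝ} (he : ∀ a, 0 < e a) {p : ℕ} (hp : p.Prime) :
    Summable (lam j e p) := by
  obtain ⟨h0, h1⟩ := prime_x hp
  set A : ℝ := 1 + j + ei e with hAd
  have := ei_nonneg he
  have hj0 : (0 : ℝ) ≤ j := Nat.cast_nonneg j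
  have hA : 1 ≤ A := by linarith
  refine Summable.of_nonneg_of_le (lam_nonneg j he p)
    (fun v => lam_le he hA (by linarith) (by linarith) p v) ?_
  exact pi_summable (fun n : ℕ => lc A n ^ 2 * (1 / (p : ℝ)) ^ n) (fun n => by positivity)
    (g_summable hA h0 (by linarith))

lemma lam_zero {n : ℕ} (j : ℕ) (e : Fin n → ℝ) (p : ℕ) : lam j e p 0 = 1 := by
  unfold lam
  rw [if_pos]
  · simp [vl, vr, vh, vs, lc_zero]
  · refine ⟨Or.inl rfl, fun a b _ => Or.inl rfl⟩

lemma sum_single {n : ℕ} (a : Fin n) : ∑ b, (if b = a then 1 else 0 : ℕ) = 1 := by simp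

lemma lam_first {n : ℕ} (j : ℕ) (e : Fin n → ℝ) (p : ℕ) (x : Ix n) :
    lam j e p (Pi.single x 1) = mm j e x / p := by
  have hzero : ∀ (e : Fin n → ℝ), ∏ b, lc (e b) 0 = 1 := fun e => by simp [lc_zero]
  have hprod : ∀ a : Fin n, ∏ b, lc (e b) (if b = a then 1 else 0) = e a := by
    intro a
    rw [prod_eq_single a]
    · rw [if_pos rfl, lc_one]
    · intro b _ hb
      rw [if_neg hb, lc_zero]
    · intro h
      exact absurd (mem_univ a) h
  rcases x with (a | a) | x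
  · have e1 : vl (Pi.single (Sum.inl (Sum.inl a)) 1 : Ix n → ℕ) = fun b => if b = a then 1 else 0 := by
      funext b
      unfold vl
      by_cases h : b = a
      · subst h
        simp
      · rw [if_neg h, Pi.single_eq_of_ne (by simpa using h)]
    have e2 : vr (Pi.single (Sum.inl (Sum.inl a)) 1 : Ix n → ℕ) = fun _ => 0 := by
      funext b
      simp [vr]
    have e3 : vh (Pi.single (Sum.inl (Sum.inl a)) 1 : Ix n → ℕ) = 0 := by simp [vh]
    have e4 : vs (Pi.single (Sum.inl (Sum.inl a)) 1 : Ix n → ℕ) = 0 := by simp [vs]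
    unfold lam
    rw [e1, e2, e3, e4, if_pos ⟨Or.inl rfl, fun b c _ => Or.inl rfl⟩]
    simp only [sum_const_zero, add_zero, zero_add, sum_single, lc_zero, lc_one, hprod, pow_one,
      one_mul, mm, Sum.elim_inl]
    ring
  · have e1 : vr (Pi.single (Sum.inl (Sum.inr a)) 1 : Ix n → ℕ) = fun b => if b = a then 1 else 0 := by
      funext b
      unfold vr
      by_cases h : b = a
      · subst h
        simp
      · rw [if_neg h, Pi.single_eq_of_ne (by simpa using h)]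
    have e2 : vl (Pi.single (Sum.inl (Sum.inr a)) 1 : Ix n → ℕ) = fun _ => 0 := by
      funext b
      simp [vl]
    have e3 : vh (Pi.single (Sum.inl (Sum.inr a)) 1 : Ix n → ℕ) = 0 := by simp [vh]
    have e4 : vs (Pi.single (Sum.inl (Sum.inr a)) 1 : Ix n → ℕ) = 0 := by simp [vs]
    unfold lam
    rw [e1, e2, e3, e4, if_pos ⟨Or.inl rfl, fun b c _ => Or.inr rfl⟩]
    simp only [sum_const_zero, add_zero, zero_add, sum_single, lc_zero, lc_one, hprod, pow_one,
      mul_one, mm, Sum.elim_inl, Sum.elim_inr]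
    ring
  · fin_cases x
    · have e1 : vl (Pi.single (Sum.inr 0) 1 : Ix n → ℕ) = fun _ => 0 := by
        funext b
        simp [vl]
      have e2 : vr (Pi.single (Sum.inr 0) 1 : Ix n → ℕ) = fun _ => 0 := by
        funext b
        simp [vr]
      have e3 : vh (Pi.single (Sum.inr 0) 1 : Ix n → ℕ) = 1 := by simp [vh]
      have e4 : vs (Pi.single (Sum.inr 0) 1 : Ix n → ℕ) = 0 := by simp [vs]
      show lam j e p (Pi.single (Sum.inr 0) 1) = mm j e (Sum.inr 0) / p
      unfold lam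
      rw [e1, e2, e3, e4, if_pos ⟨Or.inr (by simp), fun b c _ => Or.inl rfl⟩]
      simp only [sum_const_zero, add_zero, lc_zero, lc_one, prod_const_one, pow_one,
        mul_one, mm, Sum.elim_inr, Matrix.cons_val_zero]
      ring
    · have e1 : vl (Pi.single (Sum.inr 1) 1 : Ix n → ℕ) = fun _ => 0 := by
        funext b
        simp [vl]
      have e2 : vr (Pi.single (Sum.inr 1) 1 : Ix n → ℕ) = fun _ => 0 := by
        funext b
        simp [vr]
      have e3 : vh (Pi.single (Sum.inr 1) 1 : Ix n → ℕ) = 0 := by simp [vh]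
      have e4 : vs (Pi.single (Sum.inr 1) 1 : Ix n → ℕ) = 1 := by simp [vs]
      show lam j e p (Pi.single (Sum.inr 1) 1) = mm j e (Sum.inr 1) / p
      unfold lam
      rw [e1, e2, e3, e4, if_pos ⟨Or.inl rfl, fun b c _ => Or.inl rfl⟩]
      simp only [sum_const_zero, add_zero, zero_add, lc_zero, lc_one, prod_const_one, pow_one,
        mul_one, one_mul, mm, Sum.elim_inr, Matrix.cons_val_one, Matrix.cons_val_fin_one]
      ring

lemma mm_pos {n : ℕ} {j : ℕ} (hj : 1 ≤ j) {e : Fin n → ℝ} (he : ∀ a, 0 < e a) (hn : 0 < n)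
    (x : Ix n) : 0 < mm j e x := by
  have hj0 : (0 : ℝ) < j := by exact_mod_cast hj
  have hi : 0 < ei e := sum_pos (fun a _ => he a) ⟨⟨0, hn⟩, mem_univ _⟩
  rcases x with (a | a) | x
  · exact mul_pos hi (he a)
  · exact mul_pos hj0 (he a)
  · fin_cases x
    · show 0 < (j : ℝ) ^ 2
      positivity
    · show 0 < (j : ℝ) * ei e
      positivity

lemma lam_LW {n : ℕ} {j : ℕ} (hj : 1 ≤ j) {e : Fin n → ℝ} (he : ∀ a, 0 < e a) (hn : 0 < n) :
    LW (mm j e) (lam j e) := by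
  set A : ℝ := 1 + j + ei e with hAd
  have h1 := ei_nonneg he
  have hj0 : (0 : ℝ) ≤ j := Nat.cast_nonneg j
  have hA : 1 ≤ A := by linarith
  have hlam : ∀ p v, lam j e p v ≤ ∏ x, (lc A (v x) ^ 2 * (1 / (p : ℝ)) ^ (v x)) :=
    fun p v => lam_le he hA (by linarith) (by linarith) p v
  have hmaj : ∀ {p : ℕ}, p.Prime → ∀ v : Ix n → ℕ, (if 2 ≤ ∑ i, v i then lam j e p v else 0) ≤
      4 / (p : ℝ) ^ 2 * ∏ i, (lc A (v i) ^ 2 * (1 / 2 : ℝ) ^ (v i)) := by
    intro p hp v
    obtain ⟨h0, h1⟩ := prime_x hp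
    have hpos : (0 : ℝ) < p := by exact_mod_cast hp.pos
    split_ifs with h
    · refine (hlam p v).trans ?_
      rw [prod_mul_distrib, prod_mul_distrib, prod_pow_eq_pow_sum, prod_pow_eq_pow_sum]
      obtain ⟨k, hk⟩ := Nat.exists_eq_add_of_le h
      rw [hk, pow_add, pow_add]
      have h3 : (1 / (p : ℝ)) ^ k ≤ (1 / 2 : ℝ) ^ k := pow_le_pow_left₀ h0.le h1 k
      have h4 : (0 : ℝ) ≤ ∏ i, lc A (v i) ^ 2 := prod_nonneg fun i _ => by positivity
      calc (∏ i, lc A (v i) ^ 2) * ((1 / (p : ℝ)) ^ 2 * (1 / (p : ℝ)) ^ k)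
          ≤ (∏ i, lc A (v i) ^ 2) * ((1 / (p : ℝ)) ^ 2 * (1 / 2 : ℝ) ^ k) := by gcongr
        _ = 4 / (p : ℝ) ^ 2 * ((∏ i, lc A (v i) ^ 2) * ((1 / 2 : ℝ) ^ 2 * (1 / 2 : ℝ) ^ k)) := by
          field_simp
          ring
    · have h4 : (0 : ℝ) ≤ ∏ i, (lc A (v i) ^ 2 * (1 / 2 : ℝ) ^ (v i)) :=
        prod_nonneg fun i _ => by positivity
      positivity
  exact
  { mnn := fun x => (mm_pos hj he hn x).le
    nonneg := fun p _ v => lam_nonneg j he p v
    zero := fun p _ => lam_zero j e p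
    sum := fun p hp => lam_summable he hp
    first := ⟨0, fun p hp x => by
      rw [lam_first]
      simp⟩
    second := ⟨4 * ∑' v : Ix n → ℕ, ∏ i, (lc A (v i) ^ 2 * (1 / 2 : ℝ) ^ (v i)), fun p hp => by
      have hs : Summable (fun v : Ix n → ℕ => ∏ i, (lc A (v i) ^ 2 * (1 / 2 : ℝ) ^ (v i))) :=
        pi_summable (fun n : ℕ => lc A n ^ 2 * (1 / 2 : ℝ) ^ n) (fun n => by positivity)
          (g_summable hA (by norm_num) (by norm_num))
      have hs' := hs.mul_left (4 / (p : ℝ) ^ 2)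
      have hl : Summable (fun v : Ix n → ℕ => if 2 ≤ ∑ i, v i then lam j e p v else 0) := by
        refine Summable.of_nonneg_of_le (fun v => ?_) (fun v => hmaj hp v) hs'
        split_ifs
        · exact lam_nonneg j he p v
        · exact le_rfl
      refine (hl.tsum_le_tsum (fun v => hmaj hp v) hs').trans ?_
      rw [tsum_mul_left]
      apply le_of_eq; ring⟩ }

end

end Pool.Agent.TH535
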