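import Pool.Agent.TH535.Wt
import Pool.Agent.TH535.Merge

set_option autoImplicit false

/-! The weight of the correlation as a function of integers. -/

namespace Pool.Agent.TH535

open Finset Filter Topology Pool.Agent.H306R2 Pool.Agent.TH535.MA
open scoped ENNReal

noncomputable section

lemma dv_eq (α : ℝ) {P : Finset ℕ} {n : ℕ} (hn : n ≠ 0) (hP : n.primeFactors ⊆ P) :
    dv α n = ∏ p ∈ P, lc α (n.factorization p) := by
  unfold dv
  rw [if_neg hn]
  unfold Finsupp.prod
  rw [Nat.support_factorization]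
  refine prod_subset hP fun p _ hp => ?_
  have : n.factorization p = 0 := by
    rw [← Finsupp.notMem_support_iff, Nat.support_factorization]; exact hp
  rw [this]
  exact lc_zero _

lemma inv_eq {P : Finset ℕ} {n : ℕ} (hn : n ≠ 0) (hP : n.primeFactors ⊆ P) :
    (1 : ℝ) / n = ∏ p ∈ P, (1 / (p : ℝ)) ^ (n.factorization p) := by
  have h1 : (n : ℝ) = ∏ p ∈ P, (p : ℝ) ^ (n.factorization p) := by
    conv_lhs => rw [← Nat.prod_factorization_pow_eq_self hn]
    unfold Finsupp.prod
    push_cast
    rw [Nat.support_factorization]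
    refine prod_subset hP fun p _ hp => ?_
    have : n.factorization p = 0 := by
      rw [← Finsupp.notMem_support_iff, Nat.support_factorization]; exact hp
    rw [this]; simp
  rw [h1, one_div, ← prod_inv_distrib]
  refine prod_congr rfl fun p _ => ?_
  rw [one_div, inv_pow]

lemma fact_prod {n : ℕ} (f : Fin n → ℕ) (hf : ∀ a, f a ≠ 0) (p : ℕ) :
    (∏ a, f a).factorization p = ∑ a, (f a).factorization p := by
  rw [Nat.factorization_prod (fun a _ => hf a), Finset.sum_apply']

/-- the value of the weight -/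
def Wv {n : ℕ} (j : ℕ) (e : Fin n → ℝ) (l r : Fin n → ℕ) (h s : ℕ) : ℝ :=
  dv j (h * ∏ a, r a) * dv j (h * s) * dv (ei e) ((∏ a, l a) * s) * (∏ a, dv (e a) (l a * r a)) *
    (1 / ((h * (∏ a, l a) * (∏ a, r a) * s : ℕ) : ℝ))

open Classical in
theorem mw_lam {n : ℕ} (j : ℕ) (e : Fin n → ℝ) (b : Ix n → ℕ) :
    mw (lam j e) b = if (∀ x, b x ≠ 0) ∧ Nat.Coprime (vh b) (∏ a, vl b a) ∧ Can (vl b) (vr b) then
      Wv j e (vl b) (vr b) (vh b) (vs b) else 0 := by
  unfold mw
  by_cases hb : ∀ x, b x ≠ 0
  · rw [if_pos hb]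
    set P := (∏ x, b x).primeFactors with hPdef
    have hprod : (∏ x, b x) ≠ 0 := prod_ne_zero_iff.2 fun x _ => hb x
    have hsub : ∀ x, (b x).primeFactors ⊆ P := fun x =>
      Nat.primeFactors_mono (dvd_prod_of_mem b (mem_univ x)) hprod
    have hl0 : ∀ a, vl b a ≠ 0 := fun a => hb _
    have hr0 : ∀ a, vr b a ≠ 0 := fun a => hb _
    have hh0 : vh b ≠ 0 := hb _
    have hs0 : vs b ≠ 0 := hb _
    have hl1 : ∏ a, vl b a ≠ 0 := prod_ne_zero_iff.2 fun a _ => hl0 a
    have hr1 : ∏ a, vr b a ≠ 0 := prod_ne_zero_iff.2 fun a _ => hr0 a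
    have hPh : (vh b).primeFactors ⊆ P := hsub _
    have hPs : (vs b).primeFactors ⊆ P := hsub _
    have hPl : ∀ a, (vl b a).primeFactors ⊆ P := fun a => hsub _
    have hPr : ∀ a, (vr b a).primeFactors ⊆ P := fun a => hsub _
    have hPP : ∀ f : Fin n → ℕ, (∀ a, f a ≠ 0) → (∀ a, (f a).primeFactors ⊆ P) →
        (∏ a, f a).primeFactors ⊆ P := by
      intro f hf0 hf p hp
      obtain ⟨q1, q2, -⟩ := Nat.mem_primeFactors.1 hp
      obtain ⟨a, -, ha⟩ := (Prime.dvd_finsetProd_iff q1.prime _).1 q2
      exact hf a (Nat.mem_primeFactors.2 ⟨q1, ha, hf0 a⟩)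
    have hPl1 := hPP (vl b) hl0 hPl
    have hPr1 := hPP (vr b) hr0 hPr
    have hmul : ∀ x y : ℕ, x ≠ 0 → y ≠ 0 → x.primeFactors ⊆ P → y.primeFactors ⊆ P →
        (x * y).primeFactors ⊆ P := by
      intro x y hx hy h1 h2
      rw [Nat.primeFactors_mul hx hy]
      exact union_subset h1 h2
    by_cases hc : Nat.Coprime (vh b) (∏ a, vl b a) ∧ Can (vl b) (vr b)
    · rw [if_pos ⟨hb, hc⟩]
      have hloc : ∀ p ∈ P, lam j e p (fun x => (b x).factorization p) =
          lc j ((vh b * ∏ a, vr b a).factorization p) * lc j ((vh b * vs b).factorization p) *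
            lc (ei e) (((∏ a, vl b a) * vs b).factorization p) *
            (∏ a, lc (e a) ((vl b a * vr b a).factorization p)) *
            (1 / (p : ℝ)) ^ ((vh b * (∏ a, vl b a) * (∏ a, vr b a) * vs b).factorization p) := by
        intro p _
        have e1 : vl (fun x => (b x).factorization p) = fun a => (vl b a).factorization p := rfl
        have e2 : vr (fun x => (b x).factorization p) = fun a => (vr b a).factorization p := rfl
        have e3 : vh (fun x => (b x).factorization p) = (vh b).factorization p := rfl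
        have e4 : vs (fun x => (b x).factorization p) = (vs b).factorization p := rfl
        have hdis : ∀ x y : ℕ, Nat.Coprime x y → x.factorization p = 0 ∨ y.factorization p = 0 := by
          intro x y hxy
          by_contra hcon
          push Not at hcon
          have h1 : p ∈ x.primeFactors := by
            rw [← Nat.support_factorization, Finsupp.mem_support_iff]; exact hcon.1
          have h2 : p ∈ y.primeFactors := by
            rw [← Nat.support_factorization, Finsupp.mem_support_iff]; exact hcon.2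
          exact (Finset.disjoint_left.1 hxy.disjoint_primeFactors h1) h2
        unfold lam
        rw [e1, e2, e3, e4, if_pos]
        · rw [Nat.factorization_mul hh0 hr1, Nat.factorization_mul hh0 hs0,
            Nat.factorization_mul hl1 hs0,
            Nat.factorization_mul (mul_ne_zero (mul_ne_zero hh0 hl1) hr1) hs0,
            Nat.factorization_mul (mul_ne_zero hh0 hl1) hr1, Nat.factorization_mul hh0 hl1]
          simp only [Finsupp.add_apply, fact_prod _ hl0, fact_prod _ hr0]
          have e5 : ∀ a, (vl b a * vr b a).factorization p =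
              (vl b a).factorization p + (vr b a).factorization p := by
            intro a
            rw [Nat.factorization_mul (hl0 a) (hr0 a)]
            rfl
          simp only [e5]
        · refine ⟨?_, fun a c hac => hdis _ _ (hc.2 a c hac)⟩
          have := hdis _ _ hc.1
          rwa [fact_prod _ hl0] at this
      rw [prod_congr rfl hloc]
      unfold Wv
      rw [dv_eq j (mul_ne_zero hh0 hr1) (hmul _ _ hh0 hr1 hPh hPr1),
        dv_eq j (mul_ne_zero hh0 hs0) (hmul _ _ hh0 hs0 hPh hPs),
        dv_eq (ei e) (mul_ne_zero hl1 hs0) (hmul _ _ hl1 hs0 hPl1 hPs),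
        inv_eq (mul_ne_zero (mul_ne_zero (mul_ne_zero hh0 hl1) hr1) hs0)
          (hmul _ _ (mul_ne_zero (mul_ne_zero hh0 hl1) hr1) hs0
            (hmul _ _ (mul_ne_zero hh0 hl1) hr1 (hmul _ _ hh0 hl1 hPh hPl1) hPr1) hPs),
        prod_congr rfl (fun a _ => dv_eq (e a) (mul_ne_zero (hl0 a) (hr0 a))
          (hmul _ _ (hl0 a) (hr0 a) (hPl a) (hPr a)))]
      have hcomm : ∏ a, ∏ p ∈ P, lc (e a) ((vl b a * vr b a).factorization p) =
          ∏ p ∈ P, ∏ a, lc (e a) ((vl b a * vr b a).factorization p) := Finset.prod_comm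
      rw [hcomm]
      simp only [← prod_mul_distrib]
    · rw [if_neg (fun h => hc h.2)]
      have hex : ∃ p, p.Prime ∧ ((p ∣ vh b ∧ p ∣ ∏ a, vl b a) ∨
          (∃ a c : Fin n, a < c ∧ p ∣ vr b a ∧ p ∣ vl b c)) := by
        by_cases h1 : Nat.Coprime (vh b) (∏ a, vl b a)
        · have h2 : ¬ Can (vl b) (vr b) := fun h => hc ⟨h1, h⟩
          unfold Can at h2
          push Not at h2
          obtain ⟨a, c, hac, h3⟩ := h2
          obtain ⟨p, hp, h4, h5⟩ := Nat.Prime.not_coprime_iff_dvd.1 h3
          exact ⟨p, hp, Or.inr ⟨a, c, hac, h4, h5⟩⟩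
        · obtain ⟨p, hp, h4, h5⟩ := Nat.Prime.not_coprime_iff_dvd.1 h1
          exact ⟨p, hp, Or.inl ⟨h4, h5⟩⟩
      obtain ⟨p, hp, hpd⟩ := hex
      refine prod_eq_zero (i := p) ?_ ?_
      · rw [hPdef, Nat.mem_primeFactors]
        refine ⟨hp, ?_, hprod⟩
        rcases hpd with ⟨h1, -⟩ | ⟨a, c, -, h1, -⟩
        · exact h1.trans (dvd_prod_of_mem b (mem_univ (Sum.inr 0)))
        · exact h1.trans (dvd_prod_of_mem b (mem_univ (Sum.inl (Sum.inr a))))
      · unfold lam
        rw [if_neg]
        rintro ⟨h1, h2⟩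
        rcases hpd with ⟨h3, h4⟩ | ⟨a, c, hac, h3, h4⟩
        · have q1 : (vh b).factorization p ≠ 0 := (hp.factorization_pos_of_dvd hh0 h3).ne'
          have q2 : (∏ a, vl b a).factorization p ≠ 0 := (hp.factorization_pos_of_dvd hl1 h4).ne'
          rw [fact_prod _ hl0] at q2
          rcases h1 with h1 | h1
          · exact q1 h1
          · exact q2 h1
        · rcases h2 a c hac with h5 | h5
          · exact (hp.factorization_pos_of_dvd (hr0 a) h3).ne' h5
          · exact (hp.factorization_pos_of_dvd (hl0 c) h4).ne' h5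
  · rw [if_neg hb, if_neg (fun h => hb h.1)]

end

end Pool.Agent.TH535
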